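import Pool.Agent.Run7.h41.Steps

/-!
# Change of the characteristic maps
-/

set_option autoImplicit false

namespace Pool.Agent.Run7.h41.Inv

open Set Pool.Agent.Run7.h41 Pool.Agent.Run7.h41.CW Pool.Agent.Run7.h41.Top
open Pool.Agent.Run7.h41.Alg (Cen cen_one Bd)

/-- the same complex with other characteristic maps -/
@[reducible] def rech (K : FinCW) (χ₂ : ∀ {n : ℕ}, K.cell n → Disc n → K.X)
    (h₂ : ∀ {n : ℕ} (c : K.cell n), FChar K c (χ₂ c)) : FinCW where
  X := K.X
  cell := K.cell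
  finite_cell := K.finite_cell
  χ := χ₂
  continuous_χ := fun c => (h₂ c).cont
  partition := fun p => by
    obtain ⟨y, hy, hy2⟩ := ((h₂ (rep K p).2.1).surj p).1 ⟨_, rep_norm K p, rep_χ K p⟩
    refine ⟨⟨(rep K p).1, (rep K p).2.1, y⟩, ⟨hy, hy2⟩, ?_⟩
    rintro ⟨m, c, z⟩ ⟨hz, hz2⟩
    have hz' : ‖z.1‖ < 1 := hz
    obtain ⟨x, hx, hx2⟩ := (h₂ c).mem hz'
    have h1 : rep K p = ⟨m, c, x⟩ := by
      rw [← hz2]
      show rep K (χ₂ c z) = _
      rw [← hx2, rep_unique c hx]
    clear hx2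
    generalize rep K p = q at h1 y
    subst h1
    have h3 : z = y := (h₂ c).inj _ _ hz' hy (hz2.trans hy2.symm)
    rw [h3]
  boundary := fun {n} c x hx => by
    have h1 := (h₂ c).bd x hx
    obtain ⟨y, hy, hy2⟩ := ((h₂ (rep K (χ₂ c x)).2.1).surj (χ₂ c x)).1
      ⟨_, rep_norm K _, rep_χ K _⟩
    exact ⟨_, h1, _, y, hy, hy2⟩

/-! ### interpolation in `EG` -/

/-- the first function before `s` and the second one after `s` -/
noncomputable def cut2 {G : Type} (q : EG G × EG G × ℝ) : EG G :=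
  fun u => if u.1 < q.2.2 then q.1 u else q.2.1 u

theorem cut2_continuous {G : Type} : Continuous (cut2 : EG G × EG G × ℝ → EG G) := by
  have key : ∀ q q' : EG G × EG G × ℝ, dist (cut2 q) (cut2 q') ≤
      (dist q.1 q'.1 + dist q.2.1 q'.2.1) + (|q.2.2 - q'.2.2| + |q'.2.2 - q.2.2|) := by
    intro q q'
    rw [dist_eq]
    unfold cut2
    refine le_trans (sz_mono (t := ({u | q.1 u ≠ q'.1 u} ∪ {u | q.2.1 u ≠ q'.2.1 u}) ∪
      ({u | q'.2.2 ≤ u.1 ∧ u.1 < q.2.2} ∪ {u | q.2.2 ≤ u.1 ∧ u.1 < q'.2.2})) ?_) ?_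
    · intro u hu
      by_contra hc
      simp only [mem_union, mem_ofPred_eq, not_or, not_and, not_lt, not_not] at hc
      apply hu
      obtain ⟨⟨h0, h1⟩, h2, h3⟩ := hc
      by_cases h4 : u.1 < q.2.2
      · have h5 : u.1 < q'.2.2 := by
          by_contra h5
          exact absurd (h2 (not_lt.1 h5)) (not_le.2 h4)
        simp [h4, h5, h0]
      · have h5 : ¬ u.1 < q'.2.2 := not_lt.2 (h3 (not_lt.1 h4))
        simp [h4, h5, h1]
    · refine (sz_union _ _).trans (add_le_add ((sz_union _ _).trans (add_le_add le_rfl le_rfl))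
        ((sz_union _ _).trans (add_le_add ?_ ?_)))
      · exact sz_between _ _
      · exact sz_between _ _
  rw [Metric.continuous_iff']
  intro q ε hε
  have h1 : Filter.Tendsto (fun q' : EG G × EG G × ℝ => (dist q'.1 q.1 + dist q'.2.1 q.2.1) +
      (|q'.2.2 - q.2.2| + |q.2.2 - q'.2.2|)) (nhds q) (nhds 0) := by
    have : Continuous (fun q' : EG G × EG G × ℝ => (dist q'.1 q.1 + dist q'.2.1 q.2.1) +
      (|q'.2.2 - q.2.2| + |q.2.2 - q'.2.2|)) := by
      fun_prop
    have h2 := this.tendsto q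
    simpa using h2
  filter_upwards [h1.eventually (gt_mem_nhds hε)] with q' hq'
  exact (key q' q).trans_lt hq'

theorem cut2_zero {G : Type} (e e' : EG G) : cut2 (e, e', 0) = e' := by
  funext u
  have := u.2.1
  simp [cut2, not_lt.2 this]

theorem cut2_one {G : Type} (e e' : EG G) : cut2 (e, e', 1) = e := by
  funext u
  have := u.2.2
  simp [cut2, this]

theorem cut2_self {G : Type} (e : EG G) (s : ℝ) : cut2 (e, e, s) = e := by
  funext u
  simp [cut2]

/-! ### one-cells -/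

/-- the point of the interval -/
noncomputable def pt (t : ℝ) : Disc 1 :=
  ⟨WithLp.toLp 2 (fun _ => 2 * (projIcc (0 : ℝ) 1 zero_le_one t : ℝ) - 1), by
    rw [mem_closedBall_zero_iff]
    have h1 : ‖(WithLp.toLp 2 (fun _ => 2 * (projIcc (0 : ℝ) 1 zero_le_one t : ℝ) - 1) :
        EuclideanSpace ℝ (Fin 1))‖ ^ 2 = (2 * (projIcc (0 : ℝ) 1 zero_le_one t : ℝ) - 1) ^ 2 := by
      rw [EuclideanSpace.norm_sq_eq]
      simp
    have h2 := (projIcc (0 : ℝ) 1 zero_le_one t).2.1
    have h3 := (projIcc (0 : ℝ) 1 zero_le_one t).2.2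
    nlinarith [norm_nonneg (WithLp.toLp 2 (fun _ => 2 * (projIcc (0 : ℝ) 1 zero_le_one t : ℝ) - 1) :
        EuclideanSpace ℝ (Fin 1))]⟩

theorem pt_zero (t : ℝ) : (pt t).1 0 = 2 * (projIcc (0 : ℝ) 1 zero_le_one t : ℝ) - 1 := rfl

theorem pt_continuous : Continuous pt := by
  apply Continuous.subtype_mk
  apply (PiLp.continuous_toLp 2 _).comp
  apply continuous_pi
  intro _
  have h1 : Continuous fun t : ℝ => (projIcc (0 : ℝ) 1 zero_le_one t : ℝ) :=
    continuous_subtype_val.comp continuous_projIcc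
  exact (continuous_const.mul h1).sub continuous_const

/-- the coordinate of a point of the interval -/
noncomputable def tau (x : Disc 1) : ℝ := (x.1 0 + 1) / 2

theorem tau_continuous : Continuous tau := by
  have : Continuous fun x : Disc 1 => x.1 0 :=
    (EuclideanSpace.proj (𝕜 := ℝ) (0 : Fin 1)).continuous.comp continuous_subtype_val
  unfold tau
  fun_prop

theorem tau_mem (x : Disc 1) : tau x ∈ Icc (0 : ℝ) 1 := by
  have h := x.norm_le
  rw [disc1_norm, abs_le] at h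
  unfold tau
  constructor <;> linarith

theorem pt_tau (x : Disc 1) : pt (tau x) = x := by
  apply disc1_ext
  rw [pt_zero, projIcc_of_mem zero_le_one (tau_mem x)]
  simp only [tau]
  ring

theorem pt_norm_zero : ‖(pt 0).1‖ = 1 := by
  rw [disc1_norm, pt_zero, projIcc_of_mem zero_le_one ⟨le_rfl, zero_le_one⟩]
  norm_num

theorem pt_norm_one : ‖(pt 1).1‖ = 1 := by
  rw [disc1_norm, pt_zero, projIcc_of_mem zero_le_one ⟨zero_le_one, le_rfl⟩]
  norm_num

section
variable {K : FinCW} {χ₂ : ∀ {n : ℕ}, K.cell n → Disc n → K.X}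
    {h₂ : ∀ {n : ℕ} (c : K.cell n), FChar K c (χ₂ c)}

theorem rech_rep (p : K.X) : ∃ y, rep (rech K χ₂ h₂) p = ⟨(rep K p).1, (rep K p).2.1, y⟩ := by
  obtain ⟨y, hy, hy2⟩ := ((h₂ (rep K p).2.1).surj p).1 ⟨_, rep_norm K p, rep_χ K p⟩
  refine ⟨y, ?_⟩
  have h1 := rep_unique (K := rech K χ₂ h₂) (rep K p).2.1 hy
  have h2 : (rech K χ₂ h₂).χ (rep K p).2.1 y = p := hy2
  rw [h2] at h1
  exact h1

theorem rech_dim (p : K.X) : (rep (rech K χ₂ h₂) p).1 = (rep K p).1 := by
  obtain ⟨y, hy⟩ := rech_rep (h₂ := h₂) p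
  rw [hy]

theorem rech_fchar {n : ℕ} {c : K.cell n} {φ : Disc n → K.X} (h : FChar K c φ) :
    FChar (rech K χ₂ h₂) c φ := by
  refine ⟨h.cont, h.inj, fun p => ((h₂ c).surj p).symm.trans (h.surj p), fun x hx => ?_⟩
  rw [rech_dim]
  exact h.bd x hx

theorem rech_fchar' {n : ℕ} {c : K.cell n} {φ : Disc n → K.X} (h : FChar (rech K χ₂ h₂) c φ) :
    FChar K c φ := by
  refine ⟨h.cont, h.inj, fun p => ((h₂ c).surj p).trans (h.surj p), fun x hx => ?_⟩
  have := h.bd x hx
  rwa [rech_dim] at this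

theorem rech_simple {e : K.cell 3} {c : K.cell 2} (h : Simple (rech K χ₂ h₂) e c) :
    Simple K e c := by
  obtain ⟨φ, hφ, hα, hl⟩ := h
  refine ⟨φ, rech_fchar' hφ, rech_fchar' hα, fun x y hy hxy => ?_⟩
  obtain ⟨z, hz, hz2⟩ := ((h₂ c).surj (K.χ c y)).1 ⟨y, hy, rfl⟩
  exact hl x z hz (hxy.trans hz2.symm)

theorem rech_meets {e : K.cell 3} {c : K.cell 2} (h : Meets K e c) :
    Meets (rech K χ₂ h₂) e c := by
  obtain ⟨x, y, hx, hy, h⟩ := h
  obtain ⟨z, hz, hz2⟩ := ((h₂ c).surj (K.χ c y)).1 ⟨y, hy, rfl⟩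
  exact meets_of (rech_fchar (FChar.self e)) hx hz (h.trans hz2.symm)

theorem exists_lift (h₂ : ∀ {n : ℕ} (c : K.cell n), FChar K c (χ₂ c)) (a : K.cell 1) :
    ∃ (P : ℝ → EG (FreeGroup (K.cell 1))) (g : FreeGroup (K.cell 1)), Continuous P ∧
      (∀ t, pr _ (P t) = th (rech K χ₂ h₂) (K.χ a (pt t))) ∧ P 0 = e0 ∧ P 1 = g • e0 := by
  have hc : Continuous fun t => th (rech K χ₂ h₂) (K.χ a (pt t)) := by
    apply (th_continuousOn (rech K χ₂ h₂)).comp_continuous ((K.continuous_χ a).comp pt_continuous)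
    intro t
    left
    rw [rech_dim]
    exact lt_of_le_of_lt (Top.rep_le a _) (by norm_num)
  have hv : ∀ x : Disc 1, ‖x.1‖ = 1 → th (rech K χ₂ h₂) (K.χ a x) = pr _ e0 := by
    intro x hx
    apply thAux_zero
    rw [rech_dim]
    exact rep_boundary a hx
  obtain ⟨P, hP, hP0, hPf⟩ := lift_exists (fun t => th (rech K χ₂ h₂) (K.χ a (pt t))) hc 0 e0
    (hv _ pt_norm_zero).symm
  obtain ⟨g, hg⟩ := pr_eq (e := P 1) (e' := e0) (by rw [hPf]; exact hv _ pt_norm_one)
  exact ⟨P, g, hP, hPf, hP0, hg⟩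

theorem low_cases {p : K.X} (hp : (rep K p).1 < 2) :
    (∃ (v : K.cell 0) (x : Disc 0), p = K.χ v x) ∨ ∃ (a : K.cell 1) (x : Disc 1), p = K.χ a x := by
  have h1 := rep_χ K p
  generalize rep K p = q at h1 hp
  obtain ⟨n, c, x⟩ := q
  simp only at h1 hp
  interval_cases n
  · exact Or.inl ⟨c, x, h1.symm⟩
  · exact Or.inr ⟨c, x, h1.symm⟩

theorem rech_hol (κ : FreeGroup (K.cell 1) →* FreeGroup (K.cell 1))
    (P : K.cell 1 → ℝ → EG (FreeGroup (K.cell 1))) (hP : ∀ a, Continuous (P a))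
    (hPf : ∀ a t, pr _ (P a t) = th (rech K χ₂ h₂) (K.χ a (pt t))) (hP0 : ∀ a, P a 0 = e0)
    (hP1 : ∀ a, P a 1 = κ (FreeGroup.of a) • e0) {l : ℝ → K.X} (hl : Continuous l)
    (hlp : ∀ t, l (t + 1) = l t) (hls : ∀ t, (rep K (l t)).1 < 2) {w : FreeGroup (K.cell 1)}
    (hw : HasHol (fun t => th K (l t)) w) :
    HasHol (fun t => th (rech K χ₂ h₂) (l t)) (κ w) := by
  -- the homotopy on the one-cells
  let Ha : K.cell 1 → Disc 1 × unitInterval → BG (FreeGroup (K.cell 1)) := fun a q =>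
    pr _ (cut2 (gp (κ (FreeGroup.of a)) (tau q.1), P a (tau q.1), (q.2 : ℝ)))
  have hHa : ∀ a, Continuous (Ha a) := by
    intro a
    apply pr_continuous.comp
    apply cut2_continuous.comp
    have h1 : Continuous fun q : Disc 1 × unitInterval => tau q.1 :=
      tau_continuous.comp continuous_fst
    exact ((gp_continuous _).comp h1).prodMk (((hP a).comp h1).prodMk
      (continuous_subtype_val.comp continuous_snd))
  let Hc : ∀ a : K.cell 1, C(Disc 1, C(unitInterval, BG (FreeGroup (K.cell 1)))) := fun a =>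
    ContinuousMap.curry ⟨Ha a, hHa a⟩
  let c0 : C(unitInterval, BG (FreeGroup (K.cell 1))) := ContinuousMap.const _ (pr _ e0)
  let HA : (Σ n, K.cell n × Disc n) → C(unitInterval, BG (FreeGroup (K.cell 1))) := fun q =>
    match q with
    | ⟨1, a, x⟩ => Hc a x
    | _ => c0
  let HH : K.X → C(unitInterval, BG (FreeGroup (K.cell 1))) := fun p => HA (rep K p)
  have hHA0 : ∀ q : Σ n, K.cell n × Disc n, q.1 < 1 → HA q = c0 := by
    rintro ⟨n, c, x⟩ h
    have : n = 0 := by simpa using h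
    subst this
    rfl
  have hHbd : ∀ (a : K.cell 1) (x : Disc 1), ‖x.1‖ = 1 → Hc a x = c0 := by
    intro a x hx
    ext s
    show pr _ (cut2 (gp (κ (FreeGroup.of a)) (tau x), P a (tau x), (s : ℝ))) = pr _ e0
    rcases disc1_of_norm hx with h | h
    · have h1 : tau x = 1 := by simp only [tau, h]; norm_num
      rw [h1, gp_one, hP1, cut2_self, pr_smul]
    · have h1 : tau x = 0 := by simp only [tau, h]; norm_num
      rw [h1, gp_zero, hP0, cut2_self]
  have hH1 : ∀ (a : K.cell 1) (x : Disc 1), HH (K.χ a x) = Hc a x := by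
    intro a x
    rcases x.norm_le.lt_or_eq with hx | hx
    · show HA (rep K (K.χ a x)) = _
      rw [rep_unique a hx]
      rfl
    · rw [hHbd a x hx]
      exact hHA0 _ (rep_boundary a hx)
  have hH0 : ∀ (v : K.cell 0) (x : Disc 0), HH (K.χ v x) = c0 := by
    intro v x
    apply hHA0
    have := Top.rep_le v x
    omega
  have hHH : ContinuousOn HH (sk K ∅) := by
    apply sk_glue
    · intro v
      simp only [hH0]
      exact continuous_const
    · intro a
      simp only [hH1]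
      exact (Hc a).continuous
    · intro c hc
      exact absurd hc (notMem_empty c)
  have hHl : Continuous fun t => HH (l t) := hHH.comp_continuous hl (fun t => Or.inl (hls t))
  have hF : Continuous fun q : ℝ × ℝ => HH (l q.1) (projIcc (0 : ℝ) 1 zero_le_one q.2) :=
    (hHl.comp continuous_fst).eval (continuous_projIcc.comp continuous_snd)
  -- the two ends
  have e1 : ∀ p : K.X, (rep K p).1 < 2 → HH p 1 = Bmap κ (th K p) := by
    intro p hp
    rcases low_cases hp with ⟨v, x, rfl⟩ | ⟨a, x, rfl⟩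
    · rw [hH0, th_zero, Bmap_pr, Emap_e0]
      rfl
    · rw [hH1, th_one, Bmap_pr, Emap_gp]
      show pr _ (cut2 (gp (κ (FreeGroup.of a)) (tau x), P a (tau x), (1 : ℝ))) = _
      rw [cut2_one]
      rfl
  have e2 : ∀ p : K.X, (rep K p).1 < 2 → HH p 0 = th (rech K χ₂ h₂) p := by
    intro p hp
    rcases low_cases hp with ⟨v, x, rfl⟩ | ⟨a, x, rfl⟩
    · rw [hH0]
      show pr _ e0 = _
      symm
      apply thAux_zero
      rw [rech_dim]
      have := Top.rep_le v x
      omega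
    · rw [hH1]
      show pr _ (cut2 (gp (κ (FreeGroup.of a)) (tau x), P a (tau x), (0 : ℝ))) = _
      rw [cut2_zero, hPf, pt_tau]
  have h3 := HasHol.homotopy (F := fun q : ℝ × ℝ =>
    HH (l q.1) (projIcc (0 : ℝ) 1 zero_le_one q.2)) (a := 1) (b := 0) hF
    (fun t s => by simp only [hlp]) ((HasHol.map κ hw).congr (fun t => ?_))
  · refine h3.congr (fun t => ?_)
    simp only
    rw [projIcc_of_mem zero_le_one ⟨le_rfl, zero_le_one⟩]
    exact e2 _ (hls t)
  · simp only
    rw [projIcc_of_mem zero_le_one ⟨zero_le_one, le_rfl⟩]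
    exact (e1 _ (hls t)).symm

theorem tau_pt {t : ℝ} (h0 : 0 ≤ t) (h1 : t ≤ 1) : tau (pt t) = t := by
  simp only [tau]
  rw [pt_zero, projIcc_of_mem zero_le_one ⟨h0, h1⟩]
  ring

/-- the extension property does not depend on the characteristic maps -/
theorem sext_rech {L : FinCW} (j : Emb L K) (j₂ : Emb L (rech K χ₂ h₂))
    (hj : ∀ x, j₂.f x = j.f x) (Λ : Lab L) (h : SExt K j Λ) : SExt (rech K χ₂ h₂) j₂ Λ := by
  have hjc : ∀ {n : ℕ} (a : L.cell n), j₂.c a = j.c a := by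
    intro n a
    let o : Disc n := ⟨0, by simp⟩
    have ho : ‖o.1‖ < 1 := by simp [o]
    have h1 : j.f (L.χ a o) ∈ ocell K (j.c a) := ⟨o, ho, (j.comm a o).symm⟩
    have h2 : j₂.f (L.χ a o) ∈ ocell K (j₂.c a) := by
      rw [j₂.comm]
      exact (h₂ (j₂.c a)).mem ho
    rw [hj] at h2
    exact ocell_inj (K := K) h2 h1
  have hjχ : ∀ {n : ℕ} (a : L.cell n) (x : Disc n), χ₂ (j.c a) x = K.χ (j.c a) x := by
    intro n a x
    have h1 := j.comm a x
    have h2 := j₂.comm a x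
    rw [hjc, hj, h1] at h2
    exact h2.symm
  intro w' hw' D' hD'
  choose w hw using fun c : K.cell 2 => exists_word c
  choose P g hPc hPf hP0 hP1 using fun a : K.cell 1 => exists_lift h₂ a
  let κ : FreeGroup (K.cell 1) →* FreeGroup (K.cell 1) := FreeGroup.lift g
  have hκ : ∀ a, κ (FreeGroup.of a) = g a := fun a => FreeGroup.lift_apply_of
  have hgL : ∀ a₀ : L.cell 1, g (j.c a₀) = FreeGroup.of (j.c a₀) := by
    intro a₀
    have h1 := lift_uniqueOn (isPreconnected_Icc (a := (0 : ℝ)) (b := 1))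
      (hPc (j.c a₀)).continuousOn (gp_continuous (FreeGroup.of (j.c a₀))).continuousOn
      (fun t ht => by
        rw [hPf, ← hjχ, ← tau_pt ht.1 ht.2, pt_tau]
        exact th_one (K := rech K χ₂ h₂) (j.c a₀) (pt t)) 0 (by simp)
      (by rw [hP0, gp_zero]) 1 (by simp)
    rw [hP1, gp_one] at h1
    exact smul_cancel h1
  have hSX := h w hw D' (fun e => rech_simple (hD' e))
  obtain ⟨J, hJ, W, V, hW, hV, hWb, hVb, hWL, hWe, hn⟩ := hSX
  have hcj : ∀ c : K.cell 2, ∃ ε : ℤ, (ε = 1 ∨ ε = -1) ∧ IsConj (w' c) (κ (w c) ^ ε) := by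
    intro c
    obtain ⟨ε, hε, h1⟩ := word_char (hw' c) (rech_fchar (FChar.self (K := K) c))
    have h2 := rech_hol (h₂ := h₂) κ P hPc hPf hP0 (fun a => by rw [hP1, hκ])
      (l := fun t => K.χ c (circ t)) ((K.continuous_χ c).comp circ_continuous)
      (fun t => by simp only [circ_add_one]) (fun t => rep_boundary c (circ_norm t)) (hw c)
    exact ⟨ε, hε, isConj_zpow_unit hε (h2.isConj h1)⟩
  choose ε hε hcj using hcj
  have hEV : ∀ (d : Dn × Gam) (x : K.cell 1 → Gam) (u : FreeGroup (K.cell 1)),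
      EV j₂ Λ d x (κ u) = EV j Λ d (fun a => EV j₂ Λ d x (g a)) u := by
    intro d x u
    have h1 : (EV j₂ Λ d x).comp κ = EV j Λ d (fun a => EV j₂ Λ d x (g a)) := by
      apply FreeGroup.ext_hom
      intro a
      rw [MonoidHom.comp_apply, hκ]
      simp only [EV, FreeGroup.lift_apply_of]
      by_cases ha : ∃ a₀, j.c a₀ = a
      · obtain ⟨a₀, rfl⟩ := ha
        rw [hgL, FreeGroup.lift_apply_of]
        simp only [val]
        rw [(Top.Emb.c_injective j).extend_apply, ← hjc, (Top.Emb.c_injective j₂).extend_apply]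
      · simp only [val]
        rw [Function.extend_apply' _ _ _ ha]
    exact DFunLike.congr_fun h1 u
  let θ : Par (K.cell 1) J → Par (K.cell 1) J := fun p =>
    (p.1, p.2.1, fun a => EV j₂ Λ (p.1, p.2.1) p.2.2.1 (g a), p.2.2.2)
  have hθ : Continuous θ := by
    have h1 : Continuous fun p : Par (K.cell 1) J =>
        fun a => EV j₂ Λ (p.1, p.2.1) p.2.2.1 (g a) := by
      apply continuous_pi
      intro a
      exact EV_continuous j₂ Λ (g a) (by fun_prop) (by fun_prop)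
    exact continuous_fst.prodMk ((continuous_fst.comp continuous_snd).prodMk
      (h1.prodMk (continuous_snd.comp (continuous_snd.comp continuous_snd))))
  have hfin : SX (rech K χ₂ h₂) j₂ Λ (fun c => κ (w c) ^ ε c) D' := by
    refine ⟨J, hJ, fun c p => (W c (θ p)) ^ ε c, fun k p => V k (θ p), fun c => ?_, fun k => ?_,
      ?_, ?_, ?_, ?_, ?_⟩
    · exact ((hW c).comp hθ).zpow _
    · exact (hV k).comp hθ
    · intro c y hy g' x z
      have h1 : W c (θ (y, g', x, z)) = EV j₂ Λ (y, g') x (κ (w c)) := by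
        rw [hEV]
        exact hWb c y hy _ _ _
      show W c (θ (y, g', x, z)) ^ ε c = _
      rw [h1, map_zpow]
    · intro k y hy g' x z
      exact hVb k y hy _ _ _
    · intro c₀ p
      show Cen (W (j₂.c c₀) (θ p) ^ ε (j₂.c c₀))
      rw [cen_zpow (hε _), hjc]
      exact hWL c₀ _
    · intro e p hp
      show Cen (W (D' e) (θ p) ^ ε (D' e))
      rw [cen_zpow (hε _)]
      apply hWe
      intro c hc hm
      exact (cen_zpow (hε c)).1 (hp c hc (rech_meets hm))
    · rintro p ⟨h1, h2⟩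
      exact hn (θ p) ⟨fun c => (cen_zpow (hε c)).1 (h1 c), h2⟩
  exact hfin.conj (fun c => (hcj c).symm)

end

end Pool.Agent.Run7.h41.Inv
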