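import Pool.Agent.Run7.h41.FCW
import Pool.Agent.Run7.h41.Rech

/-!
# Choices of characteristic maps
-/

set_option autoImplicit false

namespace Pool.Agent.Run7.h41.Flex

open Set Pool.Agent.Run7.h41.CW Pool.Agent.Run7.h41.Top Pool.Agent.Run7.h41.Inv

/-- the complex with given characteristic maps -/
@[reducible] def Cx.rig (K : Cx) (χ : ∀ {n : ℕ}, K.cell n → Disc n → K.X)
    (h : ∀ {n : ℕ} (c : K.cell n), IsChar K.o c (χ c)) : FinCW where
  X := K.X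
  top := K.top
  t2 := K.t2
  cell := K.cell
  finite_cell := K.finite_cell
  χ := χ
  continuous_χ := fun c => (h c).1
  partition := fun p => by
    obtain ⟨⟨n, c⟩, hc, hu⟩ := K.partition p
    obtain ⟨x, hx, hxp⟩ := ((h c).2.2.1 p).1 hc
    refine ⟨⟨n, c, x⟩, ⟨hx, hxp⟩, ?_⟩
    rintro ⟨m, c', y⟩ ⟨hy, hyp⟩
    have h1 := hu ⟨m, c'⟩ (((h c').2.2.1 p).2 ⟨y, hy, hyp⟩)
    cases h1
    have h2 : y = x := (h c).2.1 y x hy hx (hyp.trans hxp.symm)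
    rw [h2]
  boundary := fun c x hx => by
    obtain ⟨m, hm, c', hc'⟩ := (h c).2.2.2 x hx
    obtain ⟨y, hy, hy2⟩ := ((h c').2.2.1 _).1 hc'
    exact ⟨m, hm, c', y, hy, hy2⟩

theorem isChar_self {K : FinCW} {n : ℕ} (c : K.cell n) :
    IsChar (cell := K.cell) (fun _ c => ocell K c) c (K.χ c) := by
  refine ⟨K.continuous_χ c, fun x y hx hy h => (FChar.self c).inj x y hx hy h, fun p => Iff.rfl,
    fun x hx => ?_⟩
  obtain ⟨m, hm, c', y, hy, h⟩ := K.boundary c x hx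
  exact ⟨m, hm, c', y, hy, h⟩

/-- forgetting the characteristic maps -/
@[reducible] def ofFin (K : FinCW) : Cx where
  X := K.X
  top := K.top
  t2 := K.t2
  cell := K.cell
  finite_cell := K.finite_cell
  o := fun _ c => ocell K c
  partition := fun p => by
    refine ⟨⟨(rep K p).1, (rep K p).2.1⟩, ⟨(rep K p).2.2, rep_norm K p, rep_χ K p⟩, ?_⟩
    rintro ⟨m, c⟩ ⟨x, hx, hxp⟩
    rw [← hxp, rep_unique c hx]
  exists_char := fun c => ⟨K.χ c, isChar_self c⟩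

theorem isChar_fchar {K : FinCW} {n : ℕ} {c : K.cell n} {φ : Disc n → K.X} (h : FChar K c φ) :
    IsChar (ofFin K).o c φ := by
  refine ⟨h.cont, fun x y hx hy hxy => h.inj x y hx hy hxy, h.surj, fun x hx => ?_⟩
  exact ⟨_, h.bd x hx, (rep K (φ x)).2.1, (rep K (φ x)).2.2, rep_norm K _, rep_χ K _⟩

theorem rig_dim {K : Cx} {χ : ∀ {n : ℕ}, K.cell n → Disc n → K.X}
    {h : ∀ {n : ℕ} (c : K.cell n), IsChar K.o c (χ c)} {n : ℕ} {c : K.cell n} {p : K.X}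
    (hp : p ∈ K.o n c) : (rep (K.rig χ h) p).1 = n := by
  obtain ⟨x, hx, rfl⟩ := ((h c).2.2.1 p).1 hp
  exact congrArg Sigma.fst (rep_unique (K := K.rig χ h) c hx)

theorem fchar_isChar {K : Cx} {χ : ∀ {n : ℕ}, K.cell n → Disc n → K.X}
    {h : ∀ {n : ℕ} (c : K.cell n), IsChar K.o c (χ c)} {n : ℕ} {c : K.cell n}
    {φ : Disc n → K.X} (hφ : IsChar K.o c φ) : FChar (K.rig χ h) c φ := by
  refine ⟨hφ.1, fun x y hx hy hxy => hφ.2.1 x y hx hy hxy, fun p => ?_, fun x hx => ?_⟩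
  · exact ((h c).2.2.1 p).symm.trans (hφ.2.2.1 p)
  · obtain ⟨m, hm, c', hc'⟩ := hφ.2.2.2 x hx
    rw [rig_dim hc']
    exact hm

/-- characteristic maps in subcomplexes -/
theorem isChar_sub {K K' : Cx} (i : Sub K K') {n : ℕ} {c : K.cell n} {φ : Disc n → K.X}
    (h : IsChar K.o c φ) : IsChar K'.o (i.c c) (fun x => i.f (φ x)) := by
  refine ⟨i.f.continuous.comp h.1, fun x y hx hy hxy => h.2.1 x y hx hy (i.injective hxy),
    fun p => ?_, fun x hx => ?_⟩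
  · rw [← i.img]
    constructor
    · rintro ⟨p', hp', rfl⟩
      obtain ⟨x, hx, rfl⟩ := (h.2.2.1 p').1 hp'
      exact ⟨x, hx, rfl⟩
    · rintro ⟨x, hx, rfl⟩
      exact ⟨φ x, (h.2.2.1 _).2 ⟨x, hx, rfl⟩, rfl⟩
  · obtain ⟨m, hm, c', hc'⟩ := h.2.2.2 x hx
    refine ⟨m, hm, i.c c', ?_⟩
    rw [← i.img]
    exact ⟨_, hc', rfl⟩

theorem o_nonempty (K : Cx) {n : ℕ} (c : K.cell n) : (K.o n c).Nonempty := by
  obtain ⟨φ, hφ⟩ := K.exists_char c
  let o : Disc n := ⟨0, by simp⟩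
  have ho : IsInt o := by simp [o, IsInt]
  exact ⟨φ o, (hφ.2.2.1 _).2 ⟨o, ho, rfl⟩⟩

theorem o_inj {K : Cx} {n : ℕ} {c c' : K.cell n} {p : K.X} (h : p ∈ K.o n c) (h' : p ∈ K.o n c') :
    c = c' := by
  have h1 := (K.partition p).unique (y₁ := ⟨n, c⟩) (y₂ := ⟨n, c'⟩) h h'
  simpa using h1

theorem Sub.c_injective {K K' : Cx} (i : Sub K K') {n : ℕ} :
    Function.Injective (i.c : K.cell n → K'.cell n) := by
  intro a b hab
  obtain ⟨p, hp⟩ := o_nonempty K a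
  have h1 : i.f p ∈ i.f '' K.o n b := by
    rw [i.img, ← hab, ← i.img]
    exact ⟨p, hp, rfl⟩
  obtain ⟨q, hq, hq2⟩ := h1
  rw [i.injective hq2] at hq
  exact o_inj hp hq

theorem Sub.c_comp {L K K' : Cx} {j : Sub L K} {j' : Sub L K'} {i : Sub K K'}
    (hj : ∀ x, j'.f x = i.f (j.f x)) {n : ℕ} (a : L.cell n) : j'.c a = i.c (j.c a) := by
  obtain ⟨p, hp⟩ := o_nonempty L a
  have h1 : j'.f p ∈ K'.o n (j'.c a) := by
    rw [← j'.img]
    exact ⟨p, hp, rfl⟩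
  have h2 : i.f (j.f p) ∈ K'.o n (i.c (j.c a)) := by
    rw [← i.img, ← j.img]
    exact ⟨_, ⟨p, hp, rfl⟩, rfl⟩
  rw [← hj] at h2
  exact o_inj h1 h2

/-- a compatible choice of characteristic maps gives an inclusion -/
@[reducible] def Sub.emb {L : FinCW} {K : Cx} (j : Sub (ofFin L) K)
    (χ : ∀ {n : ℕ}, K.cell n → Disc n → K.X) (h : ∀ {n : ℕ} (c : K.cell n), IsChar K.o c (χ c))
    (hc : ∀ {n : ℕ} (a : L.cell n) (x : Disc n), χ (j.c a) x = j.f (L.χ a x)) :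
    Emb L (K.rig χ h) where
  f := j.f
  injective := j.injective
  c := j.c
  comm := fun a x => (hc a x).symm

/-- the invariant -/
def PX {L : FinCW} (Λ : Lab L) (K : Cx) (j : Sub (ofFin L) K) : Prop :=
  ∃ (χ : ∀ {n : ℕ}, K.cell n → Disc n → K.X) (h : ∀ {n : ℕ} (c : K.cell n), IsChar K.o c (χ c))
    (hc : ∀ {n : ℕ} (a : L.cell n) (x : Disc n), χ (j.c a) x = j.f (L.χ a x)),
    SExt (K.rig χ h) (j.emb χ h hc) Λ

theorem px_all {L : FinCW} {Λ : Lab L} {K : Cx} {j : Sub (ofFin L) K} (hP : PX Λ K j)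
    (χ : ∀ {n : ℕ}, K.cell n → Disc n → K.X) (h : ∀ {n : ℕ} (c : K.cell n), IsChar K.o c (χ c))
    (hc : ∀ {n : ℕ} (a : L.cell n) (x : Disc n), χ (j.c a) x = j.f (L.χ a x)) :
    SExt (K.rig χ h) (j.emb χ h hc) Λ := by
  obtain ⟨χ₁, h₁, hc₁, hS⟩ := hP
  exact sext_rech (K := K.rig χ₁ h₁) (χ₂ := χ) (h₂ := fun c => fchar_isChar (h c))
    (j.emb χ₁ h₁ hc₁) (j.emb χ h hc) (fun _ => rfl) Λ hS

/-- compatible choices exist -/
theorem exists_compat {K K' : Cx} (i : Sub K K') (χ : ∀ {n : ℕ}, K.cell n → Disc n → K.X)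
    (h : ∀ {n : ℕ} (c : K.cell n), IsChar K.o c (χ c)) :
    ∃ Ψ : ∀ q : Σ n, K'.cell n, Disc q.1 → K'.X, (∀ q, IsChar K'.o q.2 (Ψ q)) ∧
      ∀ q, ∀ c₀ : K.cell q.1, i.c c₀ = q.2 → ∀ x, Ψ q x = i.f (χ c₀ x) := by
  have h1 : ∀ q : Σ n, K'.cell n, ∃ ψ : Disc q.1 → K'.X, IsChar K'.o q.2 ψ ∧
      ∀ c₀ : K.cell q.1, i.c c₀ = q.2 → ∀ x, ψ x = i.f (χ c₀ x) := by
    rintro ⟨n, c⟩
    by_cases hc : ∃ c₀, i.c c₀ = c
    · obtain ⟨c₀, rfl⟩ := hc
      refine ⟨fun x => i.f (χ c₀ x), isChar_sub i (h c₀), fun c₁ hc₁ x => ?_⟩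
      rw [Sub.c_injective i hc₁]
    · obtain ⟨ψ, hψ⟩ := K'.exists_char c
      exact ⟨ψ, hψ, fun c₀ hc₀ => absurd ⟨c₀, hc₀⟩ hc⟩
  choose Ψ h2 h3 using h1
  exact ⟨Ψ, h2, h3⟩

/-- Invariance under elementary expansions of dimension at most three. -/
theorem px_expansion {L : FinCW} {Λ : Lab L} {K K' : Cx} {j : Sub (ofFin L) K}
    {j' : Sub (ofFin L) K'} {i : Sub K K'} {n : ℕ} (hn : n + 1 ≤ 3)
    (hj : ∀ x, j'.f x = i.f (j.f x)) (hi : IsExp i n) : PX Λ K j ↔ PX Λ K' j' := by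
  classical
  obtain ⟨Ψ, hΨ, hΨc⟩ := exists_compat j (fun {_} c => L.χ c) (fun {_} c => isChar_self c)
  let χ : ∀ {n : ℕ}, K.cell n → Disc n → K.X := fun {n} c => Ψ ⟨n, c⟩
  have hχ : ∀ {n : ℕ} (c : K.cell n), IsChar K.o c (χ c) := fun c => hΨ ⟨_, c⟩
  have hχc : ∀ {n : ℕ} (a : L.cell n) (x : Disc n), χ (j.c a) x = j.f (L.χ a x) := fun a x =>
    hΨc ⟨_, j.c a⟩ a rfl x
  obtain ⟨a, b, hall, ha, hb, φ, hφb, hφa, hφl⟩ := hi
  obtain ⟨Ψ₀, hΨ₀, hΨ₀c⟩ := exists_compat i χ hχ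
  let Ψ₁ : ∀ q : Σ n, K'.cell n, Disc q.1 → K'.X :=
    Function.update Ψ₀ ⟨n, a⟩ (fun x => φ (upper x))
  let Ψ₂ : ∀ q : Σ n, K'.cell n, Disc q.1 → K'.X := Function.update Ψ₁ ⟨n + 1, b⟩ φ
  have hab : (⟨n, a⟩ : Σ n, K'.cell n) ≠ ⟨n + 1, b⟩ := fun h => by
    have := congrArg Sigma.fst h
    simp at this
  have e2 : Ψ₂ ⟨n + 1, b⟩ = φ := Function.update_self _ _ _
  have e1 : Ψ₂ ⟨n, a⟩ = fun x => φ (upper x) :=
    (Function.update_of_ne hab _ _).trans (Function.update_self _ _ _)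
  have e0 : ∀ q, q ≠ ⟨n, a⟩ → q ≠ ⟨n + 1, b⟩ → Ψ₂ q = Ψ₀ q := fun q h1 h2 =>
    (Function.update_of_ne h2 _ _).trans (Function.update_of_ne h1 _ _)
  have hΨ₂ : ∀ q, IsChar K'.o q.2 (Ψ₂ q) := by
    intro q
    by_cases h2 : q = ⟨n + 1, b⟩
    · subst h2
      rw [e2]
      exact hφb
    · by_cases h1 : q = ⟨n, a⟩
      · subst h1
        rw [e1]
        exact hφa
      · rw [e0 q h1 h2]
        exact hΨ₀ q
  let χ' : ∀ {n : ℕ}, K'.cell n → Disc n → K'.X := fun {n} c => Ψ₂ ⟨n, c⟩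
  have hχ' : ∀ {n : ℕ} (c : K'.cell n), IsChar K'.o c (χ' c) := fun c => hΨ₂ ⟨_, c⟩
  have hcom : ∀ {m : ℕ} (c : K.cell m) (x : Disc m), χ' (i.c c) x = i.f (χ c x) := by
    intro m c x
    have h1 : (⟨m, i.c c⟩ : Σ n, K'.cell n) ≠ ⟨n, a⟩ := by
      intro h
      cases h
      exact ha c rfl
    have h2 : (⟨m, i.c c⟩ : Σ n, K'.cell n) ≠ ⟨n + 1, b⟩ := by
      intro h
      cases h
      exact hb c rfl
    have h3 : χ' (i.c c) = Ψ₀ ⟨m, i.c c⟩ := e0 _ h1 h2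
    rw [h3]
    exact hΨ₀c ⟨m, i.c c⟩ c rfl x
  have hχ'c : ∀ {n : ℕ} (a : L.cell n) (x : Disc n), χ' (j'.c a) x = j'.f (L.χ a x) := by
    intro m a x
    rw [hj, Sub.c_comp hj, hcom, hχc]
  let iE : Emb (K.rig χ hχ) (K'.rig χ' hχ') :=
    { f := i.f
      injective := i.injective
      c := i.c
      comm := fun c x => (hcom c x).symm }
  have hiE : IsExpansion iE n := by
    rw [isExpansion_iff]
    refine ⟨a, b, hall, ha, hb, Homeomorph.refl _, Homeomorph.refl _, fun _ => Iff.rfl,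
      fun _ => Iff.rfl, fun x => ?_, fun x => ?_⟩
    · show Ψ₂ ⟨n + 1, b⟩ (upper x) = Ψ₂ ⟨n, a⟩ x
      rw [e1, e2]
    · show Ψ₂ ⟨n + 1, b⟩ (lower x) ∈ range i.f
      rw [e2]
      exact hφl x
  have key := sext_expansion (j := j.emb χ hχ hχc) (j' := j'.emb χ' hχ' hχ'c) (i := iE) hn
    (fun x => hj x) Λ hiE
  exact ⟨fun h => ⟨χ', hχ', hχ'c, key.1 (px_all h χ hχ hχc)⟩,
    fun h => ⟨χ, hχ, hχc, key.2 (px_all h χ' hχ' hχ'c)⟩⟩

/-- Invariance under three-deformations. -/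
theorem px_deform {L : FinCW} (Λ : Lab L) {K K' : Cx} {j : Sub (ofFin L) K}
    {j' : Sub (ofFin L) K'} {g : C(K.X, K'.X)} (h : Deform 3 (ofFin L) K K' j j' g) :
    PX Λ K j ↔ PX Λ K' j' := by
  induction h with
  | refl j => exact Iff.rfl
  | expand K K' j₀ j j' g i n hn hi hj h ih =>
    exact ih.trans (px_expansion (by exact_mod_cast hn) hj hi)
  | collapse K K' j₀ j j' g i n hn hi hj h r hr hr' ih =>
    exact ih.trans (px_expansion (by exact_mod_cast hn) hj hi).symm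

/-! ### complexes with given characteristic maps -/

/-- the inclusion of a subcomplex -/
@[reducible] def toSub {K K' : FinCW} (i : Emb K K') : Sub (ofFin K) (ofFin K') where
  f := i.f
  injective := i.injective
  c := i.c
  img := fun a => by
    ext p
    constructor
    · rintro ⟨_, ⟨x, hx, rfl⟩, rfl⟩
      exact ⟨x, hx, (i.comm a x).symm⟩
    · rintro ⟨x, hx, rfl⟩
      exact ⟨_, ⟨x, hx, rfl⟩, i.comm a x⟩

theorem isExp_toSub {K K' : FinCW} {i : Emb K K'} {n : ℕ} (h : IsExpansion i n) :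
    IsExp (toSub i) n := by
  obtain ⟨a, b, hall, ha, hb, η, η', hη, hη', hu, hl⟩ := (isExpansion_iff _ _).1 h
  refine ⟨a, b, hall, ha, hb, fun x => K'.χ b (η x), isChar_fchar ((FChar.self b).homeo hη), ?_, hl⟩
  have : (fun x => K'.χ b (η (upper x))) = fun x => K'.χ a (η' x) := funext hu
  rw [this]
  exact isChar_fchar ((FChar.self a).homeo hη')

theorem deform_toSub {m : ℕ∞} {L K K' : FinCW} {j : Emb L K} {j' : Emb L K'} {g : C(K.X, K'.X)}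
    (h : Deformation m L K K' j j' g) :
    Deform m (ofFin L) (ofFin K) (ofFin K') (toSub j) (toSub j') g := by
  induction h with
  | refl j => exact Deform.refl _ _
  | expand K K' j₀ j j' g i n hn hi hj h ih =>
    exact Deform.expand _ _ _ _ _ _ _ (toSub i) n hn (isExp_toSub hi) hj ih
  | collapse K K' j₀ j j' g i n hn hi hj h r hr hr' ih =>
    exact Deform.collapse _ _ _ _ _ _ _ (toSub i) n hn (isExp_toSub hi) hj ih r hr hr'

theorem px_toSub {L K : FinCW} {Λ : Lab L} (j : Emb L K) :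
    PX Λ (ofFin K) (toSub j) ↔ SExt K j Λ := by
  constructor
  · intro h
    exact px_all h (fun {_} c => K.χ c) (fun {_} c => isChar_self c)
      (fun {_} a x => (j.comm a x).symm)
  · intro h
    exact ⟨fun {_} c => K.χ c, fun {_} c => isChar_self c, fun {_} a x => (j.comm a x).symm, h⟩

end Pool.Agent.Run7.h41.Flex
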