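import Pool.Agent.Run7.h41.QL

/-!
# Towers of kernels
-/

namespace Run7.h41.PF

open MonoidAlgebra Pool.Agent.Y110.FJ Pool.Agent.Y462.SS

open scoped commutatorElement Pointwise

/-- The mapping torus of an automorphism. -/
def MT (N : Type) [Group N] (α : MulAut N) : Type :=
  N ⋊[zpowersHom (MulAut N) α] Multiplicative ℤ

instance (N : Type) [Group N] (α : MulAut N) : Group (MT N α) :=
  inferInstanceAs (Group (N ⋊[zpowersHom (MulAut N) α] Multiplicative ℤ))

/-- `C` contains the mapping tori of the automorphisms of the free abelian groups and free groups of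
finite rank and of the surface groups. -/
structure Tori (C : ∀ (G : Type) [Group G], Prop) : Prop where
  ab : ∀ (n : ℕ) (α : MulAut (Multiplicative (Fin n → ℤ))), C (MT _ α)
  free : ∀ (n : ℕ) (α : MulAut (FreeGroup (Fin (n + 2)))), C (MT _ α)
  surf : ∀ (g : ℕ) (α : MulAut (Surf (g + 2))), C (MT _ α)

/-- Free abelian groups of finite rank. -/
def IsZn (G : Type) [Group G] : Prop := ∃ n : ℕ, Nonempty (G ≃* Multiplicative (Fin n → ℤ))

/-- Free groups of finite rank at least two and surface groups of genus at least two. -/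
def IsFS (G : Type) [Group G] : Prop :=
  (∃ n : ℕ, Nonempty (G ≃* FreeGroup (Fin (n + 2)))) ∨ ∃ g : ℕ, Nonempty (G ≃* Surf (g + 2))

section
variable {C : ∀ (G : Type) [Group G], Prop}

/-- **Towers of kernels.** -/
theorem tow_ker (hC : Closed C) {B F : ∀ (G : Type) [Group G], Prop}
    (hB : ∀ (G : Type) [Group G], B G → Group.FG G ∧ KerC C G)
    (hF : ∀ (G : Type) [Group G], F G → IsQ G ∧ Group.FG G ∧ KerC C G) (N : Type) [Group N]
    (h : Tow B F N) : Group.FG N ∧ KerC C N := by
  induction h with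
  | base N h => exact hB N h
  | step N L π hπ _ hL ih =>
    obtain ⟨h1, h2, h3⟩ := hF L hL
    obtain ⟨h4, h5⟩ := ih
    let e : N ⧸ π.ker ≃* L := QuotientGroup.quotientKerEquivOfSurjective π hπ
    have h6 : π.ker.FG := (Group.fg_iff_subgroup_fg _).mp h4
    have h8 : Group.FG (N ⧸ π.ker) :=
      Group.fg_of_surjective (f := e.symm.toMonoidHom) e.symm.surjective
    refine ⟨fg_ext π hπ h6 h2, kerC_ext hC π.ker h6 h8 (h1.congr e.symm) h5
      (h3.congr e.symm)⟩

/-- **Towers and automorphism groups.** -/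
theorem tow_aut (hC : Closed C) {B F : ∀ (G : Type) [Group G], Prop}
    (hB : ∀ (G : Type) [Group G], B G → Group.FG G ∧ Cless G ∧ C (MulAut G))
    (hF : ∀ (G : Type) [Group G], F G → IsQ G ∧ Group.FG G ∧ C (MulAut G)) (N : Type) [Group N]
    (h : Tow B F N) : Group.FG N ∧ Cless N ∧ C (MulAut N) := by
  induction h with
  | base N h => exact hB N h
  | step N L π hπ _ hL ih =>
    obtain ⟨h1, h2, h3⟩ := hF L hL
    obtain ⟨h4, h5, h6⟩ := ih
    let e : N ⧸ π.ker ≃* L := QuotientGroup.quotientKerEquivOfSurjective π hπ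
    have h7 : π.ker.FG := (Group.fg_iff_subgroup_fg _).mp h4
    have h8 : Group.FG (N ⧸ π.ker) :=
      Group.fg_of_surjective (f := e.symm.toMonoidHom) e.symm.surjective
    refine ⟨fg_ext π hπ h7 h2, cless_ext π hπ h5 fun z hz => h1.center z hz,
      autC_ext hC π.ker h7 h8 (h1.congr e.symm) h5 h6 ?_⟩
    exact hC.of_injective _ _ (MulAut.congr e).toMonoidHom (MulAut.congr e).injective h3

/-- A kernel is in the class. -/
theorem KerC.mem (hC : Closed C) {N : Type} [Group N] (h : KerC C N) : C N := by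
  have h1 : C PUnit.{1} := hC.of_injective _ _ (1 : PUnit →* Multiplicative ℤ)
    (fun _ _ _ => rfl) hC.int
  refine h N PUnit (1 : N →* PUnit) (fun _ => ⟨1, rfl⟩) ?_ h1
  have h2 : (1 : N →* PUnit).ker = ⊤ := by
    ext x
    simp
  exact ⟨(MulEquiv.subgroupCongr h2).trans Subgroup.topEquiv⟩

theorem fg_zn (n : ℕ) : Group.FG (Multiplicative (Fin n → ℤ)) := by
  have : AddGroup.FG (Fin n → ℤ) := by
    rw [← Module.Finite.iff_addGroup_fg]
    infer_instance
  infer_instance

instance fg_surf' (g : ℕ) : Group.FG (Surf g) :=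
  Group.fg_of_surjective (f := PresentedGroup.mk _) (PresentedGroup.mk_surjective _)

/-- Towers of free groups and surface groups are kernels. -/
theorem tow_fs (hC : ClosedE C) (h : Tori C) (N : Type) [Group N] (hN : Tow IsZn IsFS N) :
    KerC C N := by
  refine (tow_ker hC.base ?_ ?_ N hN).2
  · rintro G _ ⟨n, ⟨e⟩⟩
    have h1 := fg_zn n
    exact ⟨Group.fg_of_surjective (f := e.symm.toMonoidHom) e.symm.surjective,
      (kerC_of_tori hC (h.ab n)).congr e.symm⟩
  · rintro G _ (⟨n, ⟨e⟩⟩ | ⟨g, ⟨e⟩⟩)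
    · exact ⟨(isQ_free (Fin (n + 2))).congr e.symm,
        Group.fg_of_surjective (f := e.symm.toMonoidHom) e.symm.surjective,
        (kerC_of_tori hC (h.free n)).congr e.symm⟩
    · exact ⟨(isQ_surf (g + 2) (by omega)).congr e.symm,
        Group.fg_of_surjective (f := e.symm.toMonoidHom) e.symm.surjective,
        (kerC_of_tori hC (h.surf g)).congr e.symm⟩

/-- The mapping tori of a kernel. -/
theorem KerC.mt (hC : Closed C) {N : Type} [Group N] (h : KerC C N) (α : MulAut N) :
    C (MT N α) := by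
  refine h (N ⋊[zpowersHom (MulAut N) α] Multiplicative ℤ) (Multiplicative ℤ)
    (SemidirectProduct.rightHom) SemidirectProduct.rightHom_surjective ?_ hC.int
  exact ⟨((MonoidHom.ofInjective (SemidirectProduct.inl_injective :
    Function.Injective (SemidirectProduct.inl : N →* N ⋊[zpowersHom _ α] Multiplicative ℤ))).trans
    (MulEquiv.subgroupCongr SemidirectProduct.range_inl_eq_ker_rightHom)).symm⟩

end

end Run7.h41.PF
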