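import Pool.Agent.Run7.h41.QH

/-!
# One-relator groups `⟨a, t, Y | [a, t] P⟩` and surface groups are in the class
-/

namespace Run7.h41.PF

open MonoidAlgebra

open scoped commutatorElement

section
variable {Y : Type} (P : FreeGroup Y)

/-- The relator `[a, t] P`. -/
def orel : FreeGroup (Bool ⊕ Y) :=
  ⁅(FreeGroup.of (Sum.inl false) : FreeGroup (Bool ⊕ Y)), FreeGroup.of (Sum.inl true)⁆ *
    FreeGroup.map Sum.inr P

/-- The group `⟨a, t, Y | [a, t] P⟩`. -/
abbrev OR := PresentedGroup ({orel P} : Set (FreeGroup (Bool ⊕ Y)))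

/-- The generators. -/
def og (x : Bool ⊕ Y) : OR P := PresentedGroup.of x

/-- Homomorphisms out of the group. -/
def oh {H : Type*} [Group H] (f : Bool ⊕ Y → H) (h : FreeGroup.lift f (orel P) = 1) : OR P →* H :=
  PresentedGroup.toGroup (rels := {orel P}) (f := f)
    (fun r hr => by rw [Set.mem_singleton_iff.1 hr]; exact h)

variable {P}

theorem oh_og {H : Type*} [Group H] (f : Bool ⊕ Y → H) (h : FreeGroup.lift f (orel P) = 1)
    (x : Bool ⊕ Y) : oh P f h (og P x) = f x :=
  PresentedGroup.toGroup.of _

theorem or_ext {H : Type*} [Group H] {φ ψ : OR P →* H} (h : ∀ x, φ (og P x) = ψ (og P x)) :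
    φ = ψ := PresentedGroup.ext h

theorem lift_orel {H : Type*} [Group H] (f : Bool ⊕ Y → H) : FreeGroup.lift f (orel P) =
    ⁅f (Sum.inl false), f (Sum.inl true)⁆ * FreeGroup.lift (fun y => f (Sum.inr y)) P := by
  rw [orel, map_mul, map_commutatorElement, FreeGroup.lift_apply_of, FreeGroup.lift_apply_of]
  congr 1
  have : (FreeGroup.lift f).comp (FreeGroup.map Sum.inr) =
      FreeGroup.lift (fun y => f (Sum.inr y)) := by ext y; simp
  exact DFunLike.congr_fun this P

theorem og_rel : ⁅og P (Sum.inl false), og P (Sum.inl true)⁆ *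
    FreeGroup.lift (fun y => og P (Sum.inr y)) P = 1 := by
  rw [← lift_orel (P := P) (og P)]
  have h1 : FreeGroup.lift (og P) = PresentedGroup.mk {orel P} := by
    ext x
    rw [FreeGroup.lift_apply_of]
    rfl
  rw [h1]
  exact PresentedGroup.one_of_mem (Set.mem_singleton _)

/-- The semidirect product. -/
abbrev LL (P : FreeGroup Y) :=
  SemidirectProduct (Wd Y) (Multiplicative ℤ) (zpowersHom (MulAut (Wd Y)) (sgA P))

/-- The map to the semidirect product. -/
def psi (P : FreeGroup Y) : OR P →* LL P :=
  oh P (fun x => match x with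
    | Sum.inl false => SemidirectProduct.inl (FreeGroup.of none)
    | Sum.inl true => SemidirectProduct.inr (Multiplicative.ofAdd 1)
    | Sum.inr y => SemidirectProduct.inl (FreeGroup.of (some (0, y)))) (by
    rw [lift_orel]
    have h1 : FreeGroup.lift (fun y => (SemidirectProduct.inl (FreeGroup.of (some (0, y))) :
        LL P)) P = SemidirectProduct.inl (lv 0 P) := by
      have : FreeGroup.lift (fun y => (SemidirectProduct.inl (FreeGroup.of (some (0, y))) :
        LL P)) = SemidirectProduct.inl.comp (lv 0) := by ext y <;> simp [lv]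
      exact DFunLike.congr_fun this P
    have h2 : (SemidirectProduct.inr (Multiplicative.ofAdd 1) : LL P) *
        (SemidirectProduct.inl (FreeGroup.of none))⁻¹ *
        (SemidirectProduct.inr (Multiplicative.ofAdd 1))⁻¹ =
        SemidirectProduct.inl (lv 0 P * FreeGroup.of none)⁻¹ := by
      rw [← map_inv, ← map_inv, ← SemidirectProduct.inl_aut]
      congr 1
      rw [zpowersHom_apply, toAdd_ofAdd, zpow_one, map_inv, sgA_none]
    rw [h1, commutatorElement_def]
    have h3 : (SemidirectProduct.inl (FreeGroup.of none) : LL P) *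
        SemidirectProduct.inr (Multiplicative.ofAdd 1) *
        (SemidirectProduct.inl (FreeGroup.of none))⁻¹ *
        (SemidirectProduct.inr (Multiplicative.ofAdd 1))⁻¹ =
        SemidirectProduct.inl (FreeGroup.of none) * (SemidirectProduct.inr (Multiplicative.ofAdd 1) *
        (SemidirectProduct.inl (FreeGroup.of none))⁻¹ *
        (SemidirectProduct.inr (Multiplicative.ofAdd 1))⁻¹) := by group
    rw [h3, h2, ← map_mul, ← map_mul]
    rw [show FreeGroup.of none * (lv 0 P * FreeGroup.of none)⁻¹ * lv 0 P = (1 : Wd Y) by group]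
    exact map_one _)

/-- The map from the free group. -/
def EE (P : FreeGroup Y) : Wd Y →* OR P :=
  FreeGroup.lift fun
    | none => og P (Sum.inl false)
    | some (i, y) => og P (Sum.inl true) ^ i * og P (Sum.inr y) * (og P (Sum.inl true) ^ i)⁻¹

theorem EE_lv (i : ℤ) (w : FreeGroup Y) : EE P (lv i w) = og P (Sum.inl true) ^ i *
    FreeGroup.lift (fun y => og P (Sum.inr y)) w * (og P (Sum.inl true) ^ i)⁻¹ := by
  have : (EE P).comp (lv i) = (MulAut.conj (og P (Sum.inl true) ^ i)).toMonoidHom.comp
      (FreeGroup.lift (fun y => og P (Sum.inr y))) := by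
    ext y
    change EE P (lv i (FreeGroup.of y)) = MulAut.conj (og P (Sum.inl true) ^ i)
      (FreeGroup.lift (fun y => og P (Sum.inr y)) (FreeGroup.of y))
    rw [MulAut.conj_apply]
    simp [EE, lv]
  exact DFunLike.congr_fun this w

theorem EE_sgA : (EE P).comp (sgA P).toMonoidHom =
    (MulAut.conj (og P (Sum.inl true))).toMonoidHom.comp (EE P) := by
  ext x
  rcases x with _ | ⟨i, y⟩
  · have h1 : (EE P) (FreeGroup.of none) = og P (Sum.inl false) := by simp [EE]
    change EE P (sgA P (FreeGroup.of none)) = MulAut.conj (og P (Sum.inl true))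
      (EE P (FreeGroup.of none))
    rw [sgA_none, map_mul, EE_lv, h1, zpow_zero, one_mul, inv_one, mul_one, MulAut.conj_apply]
    have h2 := og_rel (P := P)
    rw [commutatorElement_def] at h2
    rw [mul_assoc, mul_assoc, mul_assoc, mul_eq_one_iff_inv_eq] at h2
    have h3 : FreeGroup.lift (fun y => og P (Sum.inr y)) P =
        og P (Sum.inl true) * og P (Sum.inl false) * (og P (Sum.inl true))⁻¹ *
          (og P (Sum.inl false))⁻¹ := by
      have h4 := og_rel (P := P)
      rw [mul_eq_one_iff_inv_eq, commutatorElement_inv, commutatorElement_def] at h4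
      exact h4.symm
    rw [h3]
    group
  · change EE P (sgA P (FreeGroup.of (some (i, y)))) = MulAut.conj (og P (Sum.inl true))
      (EE P (FreeGroup.of (some (i, y))))
    rw [sgA_some, MulAut.conj_apply]
    simp only [EE, FreeGroup.lift_apply_of]
    group

theorem EE_zpow (n : ℤ) : (EE P).comp ((sgA P ^ n : MulAut (Wd Y)).toMonoidHom) =
    (MulAut.conj (og P (Sum.inl true) ^ n)).toMonoidHom.comp (EE P) := by
  have h1 : ∀ w, EE P (sgA P w) = og P (Sum.inl true) * EE P w * (og P (Sum.inl true))⁻¹ :=
    fun w => DFunLike.congr_fun EE_sgA w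
  have h2 : ∀ w, EE P ((sgA P)⁻¹ w) = (og P (Sum.inl true))⁻¹ * EE P w * og P (Sum.inl true) := by
    intro w
    have := h1 ((sgA P)⁻¹ w)
    rw [MulAut.apply_inv_self] at this
    rw [this]
    group
  apply MonoidHom.ext
  intro w
  change EE P ((sgA P ^ n) w) = MulAut.conj (og P (Sum.inl true) ^ n) (EE P w)
  rw [MulAut.conj_apply]
  induction n using Int.induction_on generalizing w with
  | zero => simp
  | succ n ih =>
    rw [zpow_add_one, MulAut.mul_apply, ih, h1, zpow_add_one]
    group
  | pred n ih =>
    rw [zpow_sub_one, MulAut.mul_apply, ih, h2, zpow_sub_one]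
    group

/-- The map back. -/
def theta (P : FreeGroup Y) : LL P →* OR P :=
  SemidirectProduct.lift (EE P) (zpowersHom (OR P) (og P (Sum.inl true))) (by
    intro g
    have := EE_zpow (P := P) (Multiplicative.toAdd g)
    exact this)

theorem theta_psi (x : OR P) : theta P (psi P x) = x := by
  have : (theta P).comp (psi P) = MonoidHom.id _ := by
    apply or_ext
    rintro (x | y)
    · rcases x
      · simp [psi, oh_og, theta, EE]
      · simp [psi, oh_og, theta]
    · simp [psi, oh_og, theta, EE]
  exact DFunLike.congr_fun this x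

theorem psi_injective : Function.Injective (psi P) := fun x y h => by
  rw [← theta_psi x, ← theta_psi y, h]

/-- Finitely generated normal subgroups of `⟨a, t, Y | [a, t] P⟩` in the commutator subgroup. -/
theorem nfg_OR (hP : P ≠ 1) (K : Subgroup (OR P)) (hK : K.Normal) (hKc : K ≤ commutator (OR P))
    (hKfg : K.FG) : K = ⊥ := by
  classical
  have h1 : ∀ k ∈ K, (psi P k).right = 1 := by
    intro k hk
    have h2 : commutator (OR P) ≤ (SemidirectProduct.rightHom.comp (psi P)).ker :=
      Abelianization.commutator_subset_ker _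
    exact h2 (hKc hk)
  let K0 : Subgroup (Wd Y) := (K.map (psi P)).comap SemidirectProduct.inl
  have hmem : ∀ w, w ∈ K0 ↔ ∃ k ∈ K, psi P k = SemidirectProduct.inl w := fun w => Iff.rfl
  have hleft : ∀ k ∈ K, psi P k = SemidirectProduct.inl (psi P k).left := by
    intro k hk
    apply SemidirectProduct.ext
    · rw [SemidirectProduct.left_inl]
    · rw [SemidirectProduct.right_inl, h1 k hk]
  have hfg : K0.FG := by
    obtain ⟨S, hS⟩ := hKfg
    refine ⟨S.image fun s => (psi P s).left, ?_⟩
    have hinj : Function.Injective (SemidirectProduct.inl : Wd Y →* LL P) :=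
      SemidirectProduct.inl_injective
    apply Subgroup.map_injective hinj
    rw [MonoidHom.map_closure, Finset.coe_image, Set.image_image]
    have h3 : (fun s => (SemidirectProduct.inl (psi P s).left : LL P)) '' (S : Set (OR P)) =
        psi P '' (S : Set (OR P)) := by
      apply Set.image_congr
      intro s hs
      have : s ∈ K := by rw [← hS]; exact Subgroup.subset_closure hs
      exact (hleft s this).symm
    rw [h3, ← MonoidHom.map_closure, hS]
    ext x
    constructor
    · rintro ⟨k, hk, rfl⟩
      exact ⟨(psi P k).left, ⟨k, hk, hleft k hk⟩, (hleft k hk).symm⟩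
    · rintro ⟨w, hw, rfl⟩
      exact hw
  have hconj : ∀ w : Wd Y, (SemidirectProduct.inl (sgA P w) : LL P) =
      psi P (og P (Sum.inl true)) * SemidirectProduct.inl w * (psi P (og P (Sum.inl true)))⁻¹ := by
    intro w
    have h4 : psi P (og P (Sum.inl true)) = SemidirectProduct.inr (Multiplicative.ofAdd 1) := by
      simp [psi, oh_og]
    rw [h4, ← map_inv, ← SemidirectProduct.inl_aut]
    congr 1
  have hinv : K0.map (sgA P).toMonoidHom = K0 := by
    apply le_antisymm
    · rintro _ ⟨w, hw, rfl⟩
      obtain ⟨k, hk, hk2⟩ := hw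
      refine ⟨og P (Sum.inl true) * k * (og P (Sum.inl true))⁻¹, hK.conj_mem k hk _, ?_⟩
      rw [map_mul, map_mul, map_inv, hk2]
      exact (hconj w).symm
    · intro w hw
      obtain ⟨k, hk, hk2⟩ := hw
      refine ⟨(sgA P)⁻¹ w, ?_, MulAut.apply_inv_self _ _ _⟩
      refine ⟨(og P (Sum.inl true))⁻¹ * k * (og P (Sum.inl true)), ?_, ?_⟩
      · have := hK.conj_mem k hk (og P (Sum.inl true))⁻¹
        rwa [inv_inv] at this
      · have h5 := hconj ((sgA P)⁻¹ w)
        rw [MulAut.apply_inv_self] at h5
        rw [map_mul, map_mul, map_inv, hk2, h5]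
        group
  have h6 := fix_trivial hP K0 hfg hinv
  rw [eq_bot_iff]
  intro k hk
  have h7 : (psi P k).left ∈ K0 := ⟨k, hk, hleft k hk⟩
  rw [h6, Subgroup.mem_bot] at h7
  have h8 : psi P k = 1 := by rw [hleft k hk, h7, map_one]
  rw [Subgroup.mem_bot]
  exact psi_injective (h8.trans (map_one _).symm)

/-- **One-relator groups.** -/
theorem isQ_OR (hP : P ≠ 1) (hPc : P ∈ commutator (FreeGroup Y)) : IsQ (OR P) := by
  classical
  have hY : Nonempty Y := by
    by_contra h
    rw [not_nonempty_iff] at h
    exact hP (Subsingleton.elim _ _)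
  obtain ⟨y⟩ := hY
  -- the abelianization
  have hrel : (Abelianization.of (orel P) : Abelianization (FreeGroup (Bool ⊕ Y))) = 1 := by
    rw [orel, map_mul, map_commutatorElement]
    rw [commutatorElement_eq_one_iff_commute.mpr (Commute.all _ _), one_mul]
    have h1 : commutator (FreeGroup Y) ≤ (Abelianization.of.comp
      (FreeGroup.map (Sum.inr : Y → Bool ⊕ Y))).ker := Abelianization.commutator_subset_ker _
    exact h1 hPc
  let p : OR P →* Abelianization (FreeGroup (Bool ⊕ Y)) :=
    oh P (fun x => Abelianization.of (FreeGroup.of x)) (by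
      have : FreeGroup.lift (fun x : Bool ⊕ Y => Abelianization.of (FreeGroup.of x)) =
        Abelianization.of := by ext x; simp
      rw [this, hrel])
  let P1 : Abelianization (OR P) →* Abelianization (FreeGroup (Bool ⊕ Y)) := Abelianization.lift p
  let R : Abelianization (FreeGroup (Bool ⊕ Y)) →* Abelianization (OR P) :=
    Abelianization.map (PresentedGroup.mk _)
  have hRP : R.comp P1 = MonoidHom.id _ := by
    apply Abelianization.hom_ext
    apply or_ext
    intro x
    simp only [MonoidHom.comp_apply, MonoidHom.id_apply, P1, Abelianization.lift_apply_of, p,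
      oh_og, R, Abelianization.map_of]
    rfl
  have hPinj : Function.Injective P1 := by
    intro x y hxy
    have h1 := DFunLike.congr_fun hRP x
    have h2 := DFunLike.congr_fun hRP y
    simp only [MonoidHom.comp_apply, MonoidHom.id_apply] at h1 h2
    rw [← h1, ← h2, hxy]
  have hof : ∀ x : Bool ⊕ Y, Abelianization.of (og P x) ≠ 1 := by
    intro x h
    have h1 : P1 (Abelianization.of (og P x)) = Abelianization.of (FreeGroup.of x) := by
      simp only [P1, Abelianization.lift_apply_of, p, oh_og]
    rw [h, map_one] at h1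
    have h2 : (Abelianization.lift (FreeGroup.lift fun _ : Bool ⊕ Y =>
      Multiplicative.ofAdd (1 : ℤ))) (Abelianization.of (FreeGroup.of x)) =
        Multiplicative.ofAdd (1 : ℤ) := by simp
    rw [← h1, map_one] at h2
    exact absurd h2 (by decide)
  have htf : IsMulTorsionFree (Abelianization (OR P)) := Function.Injective.isMulTorsionFree P1 hPinj
  refine ⟨htf, ⟨_, _, hof (Sum.inl false)⟩, ?_, fun K h1 h2 h3 => nfg_OR hP K h1 h2 h3⟩
  let Q := Abelianization (OR P)
  let v : Af Q := SemidirectProduct.inl (Multiplicative.ofAdd (-1))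
  let f : Bool ⊕ Y → Af Q := fun x => match x with
    | Sum.inl b => SemidirectProduct.inr (Abelianization.of (og P (Sum.inl b)))
    | Sum.inr y => v * SemidirectProduct.inr (Abelianization.of (og P (Sum.inr y))) * v⁻¹
  have hf : FreeGroup.lift f (orel P) = 1 := by
    rw [lift_orel]
    have h1 : ⁅f (Sum.inl false), f (Sum.inl true)⁆ = 1 := by
      rw [commutatorElement_eq_one_iff_commute]
      exact (Commute.all _ _).map (SemidirectProduct.inr : Q →* Af Q)
    have h2 : FreeGroup.lift (fun y => f (Sum.inr y)) = ((MulAut.conj v).toMonoidHom.comp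
      (SemidirectProduct.inr : Q →* Af Q)).comp
        (FreeGroup.lift fun y => (Abelianization.of (og P (Sum.inr y)) : Q)) := by
      ext y <;> simp [f]
    have h3 : FreeGroup.lift (fun y => (Abelianization.of (og P (Sum.inr y)) : Q)) P = 1 := by
      have h4 : commutator (FreeGroup Y) ≤ (FreeGroup.lift
        (fun y => (Abelianization.of (og P (Sum.inr y)) : Q))).ker :=
          Abelianization.commutator_subset_ker _
      exact h4 hPc
    rw [h1, one_mul, h2, MonoidHom.comp_apply, h3, map_one]
  let Ψ : OR P →* Af Q := oh P f hf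
  have hΨ : SemidirectProduct.rightHom.comp Ψ = Abelianization.of := by
    apply or_ext
    rintro (x | y)
    · simp [Ψ, oh_og, f]
    · simp [Ψ, oh_og, f, v]
  have hD := isDer_of_hom Ψ hΨ
  refine ⟨_, hD, ⁅og P (Sum.inl false), og P (Sum.inr y)⁆,
    Subgroup.commutator_mem_commutator (Subgroup.mem_top _) (Subgroup.mem_top _), ?_⟩
  rw [hD.commutator]
  have e1 : (Ψ (og P (Sum.inl false))).left = 1 := by simp [Ψ, oh_og, f]
  have e2 : Multiplicative.toAdd (Ψ (og P (Sum.inr y))).left = gr (og P (Sum.inr y)) - 1 := by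
    have : Ψ (og P (Sum.inr y)) = v * SemidirectProduct.inr
        (Abelianization.of (og P (Sum.inr y))) * v⁻¹ := by
      simp [Ψ, oh_og, f]
    rw [this, left_conj]
    change -1 + gr (og P (Sum.inr y)) * -(-1 : MonoidAlgebra ℤ Q) = _
    rw [neg_neg, mul_one]
    abel
  rw [e1, e2, toAdd_one, mul_zero, zero_add]
  exact prod_ne_zero (hof _) (hof _)

end

/-! ### Surface groups -/

/-- The product of the commutators `[a_i, b_i]`. The generators are `(i, false)` and
`(i, true)`. -/
def surfRel (g : ℕ) : FreeGroup (Fin g × Bool) :=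
  (List.ofFn fun i : Fin g =>
    ⁅(FreeGroup.of (i, false) : FreeGroup (Fin g × Bool)), FreeGroup.of (i, true)⁆).prod

/-- The fundamental group of the closed orientable surface of genus `g`. -/
abbrev Surf (g : ℕ) := PresentedGroup ({surfRel g} : Set (FreeGroup (Fin g × Bool)))

theorem surfRel_comm (g : ℕ) : surfRel g ∈ commutator (FreeGroup (Fin g × Bool)) := by
  apply Subgroup.list_prod_mem
  intro x hx
  rw [List.mem_ofFn] at hx
  obtain ⟨i, rfl⟩ := hx
  exact Subgroup.commutator_mem_commutator (Subgroup.mem_top _) (Subgroup.mem_top _)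

theorem surfRel_ne (g : ℕ) : surfRel (g + 1) ≠ 1 := by
  intro h
  let f : FreeGroup (Fin (g + 1) × Bool) →* Equiv.Perm (Fin 3) := FreeGroup.lift fun p =>
    if p.1 = 0 then (if p.2 then Equiv.swap 1 2 else Equiv.swap 0 1) else 1
  have h1 : f (surfRel (g + 1)) = ⁅Equiv.swap (0 : Fin 3) 1, Equiv.swap 1 2⁆ := by
    rw [surfRel, List.ofFn_succ, List.prod_cons, map_mul, map_list_prod, List.map_ofFn]
    have h2 : (f ∘ fun i : Fin g => ⁅(FreeGroup.of (i.succ, false) :
        FreeGroup (Fin (g + 1) × Bool)), FreeGroup.of (i.succ, true)⁆) = fun _ => 1 := by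
      funext i
      simp [f, map_commutatorElement, Fin.succ_ne_zero]
    rw [h2]
    simp [f, map_commutatorElement]
  rw [h, map_one] at h1
  revert h1
  decide

/-- Renaming the generators. -/
def genEquiv (h : ℕ) : Fin (h + 1) × Bool ≃ Bool ⊕ (Fin h × Bool) where
  toFun p := Fin.cases (motive := fun _ => Bool ⊕ (Fin h × Bool)) (Sum.inl p.2)
    (fun i => Sum.inr (i, p.2)) p.1
  invFun x := match x with
    | Sum.inl b => (0, b)
    | Sum.inr (i, b) => (i.succ, b)
  left_inv := by
    rintro ⟨i, b⟩
    refine Fin.cases ?_ (fun j => ?_) i <;> rfl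
  right_inv := by
    rintro (b | ⟨i, b⟩) <;> rfl

theorem freeGroupCongr_surfRel (h : ℕ) :
    FreeGroup.freeGroupCongr (genEquiv h) (surfRel (h + 1)) = orel (surfRel h) := by
  have e : ∀ w, FreeGroup.freeGroupCongr (genEquiv h) w = FreeGroup.map (genEquiv h) w :=
    fun _ => rfl
  rw [e, surfRel, List.ofFn_succ, List.prod_cons, map_mul, map_commutatorElement, orel, surfRel,
    map_list_prod, map_list_prod, List.map_ofFn, List.map_ofFn]
  congr 1

/-- **Surface groups of genus at least two.** -/
theorem isQ_surf (g : ℕ) (hg : 2 ≤ g) : IsQ (Surf g) := by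
  obtain ⟨h, rfl⟩ := Nat.exists_eq_add_of_le' hg
  have h1 := isQ_OR (surfRel_ne h) (surfRel_comm (h + 1))
  have h2 : (FreeGroup.freeGroupCongr (genEquiv (h + 1)) '' {surfRel (h + 1 + 1)}) =
      {orel (surfRel (h + 1))} := by
    rw [Set.image_singleton, freeGroupCongr_surfRel]
  have e := PresentedGroup.equivPresentedGroup {surfRel (h + 1 + 1)} (genEquiv (h + 1))
  rw [h2] at e
  exact h1.congr e.symm

end Run7.h41.PF
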