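import Mathlib

/-!
# Relative presentations and their `Q**`-transformations

`H` is the fundamental group of the fixed complex `L`. A relative complex of dimension at most two
with `n` one-cells and `k` two-cells outside of `L` is encoded by `k` relators in `H * F_n`.
-/

set_option autoImplicit false

namespace Pool.Agent.Run7.h41.Alg

open Monoid

/-- A relative presentation over `H`: free generators `x_0, …, x_{n-1}` and relators
`w_0, …, w_{k-1}` in the free product of `H` and the free group on the `x_i`. -/
structure RelPres (H : Type) [Group H] where
  /-- the number of generators which are added -/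
  n : ℕ
  /-- the number of relators which are added -/
  k : ℕ
  /-- the relators -/
  w : Fin k → Coprod H (FreeGroup (Fin n))

/-- The elementary transformations of relative presentations over `H`. -/
inductive Move {H : Type} [Group H] : RelPres H → RelPres H → Prop
  /-- invert a relator -/
  | inv (n k : ℕ) (w : Fin k → Coprod H (FreeGroup (Fin n))) (i : Fin k) :
      Move ⟨n, k, w⟩ ⟨n, k, Function.update w i (w i)⁻¹⟩
  /-- multiply a relator by another one -/
  | mul (n k : ℕ) (w : Fin k → Coprod H (FreeGroup (Fin n))) (i j : Fin k) (h : i ≠ j) :
      Move ⟨n, k, w⟩ ⟨n, k, Function.update w i (w i * w j)⟩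
  /-- conjugate a relator by an arbitrary element of `H * F_n` -/
  | conj (n k : ℕ) (w : Fin k → Coprod H (FreeGroup (Fin n))) (i : Fin k)
      (g : Coprod H (FreeGroup (Fin n))) :
      Move ⟨n, k, w⟩ ⟨n, k, Function.update w i (g * w i * g⁻¹)⟩
  /-- apply an automorphism of `H * F_n` which is the identity on `H` to all relators -/
  | aut (n k : ℕ) (w : Fin k → Coprod H (FreeGroup (Fin n)))
      (α : MulAut (Coprod H (FreeGroup (Fin n)))) (hα : ∀ h : H, α (Coprod.inl h) = Coprod.inl h) :
      Move ⟨n, k, w⟩ ⟨n, k, fun i => α (w i)⟩
  /-- add a generator and a relator equal to it -/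
  | stab (n k : ℕ) (w : Fin k → Coprod H (FreeGroup (Fin n))) :
      Move ⟨n, k, w⟩ ⟨n + 1, k + 1, Fin.snoc
        (fun i => Coprod.map (MonoidHom.id H) (FreeGroup.map Fin.castSucc) (w i))
        (Coprod.inr (FreeGroup.of (Fin.last n)))⟩

/-- `Q**`-equivalence over `H`: the equivalence relation generated by the elementary
transformations. -/
def QEquiv {H : Type} [Group H] : RelPres H → RelPres H → Prop := Relation.EqvGen Move

/-- the relative presentation without generators and with one relator `r ∈ H` -/
def single {H : Type} [Group H] (r : H) : RelPres H := ⟨0, 1, fun _ => Coprod.inl r⟩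

end Pool.Agent.Run7.h41.Alg
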