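import Pool.Agent.Run7.h41.NoExt

/-!
# The group `H = 2O * Z/3` and its two killers
-/

set_option autoImplicit false

namespace Pool.Agent.Run7.h41

open FreeGroup (of)

/-- the relators `s³ (st)⁻²`, `t⁴ (st)⁻²`, `y³` in the free group on `s, t, y` -/
def relH : Set (FreeGroup (Fin 3)) :=
  {of 0 * of 0 * of 0 * ((of 0 * of 1) * (of 0 * of 1))⁻¹,
   of 1 * of 1 * of 1 * of 1 * ((of 0 * of 1) * (of 0 * of 1))⁻¹,
   of 2 * of 2 * of 2}

/-- the group `⟨s, t, y | s³ = (st)² = t⁴, y³⟩` -/
abbrev HH : Type := PresentedGroup relH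

/-- the generator `s` -/
def gs : HH := PresentedGroup.of 0
/-- the generator `t` -/
def gt : HH := PresentedGroup.of 1
/-- the generator `y` -/
def gy : HH := PresentedGroup.of 2

theorem relH1 : gs * gs * gs = (gs * gt) * (gs * gt) := by
  have h := PresentedGroup.one_of_mem (rels := relH)
    (x := of 0 * of 0 * of 0 * ((of 0 * of 1) * (of 0 * of 1))⁻¹) (by simp [relH])
  rw [_root_.map_mul, _root_.map_inv] at h
  simp only [_root_.map_mul] at h
  exact mul_inv_eq_one.1 h

theorem relH2 : gt * gt * gt * gt = (gs * gt) * (gs * gt) := by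
  have h := PresentedGroup.one_of_mem (rels := relH)
    (x := of 1 * of 1 * of 1 * of 1 * ((of 0 * of 1) * (of 0 * of 1))⁻¹) (by simp [relH])
  rw [_root_.map_mul, _root_.map_inv] at h
  simp only [_root_.map_mul] at h
  exact mul_inv_eq_one.1 h

theorem relH3 : gy * gy * gy = 1 := by
  have h := PresentedGroup.one_of_mem (rels := relH) (x := of 2 * of 2 * of 2) (by simp [relH])
  simp only [_root_.map_mul] at h
  exact h

instance : Group.IsFinitelyPresented HH := by
  refine ⟨⟨3, PresentedGroup.mk relH, PresentedGroup.mk_surjective relH, relH, ?_, ?_⟩⟩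
  · exact ((Set.finite_singleton _).insert _).insert _
  · exact (QuotientGroup.ker_mk' _).symm

section
variable {Q : Type*} [Group Q] {s t y : Q}

/-- the first killer -/
theorem kill1 (h1 : s * s * s = (s * t) * (s * t)) (h2 : t * t * t * t = (s * t) * (s * t))
    (h3 : y * y * y = 1) (h4 : t * y = 1) : s = 1 ∧ t = 1 ∧ y = 1 := by
  have hy : y = t⁻¹ := eq_inv_of_mul_eq_one_right h4
  subst hy
  have ht3 : t * t * t = 1 := by
    have : (t * t * t)⁻¹ = 1 := by rw [← h3]; group
    exact inv_eq_one.1 this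
  have h5 : (s * t) * (s * t) = t := by rw [← h2, ht3, one_mul]
  rw [h5] at h1
  have hc : s * t = t * s := by
    rw [← h1]
    simp only [mul_assoc]
  have h6 : s * s * t = 1 := by
    have h7 : s * s * t * t = t := by
      calc s * s * t * t = s * (s * t) * t := by simp only [mul_assoc]
        _ = s * (t * s) * t := by rw [hc]
        _ = (s * t) * (s * t) := by simp only [mul_assoc]
        _ = t := h5
    exact mul_eq_right.1 h7
  have h7 : s * s = t * t := by
    have h8 : s * s * t = t * t * t := by rw [h6, ht3]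
    exact mul_right_cancel h8
  have h8 : s = t⁻¹ := by
    have h9 : s * (t * t) = t := by
      rw [← h7, ← mul_assoc]
      exact h1
    have h10 : s * t * t = 1 * t := by rw [mul_assoc, h9, one_mul]
    exact eq_inv_of_mul_eq_one_left (mul_right_cancel h10)
  have h9 : t = 1 := by
    rw [h8] at h7
    have h10 : t * t * t * t = 1 := by
      calc t * t * t * t = (t * t) * (t * t) := by simp only [mul_assoc]
        _ = (t * t) * (t⁻¹ * t⁻¹) := by rw [h7]
        _ = 1 := by group
    rwa [ht3, one_mul] at h10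
  rw [h9] at h8 ⊢
  simp [h8]

/-- the second killer -/
theorem kill2 (h1 : s * s * s = (s * t) * (s * t)) (h2 : t * t * t * t = (s * t) * (s * t))
    (h3 : y * y * y = 1) (h4 : s * t * y = 1) : s = 1 ∧ t = 1 ∧ y = 1 := by
  have hy : y = (s * t)⁻¹ := eq_inv_of_mul_eq_one_right h4
  subst hy
  obtain ⟨a, ha⟩ : ∃ a, a = s * t := ⟨_, rfl⟩
  rw [← ha] at h1 h2 h3
  have ha3 : a * a * a = 1 := by
    have : (a * a * a)⁻¹ = 1 := by rw [← h3]; group
    exact inv_eq_one.1 this
  have haa : a * a = a⁻¹ := eq_inv_of_mul_eq_one_left ha3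
  rw [haa] at h1 h2
  -- `a⁻¹` commutes with `s`
  have hsa : s * a⁻¹ = a⁻¹ * s := by
    rw [← h1]
    simp only [mul_assoc]
  have hsa' : s * a = a * s := by
    have h5 : a * (s * a⁻¹) * a = a * (a⁻¹ * s) * a := by rw [hsa]
    have h6 : a * s = s * a := by simpa [mul_assoc] using h5
    exact h6.symm
  have ht : t = s⁻¹ * a := by rw [ha]; group
  have hst : s * t = t * s := by
    rw [ht]
    have : s⁻¹ * a * s = s⁻¹ * (s * a) := by rw [hsa', mul_assoc]
    rw [this]
    group
  -- powers
  have hc : Commute s⁻¹ a := (Commute.inv_left hsa')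
  have a3 : a ^ 3 = 1 := by rw [pow_three']; exact ha3
  have s3 : s ^ 3 = a⁻¹ := by rw [pow_three']; exact h1
  have t4 : (s⁻¹ * a) ^ 4 = a⁻¹ := by rw [← ht, pow_succ, pow_three']; exact h2
  rw [hc.mul_pow] at t4
  have a4 : a ^ 4 = a := by rw [pow_succ, a3, one_mul]
  rw [a4] at t4
  have s4 : s ^ 4 = a⁻¹ := by
    have h5 : s⁻¹ ^ 4 = a⁻¹ * a⁻¹ := eq_mul_inv_of_mul_eq t4
    have h6 : a⁻¹ * a⁻¹ = a := by
      have : a⁻¹ * a⁻¹ = (a * a)⁻¹ := by group
      rw [this, haa, inv_inv]
    rw [h6, inv_pow] at h5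
    rw [← h5, inv_inv]
  have s1 : s = 1 := by
    rw [pow_succ, s3] at s4
    exact mul_eq_left.1 s4
  have a1 : a = 1 := by
    rw [s1, one_pow] at s3
    exact inv_eq_one.1 s3.symm
  rw [ht, s1, a1]
  simp

/-- the relations in a commutative group -/
theorem comm_rel {Q : Type*} [CommGroup Q] {s t : Q} (h1 : s * s * s = (s * t) * (s * t))
    (h2 : t * t * t * t = (s * t) * (s * t)) : s = 1 := by
  have h3 : s = t * t := by
    have h4 : s * (s * s) = (t * t) * (s * s) := by
      calc s * (s * s) = s * s * s := by rw [mul_assoc]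
        _ = (s * t) * (s * t) := h1
        _ = (t * t) * (s * s) := by rw [mul_mul_mul_comm, mul_comm]
    exact mul_right_cancel h4
  have h5 : s * s = s * s * s := by
    calc s * s = t * t * t * t := by
          rw [mul_assoc (t * t) t t, ← h3]
      _ = (s * t) * (s * t) := h2
      _ = s * s * s := h1.symm
  exact mul_eq_left.1 h5.symm
end

/-- a normal subgroup which contains the generators is everything -/
theorem top_of_gens {N : Subgroup HH} (h0 : gs ∈ N) (h1 : gt ∈ N) (h2 : gy ∈ N) : N = ⊤ := by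
  rw [eq_top_iff, ← PresentedGroup.closure_range_of relH, Subgroup.closure_le]
  rintro _ ⟨i, rfl⟩
  fin_cases i
  · exact h0
  · exact h1
  · exact h2

theorem killer1 : Subgroup.normalClosure {gt * gy} = (⊤ : Subgroup HH) := by
  set N : Subgroup HH := Subgroup.normalClosure {gt * gy} with hN
  have h : (QuotientGroup.mk' N) (gt * gy) = 1 := by
    rw [QuotientGroup.mk'_apply, QuotientGroup.eq_one_iff]
    exact Subgroup.subset_normalClosure (Set.mem_singleton _)
  have e1 := congrArg (QuotientGroup.mk' N) relH1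
  have e2 := congrArg (QuotientGroup.mk' N) relH2
  have e3 := congrArg (QuotientGroup.mk' N) relH3
  simp only [_root_.map_mul, _root_.map_one] at e1 e2 e3 h
  obtain ⟨a, b, c⟩ := kill1 e1 e2 e3 h
  exact top_of_gens ((QuotientGroup.eq_one_iff _).1 a) ((QuotientGroup.eq_one_iff _).1 b)
    ((QuotientGroup.eq_one_iff _).1 c)

theorem killer2 : Subgroup.normalClosure {gs * gt * gy} = (⊤ : Subgroup HH) := by
  set N : Subgroup HH := Subgroup.normalClosure {gs * gt * gy} with hN
  have h : (QuotientGroup.mk' N) (gs * gt * gy) = 1 := by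
    rw [QuotientGroup.mk'_apply, QuotientGroup.eq_one_iff]
    exact Subgroup.subset_normalClosure (Set.mem_singleton _)
  have e1 := congrArg (QuotientGroup.mk' N) relH1
  have e2 := congrArg (QuotientGroup.mk' N) relH2
  have e3 := congrArg (QuotientGroup.mk' N) relH3
  simp only [_root_.map_mul, _root_.map_one] at e1 e2 e3 h
  obtain ⟨a, b, c⟩ := kill2 e1 e2 e3 h
  exact top_of_gens ((QuotientGroup.eq_one_iff _).1 a) ((QuotientGroup.eq_one_iff _).1 b)
    ((QuotientGroup.eq_one_iff _).1 c)

theorem gs_mem_commutator : gs ∈ commutator HH := by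
  have e1 := congrArg (Abelianization.of) relH1
  have e2 := congrArg (Abelianization.of) relH2
  simp only [_root_.map_mul] at e1 e2
  have h := comm_rel e1 e2
  exact (QuotientGroup.eq_one_iff _).1 h

/-- the two killers agree in the abelianization -/
theorem killers_comm : (gt * gy)⁻¹ * (gs * gt * gy) ∈ commutator HH := by
  have h : (gt * gy)⁻¹ * (gs * gt * gy) = (gt * gy)⁻¹ * gs * ((gt * gy)⁻¹)⁻¹ := by group
  rw [h]
  exact (inferInstance : (commutator HH).Normal).conj_mem _ gs_mem_commutator _

/-- the representations -/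
noncomputable def rho (y : Gam) (hy : (y : Quaternion ℝ).re = -1 / 2) : HH →* Gam :=
  PresentedGroup.toGroup (rels := relH) (f := ![sg, tq, y]) (by
    intro r hr
    simp only [relH, Set.mem_insert_iff, Set.mem_singleton_iff] at hr
    rcases hr with rfl | rfl | rfl
    · simp only [_root_.map_mul, _root_.map_inv, FreeGroup.lift_apply_of, Matrix.cons_val_zero,
        Matrix.cons_val_one]
      rw [s3, st2, mul_inv_cancel]
    · simp only [_root_.map_mul, _root_.map_inv, FreeGroup.lift_apply_of, Matrix.cons_val_zero,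
        Matrix.cons_val_one]
      rw [t4, st2, mul_inv_cancel]
    · simp only [_root_.map_mul, FreeGroup.lift_apply_of, Matrix.cons_val]
      exact y3 hy)

theorem rho_s (y : Gam) (hy) : rho y hy gs = sg := PresentedGroup.toGroup.of _
theorem rho_t (y : Gam) (hy) : rho y hy gt = tq := PresentedGroup.toGroup.of _
theorem rho_y (y : Gam) (hy) : rho y hy gy = y := PresentedGroup.toGroup.of _

end Pool.Agent.Run7.h41
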