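import Pool.Agent.Run7.h41.AlgDefs
import Pool.Agent.Run7.h41.AlgGroup

/-!
# The invariant of relative presentations over `HH`
-/

set_option autoImplicit false

namespace Pool.Agent.Run7.h41.Alg

open Monoid Pool.Agent.Run7.h41 Topology

/-- the central elements -/
def Cen (g : Gam) : Prop := g = 1 ∨ g = -1

theorem cen_one : Cen 1 := Or.inl rfl

theorem neg_mul_g (a b : Gam) : -a * b = -(a * b) := by
  apply Subtype.ext
  rw [g_mul, g_neg, g_neg, g_mul, neg_mul]
theorem mul_neg_g (a b : Gam) : a * -b = -(a * b) := by
  apply Subtype.ext
  rw [g_mul, g_neg, g_neg, g_mul, mul_neg]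
theorem neg_neg_g (a : Gam) : - -a = a := by
  apply Subtype.ext
  rw [g_neg, g_neg, neg_neg]
theorem neg_inv_g (a : Gam) : (-a)⁻¹ = -a⁻¹ := by
  apply Subtype.ext
  rw [g_inv, g_neg, g_neg, g_inv, star_neg]

theorem Cen.mul {a b : Gam} (ha : Cen a) (hb : Cen b) : Cen (a * b) := by
  rcases ha with rfl | rfl <;> rcases hb with rfl | rfl
  · left; rw [mul_one]
  · right; rw [one_mul]
  · right; rw [mul_one]
  · left; rw [neg_mul_g, one_mul, neg_neg_g]

theorem Cen.inv {a : Gam} (ha : Cen a) : Cen a⁻¹ := by
  rcases ha with rfl | rfl
  · left; rw [inv_one]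
  · right; rw [neg_inv_g, inv_one]

theorem Cen.conj {a : Gam} (ha : Cen a) (g : Gam) : Cen (g * a * g⁻¹) := by
  rcases ha with rfl | rfl
  · left; rw [mul_one, mul_inv_cancel]
  · right; rw [mul_neg_g, mul_one, neg_mul_g, mul_inv_cancel]

theorem cen_inv_iff {a : Gam} : Cen a⁻¹ ↔ Cen a :=
  ⟨fun h => by have := h.inv; rwa [inv_inv] at this, Cen.inv⟩

theorem cen_conj_iff {a g : Gam} : Cen (g * a * g⁻¹) ↔ Cen a := by
  refine ⟨fun h => ?_, fun h => h.conj g⟩
  have := h.conj g⁻¹
  rwa [show g⁻¹ * (g * a * g⁻¹) * g⁻¹⁻¹ = a by group] at this

/-- the boundary of the ball -/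
def Bd (y : Dn) : Prop := ((y : Gam) : Quaternion ℝ).re = -1 / 2

/-- evaluation -/
noncomputable def ev (y : Dn) (hy : Bd y) {n : ℕ} (x : Fin n → Gam) :
    Coprod HH (FreeGroup (Fin n)) →* Gam :=
  Coprod.lift (rho y hy) (FreeGroup.lift x)

/-- the elements whose evaluation extends continuously to the ball -/
def Lft (n : ℕ) : Subgroup (Coprod HH (FreeGroup (Fin n))) where
  carrier := {g | ∃ G : Dn × (Fin n → Gam) → Gam, Continuous G ∧
    ∀ (y : Dn) (hy : Bd y) (x : Fin n → Gam), G (y, x) = ev y hy x g}
  mul_mem' := by
    rintro a b ⟨A, hA, hA'⟩ ⟨B, hB, hB'⟩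
    exact ⟨fun d => A d * B d, hA.mul hB, fun y hy x => by
      show A (y, x) * B (y, x) = _
      rw [hA' y hy x, hB' y hy x, map_mul]⟩
  one_mem' := ⟨fun _ => 1, continuous_const, fun y hy x => by rw [map_one]⟩
  inv_mem' := by
    rintro a ⟨A, hA, hA'⟩
    exact ⟨fun d => (A d)⁻¹, hA.inv, fun y hy x => by
      show (A (y, x))⁻¹ = _
      rw [hA' y hy x, map_inv]⟩

theorem lft_inl (n : ℕ) (h : HH) : (Coprod.inl h : Coprod HH (FreeGroup (Fin n))) ∈ Lft n := by
  have key : ∀ N : Subgroup HH, gs ∈ N → gt ∈ N → gy ∈ N → h ∈ N := fun N h0 h1 h2 => by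
    rw [top_of_gens h0 h1 h2]
    exact Subgroup.mem_top _
  apply key ((Lft n).comap Coprod.inl)
  · exact ⟨fun _ => sg, continuous_const, fun y hy x => (rho_s y hy).symm⟩
  · exact ⟨fun _ => tq, continuous_const, fun y hy x => (rho_t y hy).symm⟩
  · exact ⟨fun d => (d.1 : Gam), continuous_subtype_val.comp continuous_fst,
      fun y hy x => (rho_y y hy).symm⟩

theorem lft_inr (n : ℕ) (h : FreeGroup (Fin n)) :
    (Coprod.inr h : Coprod HH (FreeGroup (Fin n))) ∈ Lft n := by
  have h1 : (Subgroup.closure (Set.range (FreeGroup.of (α := Fin n)))) ≤ (Lft n).comap Coprod.inr := by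
    rw [Subgroup.closure_le]
    rintro _ ⟨i, rfl⟩
    refine ⟨fun d => d.2 i, (continuous_apply i).comp continuous_snd, fun y hy x => ?_⟩
    simp [ev]
  exact h1 (by rw [FreeGroup.closure_range_of]; exact Subgroup.mem_top _)

theorem lft_all {n : ℕ} (g : Coprod HH (FreeGroup (Fin n))) : g ∈ Lft n := by
  induction g using Coprod.induction_on with
  | inl h => exact lft_inl n h
  | inr h => exact lft_inr n h
  | mul a b ha hb => exact (Lft n).mul_mem ha hb

/-- the evaluation map of the relators, on the boundary of the ball, extends to the ball so that it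
avoids the central tuples, after some stabilizations -/
def SX (n k : ℕ) (w : Fin k → Coprod HH (FreeGroup (Fin n))) : Prop :=
  ∃ (J : ℕ) (W : Dn × (Fin n → Gam) × (Fin J → Gam) → (Fin k → Gam) × (Fin J → Gam)),
    Continuous W ∧
    (∀ (y : Dn) (hy : Bd y) (x : Fin n → Gam) (z : Fin J → Gam),
      W (y, x, z) = (fun i => ev y hy x (w i), z)) ∧
    ∀ d, ¬ ((∀ i, Cen ((W d).1 i)) ∧ ∀ j, Cen ((W d).2 j))

/-- the property for relative presentations -/
def SExt (P : RelPres HH) : Prop := SX P.n P.k P.w

/-- a fibrewise transformation of the values -/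
theorem sext_trans {n k : ℕ} {w w' : Fin k → Coprod HH (FreeGroup (Fin n))}
    (A : Dn × (Fin n → Gam) → (Fin k → Gam) → (Fin k → Gam))
    (hA : Continuous fun q : (Dn × (Fin n → Gam)) × (Fin k → Gam) => A q.1 q.2)
    (h1 : ∀ (y : Dn) (hy : Bd y) (x : Fin n → Gam),
      A (y, x) (fun i => ev y hy x (w i)) = fun i => ev y hy x (w' i))
    (h2 : ∀ d u, (∀ i, Cen (A d u i)) → ∀ i, Cen (u i)) (h : SX n k w) :
    SX n k w' := by
  obtain ⟨J, W, hW, hb, hc⟩ := h
  refine ⟨J, fun d => (A (d.1, d.2.1) (W d).1, (W d).2), ?_, ?_, ?_⟩
  · apply Continuous.prodMk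
    · exact hA.comp (Continuous.prodMk
        (Continuous.prodMk continuous_fst (continuous_fst.comp continuous_snd))
        (continuous_fst.comp hW))
    · exact continuous_snd.comp hW
  · intro y hy x z
    simp only [hb y hy x z]
    rw [h1]
  · rintro d ⟨h3, h4⟩
    exact hc d ⟨h2 _ _ h3, h4⟩

theorem sext_move {P P' : RelPres HH} (h : Move P P') : SExt P ↔ SExt P' := by
  cases h with
  | inv n k w i =>
    show SX n k w ↔ SX n k _
    have key : ∀ w : Fin k → Coprod HH (FreeGroup (Fin n)), SX n k w →
        SX n k (Function.update w i (w i)⁻¹) := by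
      intro w
      refine sext_trans (fun _ u => Function.update u i (u i)⁻¹) ?_ ?_ ?_
      · exact Continuous.update continuous_snd i ((continuous_apply i).comp continuous_snd).inv
      · intro y hy x
        funext j
        by_cases hj : j = i
        · subst hj; simp
        · simp [Function.update_of_ne hj]
      · intro d u h j
        have h3 := h j
        by_cases hj : j = i
        · subst hj
          rw [Function.update_self] at h3
          exact cen_inv_iff.1 h3
        · rwa [Function.update_of_ne hj] at h3
    refine ⟨key w, fun h => ?_⟩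
    have h2 := key _ h
    simpa using h2
  | mul n k w i j hij =>
    show SX n k w ↔ SX n k _
    constructor
    · refine sext_trans (fun _ u => Function.update u i (u i * u j)) ?_ ?_ ?_
      · exact Continuous.update continuous_snd i (((continuous_apply i).comp continuous_snd).mul
          ((continuous_apply j).comp continuous_snd))
      · intro y hy x
        funext l
        by_cases hl : l = i
        · subst hl; simp
        · simp [Function.update_of_ne hl]
      · intro d u h
        have h3 := h j
        rw [Function.update_of_ne hij.symm] at h3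
        intro l
        by_cases hl : l = i
        · subst hl
          have h4 := h l
          rw [Function.update_self] at h4
          have h5 := h4.mul h3.inv
          rwa [mul_inv_cancel_right] at h5
        · have h4 := h l
          rwa [Function.update_of_ne hl] at h4
    · intro h0
      have h1 := sext_trans (w := Function.update w i (w i * w j)) (w' := w)
        (fun _ u => Function.update u i (u i * (u j)⁻¹)) ?_ ?_ ?_ h0
      · exact h1
      · exact Continuous.update continuous_snd i (((continuous_apply i).comp continuous_snd).mul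
          ((continuous_apply j).comp continuous_snd).inv)
      · intro y hy x
        funext l
        by_cases hl : l = i
        · subst hl; simp [Function.update_of_ne hij.symm]
        · simp [Function.update_of_ne hl]
      · intro d u h
        have h3 := h j
        rw [Function.update_of_ne hij.symm] at h3
        intro l
        by_cases hl : l = i
        · subst hl
          have h4 := h l
          rw [Function.update_self] at h4
          have h5 := h4.mul h3
          rwa [inv_mul_cancel_right] at h5
        · have h4 := h l
          rwa [Function.update_of_ne hl] at h4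
  | conj n k w i g =>
    show SX n k w ↔ SX n k _
    have key : ∀ (w : Fin k → Coprod HH (FreeGroup (Fin n))) (g : Coprod HH (FreeGroup (Fin n))),
        SX n k w → SX n k (Function.update w i (g * w i * g⁻¹)) := by
      intro w g
      obtain ⟨G, hG, hG'⟩ := lft_all g
      refine sext_trans (fun d u => Function.update u i (G d * u i * (G d)⁻¹)) ?_ ?_ ?_
      · exact Continuous.update continuous_snd i (((hG.comp continuous_fst).mul
          ((continuous_apply i).comp continuous_snd)).mul (hG.comp continuous_fst).inv)
      · intro y hy x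
        funext l
        by_cases hl : l = i
        · subst hl; simp [hG' y hy x]
        · simp [Function.update_of_ne hl]
      · intro d u h l
        have h3 := h l
        by_cases hl : l = i
        · subst hl
          rw [Function.update_self] at h3
          exact cen_conj_iff.1 h3
        · rwa [Function.update_of_ne hl] at h3
    refine ⟨key w g, fun h => ?_⟩
    have h2 : SX n k (Function.update (Function.update w i (g * w i * g⁻¹)) i
        (g⁻¹ * Function.update w i (g * w i * g⁻¹) i * g⁻¹⁻¹)) := key _ g⁻¹ h
    rw [Function.update_self, Function.update_idem] at h2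
    rw [show g⁻¹ * (g * w i * g⁻¹) * g⁻¹⁻¹ = w i by group, Function.update_eq_self] at h2
    exact h2
  | aut n k w α hα =>
    show SX n k w ↔ SX n k _
    have key : ∀ (w : Fin k → Coprod HH (FreeGroup (Fin n)))
        (α : MulAut (Coprod HH (FreeGroup (Fin n)))), (∀ h : HH, α (Coprod.inl h) = Coprod.inl h) →
        SX n k w → SX n k (fun i => α (w i)) := by
      rintro w α hα ⟨J, W, hW, hb, hc⟩
      choose A hA hA' using fun j : Fin n => lft_all (α (Coprod.inr (FreeGroup.of j)))
      have hAc : Continuous fun d : Dn × (Fin n → Gam) => (fun j => A j d : Fin n → Gam) :=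
        continuous_pi hA
      have hev : ∀ (y : Dn) (hy : Bd y) (x : Fin n → Gam),
          (ev y hy x).comp α.toMonoidHom = ev y hy (fun j => A j (y, x)) := by
        intro y hy x
        apply Coprod.hom_ext
        · apply MonoidHom.ext
          intro h
          show ev y hy x (α (Coprod.inl h)) = _
          rw [hα]
          rfl
        · apply FreeGroup.ext_hom
          intro j
          show ev y hy x (α (Coprod.inr (FreeGroup.of j))) =
            ev y hy (fun j => A j (y, x)) (Coprod.inr (FreeGroup.of j))
          rw [← hA' j y hy x]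
          simp [ev]
      refine ⟨J, fun d => W (d.1, (fun j => A j (d.1, d.2.1)), d.2.2), ?_, ?_, ?_⟩
      · apply hW.comp
        refine Continuous.prodMk continuous_fst (Continuous.prodMk ?_
          (continuous_snd.comp continuous_snd))
        exact hAc.comp (Continuous.prodMk continuous_fst (continuous_fst.comp continuous_snd))
      · intro y hy x z
        show W (y, (fun j => A j (y, x)), z) = _
        rw [hb y hy]
        refine Prod.ext ?_ rfl
        funext i
        exact (DFunLike.congr_fun (hev y hy x) (w i)).symm
      · intro d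
        exact hc _
    refine ⟨key w α hα, fun h => ?_⟩
    have h2 := key _ α⁻¹ (fun h => by
      show α.symm (Coprod.inl h) = Coprod.inl h
      rw [MulEquiv.symm_apply_eq, hα]) h
    simpa using h2
  | stab n k w =>
    show SX n k w ↔ SX (n + 1) (k + 1) _
    have hev : ∀ (y : Dn) (hy : Bd y) (x : Fin (n + 1) → Gam),
        (ev y hy x).comp (Coprod.map (MonoidHom.id HH) (FreeGroup.map Fin.castSucc)) =
          ev y hy (Fin.init x) := by
      intro y hy x
      apply Coprod.hom_ext
      · rfl
      · apply FreeGroup.ext_hom
        intro j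
        simp [ev, Fin.init]
    constructor
    · rintro ⟨J, W, hW, hb, hc⟩
      refine ⟨J, fun d => (Fin.snoc (W (d.1, Fin.init d.2.1, d.2.2)).1 (d.2.1 (Fin.last n)),
        (W (d.1, Fin.init d.2.1, d.2.2)).2), ?_, ?_, ?_⟩
      · have h1 : Continuous fun d : Dn × (Fin (n + 1) → Gam) × (Fin J → Gam) =>
            W (d.1, Fin.init d.2.1, d.2.2) := by
          apply hW.comp
          refine Continuous.prodMk continuous_fst (Continuous.prodMk ?_
            (continuous_snd.comp continuous_snd))
          exact continuous_pi fun j =>
            (continuous_apply _).comp (continuous_fst.comp continuous_snd)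
        refine Continuous.prodMk ?_ (continuous_snd.comp h1)
        refine continuous_pi fun i => ?_
        refine Fin.lastCases ?_ (fun j => ?_) i
        · simp only [Fin.snoc_last]
          exact (continuous_apply _).comp (continuous_fst.comp continuous_snd)
        · simp only [Fin.snoc_castSucc]
          exact (continuous_apply j).comp (continuous_fst.comp h1)
      · intro y hy x z
        simp only [hb y hy]
        refine Prod.ext ?_ rfl
        funext i
        refine Fin.lastCases ?_ (fun j => ?_) i
        · simp [ev]
        · simp only [Fin.snoc_castSucc]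
          exact (DFunLike.congr_fun (hev y hy x) (w j)).symm
      · rintro d ⟨h1, h2⟩
        refine hc (d.1, Fin.init d.2.1, d.2.2) ⟨fun i => ?_, h2⟩
        have h3 := h1 (Fin.castSucc i)
        simpa using h3
    · rintro ⟨J, W, hW, hb, hc⟩
      refine ⟨J + 1, fun d => (Fin.init (W (d.1, Fin.snoc d.2.1 (d.2.2 (Fin.last J)), Fin.init d.2.2)).1,
        Fin.snoc (W (d.1, Fin.snoc d.2.1 (d.2.2 (Fin.last J)), Fin.init d.2.2)).2
          ((W (d.1, Fin.snoc d.2.1 (d.2.2 (Fin.last J)), Fin.init d.2.2)).1 (Fin.last k))), ?_, ?_, ?_⟩
      · have h1 : Continuous fun d : Dn × (Fin n → Gam) × (Fin (J + 1) → Gam) =>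
            W (d.1, Fin.snoc d.2.1 (d.2.2 (Fin.last J)), Fin.init d.2.2) := by
          apply hW.comp
          refine Continuous.prodMk continuous_fst (Continuous.prodMk ?_ ?_)
          · refine continuous_pi fun i => ?_
            refine Fin.lastCases ?_ (fun j => ?_) i
            · simp only [Fin.snoc_last]
              exact (continuous_apply _).comp (continuous_snd.comp continuous_snd)
            · simp only [Fin.snoc_castSucc]
              exact (continuous_apply j).comp (continuous_fst.comp continuous_snd)
          · exact continuous_pi fun j =>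
              (continuous_apply _).comp (continuous_snd.comp continuous_snd)
        refine Continuous.prodMk ?_ ?_
        · exact continuous_pi fun j => (continuous_apply _).comp (continuous_fst.comp h1)
        · refine continuous_pi fun i => ?_
          refine Fin.lastCases ?_ (fun j => ?_) i
          · simp only [Fin.snoc_last]
            exact (continuous_apply _).comp (continuous_fst.comp h1)
          · simp only [Fin.snoc_castSucc]
            exact (continuous_apply j).comp (continuous_snd.comp h1)
      · intro y hy x z
        simp only [hb y hy]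
        refine Prod.ext ?_ ?_
        · funext i
          simp only [Fin.init, Fin.snoc_castSucc]
          have h2 := DFunLike.congr_fun (hev y hy (Fin.snoc x (z (Fin.last J)))) (w i)
          rw [Fin.init_snoc] at h2
          exact h2
        · funext i
          refine Fin.lastCases ?_ (fun j => ?_) i
          · simp [ev]
          · simp [Fin.init]
      · rintro d ⟨h1, h2⟩
        refine hc (d.1, Fin.snoc d.2.1 (d.2.2 (Fin.last J)), Fin.init d.2.2)
          ⟨fun i => ?_, fun j => ?_⟩
        · refine Fin.lastCases ?_ (fun j => ?_) i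
          · have h3 := h2 (Fin.last J)
            simpa using h3
          · exact h1 j
        · have h3 := h2 (Fin.castSucc j)
          simpa using h3

theorem sext_equiv {P P' : RelPres HH} (h : QEquiv P P') : SExt P ↔ SExt P' := by
  induction h with
  | rel _ _ h => exact sext_move h
  | refl _ => exact Iff.rfl
  | symm _ _ _ ih => exact ih.symm
  | trans _ _ _ _ _ ih1 ih2 => exact ih1.trans ih2

/-- the relator `s t y` has the extension property -/
theorem sext_two : SExt (single (gs * gt * gy)) := by
  show SX 0 1 _
  refine ⟨0, fun d => (fun _ => sg * tq * (d.1 : Gam), d.2.2), ?_, ?_, ?_⟩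
  · apply Continuous.prodMk
    · exact continuous_pi fun _ => continuous_const.mul (continuous_subtype_val.comp continuous_fst)
    · exact continuous_snd.comp continuous_snd
  · intro y hy x z
    refine Prod.ext ?_ rfl
    funext i
    show sg * tq * (y : Gam) = rho y hy (gs * gt * gy)
    rw [map_mul, map_mul, rho_s, rho_t, rho_y]
  · rintro d ⟨h1, -⟩
    have h2 : Cen (sg * tq * (d.1 : Gam)) := h1 (0 : Fin 1)
    have h3 : ∀ e : Gam, (e = 1 ∨ e = -1) → sg * tq * (d.1 : Gam) = e → ((d.1 : Gam) : Quaternion ℝ).re = 0 := by
      intro e he h4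
      have h5 : (d.1 : Gam) = (sg * tq)⁻¹ * e := by rw [← h4]; group
      rw [h5]
      have h6 : (((sg * tq)⁻¹ : Gam) : Quaternion ℝ).re = 0 := by
        rw [g_inv]
        simp [sg, tq]
      rcases he with rfl | rfl
      · rw [mul_one]; exact h6
      · rw [mul_neg_g, mul_one, g_neg, Quaternion.re_neg, h6, neg_zero]
    have h4 := h3 _ h2 rfl
    have h5 := d.1.2
    rw [h4] at h5
    norm_num at h5

/-- the relator `t y` does not have the extension property -/
theorem not_sext_one : ¬ SExt (single (gt * gy)) := by
  show ¬ SX 0 1 _
  rintro ⟨J, W, hW, hb, hc⟩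
  refine noExt (J := Fin J) (fun d o => match o with
    | none => (W (d.1, Fin.elim0, d.2)).1 (0 : Fin 1)
    | some j => (W (d.1, Fin.elim0, d.2)).2 j) ?_ ?_ ?_
  · have h1 : Continuous fun d : Dn × (Fin J → Gam) =>
        W (d.1, (Fin.elim0 : Fin 0 → Gam), d.2) :=
      hW.comp (Continuous.prodMk continuous_fst (Continuous.prodMk continuous_const continuous_snd))
    refine continuous_pi fun o => ?_
    cases o with
    | none => exact (continuous_apply _).comp (continuous_fst.comp h1)
    | some j => exact (continuous_apply _).comp (continuous_snd.comp h1)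
  · intro y x hy
    have h1 := hb y hy (Fin.elim0 : Fin 0 → Gam) x
    refine ⟨?_, fun j => ?_⟩
    · show (W (y, (Fin.elim0 : Fin 0 → Gam), x)).1 (0 : Fin 1) = _
      rw [h1]
      show rho y hy (gt * gy) = _
      rw [map_mul, rho_t, rho_y]
    · show (W (y, (Fin.elim0 : Fin 0 → Gam), x)).2 j = _
      rw [h1]
  · intro d
    by_contra hcon
    push Not at hcon
    apply hc (d.1, (Fin.elim0 : Fin 0 → Gam), d.2)
    refine ⟨fun i => ?_, fun j => ?_⟩
    · have hi : i = (0 : Fin 1) := Subsingleton.elim (α := Fin 1) _ _
      rw [hi]
      by_cases h : (W (d.1, (Fin.elim0 : Fin 0 → Gam), d.2)).1 (0 : Fin 1) = 1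
      · exact Or.inl h
      · exact Or.inr (hcon none h)
    · by_cases h : (W (d.1, (Fin.elim0 : Fin 0 → Gam), d.2)).2 j = 1
      · exact Or.inl h
      · exact Or.inr (hcon (some j) h)

theorem not_qequiv : ¬ QEquiv (single (gt * gy)) (single (gs * gt * gy)) :=
  fun h => not_sext_one ((sext_equiv h).2 sext_two)

end Pool.Agent.Run7.h41.Alg
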