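import Pool.Agent.Run7.h41.Word

/-!
# Attaching a disc along homotopic loops
-/

set_option autoImplicit false

namespace Pool.Agent.Run7.h41.Top

open Set Pool.Agent.Run7.h41.CW

/-- gluing maps on two compact pieces -/
theorem glue_two {X A D Y : Type} [TopologicalSpace X] [T2Space X] [TopologicalSpace A]
    [CompactSpace A] [TopologicalSpace D] [CompactSpace D] [TopologicalSpace Y]
    {α : A → X} (hα : Continuous α) {χ : D → X} (hχ : Continuous χ)
    (hcov : ∀ x, x ∈ range α ∨ x ∈ range χ)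
    (hinj : ∀ z z', χ z = χ z' → z = z' ∨ χ z ∈ range α)
    {β : A → Y} (hβ : Continuous β) {γ : D → Y} (hγ : Continuous γ)
    (hβα : ∀ a a', α a = α a' → β a = β a')
    (hc : ∀ a z, α a = χ z → β a = γ z) :
    ∃ F : X → Y, Continuous F ∧ (∀ a, F (α a) = β a) ∧ ∀ z, F (χ z) = γ z := by
  classical
  let F : X → Y := fun x => if h : x ∈ range α then β h.choose else
    γ ((hcov x).resolve_left h).choose
  have h1 : ∀ a, F (α a) = β a := by
    intro a
    have h : α a ∈ range α := ⟨a, rfl⟩
    simp only [F, dif_pos h]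
    exact hβα _ _ h.choose_spec
  have h2 : ∀ z, F (χ z) = γ z := by
    intro z
    by_cases h : χ z ∈ range α
    · obtain ⟨a, ha⟩ := h
      rw [← ha, h1]
      exact hc a z ha
    · simp only [F, dif_neg h]
      have h3 := ((hcov (χ z)).resolve_left h).choose_spec
      rcases hinj _ _ h3 with h4 | h4
      · rw [h4]
      · exact absurd (h3 ▸ h4) h
  refine ⟨F, ?_, h1, h2⟩
  let C : Bool → Type := fun b => cond b A D
  let _ : ∀ b, TopologicalSpace (C b) := fun b => by
    cases b
    · exact (inferInstance : TopologicalSpace D)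
    · exact (inferInstance : TopologicalSpace A)
  have _ : ∀ b, CompactSpace (C b) := fun b => by
    cases b
    · exact (inferInstance : CompactSpace D)
    · exact (inferInstance : CompactSpace A)
  let χ' : ∀ b, C b → X := fun b => match b with
    | true => α
    | false => χ
  have h3 := glue χ' (fun b => by cases b; exacts [hχ, hα]) F (fun b => by
    cases b
    · exact hγ.congr (fun z => (h2 z).symm)
    · exact hβ.congr (fun a => (h1 a).symm))
  have h4 : (⋃ b, range (χ' b)) = univ := by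
    ext x
    simp only [mem_iUnion, mem_univ, iff_true]
    rcases hcov x with h | h
    · exact ⟨true, h⟩
    · exact ⟨false, h⟩
  rw [h4] at h3
  exact continuousOn_univ.1 h3

/-- `X` is obtained from `A` by attaching a disc along the loop `φ`. -/
structure Att (A X : Type) [TopologicalSpace A] [TopologicalSpace X] (φ : ℝ → A) where
  /-- the inclusion -/
  α : A → X
  /-- the disc -/
  χ : Disc 2 → X
  cα : Continuous α
  cχ : Continuous χ
  inj : Function.Injective α
  cov : ∀ x, x ∈ range α ∨ x ∈ range χ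
  injχ : ∀ z z', χ z = χ z' → z = z' ∨ χ z ∈ range α
  bd : ∀ t, χ (circ t) = α (φ t)
  int : ∀ z, ‖z.1‖ < 1 → χ z ∉ range α

variable {A X X' Y : Type} [TopologicalSpace A] [CompactSpace A] [TopologicalSpace X] [T2Space X]
  [TopologicalSpace X'] [T2Space X'] [TopologicalSpace Y]

theorem Att.ext {φ : ℝ → A} (T : Att A X φ) {β : A → Y} (hβ : Continuous β) (g : ℝ → ℝ → Y)
    (hg : Continuous fun q : ℝ × ℝ => g q.1 q.2) (hper : ∀ r t, g r (t + 1) = g r t)
    (h0 : ∀ t, g 0 t = g 0 0) (h1 : ∀ t, g 1 t = β (φ t)) :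
    ∃ F : X → Y, Continuous F ∧ (∀ a, F (T.α a) = β a) ∧
      ∀ r t, 0 ≤ r → r ≤ 1 → F (T.χ (pol r t)) = g r t := by
  obtain ⟨γ, hγ, hγ1⟩ := polar_ext g hg hper h0
  obtain ⟨F, hF, hF1, hF2⟩ := glue_two T.cα T.cχ T.cov T.injχ hβ hγ
    (fun a a' h => by rw [T.inj h]) (fun a z h => by
      have h2 : ‖z.1‖ = 1 := by
        refine le_antisymm z.norm_le (not_lt.1 (fun h3 => T.int z h3 ⟨a, h⟩))
      obtain ⟨t, -, -, rfl⟩ := circ_surj h2
      rw [T.bd] at h
      rw [T.inj h, ← h1, ← hγ1 1 t zero_le_one le_rfl, pol_one])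
  exact ⟨F, hF, hF1, fun r t h2 h3 => (hF2 _).trans (hγ1 r t h2 h3)⟩

omit [CompactSpace A] [T2Space X] [TopologicalSpace Y] in
/-- two maps on `X` agree if they agree on both pieces -/
theorem Att.eq {φ : ℝ → A} (T : Att A X φ) {F G : X → Y} (h1 : ∀ a, F (T.α a) = G (T.α a))
    (h2 : ∀ r t, 0 ≤ r → r ≤ 1 → F (T.χ (pol r t)) = G (T.χ (pol r t))) (x : X) : F x = G x := by
  rcases T.cov x with ⟨a, rfl⟩ | ⟨z, rfl⟩
  · exact h1 a
  · obtain ⟨t, -, -, ht⟩ := pol_surj z
    rw [← ht]
    exact h2 _ _ (norm_nonneg _) z.norm_le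

/-- Attaching a disc along homotopic loops. -/
theorem Att.homotopic {φ φ' : ℝ → A} (T : Att A X φ) (T' : Att A X' φ') {Φ : ℝ → ℝ → A}
    (hΦ : Continuous fun q : ℝ × ℝ => Φ q.1 q.2) (hper : ∀ s t, Φ s (t + 1) = Φ s t)
    (h0 : ∀ t, Φ 0 t = φ t) (h1 : ∀ t, Φ 1 t = φ' t) :
    ∃ (F : C(X, X')) (G : C(X', X)), (G.comp F).Homotopic (ContinuousMap.id X) := by
  have hφ : Continuous φ := by
    have : Continuous fun t => Φ 0 t := hΦ.comp (by fun_prop : Continuous fun t : ℝ => ((0 : ℝ), t))
    exact this.congr h0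
  have hφ' : Continuous φ' := by
    have : Continuous fun t => Φ 1 t := hΦ.comp (by fun_prop : Continuous fun t : ℝ => ((1 : ℝ), t))
    exact this.congr h1
  have hφp : ∀ t, φ (t + 1) = φ t := fun t => by rw [← h0, ← h0, hper]
  have hφp' : ∀ t, φ' (t + 1) = φ' t := fun t => by rw [← h1, ← h1, hper]
  have hpol : Continuous fun q : ℝ × ℝ => pol q.1 q.2 := pol_continuous
  have pol0 : ∀ t, pol 0 t = pol 0 0 := fun t => cx_inj (by
    rw [pol_eq le_rfl zero_le_one, pol_eq le_rfl zero_le_one]; simp)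
  have polp : ∀ r t, pol r (t + 1) = pol r t := fun r t => by
    unfold pol
    simp only [ex_add_one]
  -- the maps
  obtain ⟨F, hF, hFα, hFχ⟩ := T.ext (β := T'.α) T'.cα
    (fun r t => if r ≤ 1 / 2 then T'.χ (pol (2 * r) t) else T'.α (Φ (2 - 2 * r) t))
    (by
      apply Continuous.if_le
      · exact T'.cχ.comp (hpol.comp (by fun_prop : Continuous fun q : ℝ × ℝ => (2 * q.1, q.2)))
      · exact T'.cα.comp (hΦ.comp (by fun_prop : Continuous fun q : ℝ × ℝ => (2 - 2 * q.1, q.2)))
      · exact continuous_fst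
      · exact continuous_const
      · intro q hq
        rw [hq]
        norm_num
        rw [pol_one, T'.bd, h1])
    (fun r t => by simp only [polp, hper])
    (fun t => by
      norm_num
      rw [pol0])
    (fun t => by
      norm_num
      rw [h0])
  obtain ⟨G, hG, hGα, hGχ⟩ := T'.ext (β := T.α) T.cα
    (fun r t => if r ≤ 1 / 2 then T.χ (pol (2 * r) t) else T.α (Φ (2 * r - 1) t))
    (by
      apply Continuous.if_le
      · exact T.cχ.comp (hpol.comp (by fun_prop : Continuous fun q : ℝ × ℝ => (2 * q.1, q.2)))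
      · exact T.cα.comp (hΦ.comp (by fun_prop : Continuous fun q : ℝ × ℝ => (2 * q.1 - 1, q.2)))
      · exact continuous_fst
      · exact continuous_const
      · intro q hq
        rw [hq]
        norm_num
        rw [pol_one, T.bd, h0])
    (fun r t => by simp only [polp, hper])
    (fun t => by
      norm_num
      rw [pol0])
    (fun t => by
      norm_num
      rw [h1])
  -- the homotopy
  let M : ℝ → ℝ → X := fun R t => if R ≤ 1 then T.χ (pol R t) else T.α (Φ (R - 1) t)
  have hM : Continuous fun q : ℝ × ℝ => M q.1 q.2 := by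
    apply Continuous.if_le
    · exact T.cχ.comp hpol
    · exact T.cα.comp (hΦ.comp (by fun_prop : Continuous fun q : ℝ × ℝ => (q.1 - 1, q.2)))
    · exact continuous_fst
    · exact continuous_const
    · intro q hq
      rw [hq, pol_one, T.bd, sub_self, h0]
  have hMp : ∀ R t, M R (t + 1) = M R t := fun R t => by simp only [M, polp, hper]
  have hM1 : ∀ t, M 1 t = T.α (φ t) := fun t => by
    simp only [M, le_refl, if_true]
    rw [pol_one, T.bd]
  have hM0 : ∀ t, M 0 t = M 0 0 := fun t => by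
    have : (0 : ℝ) ≤ 1 := zero_le_one
    simp only [M, if_pos this]
    rw [pol0]
  let m : ℝ → ℝ := fun r => min (4 * r) (3 - 2 * r)
  have hm : Continuous m := by fun_prop
  let g : ℝ → ℝ → C(unitInterval, X) := fun r t =>
    ⟨fun s => M ((1 - (s : ℝ)) * m r + s * r) t, hM.comp (by fun_prop :
      Continuous fun s : unitInterval => ((1 - (s : ℝ)) * m r + s * r, t))⟩
  obtain ⟨H, hH, hHα, hHχ⟩ := T.ext (Y := C(unitInterval, X))
    (β := fun a => ContinuousMap.const _ (T.α a))
    (ContinuousMap.continuous_of_continuous_uncurry _ (T.cα.comp continuous_fst)) g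
    (ContinuousMap.continuous_of_continuous_uncurry _ (by
      show Continuous fun q : (ℝ × ℝ) × unitInterval =>
        M ((1 - (q.2 : ℝ)) * m q.1.1 + q.2 * q.1.1) q.1.2
      exact hM.comp (by fun_prop : Continuous fun q : (ℝ × ℝ) × unitInterval =>
        ((1 - (q.2 : ℝ)) * m q.1.1 + q.2 * q.1.1, q.1.2))))
    (fun r t => by ext s; exact hMp _ _)
    (fun t => by
      ext s
      show M ((1 - (s : ℝ)) * m 0 + s * 0) t = M ((1 - (s : ℝ)) * m 0 + s * 0) 0
      have : m 0 = 0 := by simp [m]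
      rw [this]
      simp only [mul_zero, add_zero]
      exact hM0 t)
    (fun t => by
      ext s
      show M ((1 - (s : ℝ)) * m 1 + s * 1) t = T.α (φ t)
      have : m 1 = 1 := by norm_num [m]
      rw [this, show (1 - (s : ℝ)) * 1 + s * 1 = 1 by ring]
      exact hM1 t)
  have hMm : ∀ r t, 0 ≤ r → r ≤ 1 → G (F (T.χ (pol r t))) = M (m r) t := by
    intro r t hr0 hr1
    rw [hFχ r t hr0 hr1]
    by_cases h2 : r ≤ 1 / 2
    · rw [if_pos h2, hGχ (2 * r) t (by linarith) (by linarith)]
      have h3 : m r = 4 * r := min_eq_left (by linarith)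
      rw [h3]
      by_cases h4 : 2 * r ≤ 1 / 2
      · have h5 : 4 * r ≤ 1 := by linarith
        simp only [M, if_pos h4, if_pos h5]
        congr 2
        ring
      · have h5 : ¬ 4 * r ≤ 1 := by linarith
        simp only [M, if_neg h4, if_neg h5]
        congr 2
        ring
    · rw [if_neg h2, hGα]
      have h3 : m r = 3 - 2 * r := min_eq_right (by linarith)
      rw [h3]
      by_cases h5 : 3 - 2 * r ≤ 1
      · have h6 : r = 1 := by linarith
        subst h6
        norm_num
        rw [hM1, h0]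
      · simp only [M, if_neg h5]
        congr 2
        ring
  refine ⟨⟨F, hF⟩, ⟨G, hG⟩, ⟨⟨⟨fun q => H q.2 q.1, ?_⟩, ?_, ?_⟩⟩⟩
  · exact (ContinuousMap.continuous_uncurry_of_continuous ⟨H, hH⟩).comp continuous_swap
  · apply T.eq
    · intro a
      show H (T.α a) 0 = G (F (T.α a))
      rw [hHα, hFα, hGα]
      rfl
    · intro r t hr0 hr1
      show H (T.χ (pol r t)) 0 = G (F (T.χ (pol r t)))
      rw [hHχ r t hr0 hr1, hMm r t hr0 hr1]
      show M ((1 - ((0 : unitInterval) : ℝ)) * m r + ((0 : unitInterval) : ℝ) * r) t = _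
      simp
  · apply T.eq
    · intro a
      show H (T.α a) 1 = T.α a
      rw [hHα]
      rfl
    · intro r t hr0 hr1
      show H (T.χ (pol r t)) 1 = T.χ (pol r t)
      rw [hHχ r t hr0 hr1]
      show M ((1 - ((1 : unitInterval) : ℝ)) * m r + ((1 : unitInterval) : ℝ) * r) t = _
      simp [M, hr1]

theorem Att.contractible {φ φ' : ℝ → A} (T : Att A X φ) (T' : Att A X' φ') {Φ : ℝ → ℝ → A}
    (hΦ : Continuous fun q : ℝ × ℝ => Φ q.1 q.2) (hper : ∀ s t, Φ s (t + 1) = Φ s t)
    (h0 : ∀ t, Φ 0 t = φ t) (h1 : ∀ t, Φ 1 t = φ' t) (h : ContractibleSpace X') :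
    ContractibleSpace X := by
  obtain ⟨F, G, hGF⟩ := T.homotopic T' hΦ hper h0 h1
  rw [contractible_iff_id_nullhomotopic] at h ⊢
  obtain ⟨y, hy⟩ := h
  refine ⟨G y, ?_⟩
  have h2 : (G.comp F).Homotopic (ContinuousMap.const X (G y)) := by
    have h3 := (hy.comp (ContinuousMap.Homotopic.refl F))
    have h4 := (ContinuousMap.Homotopic.refl G).comp h3
    exact h4
  exact hGF.symm.trans h2

end Pool.Agent.Run7.h41.Top
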