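import Mathlib

/-!
# A contractible space with a free action of a discrete group

`EG G` is the space of all functions from `[0, 1)` to `G`; the distance of two functions is the
(outer) measure of the set where they differ. It is contractible, and `G` acts on it so that the
quotient map to `BG G` is a covering.
-/

set_option autoImplicit false

namespace Pool.Agent.Run7.h41.Top

open MeasureTheory Set

/-- functions from `[0, 1)` to `G` -/
def EG (G : Type) : Type := Ico (0 : ℝ) 1 → G

/-- the size of a set -/
noncomputable def sz (s : Set (Ico (0 : ℝ) 1)) : ℝ := (volume (Subtype.val '' s)).toReal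

theorem sz_fin (s : Set (Ico (0 : ℝ) 1)) : volume (Subtype.val '' s) ≠ ⊤ := by
  have h : volume (Subtype.val '' s) ≤ volume (Ico (0 : ℝ) 1) := measure_mono (by
    rintro _ ⟨x, -, rfl⟩
    exact x.2)
  exact ne_top_of_le_ne_top (by simp) h

theorem sz_mono {s t : Set (Ico (0 : ℝ) 1)} (h : s ⊆ t) : sz s ≤ sz t :=
  ENNReal.toReal_mono (sz_fin t) (measure_mono (image_mono h))

theorem sz_union (s t : Set (Ico (0 : ℝ) 1)) : sz (s ∪ t) ≤ sz s + sz t := by
  unfold sz
  rw [← ENNReal.toReal_add (sz_fin s) (sz_fin t), image_union]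
  exact ENNReal.toReal_mono (ENNReal.add_ne_top.2 ⟨sz_fin s, sz_fin t⟩) (measure_union_le _ _)

theorem sz_univ : sz univ = 1 := by
  unfold sz
  rw [image_univ, Subtype.range_coe]
  simp

theorem sz_empty : sz ∅ = 0 := by
  unfold sz
  simp

theorem sz_between (a b : ℝ) : sz {u | a ≤ u.1 ∧ u.1 < b} ≤ |b - a| := by
  unfold sz
  have h : volume (Subtype.val '' {u : Ico (0 : ℝ) 1 | a ≤ u.1 ∧ u.1 < b}) ≤ volume (Ico a b) :=
    measure_mono (by
      rintro _ ⟨x, hx, rfl⟩
      exact hx)
  rw [Real.volume_Ico] at h
  have h2 := ENNReal.toReal_mono (by simp) h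
  refine h2.trans ?_
  rw [ENNReal.toReal_ofReal']
  exact max_le (le_abs_self _) (abs_nonneg _)

variable {G : Type}

noncomputable instance : PseudoMetricSpace (EG G) where
  dist f g := sz {u | f u ≠ g u}
  dist_self f := by simp [sz_empty]
  dist_comm f g := by simp only [ne_comm]
  dist_triangle f g h := by
    refine le_trans (sz_mono ?_) (sz_union _ _)
    intro u hu
    by_contra hc
    simp only [mem_union, mem_ofPred_eq, not_or, not_not] at hc hu
    exact hu (hc.1.trans hc.2)

theorem dist_eq (f g : EG G) : dist f g = sz {u | f u ≠ g u} := rfl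

variable [Group G]

instance : MulAction G (EG G) where
  smul g f := fun u => g * f u
  one_smul f := by funext u; exact one_mul _
  mul_smul a b f := by funext u; exact mul_assoc _ _ _

theorem smul_def (g : G) (f : EG G) (u) : (g • f) u = g * f u := rfl

instance : IsIsometricSMul G (EG G) := by
  constructor
  intro g
  apply Isometry.of_dist_eq
  intro a b
  rw [dist_eq, dist_eq]
  congr 1
  ext u
  simp [smul_def]

/-- the classifying space -/
abbrev BG (G : Type) [Group G] : Type := MulAction.orbitRel.Quotient G (EG G)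

/-- the projection -/
def pr (G : Type) [Group G] : EG G → BG G := Quotient.mk _

theorem quot_cov : IsQuotientCoveringMap (pr G) G where
  toIsQuotientMap := isQuotientMap_quotient_mk'
  continuous_const_smul g := (isometry_smul (EG G) g).continuous
  apply_eq_iff_mem_orbit {e₁ e₂} := by
    unfold pr
    rw [Quotient.eq]
    exact MulAction.orbitRel_apply
  disjoint e := by
    refine ⟨Metric.ball e (1 / 2), Metric.ball_mem_nhds e (by norm_num), fun g hg => ?_⟩
    obtain ⟨_, ⟨x, hx, rfl⟩, hx2⟩ := hg
    rw [Metric.mem_ball] at hx hx2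
    by_contra hne
    have h1 : dist (g • x) x = 1 := by
      rw [dist_eq]
      refine Eq.trans (congrArg sz ?_) sz_univ
      ext u
      simp [smul_def, hne]
    have h2 := dist_triangle_right (g • x) x e
    simp only at hx2
    linarith

theorem cov : IsCoveringMap (pr G) := quot_cov.isCoveringMap

theorem pr_continuous : Continuous (pr G) := continuous_quotient_mk'

theorem pr_surj : Function.Surjective (pr G) := Quotient.mk_surjective

theorem pr_smul (g : G) (e : EG G) : pr G (g • e) = pr G e := quot_cov.map_smul g

theorem pr_eq {e e' : EG G} (h : pr G e = pr G e') : ∃ g : G, e = g • e' := by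
  have := quot_cov.apply_eq_iff_mem_orbit.1 h
  obtain ⟨g, hg⟩ := this
  exact ⟨g, hg.symm⟩

theorem smul_cancel {g h : G} {e : EG G} (he : g • e = h • e) : g = h := by
  have h0 : (0 : ℝ) ∈ Ico (0 : ℝ) 1 := by simp
  have := congrFun he ⟨0, h0⟩
  rw [smul_def, smul_def] at this
  exact mul_right_cancel this

/-- the base point -/
def e0 : EG G := fun _ => 1

/-- a path from the base point to its translate -/
noncomputable def gp (g : G) (t : ℝ) : EG G := fun u => if u.1 < t then g else 1

theorem gp_zero (g : G) : gp g 0 = e0 := by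
  funext u
  have := u.2.1
  simp [gp, e0, not_lt.2 this]

theorem gp_one (g : G) : gp g 1 = g • e0 := by
  funext u
  have := u.2.2
  simp [gp, e0, smul_def, this]

/-- the contraction -/
noncomputable def cr (f : EG G) (s : ℝ) : EG G := fun u => if u.1 < s then 1 else f u

theorem cr_zero (f : EG G) : cr f 0 = f := by
  funext u
  have := u.2.1
  simp [cr, not_lt.2 this]

theorem cr_one (f : EG G) : cr f 1 = e0 := by
  funext u
  have := u.2.2
  simp [cr, e0, this]

/-- replacing an initial piece of a function -/
noncomputable def cut (a : EG G) (q : EG G × ℝ) : EG G := fun u => if u.1 < q.2 then a u else q.1 u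

omit [Group G] in
theorem cut_continuous (a : EG G) : Continuous (cut a) := by
  have key : ∀ q q' : EG G × ℝ, dist (cut a q) (cut a q') ≤ dist q.1 q'.1 +
        (|q.2 - q'.2| + |q'.2 - q.2|) := by
    intro q q'
    rw [dist_eq]
    unfold cut
    refine le_trans (sz_mono (t := {u | q.1 u ≠ q'.1 u} ∪ ({u | q'.2 ≤ u.1 ∧ u.1 < q.2} ∪
      {u | q.2 ≤ u.1 ∧ u.1 < q'.2})) ?_) ?_
    · intro u hu
      by_contra hc
      simp only [mem_union, mem_ofPred_eq, not_or, not_and, not_lt, not_not] at hc
      apply hu
      obtain ⟨h1, h2, h3⟩ := hc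
      by_cases h4 : u.1 < q.2
      · have h5 : u.1 < q'.2 := by
          by_contra h5
          exact absurd (h2 (not_lt.1 h5)) (not_le.2 h4)
        simp [h4, h5]
      · have h5 : ¬ u.1 < q'.2 := not_lt.2 (h3 (not_lt.1 h4))
        simp [h4, h5, h1]
    · refine (sz_union _ _).trans (add_le_add le_rfl ((sz_union _ _).trans (add_le_add ?_ ?_)))
      · exact sz_between _ _
      · exact sz_between _ _
  rw [Metric.continuous_iff']
  intro q ε hε
  have h1 : Filter.Tendsto (fun q' : EG G × ℝ => dist q'.1 q.1 + (|q'.2 - q.2| + |q.2 - q'.2|))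
      (nhds q) (nhds 0) := by
    have : Continuous (fun q' : EG G × ℝ => dist q'.1 q.1 + (|q'.2 - q.2| + |q.2 - q'.2|)) := by
      fun_prop
    have h2 := this.tendsto q
    simpa using h2
  filter_upwards [h1.eventually (gt_mem_nhds hε)] with q' hq'
  exact (key q' q).trans_lt hq'

theorem cr_continuous : Continuous fun q : EG G × ℝ => cr q.1 q.2 := cut_continuous e0

theorem gp_continuous (g : G) : Continuous (gp g) := by
  have h1 : Continuous fun t : ℝ => ((e0 : EG G), t) :=
    Continuous.prodMk continuous_const continuous_id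
  exact (cut_continuous (fun _ => g : EG G)).comp h1

section map
variable {G' : Type} [Group G'] (φ : G →* G')

/-- functoriality of `EG` -/
def Emap (f : EG G) : EG G' := fun u => φ (f u)

theorem Emap_continuous : Continuous (Emap φ) := by
  apply LipschitzWith.continuous (K := 1)
  apply LipschitzWith.of_dist_le_mul
  intro a b
  rw [NNReal.coe_one, one_mul, dist_eq, dist_eq]
  apply sz_mono
  intro u hu hc
  exact hu (congrArg φ hc)

theorem Emap_smul (g : G) (f : EG G) : Emap φ (g • f) = φ g • Emap φ f := by
  funext u
  simp [Emap, smul_def]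

theorem Emap_e0 : Emap φ (e0 : EG G) = e0 := by
  funext u
  simp [Emap, e0]

theorem Emap_gp (g : G) (t : ℝ) : Emap φ (gp g t) = gp (φ g) t := by
  funext u
  simp only [Emap, gp]
  split_ifs <;> simp

/-- functoriality of `BG` -/
def Bmap : BG G → BG G' :=
  Quotient.map (Emap φ) (by
    rintro a b ⟨g, rfl⟩
    exact ⟨φ g, (Emap_smul φ g b).symm⟩)

theorem Bmap_pr (e : EG G) : Bmap φ (pr G e) = pr G' (Emap φ e) := rfl

theorem Bmap_continuous : Continuous (Bmap φ) :=
  continuous_quot_lift _ (pr_continuous.comp (Emap_continuous φ))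

end map

end Pool.Agent.Run7.h41.Top
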