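import Mathlib

/-!
# Closed balls
-/

set_option autoImplicit false

namespace Pool.Agent.Run7.h41.CW

open Set

/-- the closed unit ball of `ℝⁿ` -/
abbrev Disc (n : ℕ) : Type := Metric.closedBall (0 : EuclideanSpace ℝ (Fin n)) 1

theorem Disc.norm_le {n : ℕ} (x : Disc n) : ‖x.1‖ ≤ 1 := mem_closedBall_zero_iff.1 x.2

theorem norm_hemi {n : ℕ} (x : Disc n) {h : ℝ} (hh : h ^ 2 = 1 - ‖x.1‖ ^ 2) :
    ‖(WithLp.toLp 2 (Fin.snoc x.1.ofLp h : Fin (n + 1) → ℝ) : EuclideanSpace ℝ (Fin (n + 1)))‖ = 1 := by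
  have h1 : ‖(WithLp.toLp 2 (Fin.snoc x.1.ofLp h : Fin (n + 1) → ℝ) :
      EuclideanSpace ℝ (Fin (n + 1)))‖ ^ 2 = 1 := by
    rw [EuclideanSpace.norm_sq_eq, Fin.sum_univ_castSucc]
    simp only [Fin.snoc_castSucc, Fin.snoc_last, Real.norm_eq_abs, sq_abs]
    have h2 := EuclideanSpace.norm_sq_eq x.1
    simp only [Real.norm_eq_abs, sq_abs] at h2
    rw [← h2, hh]
    ring
  rw [← Real.sqrt_sq (norm_nonneg _), h1, Real.sqrt_one]

theorem one_sub_nonneg {n : ℕ} (x : Disc n) : 0 ≤ 1 - ‖x.1‖ ^ 2 := by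
  have := x.norm_le
  nlinarith [norm_nonneg x.1]

/-- the point of the upper hemisphere of the unit sphere above `x` -/
noncomputable def upper {n : ℕ} (x : Disc n) : Disc (n + 1) :=
  ⟨WithLp.toLp 2 (Fin.snoc x.1.ofLp √(1 - ‖x.1‖ ^ 2)), mem_closedBall_zero_iff.2
    (norm_hemi x (Real.sq_sqrt (one_sub_nonneg x))).le⟩

/-- the point of the lower hemisphere of the unit sphere below `x` -/
noncomputable def lower {n : ℕ} (x : Disc n) : Disc (n + 1) :=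
  ⟨WithLp.toLp 2 (Fin.snoc x.1.ofLp (-√(1 - ‖x.1‖ ^ 2))), mem_closedBall_zero_iff.2
    (norm_hemi x (by rw [neg_sq, Real.sq_sqrt (one_sub_nonneg x)])).le⟩

/-- `x` is in the open ball -/
def IsInt {n : ℕ} (x : Disc n) : Prop := ‖x.1‖ < 1

/-- `x` is in the boundary sphere of the ball -/
def IsBd {n : ℕ} (x : Disc n) : Prop := ‖x.1‖ = 1

end Pool.Agent.Run7.h41.CW
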