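import Pool.Agent.Run7.h41.Ball

/-!
# Finite CW complexes with given characteristic maps, elementary expansions and deformations

A finite CW complex is here a Hausdorff space with a finite family of characteristic maps.
-/

set_option autoImplicit false

namespace Pool.Agent.Run7.h41.CW

open Set

/-- the homeomorphisms of the closed ball which preserve its boundary -/
def BallHomeo (n : ℕ) : Type := {h : Disc n ≃ₜ Disc n // ∀ x, IsBd (h x) ↔ IsBd x}

/-- the value of a homeomorphism of the ball -/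
def BallHomeo.ap {n : ℕ} (h : BallHomeo n) (x : Disc n) : Disc n := h.1 x

/-- A finite CW complex: a Hausdorff space with finitely many cells, given by their characteristic
maps. Every point is in exactly one open cell, and the boundary of a cell is mapped to the union of
the open cells of lower dimension. -/
structure FinCW where
  /-- the space -/
  X : Type
  [top : TopologicalSpace X]
  [t2 : T2Space X]
  /-- the cells of dimension `n` -/
  cell : ℕ → Type
  finite_cell : Finite (Σ n, cell n)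
  /-- the characteristic maps -/
  χ : ∀ {n : ℕ}, cell n → Disc n → X
  continuous_χ : ∀ {n : ℕ} (c : cell n), Continuous (χ c)
  partition : ∀ p : X, ∃! q : (Σ n, cell n × Disc n), IsInt q.2.2 ∧ χ q.2.1 q.2.2 = p
  boundary : ∀ {n : ℕ} (c : cell n) (x : Disc n), IsBd x →
    ∃ m, m < n ∧ ∃ (c' : cell m) (y : Disc m), IsInt y ∧ χ c' y = χ c x

attribute [instance] FinCW.top FinCW.t2

/-- The inclusion of `K` as a subcomplex of `K'`. -/
structure Emb (K K' : FinCW) where
  /-- the map of spaces -/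
  f : C(K.X, K'.X)
  injective : Function.Injective f
  /-- the map of cells -/
  c : ∀ {n : ℕ}, K.cell n → K'.cell n
  comm : ∀ {n : ℕ} (a : K.cell n) (x : Disc n), f (K.χ a x) = K'.χ (c a) x

/-- The inclusion `i : K → K'` is an elementary expansion: the cells of `K'` which are not in `K`
are an `n`-cell `a` and an `(n + 1)`-cell `b`, and `a` is a free face of `b`: up to a
homeomorphism `h` of the closed ball, which preserves its boundary, the characteristic map of `b` is
the one of `a` on the upper hemisphere and maps the lower hemisphere to `K`. -/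
def IsExpansion {K K' : FinCW} (i : Emb K K') (n : ℕ) : Prop :=
  ∃ (a : K'.cell n) (b : K'.cell (n + 1)),
    (∀ (m : ℕ) (c : K'.cell m), (∃ c₀ : K.cell m, c = i.c c₀) ∨
      (⟨m, c⟩ : Σ m, K'.cell m) = ⟨n, a⟩ ∨ (⟨m, c⟩ : Σ m, K'.cell m) = ⟨n + 1, b⟩) ∧
    (∀ c₀ : K.cell n, i.c c₀ ≠ a) ∧ (∀ c₀ : K.cell (n + 1), i.c c₀ ≠ b) ∧
    ∃ (h : BallHomeo (n + 1)) (h' : BallHomeo n),
      (∀ x, K'.χ b (h.ap (upper x)) = K'.χ a (h'.ap x)) ∧
      ∀ x, K'.χ b (h.ap (lower x)) ∈ range i.f

theorem isExpansion_iff {K K' : FinCW} (i : Emb K K') (n : ℕ) : IsExpansion i n ↔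
  ∃ (a : K'.cell n) (b : K'.cell (n + 1)),
    (∀ (m : ℕ) (c : K'.cell m), (∃ c₀ : K.cell m, c = i.c c₀) ∨
      (⟨m, c⟩ : Σ m, K'.cell m) = ⟨n, a⟩ ∨ (⟨m, c⟩ : Σ m, K'.cell m) = ⟨n + 1, b⟩) ∧
    (∀ c₀ : K.cell n, i.c c₀ ≠ a) ∧ (∀ c₀ : K.cell (n + 1), i.c c₀ ≠ b) ∧
    ∃ (h : Disc (n + 1) ≃ₜ Disc (n + 1)) (h' : Disc n ≃ₜ Disc n),
      (∀ x, ‖(h x).1‖ = 1 ↔ ‖x.1‖ = 1) ∧ (∀ x, ‖(h' x).1‖ = 1 ↔ ‖x.1‖ = 1) ∧
      (∀ x, K'.χ b (h (upper x)) = K'.χ a (h' x)) ∧
      ∀ x, K'.χ b (h (lower x)) ∈ range i.f := by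
  constructor
  · rintro ⟨a, b, h1, h2, h3, ⟨h, hh⟩, ⟨h', hh'⟩, h4, h5⟩
    exact ⟨a, b, h1, h2, h3, h, h', hh, hh', h4, h5⟩
  · rintro ⟨a, b, h1, h2, h3, h, h', hh, hh', h4, h5⟩
    exact ⟨a, b, h1, h2, h3, ⟨h, hh⟩, ⟨h', hh'⟩, h4, h5⟩

/-- `Deformation m L K K' j j' g`: there is a finite sequence of elementary expansions and
collapses of dimension at most `m` from `K` to `K'`, which leaves the subcomplex `L` fixed
throughout, and which determines the map `g`. -/
inductive Deformation (m : ℕ∞) (L : FinCW) :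
    (K K' : FinCW) → Emb L K → Emb L K' → C(K.X, K'.X) → Prop
  /-- the empty sequence -/
  | refl (K : FinCW) (j : Emb L K) : Deformation m L K K j j (ContinuousMap.id K.X)
  /-- an elementary expansion -/
  | expand (K₀ K K' : FinCW) (j₀ : Emb L K₀) (j : Emb L K) (j' : Emb L K') (g : C(K₀.X, K.X))
      (i : Emb K K') (n : ℕ) (hn : ((n + 1 : ℕ) : ℕ∞) ≤ m) (hi : IsExpansion i n)
      (hj : ∀ x, j'.f x = i.f (j.f x)) (h : Deformation m L K₀ K j₀ j g) :
      Deformation m L K₀ K' j₀ j' (i.f.comp g)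
  /-- an elementary collapse, and a deformation retraction `r` -/
  | collapse (K₀ K K' : FinCW) (j₀ : Emb L K₀) (j : Emb L K) (j' : Emb L K') (g : C(K₀.X, K'.X))
      (i : Emb K K') (n : ℕ) (hn : ((n + 1 : ℕ) : ℕ∞) ≤ m) (hi : IsExpansion i n)
      (hj : ∀ x, j'.f x = i.f (j.f x)) (h : Deformation m L K₀ K' j₀ j' g)
      (r : C(K'.X, K.X)) (hr : ∀ x, r (i.f x) = x)
      (hr' : (i.f.comp r).HomotopicRel (ContinuousMap.id K'.X) (range i.f)) :
      Deformation m L K₀ K j₀ j (r.comp g)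

/-- the empty complex -/
def FinCW.empty : FinCW where
  X := Empty
  cell := fun _ => Empty
  finite_cell := by
    have : IsEmpty (Σ _ : ℕ, Empty) := ⟨fun x => x.2.elim⟩
    infer_instance
  χ := fun c _ => c
  continuous_χ := fun c => c.elim
  partition := fun p => p.elim
  boundary := fun c => c.elim

/-- A simple-homotopy equivalence: a map homotopic to the map determined by a deformation. -/
def IsSimple {K K' : FinCW} (f : C(K.X, K'.X)) : Prop :=
  ∃ (j : Emb FinCW.empty K) (j' : Emb FinCW.empty K') (g : C(K.X, K'.X)),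
    Deformation ⊤ FinCW.empty K K' j j' g ∧ f.Homotopic g

end Pool.Agent.Run7.h41.CW
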