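import Pool.Agent.Y255.SP.HOMT
import Pool.Agent.N512.HS.A1

/-!
# A degree argument for continuous maps of a finite dimensional space

If `f0` is the identity near `y`, takes the value `y` on `closure U` only near `y`, and is joined to a
map which misses `y` on `closure U` by two linear homotopies which miss `y` on the frontier of the
bounded open set `U`, we get a contradiction.
-/

set_option autoImplicit false

open MeasureTheory Set Metric Filter Topology

namespace Pool.Agent.Run7.h41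

open Pool.Agent.Y485.HS (E)

/-- continuous maps which are the identity outside of a ball -/
def Cls {n : ℕ} (f : E n → E n) : Prop := Continuous f ∧ ∃ R : ℝ, ∀ x, R ≤ ‖x‖ → f x = x

theorem small {X : Type*} [TopologicalSpace X] {A : ℝ → Set X} (hc : ∀ ε, 0 < ε → IsClosed (A ε))
    (hm : ∀ ε ε', 0 < ε → ε ≤ ε' → A ε ⊆ A ε') (hK : IsCompact (A 1))
    (h0 : ∀ x, (∀ ε, 0 < ε → x ∈ A ε) → False) : ∃ ε : ℝ, 0 < ε ∧ A ε = ∅ := by
  have hne : Nonempty {ε : ℝ // 0 < ε} := ⟨⟨1, one_pos⟩⟩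
  obtain ⟨⟨ε, hε⟩, h1⟩ := hK.elim_directed_cover (fun ε : {ε : ℝ // 0 < ε} => (A ε)ᶜ)
    (fun ε => (hc ε ε.2).isOpen_compl) (by
      intro x _
      have h1 : ∃ ε, 0 < ε ∧ x ∉ A ε := by
        by_contra hcon
        push Not at hcon
        exact h0 x hcon
      obtain ⟨ε, hε, h2⟩ := h1
      exact mem_iUnion.2 ⟨⟨ε, hε⟩, h2⟩) (by
      intro a b
      refine ⟨⟨min a b, lt_min a.2 b.2⟩, ?_, ?_⟩
      · exact compl_subset_compl.2 (hm _ _ (lt_min a.2 b.2) (min_le_left _ _))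
      · exact compl_subset_compl.2 (hm _ _ (lt_min a.2 b.2) (min_le_right _ _)))
  refine ⟨min ε 1, lt_min hε one_pos, ?_⟩
  ext x
  simp only [mem_empty_iff_false, iff_false]
  intro hx
  have h2 : x ∈ A 1 := hm _ _ (lt_min hε one_pos) (min_le_right _ _) hx
  exact h1 h2 (hm _ _ (lt_min hε one_pos) (min_le_left _ _) hx)

variable {n : ℕ}

/-- smooth approximation -/
theorem approx {f : E n → E n} (hf : Cls f) {e : ℝ} (he : 0 < e) :
    ∃ (F0 : E n → E n) (R : ℝ), ContDiff ℝ 1 F0 ∧ (∀ x, R ≤ ‖x‖ → F0 x = x) ∧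
      ∀ x, dist (F0 x) (f x) < e := by
  obtain ⟨hc, R, hR⟩ := hf
  obtain ⟨g, hg, hgf⟩ := Pool.Agent.N512.HS.smooth_approx (f := fun x => f x - x)
    (hc.sub continuous_id) he
  let χ : ContDiffBump (0 : E n) := ⟨max R 1, max R 1 + 1, by positivity, by linarith⟩
  refine ⟨fun x => x + χ x • g x, max R 1 + 1, ?_, ?_, ?_⟩
  · exact contDiff_id.add (χ.contDiff.smul hg)
  · intro x hx
    have h1 : χ x = 0 := χ.zero_of_le_dist (by rw [dist_zero_right]; exact hx)
    simp [h1]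
  · intro x
    by_cases h : ‖x‖ ≤ max R 1
    · have h1 : χ x = 1 := χ.one_of_mem_closedBall (mem_closedBall_zero_iff.2 h)
      have h2 := hgf x
      rw [dist_eq_norm] at h2 ⊢
      show ‖x + χ x • g x - f x‖ < e
      rw [h1, one_smul]
      have h3 : x + g x - f x = g x - (f x - x) := by abel
      rw [h3]
      exact h2
    · have h1 : f x = x := hR x ((le_max_left _ _).trans (le_of_lt (not_le.1 h)))
      have h2 := hgf x
      rw [dist_eq_norm, h1, sub_self, sub_zero] at h2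
      show dist (x + χ x • g x) (f x) < e
      rw [dist_eq_norm, h1, add_sub_cancel_left, norm_smul, Real.norm_of_nonneg χ.nonneg]
      calc χ x * ‖g x‖ ≤ 1 * ‖g x‖ := mul_le_mul_of_nonneg_right χ.le_one (norm_nonneg _)
        _ < e := by rw [one_mul]; exact h2

/-- a function supported close to a point -/
theorem bump (y : E n) {e : ℝ} (he : 0 < e) : ∃ φ : E n → ℝ, Continuous φ ∧
    (∀ w, e ≤ dist w y → φ w = 0) ∧ 0 < ∫ w, φ w := by
  have hφc : Continuous fun w : E n => max 0 (e - dist w y) := by fun_prop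
  have hφ0 : ∀ w : E n, e ≤ dist w y → max 0 (e - dist w y) = 0 := fun w hw =>
    max_eq_left (by linarith)
  have hφs : HasCompactSupport fun w : E n => max 0 (e - dist w y) := by
    apply HasCompactSupport.of_support_subset_isCompact (isCompact_closedBall y e)
    intro w hw
    by_contra hcon
    exact hw (hφ0 w (le_of_lt (not_le.1 hcon)))
  refine ⟨fun w => max 0 (e - dist w y), hφc, hφ0, ?_⟩
  apply hφc.integral_pos_of_hasCompactSupport_nonneg_nonzero (x := y) hφs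
  · intro w
    exact le_max_left _ _
  · show max 0 (e - dist y y) ≠ 0
    rw [dist_self, sub_zero, max_eq_right he.le]
    exact he.ne'

/-- distance from the value close to the frontier -/
theorem margin {f0 f1 : E n → E n} (h0 : Continuous f0) (h1 : Continuous f1) {U : Set (E n)}
    (hU : IsOpen U) (hb : Bornology.IsBounded U) {y : E n}
    (h : ∀ x ∈ frontier U, ∀ t ∈ Icc (0 : ℝ) 1, f0 x + t • (f1 x - f0 x) ≠ y) :
    ∃ ε : ℝ, 0 < ε ∧ ∀ x ∈ thickening ε U \ U, ∀ t ∈ Icc (0 : ℝ) 1,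
      ε ≤ dist (f0 x + t • (f1 x - f0 x)) y := by
  have hcl : ∀ ε : ℝ, IsClosed {q : E n × ℝ | (q.1 ∈ cthickening ε U ∧ q.1 ∈ Uᶜ) ∧
      (q.2 ∈ Icc (0 : ℝ) 1 ∧ dist (f0 q.1 + q.2 • (f1 q.1 - f0 q.1)) y ≤ ε)} := by
    intro ε
    have hc0 : Continuous fun q : E n × ℝ => f0 q.1 := h0.comp continuous_fst
    have hc1 : Continuous fun q : E n × ℝ => f1 q.1 := h1.comp continuous_fst
    have hc : Continuous fun q : E n × ℝ => dist (f0 q.1 + q.2 • (f1 q.1 - f0 q.1)) y :=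
      (hc0.add (continuous_snd.smul (hc1.sub hc0))).dist continuous_const
    have c1 : IsClosed {q : E n × ℝ | dist (f0 q.1 + q.2 • (f1 q.1 - f0 q.1)) y ≤ ε} :=
      isClosed_le hc continuous_const
    exact IsClosed.inter (IsClosed.inter (isClosed_cthickening.preimage continuous_fst)
      (hU.isClosed_compl.preimage continuous_fst))
      (IsClosed.inter (isClosed_Icc.preimage continuous_snd) c1)
  have hK : IsCompact {q : E n × ℝ | (q.1 ∈ cthickening 1 U ∧ q.1 ∈ Uᶜ) ∧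
      (q.2 ∈ Icc (0 : ℝ) 1 ∧ dist (f0 q.1 + q.2 • (f1 q.1 - f0 q.1)) y ≤ 1)} := by
    refine IsCompact.of_isClosed_subset
      ((hb.cthickening (δ := 1)).isCompact_closure.prod (isCompact_Icc (a := (0 : ℝ)) (b := 1)))
      (hcl 1) ?_
    rintro q ⟨⟨h1, h2⟩, h3, h4⟩
    exact ⟨subset_closure h1, h3⟩
  obtain ⟨ε, hε, hA⟩ := small (A := fun ε : ℝ => {q : E n × ℝ | (q.1 ∈ cthickening ε U ∧ q.1 ∈ Uᶜ) ∧
      (q.2 ∈ Icc (0 : ℝ) 1 ∧ dist (f0 q.1 + q.2 • (f1 q.1 - f0 q.1)) y ≤ ε)})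
    (fun ε _ => hcl ε) (by
      rintro ε ε' _ hle q ⟨⟨h1, h2⟩, h3, h4⟩
      exact ⟨⟨cthickening_mono hle _ h1, h2⟩, h3, h4.trans hle⟩) hK (by
      intro q hq
      have e1 : q.1 ∈ closure U := by
        rw [closure_eq_iInter_cthickening]
        refine mem_iInter.2 fun δ => mem_iInter.2 fun hδ => (hq δ hδ).1.1
      have e2 : q.1 ∈ frontier U := by
        rw [hU.frontier_eq]
        exact ⟨e1, (hq 1 one_pos).1.2⟩
      have e3 : dist (f0 q.1 + q.2 • (f1 q.1 - f0 q.1)) y ≤ 0 :=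
        le_of_forall_pos_le_add fun ε hε => by
          rw [zero_add]
          exact (hq ε hε).2.2
      exact h q.1 e2 q.2 (hq 1 one_pos).2.1 (dist_le_zero.1 e3))
  refine ⟨ε, hε, fun x hx t ht => ?_⟩
  by_contra hcon
  have : ((x, t) : E n × ℝ) ∈ (∅ : Set (E n × ℝ)) := by
    rw [← hA]
    exact ⟨⟨thickening_subset_cthickening _ _ hx.1, hx.2⟩, ht, le_of_lt (not_le.1 hcon)⟩
  exact this

/-- convex combinations of close maps -/
theorem lin_close {a0 a1 b0 b1 : E n} {ε t : ℝ} (h0 : dist b0 a0 ≤ ε) (h1 : dist b1 a1 ≤ ε)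
    (ht : t ∈ Icc (0 : ℝ) 1) : dist (b0 + t • (b1 - b0)) (a0 + t • (a1 - a0)) ≤ ε := by
  rw [dist_eq_norm] at *
  have h6 : b0 + t • (b1 - b0) - (a0 + t • (a1 - a0)) = (1 - t) • (b0 - a0) + t • (b1 - a1) := by
    module
  rw [h6]
  calc ‖(1 - t) • (b0 - a0) + t • (b1 - a1)‖
      ≤ ‖(1 - t) • (b0 - a0)‖ + ‖t • (b1 - a1)‖ := norm_add_le _ _
    _ = (1 - t) * ‖b0 - a0‖ + t * ‖b1 - a1‖ := by
        rw [norm_smul, norm_smul, Real.norm_of_nonneg (by linarith [ht.2]),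
          Real.norm_of_nonneg ht.1]
    _ ≤ (1 - t) * ε + t * ε :=
        add_le_add (mul_le_mul_of_nonneg_left h0 (by linarith [ht.2]))
          (mul_le_mul_of_nonneg_left h1 ht.1)
    _ = ε := by ring

/-- the degrees of `f0` and `f1` on `U` at `y` agree -/
def Sim (U : Set (E n)) (y : E n) (f0 f1 : E n → E n) : Prop :=
  ∃ ε : ℝ, 0 < ε ∧ ∀ (F0 F1 : E n → E n) (R : ℝ), ContDiff ℝ 1 F0 → ContDiff ℝ 1 F1 →
      (∀ x, R ≤ ‖x‖ → F0 x = x) → (∀ x, dist (F0 x) (f0 x) < ε) → (∀ x, dist (F1 x) (f1 x) < ε) →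
      ∀ φ : E n → ℝ, Continuous φ → (∀ w, ε ≤ dist w y → φ w = 0) →
        ∫ x in U, φ (F1 x) * (fderiv ℝ F1 x).det = ∫ x in U, φ (F0 x) * (fderiv ℝ F0 x).det

/-- homotopy -/
theorem sim_of_hom {f0 f1 : E n → E n} (h0 : Cls f0) (h1 : Cls f1) {U : Set (E n)}
    (hU : IsOpen U) (hb : Bornology.IsBounded U) {y : E n}
    (h : ∀ x ∈ frontier U, ∀ t ∈ Icc (0 : ℝ) 1, f0 x + t • (f1 x - f0 x) ≠ y) :
    Sim U y f0 f1 := by
  obtain ⟨ε, hε, hm⟩ := margin h0.1 h1.1 hU hb h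
  refine ⟨ε / 4, by positivity, ?_⟩
  intro F0 F1 R hF0 hF1 hR hc0 hc1 φ hφ hφ0
  refine Pool.Agent.Y255.SP.t_HOMT n F0 F1 R hF0 hF1 hR U (thickening ε U) ε (ε / 4) y hU hb.thickening hε
    (by positivity) Subset.rfl ?_ φ hφ hφ0
  intro x hx t ht
  have h2 := hm x hx t ht
  have h3 := lin_close (hc0 x).le (hc1 x).le ht
  have h4 := dist_triangle (f0 x + t • (f1 x - f0 x)) (F0 x + t • (F1 x - F0 x)) y
  rw [dist_comm (f0 x + t • (f1 x - f0 x)) (F0 x + t • (F1 x - F0 x))] at h4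
  linarith

/-- distance from a value which is not taken on a compact set -/
theorem margin' {f : E n → E n} (hf : Continuous f) {K : Set (E n)} (hK : IsCompact K) {y : E n}
    (h : ∀ x ∈ K, f x ≠ y) : ∃ ε : ℝ, 0 < ε ∧ ∀ x ∈ K, ε ≤ dist (f x) y := by
  rcases K.eq_empty_or_nonempty with rfl | hne
  · exact ⟨1, one_pos, fun x hx => hx.elim⟩
  have hfd : Continuous fun x => dist (f x) y := hf.dist continuous_const
  obtain ⟨x0, hx0, hmin⟩ := hK.exists_isMinOn hne hfd.continuousOn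
  exact ⟨dist (f x0) y, dist_pos.2 (h x0 hx0), fun x hx => hmin hx⟩

/-- the contradiction in Euclidean space -/
theorem contra {f0 f1 f2 : E n → E n} (h0 : Cls f0) (h1 : Cls f1) (h2 : Cls f2) {U W : Set (E n)}
    (hU : IsOpen U) (hb : Bornology.IsBounded U) {y : E n}
    (h01 : ∀ x ∈ frontier U, ∀ t ∈ Icc (0 : ℝ) 1, f0 x + t • (f1 x - f0 x) ≠ y)
    (h12 : ∀ x ∈ frontier U, ∀ t ∈ Icc (0 : ℝ) 1, f1 x + t • (f2 x - f1 x) ≠ y)
    (hW : IsOpen W) (hWU : W ⊆ U) (hyW : y ∈ W) (hid : ∀ x ∈ closure W, f0 x = x)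
    (hex : ∀ x ∈ closure U, f0 x = y → x ∈ W) (hmiss : ∀ x ∈ closure U, f2 x ≠ y) : False := by
  have hbW : Bornology.IsBounded W := hb.subset hWU
  have hidc : Cls (id : E n → E n) := ⟨continuous_id, 0, fun x _ => rfl⟩
  obtain ⟨a, ha, Ha⟩ := sim_of_hom h0 h1 hU hb h01
  obtain ⟨b, hb', Hb⟩ := sim_of_hom h1 h2 hU hb h12
  obtain ⟨c, hc, Hc⟩ := sim_of_hom (f0 := f0) (f1 := id) h0 hidc (U := W) hW hbW (y := y) (by
    intro x hx t _ hcon
    rw [hW.frontier_eq] at hx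
    rw [hid x hx.1] at hcon
    simp only [id, sub_self, smul_zero, add_zero] at hcon
    rw [hcon] at hx
    exact hx.2 hyW)
  obtain ⟨d, hd, Hd⟩ := margin' h2.1 hb.isCompact_closure hmiss
  obtain ⟨e, he, He⟩ := margin' h0.1 (K := closure U \ W)
    (hb.isCompact_closure.diff hW) (fun x hx hxy => hx.2 (hex x hx.1 hxy))
  obtain ⟨ρ, hρ, hρW⟩ := Metric.isOpen_iff.1 hW y hyW
  obtain ⟨ε, hε, ea, eb, ec, ed, ee, eρ⟩ : ∃ ε : ℝ, 0 < ε ∧ ε ≤ a ∧ ε ≤ b ∧ ε ≤ c ∧ ε ≤ d / 2 ∧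
      ε ≤ e / 2 ∧ ε ≤ ρ := by
    refine ⟨min a (min b (min c (min (d / 2) (min (e / 2) ρ)))), by positivity, ?_, ?_, ?_, ?_, ?_, ?_⟩
      <;> simp
  obtain ⟨F0, R0, s0, t0, u0⟩ := approx h0 hε
  obtain ⟨F1, R1, s1, t1, u1⟩ := approx h1 hε
  obtain ⟨F2, R2, s2, t2, u2⟩ := approx h2 hε
  obtain ⟨φ, hφ, hφ0, hφp⟩ := bump y hε
  have e1 := Ha F0 F1 R0 s0 s1 t0 (fun x => (u0 x).trans_le ea) (fun x => (u1 x).trans_le ea) φ hφ
    (fun w hw => hφ0 w (ea.trans hw))
  have e2 := Hb F1 F2 R1 s1 s2 t1 (fun x => (u1 x).trans_le eb) (fun x => (u2 x).trans_le eb) φ hφ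
    (fun w hw => hφ0 w (eb.trans hw))
  have e3 := Hc F0 id R0 s0 contDiff_id t0 (fun x => (u0 x).trans_le ec)
    (fun x => by rw [dist_self]; exact hc) φ hφ (fun w hw => hφ0 w (ec.trans hw))
  -- the last map misses `y`
  have e4 : ∫ x in U, φ (F2 x) * (fderiv ℝ F2 x).det = 0 := by
    apply setIntegral_eq_zero_of_forall_eq_zero
    intro x hx
    have h3 : φ (F2 x) = 0 := by
      apply hφ0
      have h4 := Hd x (subset_closure hx)
      have h5 := dist_triangle (f2 x) (F2 x) y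
      rw [dist_comm (f2 x) (F2 x)] at h5
      linarith [u2 x]
    rw [h3, zero_mul]
  -- excision
  have e5 : ∫ x in U, φ (F0 x) * (fderiv ℝ F0 x).det = ∫ x in W, φ (F0 x) * (fderiv ℝ F0 x).det := by
    apply setIntegral_eq_of_subset_of_forall_sdiff_eq_zero hU.measurableSet hWU
    intro x hx
    have h3 : φ (F0 x) = 0 := by
      apply hφ0
      have h4 := He x ⟨subset_closure hx.1, hx.2⟩
      have h5 := dist_triangle (f0 x) (F0 x) y
      rw [dist_comm (f0 x) (F0 x)] at h5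
      linarith [u0 x]
    rw [h3, zero_mul]
  -- the identity
  have e6 : ∫ x in W, φ (id x) * (fderiv ℝ (id : E n → E n) x).det = ∫ x, φ x := by
    have h3 : ∀ x : E n, φ (id x) * (fderiv ℝ (id : E n → E n) x).det = φ x := by
      intro x
      rw [fderiv_id]
      have h4 : (ContinuousLinearMap.id ℝ (E n)).det = 1 := by
        simp [ContinuousLinearMap.det]
      rw [h4, mul_one]
      rfl
    simp only [h3]
    apply setIntegral_eq_integral_of_forall_compl_eq_zero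
    intro x hx
    apply hφ0
    by_contra hcon
    apply hx
    apply hρW
    rw [mem_ball]
    push Not at hcon
    linarith
  rw [e6] at e3
  rw [e4] at e2
  rw [← e2] at e1
  rw [← e5, ← e1] at e3
  rw [e3] at hφp
  exact lt_irrefl _ hφp

/-- the contradiction in a finite dimensional space -/
theorem contraV {V : Type*} [NormedAddCommGroup V] [NormedSpace ℝ V] [FiniteDimensional ℝ V]
    {f0 f1 f2 : V → V} (c0 : Continuous f0) (c1 : Continuous f1) (c2 : Continuous f2)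
    {B : Set V} (hB : Bornology.IsBounded B) (i0 : ∀ x, x ∉ B → f0 x = x)
    (i1 : ∀ x, x ∉ B → f1 x = x) (i2 : ∀ x, x ∉ B → f2 x = x) {U W : Set V}
    (hU : IsOpen U) (hb : Bornology.IsBounded U) {y : V}
    (h01 : ∀ x ∈ frontier U, ∀ t ∈ Icc (0 : ℝ) 1, f0 x + t • (f1 x - f0 x) ≠ y)
    (h12 : ∀ x ∈ frontier U, ∀ t ∈ Icc (0 : ℝ) 1, f1 x + t • (f2 x - f1 x) ≠ y)
    (hW : IsOpen W) (hWU : W ⊆ U) (hyW : y ∈ W) (hid : ∀ x ∈ closure W, f0 x = x)
    (hex : ∀ x ∈ closure U, f0 x = y → x ∈ W) (hmiss : ∀ x ∈ closure U, f2 x ≠ y) : False := by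
  let e : E (Module.finrank ℝ V) ≃L[ℝ] V :=
    ContinuousLinearEquiv.ofFinrankEq (by simp)
  have hbd : ∀ S : Set V, Bornology.IsBounded S → Bornology.IsBounded (e ⁻¹' S) := by
    intro S hS
    have h1 : Bornology.IsBounded (e.symm '' S) :=
      e.symm.toContinuousLinearMap.lipschitz.isBounded_image hS
    rwa [ContinuousLinearEquiv.image_symm_eq_preimage] at h1
  have hcls : ∀ f : V → V, Continuous f → (∀ x, x ∉ B → f x = x) →
      Cls (fun x => e.symm (f (e x))) := by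
    intro f hf hfB
    refine ⟨e.symm.continuous.comp (hf.comp e.continuous), ?_⟩
    obtain ⟨R, hR⟩ := (hbd B hB).subset_ball (0 : E _)
    refine ⟨R, fun x hx => ?_⟩
    show e.symm (f (e x)) = x
    rw [hfB (e x), e.symm_apply_apply]
    intro hcon
    have := hR hcon
    rw [mem_ball_zero_iff] at this
    linarith
  have hfr : ∀ S : Set V, frontier (e ⁻¹' S) = e ⁻¹' frontier S := fun S =>
    (e.toHomeomorph.preimage_frontier S).symm
  have hcl : ∀ S : Set V, closure (e ⁻¹' S) = e ⁻¹' closure S := fun S =>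
    (e.toHomeomorph.preimage_closure S).symm
  have hlin : ∀ (g0 g1 : V → V), (∀ x ∈ frontier U, ∀ t ∈ Icc (0 : ℝ) 1,
      g0 x + t • (g1 x - g0 x) ≠ y) → ∀ x ∈ frontier (e ⁻¹' U), ∀ t ∈ Icc (0 : ℝ) 1,
      e.symm (g0 (e x)) + t • (e.symm (g1 (e x)) - e.symm (g0 (e x))) ≠ e.symm y := by
    intro g0 g1 h x hx t ht hcon
    rw [hfr] at hx
    apply h (e x) hx t ht
    apply e.symm.injective
    rw [← hcon]
    simp
  refine contra (hcls f0 c0 i0) (hcls f1 c1 i1) (hcls f2 c2 i2) (U := e ⁻¹' U) (W := e ⁻¹' W)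
    (y := e.symm y) (hU.preimage e.continuous) (hbd U hb) (hlin f0 f1 h01) (hlin f1 f2 h12)
    (hW.preimage e.continuous) (preimage_mono hWU) (by simpa using hyW) ?_ ?_ ?_
  · intro x hx
    rw [hcl] at hx
    show e.symm (f0 (e x)) = x
    rw [hid _ hx, e.symm_apply_apply]
  · intro x hx hxy
    rw [hcl] at hx
    exact hex _ hx (e.symm.injective hxy)
  · intro x hx hxy
    rw [hcl] at hx
    exact hmiss _ hx (e.symm.injective hxy)

end Pool.Agent.Run7.h41
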