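import Pool.Agent.Run7.h41.DiscTop

/-!
# Degrees of circle maps, extension of loops to the disc
-/

set_option autoImplicit false

namespace Pool.Agent.Run7.h41.Top

open Set Pool.Agent.Run7.h41.CW

theorem circleExp_eq (t : ℝ) : ((Circle.exp (2 * Real.pi * t) : Circle) : ℂ) = ex t := by
  rw [Circle.coe_exp, ex]
  push_cast
  rfl

theorem angle_lift {η : ℝ → Disc 2} (hη : Continuous η) (h1 : ∀ t, ‖(η t).1‖ = 1) :
    ∃ a : ℝ → ℝ, Continuous a ∧ ∀ t, circ (a t) = η t := by
  let u : ℝ → Circle := fun t => ⟨cx (η t), mem_sphere_zero_iff_norm.2 (by rw [cx_norm, h1])⟩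
  have hu : Continuous u := Continuous.subtype_mk (cx_continuous.comp hη) _
  obtain ⟨r, hr⟩ := Circle.exp_surjective (u 0)
  obtain ⟨F, ⟨-, h3⟩, -⟩ :=
    Circle.isCoveringMap_exp.existsUnique_continuousMap_lifts (⟨u, hu⟩ : C(ℝ, Circle)) 0 r hr
  refine ⟨fun t => F t / (2 * Real.pi), F.continuous.div_const _, fun t => ?_⟩
  apply cx_inj
  rw [circ, cx_ofc, ← circleExp_eq]
  have h4 : (2 * Real.pi * (F t / (2 * Real.pi))) = F t := by
    have := Real.pi_ne_zero
    field_simp
  rw [h4]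
  have h5 : Circle.exp (F t) = u t := congrFun h3 t
  rw [h5]

theorem int_const {a b : ℝ → ℝ} (ha : Continuous a) (hb : Continuous b)
    (h : ∀ t, ∃ m : ℤ, a t = b t + m) : ∃ m : ℤ, ∀ t, a t = b t + m := by
  obtain ⟨m, hm⟩ := h 0
  refine ⟨m, fun t => ?_⟩
  have h1 : (fun t => 2 * Real.pi * a t) = fun t => 2 * Real.pi * (b t + m) := by
    apply Circle.isCoveringMap_exp.eq_of_comp_eq (by fun_prop) (by fun_prop) _ 0
    · simp only [hm]
    · funext t
      simp only [Function.comp_apply]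
      rw [Circle.exp_eq_exp]
      obtain ⟨k, hk⟩ := h t
      refine ⟨k - m, ?_⟩
      rw [hk]
      push_cast
      ring
  have h2 : 2 * Real.pi * a t = 2 * Real.pi * (b t + m) := congrFun h1 t
  have h3 : (2 * Real.pi : ℝ) ≠ 0 := by positivity
  exact mul_left_cancel₀ h3 h2

/-- the degree of a map of circles -/
theorem exists_deg {η : ℝ → Disc 2} (hη : Continuous η) (h1 : ∀ t, ‖(η t).1‖ = 1)
    (hper : ∀ t, η (t + 1) = η t) :
    ∃ (a : ℝ → ℝ) (m : ℤ), Continuous a ∧ (∀ t, circ (a t) = η t) ∧ ∀ t, a (t + 1) = a t + m := by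
  obtain ⟨a, ha, hc⟩ := angle_lift hη h1
  obtain ⟨m, hm⟩ := int_const (a := fun t => a (t + 1)) (b := a)
    (ha.comp (continuous_add_const 1)) ha (fun t => circ_eq (by rw [hc, hc, hper]))
  exact ⟨a, m, ha, hc, hm⟩

theorem add_int_of_add_one {a : ℝ → ℝ} {m : ℤ} (h : ∀ t, a (t + 1) = a t + m) (k : ℤ) (t : ℝ) :
    a (t + k) = a t + k * m := by
  have h1 : ∀ (n : ℕ) (t : ℝ), a (t + n) = a t + n * m := by
    intro n
    induction n with
    | zero => intro t; simp
    | succ n ih =>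
      intro t
      rw [Nat.cast_succ, ← add_assoc, h, ih]
      ring
  obtain ⟨n, rfl | rfl⟩ := k.eq_nat_or_neg
  · rw [Int.cast_natCast, h1]
  · have h2 := h1 n (t + ((-(n : ℤ) : ℤ) : ℝ))
    rw [Int.cast_neg, Int.cast_natCast, neg_add_cancel_right] at h2
    rw [Int.cast_neg, Int.cast_natCast, h2]
    ring

theorem deg_homeo (φ : Disc 2 ≃ₜ Disc 2) (hφ : ∀ x, ‖(φ x).1‖ = 1 ↔ ‖x.1‖ = 1) :
    ∃ (a : ℝ → ℝ) (m : ℤ), Continuous a ∧ (∀ t, circ (a t) = φ (circ t)) ∧
      (∀ t, a (t + 1) = a t + m) ∧ (m = 1 ∨ m = -1) := by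
  obtain ⟨a, m, ha, hc, hm⟩ := exists_deg (φ.continuous.comp circ_continuous)
    (fun t => (hφ _).2 (circ_norm t)) (fun t => by simp only [Function.comp_apply, circ_add_one])
  obtain ⟨a', m', ha', hc', hm'⟩ := exists_deg (φ.symm.continuous.comp circ_continuous)
    (fun t => (hφ _).1 (by
      simp only [Function.comp_apply, Homeomorph.apply_symm_apply]; exact circ_norm t))
    (fun t => by simp only [Function.comp_apply, circ_add_one])
  refine ⟨a, m, ha, hc, hm, ?_⟩
  have h1 : ∀ t, ∃ k : ℤ, a' (a t) = t + k := by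
    intro t
    apply circ_eq
    rw [hc']
    simp only [Function.comp_apply]
    rw [hc]
    simp
  obtain ⟨k, hk⟩ := int_const (ha'.comp ha) continuous_id h1
  simp only [Function.comp_apply, id] at hk
  have h2 := hk 1
  have h3 := hk 0
  have h4 : a 1 = a 0 + m := by simpa using hm 0
  rw [h4, add_int_of_add_one hm', h3] at h2
  have h5 : (m : ℝ) * m' = 1 := by linarith
  have h6 : m * m' = 1 := by exact_mod_cast h5
  exact Int.eq_one_or_neg_one_of_mul_eq_one h6

variable {G : Type} [Group G]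

/-- loops with trivial holonomy extend to the disc -/
theorem HasHol.extend {f : ℝ → BG G} (h : HasHol f 1) :
    ∃ F : Disc 2 → BG G, Continuous F ∧ ∀ t, F (circ t) = f t := by
  obtain ⟨p, hp, hpf, hpg⟩ := h
  have hc : Continuous fun q : ℝ × ℝ => (p q.2, 1 - q.1) := by fun_prop
  obtain ⟨F, hF, hFg⟩ := polar_ext (fun r t => pr G (cr (p t) (1 - r)))
    (pr_continuous.comp (cr_continuous.comp hc))
    (fun r t => by simp only [hpg, one_smul]) (fun t => by simp only [sub_zero, cr_one])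
  refine ⟨F, hF, fun t => ?_⟩
  rw [← pol_one, hFg 1 t zero_le_one le_rfl, sub_self, cr_zero, hpf]

/-- loops which extend to the disc have trivial holonomy -/
theorem hasHol_one {F : Disc 2 → BG G} (hF : Continuous F) : HasHol (fun t => F (circ t)) 1 := by
  have h1 : Continuous fun q : ℝ × ℝ => F (pol q.2 q.1) :=
    hF.comp (pol_continuous.comp continuous_swap)
  have h2 : HasHol (fun t => (fun q : ℝ × ℝ => F (pol q.2 q.1)) (t, 0)) 1 := by
    refine (HasHol.const (F (pol 0 0))).congr (fun t => ?_)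
    simp only
    congr 1
    apply cx_inj
    rw [pol_eq le_rfl zero_le_one, pol_eq le_rfl zero_le_one]
    simp
  have h3 := HasHol.homotopy (b := 1) h1 (fun t s => by
    simp only
    congr 1
    apply cx_inj
    simp only [pol, cx_ofc, ex_add_one]) h2
  exact h3.congr (fun t => by simp only [pol_one])

/-- the holonomy of a loop composed with a homeomorphism of the disc -/
theorem HasHol.homeo {f : Disc 2 → BG G} {g : G} (h : HasHol (fun t => f (circ t)) g)
    (φ : Disc 2 ≃ₜ Disc 2) (hφ : ∀ x, ‖(φ x).1‖ = 1 ↔ ‖x.1‖ = 1) :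
    HasHol (fun t => f (φ (circ t))) g ∨ HasHol (fun t => f (φ (circ t))) g⁻¹ := by
  obtain ⟨a, m, ha, hc, hm, h1⟩ := deg_homeo φ hφ
  have h2 := (h.reparam ha m hm).congr (f' := fun t => f (φ (circ t))) (fun t => by
    simp only [hc])
  rcases h1 with rfl | rfl
  · left; simpa using h2
  · right; simpa using h2

end Pool.Agent.Run7.h41.Top
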