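import Pool.Agent.Run7.h41.BG

/-!
# Holonomy of loops in `BG G`

Loops are continuous functions on the real line of period `1`.
-/

set_option autoImplicit false

namespace Pool.Agent.Run7.h41.Top

open Set

variable {G : Type} [Group G]

theorem smul_continuous (g : G) : Continuous fun e : EG G => g • e :=
  (isometry_smul (EG G) g).continuous

theorem lift_exists {A : Type} [TopologicalSpace A] [SimplyConnectedSpace A]
    [LocallyPathConnectedSpace A] (f : A → BG G) (hf : Continuous f) (a₀ : A) (e₁ : EG G)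
    (h : pr G e₁ = f a₀) : ∃ F : A → EG G, Continuous F ∧ F a₀ = e₁ ∧ ∀ a, pr G (F a) = f a := by
  obtain ⟨F, ⟨h1, h2⟩, -⟩ := cov.existsUnique_continuousMap_lifts (⟨f, hf⟩ : C(A, BG G)) a₀ e₁ h
  exact ⟨F, F.continuous, h1, fun a => congrFun h2 a⟩

theorem lift_unique {A : Type} [TopologicalSpace A] [PreconnectedSpace A] {p q : A → EG G}
    (hp : Continuous p) (hq : Continuous q) (h : ∀ a, pr G (p a) = pr G (q a)) (a₀ : A)
    (h0 : p a₀ = q a₀) : p = q :=
  cov.eq_of_comp_eq hp hq (funext h) a₀ h0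

theorem lift_uniqueOn {A : Type} [TopologicalSpace A] {s : Set A} (hs : IsPreconnected s)
    {p q : A → EG G} (hp : ContinuousOn p s) (hq : ContinuousOn q s)
    (h : ∀ a ∈ s, pr G (p a) = pr G (q a)) (a₀ : A) (ha : a₀ ∈ s)
    (h0 : p a₀ = q a₀) : ∀ a ∈ s, p a = q a :=
  cov.eqOn_of_comp_eqOn hs hp hq h ha h0

theorem lift_trans {A : Type} [TopologicalSpace A] [PreconnectedSpace A] [Nonempty A]
    {p q : A → EG G} (hp : Continuous p) (hq : Continuous q)
    (h : ∀ a, pr G (p a) = pr G (q a)) : ∃ g : G, ∀ a, p a = g • q a := by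
  obtain ⟨a₀⟩ := (inferInstance : Nonempty A)
  obtain ⟨g, hg⟩ := pr_eq (h a₀)
  refine ⟨g, congrFun (lift_unique hp ((smul_continuous g).comp hq) ?_ a₀ hg)⟩
  intro a
  rw [h, pr_smul]

/-- `g` is a holonomy of the loop `f` -/
def HasHol (f : ℝ → BG G) (g : G) : Prop :=
  ∃ p : ℝ → EG G, Continuous p ∧ (∀ t, pr G (p t) = f t) ∧ ∀ t, p (t + 1) = g • p t

theorem exists_hol {f : ℝ → BG G} (hf : Continuous f) (hper : ∀ t, f (t + 1) = f t) :
    ∃ g, HasHol f g := by
  obtain ⟨e, he⟩ := pr_surj (f 0)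
  obtain ⟨p, hp, -, hpf⟩ := lift_exists f hf 0 e he
  obtain ⟨g, hg⟩ := lift_trans (p := fun t => p (t + 1)) (hp.comp (continuous_add_const 1)) hp
    (fun t => by rw [hpf, hpf, hper])
  exact ⟨g, p, hp, hpf, hg⟩

theorem HasHol.isConj {f : ℝ → BG G} {g g' : G} (h : HasHol f g) (h' : HasHol f g') :
    IsConj g g' := by
  obtain ⟨p, hp, hpf, hpg⟩ := h
  obtain ⟨q, hq, hqf, hqg⟩ := h'
  obtain ⟨k, hk⟩ := lift_trans hq hp (fun t => by rw [hqf, hpf])
  rw [isConj_iff]
  refine ⟨k, ?_⟩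
  have h1 := hqg 0
  rw [hk, hk, hpg, ← mul_smul, ← mul_smul] at h1
  rw [smul_cancel h1, mul_inv_cancel_right]

theorem HasHol.of_conj {f : ℝ → BG G} {g g' : G} (h : HasHol f g) (hc : IsConj g g') :
    HasHol f g' := by
  obtain ⟨k, rfl⟩ := isConj_iff.1 hc
  obtain ⟨p, hp, hpf, hpg⟩ := h
  refine ⟨fun t => k • p t, (smul_continuous k).comp hp, fun t => by rw [pr_smul, hpf], ?_⟩
  intro t
  simp only [hpg, ← mul_smul, inv_mul_cancel_right]

theorem zpow_lift {p : ℝ → EG G} {g : G} (h : ∀ t, p (t + 1) = g • p t) (m : ℤ) (t : ℝ) :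
    p (t + m) = g ^ m • p t := by
  have h1 : ∀ (n : ℕ) (t : ℝ), p (t + n) = g ^ n • p t := by
    intro n
    induction n with
    | zero => intro t; simp
    | succ n ih =>
      intro t
      rw [Nat.cast_succ, ← add_assoc, h, ih, ← mul_smul, pow_succ']
  obtain ⟨n, rfl | rfl⟩ := m.eq_nat_or_neg
  · rw [Int.cast_natCast, zpow_natCast, h1]
  · have h2 := h1 n (t + ((-(n : ℤ) : ℤ) : ℝ))
    rw [Int.cast_neg, Int.cast_natCast, neg_add_cancel_right] at h2
    rw [h2, zpow_neg, zpow_natCast, inv_smul_smul, Int.cast_neg, Int.cast_natCast]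

theorem HasHol.reparam {f : ℝ → BG G} {g : G} (h : HasHol f g) {η : ℝ → ℝ} (hη : Continuous η)
    (m : ℤ) (hm : ∀ t, η (t + 1) = η t + m) : HasHol (fun t => f (η t)) (g ^ m) := by
  obtain ⟨p, hp, hpf, hpg⟩ := h
  refine ⟨fun t => p (η t), hp.comp hη, fun t => hpf _, fun t => ?_⟩
  simp only [hm, zpow_lift hpg]

theorem HasHol.homotopy {F : ℝ × ℝ → BG G} (hF : Continuous F)
    (hper : ∀ t s, F (t + 1, s) = F (t, s)) {a b : ℝ} {g : G}
    (h : HasHol (fun t => F (t, a)) g) : HasHol (fun t => F (t, b)) g := by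
  obtain ⟨e, he⟩ := pr_surj (F 0)
  obtain ⟨P, hP, -, hPF⟩ := lift_exists F hF 0 e he
  obtain ⟨g₁, hg⟩ := lift_trans (p := fun q : ℝ × ℝ => P (q.1 + 1, q.2)) (q := P)
    (hP.comp (by fun_prop)) hP (fun q => by rw [hPF, hPF, hper])
  have h1 : ∀ s, HasHol (fun t => F (t, s)) g₁ := fun s =>
    ⟨fun t => P (t, s), hP.comp (by fun_prop), fun t => hPF _, fun t => hg (t, s)⟩
  exact (h1 b).of_conj ((h1 a).isConj h)

theorem HasHol.map {G' : Type} [Group G'] (φ : G →* G') {f : ℝ → BG G} {g : G} (h : HasHol f g) :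
    HasHol (fun t => Bmap φ (f t)) (φ g) := by
  obtain ⟨p, hp, hpf, hpg⟩ := h
  refine ⟨fun t => Emap φ (p t), (Emap_continuous φ).comp hp, fun t => ?_, fun t => ?_⟩
  · rw [← Bmap_pr, hpf]
  · simp only [hpg, Emap_smul]

theorem HasHol.const (b : BG G) : HasHol (fun _ => b) 1 := by
  obtain ⟨e, he⟩ := pr_surj b
  exact ⟨fun _ => e, continuous_const, fun _ => he, fun _ => by simp⟩

theorem HasHol.congr {f f' : ℝ → BG G} {g : G} (h : HasHol f g) (hf : ∀ t, f t = f' t) :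
    HasHol f' g := by
  have : f = f' := funext hf
  rwa [← this]

/-- the holonomy from a lift on the unit interval -/
theorem hasHol_of_path {f : ℝ → BG G} (hf : Continuous f) (hper : ∀ t, f (t + 1) = f t)
    {p : ℝ → EG G} (hp : ContinuousOn p (Icc 0 1)) (hpf : ∀ t ∈ Icc (0 : ℝ) 1, pr G (p t) = f t)
    {g : G} (hg : p 1 = g • p 0) : HasHol f g := by
  obtain ⟨P, hP, hP0, hPf⟩ := lift_exists f hf 0 (p 0) (hpf 0 (by simp))
  obtain ⟨g₁, hg₁⟩ := lift_trans (p := fun t => P (t + 1)) (hP.comp (continuous_add_const 1)) hP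
    (fun t => by rw [hPf, hPf, hper])
  have h1 := lift_uniqueOn isPreconnected_Icc hP.continuousOn hp
    (fun a ha => by rw [hPf, hpf a ha]) 0 (by simp) hP0
  have h2 : g₁ = g := by
    have h3 := hg₁ 0
    rw [zero_add, h1 1 (by simp), hP0, hg] at h3
    exact (smul_cancel h3).symm
  exact ⟨P, hP, hPf, h2 ▸ hg₁⟩

theorem hasHol_abelian {G : Type} [CommGroup G] {f : ℝ → BG G} {g g' : G} (h : HasHol f g)
    (h' : HasHol f g') : g = g' :=
  isConj_iff_eq.1 (h.isConj h')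

end Pool.Agent.Run7.h41.Top
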