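import Pool.Agent.Run7.h41.CW
import Pool.Agent.Run7.h41.Hol

/-!
# Plane discs, polar coordinates and degrees of circle maps
-/

set_option autoImplicit false

namespace Pool.Agent.Run7.h41.Top

open Set Pool.Agent.Run7.h41.CW

theorem upper_norm {n : ℕ} (x : Disc n) : ‖(upper x).1‖ = 1 :=
  norm_hemi x (Real.sq_sqrt (one_sub_nonneg x))

theorem lower_norm {n : ℕ} (x : Disc n) : ‖(lower x).1‖ = 1 :=
  norm_hemi x (by rw [neg_sq, Real.sq_sqrt (one_sub_nonneg x)])

theorem upper_eq_lower {n : ℕ} {x : Disc n} (hx : ‖x.1‖ = 1) : upper x = lower x := by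
  apply Subtype.ext
  simp [upper, lower, hx]

/-- the vertical projection -/
noncomputable def proj {n : ℕ} (z : Disc (n + 1)) : Disc n :=
  ⟨WithLp.toLp 2 (Fin.init z.1.ofLp), by
    rw [mem_closedBall_zero_iff]
    have h1 : ‖(WithLp.toLp 2 (Fin.init z.1.ofLp : Fin n → ℝ) : EuclideanSpace ℝ (Fin n))‖ ^ 2 ≤ 1 := by
      rw [EuclideanSpace.norm_sq_eq]
      have h2 := EuclideanSpace.norm_sq_eq z.1
      rw [Fin.sum_univ_castSucc] at h2
      have h3 := z.norm_le
      simp only [Fin.init]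
      nlinarith [norm_nonneg z.1, sq_nonneg ‖z.1.ofLp (Fin.last n)‖]
    nlinarith [norm_nonneg (WithLp.toLp 2 (Fin.init z.1.ofLp : Fin n → ℝ) : EuclideanSpace ℝ (Fin n))]⟩

theorem proj_upper {n : ℕ} (x : Disc n) : proj (upper x) = x := by
  apply Subtype.ext
  ext i
  simp [proj, upper]

theorem proj_lower {n : ℕ} (x : Disc n) : proj (lower x) = x := by
  apply Subtype.ext
  ext i
  simp [proj, lower]

theorem upper_last {n : ℕ} (x : Disc n) : (upper x).1 (Fin.last n) = √(1 - ‖x.1‖ ^ 2) := by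
  simp [upper]

theorem lower_last {n : ℕ} (x : Disc n) : (lower x).1 (Fin.last n) = -√(1 - ‖x.1‖ ^ 2) := by
  simp [lower]

theorem proj_norm {n : ℕ} (z : Disc (n + 1)) : ‖(proj z).1‖ ^ 2 = ‖z.1‖ ^ 2 - z.1 (Fin.last n) ^ 2 := by
  have h2 := EuclideanSpace.norm_sq_eq z.1
  have h3 := EuclideanSpace.norm_sq_eq (proj z).1
  rw [Fin.sum_univ_castSucc] at h2
  rw [h2, h3]
  simp [proj, Fin.init]

theorem eq_upper {n : ℕ} {z : Disc (n + 1)} (hz : ‖z.1‖ = 1) (h : 0 ≤ z.1 (Fin.last n)) :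
    z = upper (proj z) := by
  apply Subtype.ext
  ext i
  refine Fin.lastCases ?_ (fun j => ?_) i
  · rw [upper_last, proj_norm, hz]
    rw [show (1 : ℝ) - (1 ^ 2 - z.1 (Fin.last n) ^ 2) = z.1 (Fin.last n) ^ 2 by ring,
      Real.sqrt_sq h]
  · simp [upper, proj, Fin.init]

theorem eq_lower {n : ℕ} {z : Disc (n + 1)} (hz : ‖z.1‖ = 1) (h : z.1 (Fin.last n) ≤ 0) :
    z = lower (proj z) := by
  apply Subtype.ext
  ext i
  refine Fin.lastCases ?_ (fun j => ?_) i
  · rw [lower_last, proj_norm, hz]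
    rw [show (1 : ℝ) - (1 ^ 2 - z.1 (Fin.last n) ^ 2) = (-z.1 (Fin.last n)) ^ 2 by ring,
      Real.sqrt_sq (by linarith)]
    ring
  · simp [lower, proj, Fin.init]

theorem proj_continuous {n : ℕ} : Continuous (proj : Disc (n + 1) → Disc n) := by
  apply Continuous.subtype_mk
  apply (PiLp.continuous_toLp 2 _).comp
  apply continuous_pi
  intro i
  exact (EuclideanSpace.proj (𝕜 := ℝ) (Fin.castSucc i)).continuous.comp continuous_subtype_val

theorem hemi_continuous {n : ℕ} {g : Disc n → ℝ} (hg : Continuous g) :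
    Continuous fun x : Disc n =>
      (WithLp.toLp 2 (Fin.snoc x.1.ofLp (g x) : Fin (n + 1) → ℝ) : EuclideanSpace ℝ (Fin (n + 1))) := by
  apply (PiLp.continuous_toLp 2 _).comp
  apply continuous_pi
  intro i
  refine Fin.lastCases ?_ (fun j => ?_) i
  · simpa using hg
  · simp only [Fin.snoc_castSucc]
    exact (EuclideanSpace.proj (𝕜 := ℝ) j).continuous.comp continuous_subtype_val

theorem upper_continuous {n : ℕ} : Continuous (upper : Disc n → Disc (n + 1)) :=
  Continuous.subtype_mk (hemi_continuous (by fun_prop)) _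

theorem lower_continuous {n : ℕ} : Continuous (lower : Disc n → Disc (n + 1)) :=
  Continuous.subtype_mk (hemi_continuous (by fun_prop)) _

/-! ### the circle -/

/-- the complex number of a point of the plane -/
noncomputable def cx (x : Disc 2) : ℂ := ⟨x.1 0, x.1 1⟩

theorem cx_norm (x : Disc 2) : ‖cx x‖ = ‖x.1‖ := by
  have h1 : ‖cx x‖ ^ 2 = ‖x.1‖ ^ 2 := by
    rw [Complex.sq_norm, Complex.normSq_apply, EuclideanSpace.norm_sq_eq]
    simp [cx, sq]
  nlinarith [norm_nonneg (cx x), norm_nonneg x.1]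

theorem cx_inj {x y : Disc 2} (h : cx x = cx y) : x = y := by
  apply Subtype.ext
  ext i
  have h0 := congrArg Complex.re h
  have h1 := congrArg Complex.im h
  fin_cases i
  · exact h0
  · exact h1

theorem cx_continuous : Continuous cx := by
  have h1 : Continuous fun x : Disc 2 => ((x.1 0 : ℝ), (x.1 1 : ℝ)) := by fun_prop
  exact (Complex.equivRealProdCLM.symm.continuous).comp h1

/-- the point of the plane of a complex number -/
noncomputable def ofc (z : ℂ) (hz : ‖z‖ ≤ 1) : Disc 2 :=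
  ⟨WithLp.toLp 2 ![z.re, z.im], by
    rw [mem_closedBall_zero_iff]
    have h1 : ‖(WithLp.toLp 2 ![z.re, z.im] : EuclideanSpace ℝ (Fin 2))‖ ^ 2 = ‖z‖ ^ 2 := by
      rw [Complex.sq_norm, Complex.normSq_apply, EuclideanSpace.norm_sq_eq]
      simp [sq]
    nlinarith [norm_nonneg z, norm_nonneg (WithLp.toLp 2 ![z.re, z.im] : EuclideanSpace ℝ (Fin 2))]⟩

theorem cx_ofc (z : ℂ) (hz : ‖z‖ ≤ 1) : cx (ofc z hz) = z := by
  apply Complex.ext <;> simp [cx, ofc]

theorem ofc_cx (x : Disc 2) (h) : ofc (cx x) h = x := cx_inj (cx_ofc _ _)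

theorem ofc_norm (z : ℂ) (hz : ‖z‖ ≤ 1) : ‖(ofc z hz).1‖ = ‖z‖ := by
  rw [← cx_norm, cx_ofc]

theorem ofc_continuous {A : Type} [TopologicalSpace A] {f : A → ℂ} (hf : Continuous f)
    (h : ∀ a, ‖f a‖ ≤ 1) : Continuous fun a => ofc (f a) (h a) := by
  apply Continuous.subtype_mk
  apply (PiLp.continuous_toLp 2 _).comp
  apply continuous_pi
  intro i
  fin_cases i
  · exact Complex.continuous_re.comp hf
  · exact Complex.continuous_im.comp hf

/-- the point of the circle with angle `2 π t` -/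
noncomputable def ex (t : ℝ) : ℂ := Complex.exp (2 * Real.pi * t * Complex.I)

theorem ex_norm (t : ℝ) : ‖ex t‖ = 1 := by
  have : ex t = Complex.exp ((2 * Real.pi * t : ℝ) * Complex.I) := by
    unfold ex
    push_cast
    rfl
  rw [this, Complex.norm_exp_ofReal_mul_I]

theorem ex_continuous : Continuous ex := by
  unfold ex
  fun_prop

theorem ex_add_int (t : ℝ) (m : ℤ) : ex (t + m) = ex t := by
  unfold ex
  rw [Complex.exp_eq_exp_iff_exists_int]
  exact ⟨m, by push_cast; ring⟩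

theorem ex_add_one (t : ℝ) : ex (t + 1) = ex t := by
  have := ex_add_int t 1
  simpa using this

theorem ex_eq {t s : ℝ} (h : ex t = ex s) : ∃ m : ℤ, t = s + m := by
  unfold ex at h
  rw [Complex.exp_eq_exp_iff_exists_int] at h
  obtain ⟨m, hm⟩ := h
  refine ⟨m, ?_⟩
  have h1 : (2 * Real.pi * Complex.I : ℂ) * (t - (s + m)) = 0 := by linear_combination hm
  rcases mul_eq_zero.1 h1 with h2 | h2
  · exact absurd h2 Complex.two_pi_I_ne_zero
  · have h3 : ((t - (s + m) : ℝ) : ℂ) = 0 := by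
      push_cast
      exact h2
    have h4 := Complex.ofReal_eq_zero.1 h3
    linarith

theorem ex_surj {z : ℂ} (hz : ‖z‖ = 1) : ∃ t : ℝ, 0 ≤ t ∧ t < 1 ∧ ex t = z := by
  have h1 : ∃ t : ℝ, ex t = z := by
    refine ⟨z.arg / (2 * Real.pi), ?_⟩
    have h2 := Complex.norm_mul_exp_arg_mul_I z
    rw [hz, Complex.ofReal_one, one_mul] at h2
    unfold ex
    refine Eq.trans ?_ h2
    congr 1
    have : (Real.pi : ℂ) ≠ 0 := by exact_mod_cast Real.pi_ne_zero
    push_cast
    field_simp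
  obtain ⟨t, ht⟩ := h1
  refine ⟨Int.fract t, Int.fract_nonneg t, Int.fract_lt_one t, ?_⟩
  rw [← ht]
  have := ex_add_int (Int.fract t) ⌊t⌋
  rw [Int.fract_add_floor] at this
  exact this.symm

/-- the point of the circle with angle `2 π t` -/
noncomputable def circ (t : ℝ) : Disc 2 := ofc (ex t) (ex_norm t).le

theorem circ_norm (t : ℝ) : ‖(circ t).1‖ = 1 := (ofc_norm _ _).trans (ex_norm t)

theorem circ_continuous : Continuous circ := ofc_continuous ex_continuous _

theorem circ_add_one (t : ℝ) : circ (t + 1) = circ t := by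
  apply cx_inj
  simp only [circ, cx_ofc, ex_add_one]

theorem circ_add_int (t : ℝ) (m : ℤ) : circ (t + m) = circ t := by
  apply cx_inj
  simp only [circ, cx_ofc, ex_add_int]

theorem circ_eq {t s : ℝ} (h : circ t = circ s) : ∃ m : ℤ, t = s + m := by
  apply ex_eq
  have := congrArg cx h
  simpa only [circ, cx_ofc] using this

theorem circ_surj {x : Disc 2} (hx : ‖x.1‖ = 1) : ∃ t : ℝ, 0 ≤ t ∧ t < 1 ∧ circ t = x := by
  obtain ⟨t, h0, h1, h2⟩ := ex_surj (z := cx x) (by rw [cx_norm, hx])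
  exact ⟨t, h0, h1, cx_inj (by rw [circ, cx_ofc, h2])⟩

/-- polar coordinates -/
noncomputable def pol (r t : ℝ) : Disc 2 :=
  ofc ((projIcc (0 : ℝ) 1 zero_le_one r : ℝ) * ex t) (by
    rw [norm_mul, ex_norm, mul_one, Complex.norm_real, Real.norm_of_nonneg (projIcc _ _ _ r).2.1]
    exact (projIcc _ _ _ r).2.2)

theorem pol_eq {r t : ℝ} (h0 : 0 ≤ r) (h1 : r ≤ 1) : cx (pol r t) = r * ex t := by
  rw [pol, cx_ofc, projIcc_of_mem zero_le_one ⟨h0, h1⟩]

theorem pol_norm {r t : ℝ} (h0 : 0 ≤ r) (h1 : r ≤ 1) : ‖(pol r t).1‖ = r := by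
  rw [← cx_norm, pol_eq h0 h1, norm_mul, ex_norm, mul_one, Complex.norm_real,
    Real.norm_of_nonneg h0]

theorem pol_one (t : ℝ) : pol 1 t = circ t := by
  apply cx_inj
  rw [pol_eq zero_le_one le_rfl, circ, cx_ofc]
  simp

theorem pol_continuous : Continuous fun q : ℝ × ℝ => pol q.1 q.2 := by
  apply ofc_continuous
  apply Continuous.mul
  · exact Complex.continuous_ofReal.comp (continuous_subtype_val.comp
      (continuous_projIcc.comp continuous_fst))
  · exact ex_continuous.comp continuous_snd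

theorem pol_surj (x : Disc 2) : ∃ t : ℝ, 0 ≤ t ∧ t < 1 ∧ pol ‖x.1‖ t = x := by
  by_cases hx : cx x = 0
  · refine ⟨0, le_rfl, zero_lt_one, cx_inj ?_⟩
    rw [pol_eq (norm_nonneg _) x.norm_le, ← cx_norm, hx]
    simp
  · have h0 : ‖cx x‖ ≠ 0 := norm_ne_zero_iff.2 hx
    obtain ⟨t, h0, h1, h2⟩ := ex_surj (z := cx x / ‖cx x‖) (by
      rw [norm_div, Complex.norm_real, norm_norm, div_self h0])
    refine ⟨t, h0, h1, cx_inj ?_⟩
    rw [pol_eq (norm_nonneg _) x.norm_le, h2, ← cx_norm]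
    have : (‖cx x‖ : ℂ) ≠ 0 := by exact_mod_cast norm_ne_zero_iff.2 hx
    field_simp

/-- Functions on the disc from functions in polar coordinates. -/
theorem polar_ext {Y : Type} [TopologicalSpace Y] (g : ℝ → ℝ → Y)
    (hg : Continuous fun q : ℝ × ℝ => g q.1 q.2) (hper : ∀ r t, g r (t + 1) = g r t)
    (h0 : ∀ t, g 0 t = g 0 0) :
    ∃ F : Disc 2 → Y, Continuous F ∧ ∀ r t, 0 ≤ r → r ≤ 1 → F (pol r t) = g r t := by
  have hint : ∀ (r t : ℝ) (m : ℤ), g r (t + m) = g r t := by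
    intro r t m
    have h1 : Function.Periodic (g r) 1 := hper r
    have := h1.int_mul m t
    simpa using this
  choose a ha0 ha1 ha using pol_surj
  have key : ∀ r t, 0 ≤ r → r ≤ 1 → g ‖(pol r t).1‖ (a (pol r t)) = g r t := by
    intro r t h1 h2
    rw [pol_norm h1 h2]
    by_cases hr : r = 0
    · rw [hr, h0, h0 t]
    · have h3 := congrArg cx (ha (pol r t))
      rw [pol_norm h1 h2, pol_eq h1 h2, pol_eq h1 h2] at h3
      have h4 := ex_eq (mul_left_cancel₀ (by exact_mod_cast hr) h3)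
      obtain ⟨m, hm⟩ := h4
      rw [hm, hint]
  refine ⟨fun x => g ‖x.1‖ (a x), ?_, key⟩
  let P : Icc (0 : ℝ) 1 × Icc (0 : ℝ) 1 → Disc 2 := fun q => pol q.1 q.2
  have hP : Continuous P := pol_continuous.comp
    ((continuous_subtype_val.comp continuous_fst).prodMk (continuous_subtype_val.comp continuous_snd))
  have hs : Function.Surjective P := by
    intro x
    exact ⟨(⟨‖x.1‖, norm_nonneg _, x.norm_le⟩, ⟨a x, ha0 x, (ha1 x).le⟩), ha x⟩
  have hq : Topology.IsQuotientMap P := hP.isClosedMap.isQuotientMap hP hs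
  rw [hq.continuous_iff]
  have : (fun x : Disc 2 => g ‖x.1‖ (a x)) ∘ P = fun q => g q.1 q.2 := by
    funext q
    exact key _ _ q.1.2.1 q.1.2.2
  rw [this]
  exact hg.comp ((continuous_subtype_val.comp continuous_fst).prodMk
    (continuous_subtype_val.comp continuous_snd))

end Pool.Agent.Run7.h41.Top
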