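import Pool.Agent.Run7.h41.Word

/-!
# The word of a two-cell with a free edge
-/

set_option autoImplicit false

namespace Pool.Agent.Run7.h41.Top

open Set Pool.Agent.Run7.h41.CW

instance finCWCompact (K : FinCW) : CompactSpace K.X := by
  have := K.finite_cell
  constructor
  have h1 : (univ : Set K.X) = ⋃ q : Σ n, K.cell n, range (K.χ q.2) := by
    ext p
    simp only [mem_univ, true_iff]
    exact mem_iUnion.2 ⟨⟨(rep K p).1, (rep K p).2.1⟩, (rep K p).2.2, rep_χ K p⟩
  rw [h1]
  exact isCompact_iUnion (fun q => isCompact_range (K.continuous_χ q.2))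

theorem Emb.isClosedEmbedding {K K' : FinCW} (i : Emb K K') : Topology.IsClosedEmbedding i.f :=
  i.f.continuous.isClosedEmbedding i.injective

/-- lifting a continuous map through a subcomplex -/
theorem Emb.factor {K K' : FinCW} (i : Emb K K') {A : Type} [TopologicalSpace A] {f : A → K'.X}
    (hf : Continuous f) (h : ∀ a, f a ∈ range i.f) :
    ∃ g : A → K.X, Continuous g ∧ ∀ a, i.f (g a) = f a := by
  choose g hg using h
  refine ⟨g, ?_, hg⟩
  rw [(Emb.isClosedEmbedding i).isInducing.continuous_iff]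
  have : (i.f : K.X → K'.X) ∘ g = f := funext hg
  rw [this]
  exact hf

theorem Emb.rep_dim {K K' : FinCW} (i : Emb K K') (p : K.X) : (rep K' (i.f p)).1 = (rep K p).1 := by
  rw [Emb.rep_f]

theorem circ_last (t : ℝ) : (circ t).1 (Fin.last 1) = Real.sin (2 * Real.pi * t) := by
  have h1 : (circ t).1 (Fin.last 1) = (cx (circ t)).im := rfl
  rw [h1, circ, cx_ofc, ← circleExp_eq, Circle.coe_exp, Complex.exp_ofReal_mul_I_im]

theorem circ_first (t : ℝ) : (circ t).1 0 = Real.cos (2 * Real.pi * t) := by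
  have h1 : (circ t).1 0 = (cx (circ t)).re := rfl
  rw [h1, circ, cx_ofc, ← circleExp_eq, Circle.coe_exp, Complex.exp_ofReal_mul_I_re]

theorem proj_first (z : Disc 2) : (proj z).1 0 = z.1 0 := rfl

theorem circ_upper {t : ℝ} (h0 : 0 ≤ t) (h1 : t ≤ 1 / 2) : circ t = upper (proj (circ t)) := by
  apply eq_upper (circ_norm t)
  rw [circ_last]
  apply Real.sin_nonneg_of_nonneg_of_le_pi
  · have := Real.pi_pos
    positivity
  · nlinarith [Real.pi_pos]

theorem circ_lower {t : ℝ} (h0 : 1 / 2 ≤ t) (h1 : t ≤ 1) : circ t = lower (proj (circ t)) := by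
  apply eq_lower (circ_norm t)
  rw [circ_last]
  have h2 : Real.sin (2 * Real.pi * t) = -Real.sin (2 * Real.pi * t - Real.pi) := by
    rw [Real.sin_sub_pi]
    ring
  rw [h2]
  have h3 : 0 ≤ Real.sin (2 * Real.pi * t - Real.pi) := by
    apply Real.sin_nonneg_of_nonneg_of_le_pi
    · nlinarith [Real.pi_pos]
    · nlinarith [Real.pi_pos]
  linarith

theorem disc1_ext {x y : Disc 1} (h : x.1 0 = y.1 0) : x = y := by
  apply Subtype.ext
  ext i
  fin_cases i
  exact h

theorem disc1_of_norm {x : Disc 1} (h : ‖x.1‖ = 1) : x.1 0 = 1 ∨ x.1 0 = -1 := by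
  rw [disc1_norm] at h
  exact eq_or_eq_neg_of_abs_eq h

theorem free_edge {K K' : FinCW} (i : Emb K K') {a : K'.cell 1} {b : K'.cell 2}
    {h : Disc 2 ≃ₜ Disc 2} {h' : Disc 1 ≃ₜ Disc 1}
    (hh : ∀ x, ‖(h x).1‖ = 1 ↔ ‖x.1‖ = 1) (hh' : ∀ x, ‖(h' x).1‖ = 1 ↔ ‖x.1‖ = 1)
    (hu : ∀ x, K'.χ b (h (upper x)) = K'.χ a (h' x))
    (hl : ∀ x, K'.χ b (h (lower x)) ∈ range i.f) {w : FreeGroup (K'.cell 1)} (hw : Word K' b w) :
    ∃ (u : FreeGroup (K.cell 1)) (ε : ℤ), (ε = 1 ∨ ε = -1) ∧
      IsConj w ((FreeGroup.of a * FreeGroup.map i.c u) ^ ε) := by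
  let f : ℝ → BG (FreeGroup (K'.cell 1)) := fun t => th K' (K'.χ b (h (circ t)))
  have hf : Continuous f := by
    apply (th_continuousOn K').comp_continuous
    · exact (K'.continuous_χ b).comp (h.continuous.comp circ_continuous)
    · intro t
      exact sk_boundary b ((hh _).2 (circ_norm t)) _
  have hper : ∀ t, f (t + 1) = f t := fun t => by simp only [f, circ_add_one]
  -- the part in the new edge
  let co : ℝ → ℝ := fun t => ((h' (proj (circ t))).1 0 + 1) / 2
  have hco : Continuous co := by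
    have h1 : Continuous fun x : Disc 1 => x.1 0 :=
      (EuclideanSpace.proj (𝕜 := ℝ) (0 : Fin 1)).continuous.comp continuous_subtype_val
    exact ((h1.comp (h'.continuous.comp (proj_continuous.comp circ_continuous))).add
      continuous_const).div_const _
  have hf1 : ∀ t, 0 ≤ t → t ≤ 1 / 2 → f t = pr _ (gp (FreeGroup.of a) (co t)) := by
    intro t h0 h1
    show th K' (K'.χ b (h (circ t))) = _
    rw [circ_upper h0 h1, hu, th_one]
  have hn0 : ‖(proj (circ 0)).1‖ = 1 := by
    rw [disc1_norm, proj_first, circ_first]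
    simp
  have hn1 : ‖(proj (circ (1 / 2))).1‖ = 1 := by
    rw [disc1_norm, proj_first, circ_first]
    rw [show 2 * Real.pi * (1 / 2) = Real.pi by ring]
    simp
  have hne : (h' (proj (circ 0))).1 0 ≠ (h' (proj (circ (1 / 2)))).1 0 := by
    intro h1
    have h2 := h'.injective (disc1_ext h1)
    have h3 := congrArg (fun x : Disc 1 => x.1 0) h2
    simp only [proj_first, circ_first] at h3
    rw [show 2 * Real.pi * (1 / 2) = Real.pi by ring] at h3
    norm_num at h3
  -- the part in the subcomplex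
  obtain ⟨κ, hκ, hκf⟩ := Emb.factor i (f := fun t : ℝ => K'.χ b (h (lower (proj (circ t)))))
    ((K'.continuous_χ b).comp (h.continuous.comp (lower_continuous.comp
      (proj_continuous.comp circ_continuous)))) (fun t => hl _)
  have hκs : ∀ t, κ t ∈ sk K ∅ := by
    intro t
    left
    rw [← Emb.rep_dim i, hκf]
    exact rep_boundary b ((hh _).2 (lower_norm _))
  have hz : ∀ t, ‖(proj (circ t)).1‖ = 1 → th K (κ t) = pr _ e0 := by
    intro t ht
    apply thAux_zero
    rw [← Emb.rep_dim i, hκf, ← upper_eq_lower ht, hu]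
    exact rep_boundary a ((hh' _).2 ht)
  have hth : Continuous fun t => th K (κ t) := (th_continuousOn K).comp_continuous hκ hκs
  obtain ⟨q, hq, hq0, hqf⟩ := lift_exists (fun t => th K (κ t)) hth (1 / 2) e0 (hz _ hn1).symm
  obtain ⟨u, hqu⟩ := pr_eq (e := q 1) (e' := e0) (by
    rw [hqf]
    have h1 : circ 1 = circ 0 := by simpa using circ_add_one 0
    apply hz
    rw [h1]
    exact hn0)
  have hf2 : ∀ t, 1 / 2 ≤ t → t ≤ 1 → f t = pr _ (Emap (FreeGroup.map i.c) (q t)) := by
    intro t h0 h1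
    rw [← Bmap_pr, hqf, ← Emb.th_f, hκf, ← circ_lower h0 h1]
  -- the lift
  have key : ∀ c c' : FreeGroup (K'.cell 1), gp (FreeGroup.of a) (co (1 / 2)) = c • e0 →
      gp (FreeGroup.of a) (co 0) = c' • e0 →
      HasHol f (c * FreeGroup.map i.c u * c'⁻¹) := by
    intro c c' h1 h0
    let p : ℝ → EG (FreeGroup (K'.cell 1)) := fun t =>
      if t ≤ 1 / 2 then gp (FreeGroup.of a) (co t) else c • Emap (FreeGroup.map i.c) (q t)
    have hp : Continuous p := by
      apply Continuous.if_le ((gp_continuous _).comp hco)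
        ((smul_continuous c).comp ((Emap_continuous _).comp hq)) continuous_id continuous_const
      intro t ht
      simp only [id] at ht
      subst ht
      simp only [Function.comp_apply]
      rw [h1, hq0, Emap_e0]
    refine hasHol_of_path hf hper hp.continuousOn ?_ ?_
    · intro t ht
      by_cases h2 : t ≤ 1 / 2
      · simp only [p, if_pos h2]
        exact (hf1 t ht.1 h2).symm
      · simp only [p, if_neg h2]
        rw [pr_smul]
        exact (hf2 t (le_of_lt (not_le.1 h2)) ht.2).symm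
    · have h2 : ¬ (1 : ℝ) ≤ 1 / 2 := by norm_num
      have h3 : (0 : ℝ) ≤ 1 / 2 := by norm_num
      simp only [p, if_neg h2, if_pos h3]
      rw [hqu, Emap_smul, Emap_e0, h0, ← mul_smul, ← mul_smul, inv_mul_cancel_right]
  have hw' : HasHol f w ∨ HasHol f w⁻¹ :=
    HasHol.homeo (f := fun x => th K' (K'.χ b x)) hw h hh
  have key2 : ∃ (u : FreeGroup (K.cell 1)) (ε : ℤ), (ε = 1 ∨ ε = -1) ∧
      HasHol f ((FreeGroup.of a * FreeGroup.map i.c u) ^ ε) := by
    have e1 : co (1 / 2) = ((h' (proj (circ (1 / 2)))).1 0 + 1) / 2 := rfl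
    have e2 : co 0 = ((h' (proj (circ 0))).1 0 + 1) / 2 := rfl
    rcases disc1_of_norm ((hh' _).2 hn1) with h1 | h1 <;>
      rcases disc1_of_norm ((hh' _).2 hn0) with h0 | h0
    · exact absurd (h0.trans h1.symm) hne
    · refine ⟨u, 1, Or.inl rfl, ?_⟩
      have := key (FreeGroup.of a) 1 (by rw [e1, h1]; norm_num; rw [gp_one])
        (by rw [e2, h0]; norm_num; rw [gp_zero])
      simpa using this
    · refine ⟨u⁻¹, -1, Or.inr rfl, ?_⟩
      have := key 1 (FreeGroup.of a) (by rw [e1, h1]; norm_num; rw [gp_zero])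
        (by rw [e2, h0]; norm_num; rw [gp_one])
      simpa using this
    · exact absurd (h0.trans h1.symm) hne
  obtain ⟨u', ε, hε, h3⟩ := key2
  rcases hw' with h4 | h4
  · exact ⟨u', ε, hε, h4.isConj h3⟩
  · refine ⟨u', -ε, ?_, ?_⟩
    · rcases hε with rfl | rfl <;> simp
    · have h5 := h4.isConj h3
      obtain ⟨k, hk⟩ := isConj_iff.1 h5
      rw [isConj_iff]
      refine ⟨k, ?_⟩
      rw [zpow_neg, ← hk]
      group

end Pool.Agent.Run7.h41.Top
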