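import Pool.Agent.Run7.h41.ModelStep

/-!
# Inclusions of presentation complexes
-/

set_option autoImplicit false

namespace Pool.Agent.Run7.h41.Mod

open Set Pool.Agent.Run7.h41.CW Pool.Agent.Run7.h41.Top

variable {n k k' : ℕ}

/-- renaming the letters of a word -/
def ren (σ : Equiv.Perm (Fin n)) (l : Wd n) : Wd n := l.map fun a => (σ a.1, a.2)

/-- the map of the ambient spaces -/
noncomputable def amap (σ : Equiv.Perm (Fin n)) (τ : Fin k → Fin k') (p : Amb n k) : Amb n k' :=
  (fun i => p.1 (σ.symm i), Function.extend τ p.2 0)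

theorem amap_continuous (σ : Equiv.Perm (Fin n)) {τ : Fin k → Fin k'} (hτ : Function.Injective τ) :
    Continuous (amap (k := k) (k' := k') σ τ) := by
  apply Continuous.prodMk
  · apply continuous_pi
    intro i
    exact (continuous_apply _).comp continuous_fst
  · apply continuous_pi
    intro j
    by_cases h : ∃ j₀, τ j₀ = j
    · obtain ⟨j₀, rfl⟩ := h
      simp only [hτ.extend_apply]
      exact (continuous_apply j₀).comp continuous_snd
    · have : ∀ p : Amb n k, Function.extend τ p.2 (0 : Fin k' → ℂ × ℝ) j = 0 := fun p =>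
        Function.extend_apply' _ _ _ h
      simp only [this]
      exact continuous_const

theorem amap_injective (σ : Equiv.Perm (Fin n)) {τ : Fin k → Fin k'} (hτ : Function.Injective τ) :
    Function.Injective (amap (k := k) (k' := k') σ τ) := by
  intro p q h
  have h1 := congrArg Prod.fst h
  have h2 := congrArg Prod.snd h
  apply Prod.ext
  · funext i
    have := congrFun h1 (σ i)
    simpa [amap] using this
  · funext j
    have := congrFun h2 (τ j)
    simpa [amap, hτ.extend_apply] using this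

theorem cg_ren (σ : Equiv.Perm (Fin n)) (i : Fin n) (t : ℝ) :
    (fun i' => cg i t (σ.symm i')) = cg (σ i) t := by
  funext i'
  unfold cg
  by_cases h : i' = σ i
  · subst h
    simp
  · have h2 : σ.symm i' ≠ i := by
      rintro rfl
      simp at h
    rw [Pi.single_eq_of_ne h, Pi.single_eq_of_ne h2]

theorem lp_ren (σ : Equiv.Perm (Fin n)) (a : Fin n × Bool) (t : unitInterval) :
    (fun i' => lp a t (σ.symm i')) = lp (σ a.1, a.2) t := cg_ren σ a.1 _

theorem wp_ren (σ : Equiv.Perm (Fin n)) (l : Wd n) (t : unitInterval) :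
    (fun i' => wp l t (σ.symm i')) = wp (ren σ l) t := by
  induction l generalizing t with
  | nil => rfl
  | cons a l ih =>
    show (fun i' => ((lp a).trans (wp l)) t (σ.symm i')) =
      ((lp (σ a.1, a.2)).trans (wp (ren σ l))) t
    rw [Path.trans_apply, Path.trans_apply]
    split_ifs
    · exact lp_ren σ a _
    · exact ih _

theorem wl_ren (σ : Equiv.Perm (Fin n)) (l : Wd n) (t : ℝ) :
    (fun i' => wl l t (σ.symm i')) = wl (ren σ l) t := by
  have h := wp_ren σ l ⟨Int.fract t, Int.fract_nonneg t, (Int.fract_lt_one t).le⟩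
  have h2 : ∀ l : Wd n, wl l t = wp l ⟨Int.fract t, Int.fract_nonneg t, (Int.fract_lt_one t).le⟩ := by
    intro l
    unfold wl
    rw [Path.extend_apply _ ⟨Int.fract_nonneg t, (Int.fract_lt_one t).le⟩]
  rw [h2, h2]
  exact h

theorem extend_single {τ : Fin k → Fin k'} (hτ : Function.Injective τ) (j : Fin k) (c : ℂ × ℝ) :
    Function.extend τ (Pi.single j c : Fin k → ℂ × ℝ) 0 = Pi.single (τ j) c := by
  funext j'
  by_cases h : ∃ j₀, τ j₀ = j'
  · obtain ⟨j₀, rfl⟩ := h
    rw [hτ.extend_apply]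
    by_cases h2 : j₀ = j
    · subst h2; simp
    · rw [Pi.single_eq_of_ne h2, Pi.single_eq_of_ne (hτ.ne h2)]
  · rw [Function.extend_apply' _ _ _ h]
    have : j' ≠ τ j := fun h3 => h ⟨j, h3.symm⟩
    rw [Pi.single_eq_of_ne this]
    rfl

theorem amap_cd (σ : Equiv.Perm (Fin n)) {τ : Fin k → Fin k'} (hτ : Function.Injective τ)
    (l : Wd n) (j : Fin k) (z : Disc 2) :
    amap σ τ (cd l j z) = cd (ren σ l) (τ j) z := by
  obtain ⟨t, -, -, ht⟩ := pol_surj z
  rw [← ht, cd_pol _ _ (norm_nonneg _) z.norm_le, cd_pol _ _ (norm_nonneg _) z.norm_le]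
  apply Prod.ext
  · show (fun i => (‖z.1‖ • wl l t) (σ.symm i)) = ‖z.1‖ • wl (ren σ l) t
    rw [← wl_ren]
    rfl
  · exact extend_single hτ _ _

theorem amap_k1 (σ : Equiv.Perm (Fin n)) {v : Fin n → ℂ} (hv : v ∈ K1 n) :
    (fun i => v (σ.symm i)) ∈ K1 n := by
  rcases hv with rfl | ⟨i, t, h0, h1, rfl⟩
  · exact Or.inl rfl
  · exact Or.inr ⟨σ i, t, h0, h1, cg_ren σ i t⟩

theorem extend_zero (τ : Fin k → Fin k') :
    Function.extend τ (0 : Fin k → ℂ × ℝ) (0 : Fin k' → ℂ × ℝ) = 0 := by
  classical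
  funext j
  unfold Function.extend
  split_ifs <;> rfl

theorem amap_mem {P : Fin k → Wd n} {P' : Fin k' → Wd n} {σ : Equiv.Perm (Fin n)}
    {τ : Fin k → Fin k'} (hτ : Function.Injective τ) (h : ∀ j, P' (τ j) = ren σ (P j))
    {p : Amb n k} (hp : p ∈ carrier P) : amap σ τ p ∈ carrier P' := by
  rcases hp with ⟨h1, h2⟩ | ⟨j, z, rfl⟩
  · left
    refine ⟨?_, amap_k1 σ h2⟩
    show Function.extend τ p.2 0 = 0
    rw [h1, extend_zero]
  · right
    exact ⟨τ j, z, by rw [amap_cd σ hτ, h]⟩

/-- the map of cells -/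
def cmap (σ : Equiv.Perm (Fin n)) (τ : Fin k → Fin k') : ∀ {m : ℕ}, pcell n k m → pcell n k' m
  | 0, _ => ()
  | 1, i => σ i
  | 2, j => τ j
  | _ + 3, c => c.elim

/-- the inclusion of a presentation complex -/
noncomputable def kemb (P : Fin k → Wd n) (P' : Fin k' → Wd n) (σ : Equiv.Perm (Fin n))
    (τ : Fin k → Fin k') (hτ : Function.Injective τ) (h : ∀ j, P' (τ j) = ren σ (P j)) :
    Emb (kp P) (kp P') where
  f := ⟨fun p : carrier P => (⟨amap σ τ p.1, amap_mem hτ h p.2⟩ : carrier P'),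
    Continuous.subtype_mk ((amap_continuous σ hτ).comp continuous_subtype_val) _⟩
  injective := by
    intro p q hpq
    have h1 : amap σ τ (p : carrier P).1 = amap σ τ (q : carrier P).1 :=
      congrArg (fun x : (kp P').X => (x : carrier P').1) hpq
    exact Subtype.ext (amap_injective σ hτ h1)
  c := cmap σ τ
  comm := by
    intro m a x
    apply Subtype.ext
    match m, a, x with
    | 0, a, x =>
      show amap σ τ ((0 : Fin n → ℂ), (0 : Fin k → ℂ × ℝ)) = (0, 0)
      apply Prod.ext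
      · rfl
      · exact extend_zero τ
    | 1, a, x =>
      show amap σ τ (cg a ((x.1 0 + 1) / 2), (0 : Fin k → ℂ × ℝ)) = (cg (σ a) ((x.1 0 + 1) / 2), 0)
      apply Prod.ext
      · exact cg_ren σ a _
      · exact extend_zero τ
    | 2, a, x =>
      show amap σ τ (cd (P a) a x) = cd (P' (τ a)) (τ a) x
      rw [amap_cd σ hτ, h]
    | m + 3, a, x => exact a.elim

theorem kemb_c1 (P : Fin k → Wd n) (P' : Fin k' → Wd n) (σ : Equiv.Perm (Fin n))
    (τ : Fin k → Fin k') (hτ : Function.Injective τ) (h : ∀ j, P' (τ j) = ren σ (P j)) (i : Fin n) :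
    (kemb P P' σ τ hτ h).c (n := 1) i = σ i := rfl

theorem kemb_c2 (P : Fin k → Wd n) (P' : Fin k' → Wd n) (σ : Equiv.Perm (Fin n))
    (τ : Fin k → Fin k') (hτ : Function.Injective τ) (h : ∀ j, P' (τ j) = ren σ (P j)) (j : Fin k) :
    (kemb P P' σ τ hτ h).c (n := 2) j = τ j := rfl

end Pool.Agent.Run7.h41.Mod
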