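import Pool.Agent.Run7.h41.Inv

/-!
# Invariance under elementary expansions of dimension at most three
-/

set_option autoImplicit false

namespace Pool.Agent.Run7.h41.Inv

open Set Pool.Agent.Run7.h41 Pool.Agent.Run7.h41.CW Pool.Agent.Run7.h41.Top
open Pool.Agent.Run7.h41.Alg (Cen cen_one Bd)

variable {L : FinCW}

theorem faces_up {K K' : FinCW} (i : Emb K K') {D : K.cell 3 → K.cell 2}
    (hD : ∀ e, Simple K e (D e)) (P : K'.cell 3 → K'.cell 2 → Prop)
    (hn : ∀ e, (∀ e₀, i.c e₀ ≠ e) → ∃ c, Simple K' e c ∧ P e c) :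
    ∃ D' : K'.cell 3 → K'.cell 2, (∀ e, Simple K' e (D' e)) ∧ (∀ e, D' (i.c e) = i.c (D e)) ∧
      ∀ e, (∀ e₀, i.c e₀ ≠ e) → P e (D' e) := by
  have h1 : ∀ e, ∃ c, Simple K' e c ∧ (∀ e₀, e = i.c e₀ → c = i.c (D e₀)) ∧
      ((∀ e₀, i.c e₀ ≠ e) → P e c) := by
    intro e
    by_cases h : ∃ e₀, i.c e₀ = e
    · obtain ⟨e₀, rfl⟩ := h
      refine ⟨i.c (D e₀), (simple_map i).2 (hD e₀), fun e₁ h₁ => ?_, fun h => absurd rfl (h e₀)⟩
      rw [Top.Emb.c_injective i h₁]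
    · have h2 : ∀ e₀, i.c e₀ ≠ e := fun e₀ h₀ => h ⟨e₀, h₀⟩
      obtain ⟨c, hc, hc2⟩ := hn e h2
      exact ⟨c, hc, fun e₀ h₀ => absurd h₀.symm (h2 e₀), fun _ => hc2⟩
  choose D' h2 h3 h4 using h1
  exact ⟨D', h2, fun e => h3 _ e rfl, h4⟩

theorem words_up {K K' : FinCW} (i : Emb K K') {w : K.cell 2 → FreeGroup (K.cell 1)}
    (hw : ∀ c, Word K c (w c)) (P : K'.cell 2 → FreeGroup (K'.cell 1) → Prop)
    (hn : ∀ c, (∀ c₀, i.c c₀ ≠ c) → ∃ u, Word K' c u ∧ P c u) :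
    ∃ w' : K'.cell 2 → FreeGroup (K'.cell 1), (∀ c, Word K' c (w' c)) ∧
      (∀ c, w' (i.c c) = FreeGroup.map i.c (w c)) ∧ ∀ c, (∀ c₀, i.c c₀ ≠ c) → P c (w' c) := by
  have h1 : ∀ c, ∃ u, Word K' c u ∧ (∀ c₀, c = i.c c₀ → u = FreeGroup.map i.c (w c₀)) ∧
      ((∀ c₀, i.c c₀ ≠ c) → P c u) := by
    intro c
    by_cases h : ∃ c₀, i.c c₀ = c
    · obtain ⟨c₀, rfl⟩ := h
      refine ⟨FreeGroup.map i.c (w c₀), Word.map i (hw c₀), fun c₁ h₁ => ?_,
        fun h => absurd rfl (h c₀)⟩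
      rw [Top.Emb.c_injective i h₁]
    · have h2 : ∀ c₀, i.c c₀ ≠ c := fun c₀ h₀ => h ⟨c₀, h₀⟩
      obtain ⟨u, hu, hu2⟩ := hn c h2
      exact ⟨u, hu, fun c₀ h₀ => absurd h₀.symm (h2 c₀), fun _ => hu2⟩
  choose w' h2 h3 h4 using h1
  exact ⟨w', h2, fun c => h3 _ c rfl, h4⟩

theorem dim_ne {K' : FinCW} {n m : ℕ} {a : K'.cell n} {b : K'.cell m}
    (h : (⟨n, a⟩ : Σ n, K'.cell n) = ⟨m, b⟩) : n = m := congrArg Sigma.fst h

theorem cell_eq {K' : FinCW} {n : ℕ} {a b : K'.cell n}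
    (h : (⟨n, a⟩ : Σ n, K'.cell n) = ⟨n, b⟩) : a = b := by simpa using h

/-- choices on `K'` from choices on `K`, upwards -/
theorem sext_up {K K' : FinCW} {j : Emb L K} {j' : Emb L K'} {i : Emb K K'} {Λ : Lab L}
    (hK : SExt K j Λ)
    (P : K'.cell 2 → FreeGroup (K'.cell 1) → Prop)
    (hn : ∀ c, (∀ c₀, i.c c₀ ≠ c) → ∃ u, Word K' c u ∧ P c u)
    (h : ∀ (w : K.cell 2 → FreeGroup (K.cell 1)) (D : K.cell 3 → K.cell 2)
      (w' : K'.cell 2 → FreeGroup (K'.cell 1)) (D' : K'.cell 3 → K'.cell 2),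
      (∀ c, Word K' c (w' c)) → (∀ e, Simple K' e (D' e)) →
      (∀ c, w' (i.c c) = FreeGroup.map i.c (w c)) → (∀ e, D' (i.c e) = i.c (D e)) →
      (∀ c, (∀ c₀, i.c c₀ ≠ c) → P c (w' c)) → SX K j Λ w D → SX K' j' Λ w' D') :
    SExt K' j' Λ := by
  intro w' hw' D' hD'
  obtain ⟨D, hD, hDD⟩ := restrict_faces i hD'
  choose w hw using fun c : K.cell 2 => exists_word c
  obtain ⟨w'', h1, h2, h3⟩ := words_up i hw P hn
  exact (h w D w'' D' h1 hD' h2 hDD h3 (hK w hw D hD)).conj (fun c => (h1 c).isConj (hw' c))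

/-- the values of a new one-cell -/
theorem val_new {K K' : FinCW} {j : Emb L K} {j' : Emb L K'} {i : Emb K K'}
    (hj : ∀ x, j'.f x = i.f (j.f x)) {a : K'.cell 1} (ha : ∀ c₀ : K.cell 1, i.c c₀ ≠ a)
    (Λ : Lab L) (d : Dn × Gam) (x : K'.cell 1 → Gam) : EV j' Λ d x (FreeGroup.of a) = x a := by
  rw [EV, FreeGroup.lift_apply_of, val, Function.extend_apply']
  rintro ⟨a₀, h₀⟩
  exact ha (j.c a₀) (by rw [← Emb_c_comp hj, h₀])

theorem cen_zpow {g : Gam} {ε : ℤ} (hε : ε = 1 ∨ ε = -1) : Cen (g ^ ε) ↔ Cen g := by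
  rcases hε with rfl | rfl
  · rw [zpow_one]
  · rw [zpow_neg_one]; exact Alg.cen_inv_iff

theorem zpow_zpow_self {G : Type} [Group G] {g : G} {ε : ℤ} (hε : ε = 1 ∨ ε = -1) :
    (g ^ ε) ^ ε = g := by
  rcases hε with rfl | rfl <;> simp

/-! ### dimension one -/

theorem up0 {K K' : FinCW} {j : Emb L K} {j' : Emb L K'} {i : Emb K K'}
    (hj : ∀ x, j'.f x = i.f (j.f x)) {Λ : Lab L} (hi : IsExpansion i 0)
    (hK : SExt K j Λ) : SExt K' j' Λ := by
  obtain ⟨a, b, hall, -⟩ := (isExpansion_iff _ _).1 hi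
  have h2 : ∀ c : K'.cell 2, ¬ ∀ c₀, i.c c₀ ≠ c := by
    intro c hc
    rcases hall 2 c with ⟨c₀, h⟩ | h | h
    · exact hc c₀ h.symm
    · exact absurd (dim_ne h) (by norm_num)
    · exact absurd (dim_ne h) (by norm_num)
  have h3 : ∀ c : K'.cell 3, ¬ ∀ c₀, i.c c₀ ≠ c := by
    intro c hc
    rcases hall 3 c with ⟨c₀, h⟩ | h | h
    · exact hc c₀ h.symm
    · exact absurd (dim_ne h) (by norm_num)
    · exact absurd (dim_ne h) (by norm_num)
  refine sext_up (i := i) hK (fun _ _ => True) (fun c hc => absurd hc (h2 c)) ?_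
  rintro w D w' D' hw' hD' hw hD - ⟨J, hJ, W, V, hW, hV, hWb, hVb, hWL, hWe, hn⟩
  refine up hj hw hD hW hV hWb hVb hWL hWe hn
    (Function.extend i.c (fun c p => W c (p.1, p.2.1, fun a => p.2.2.1 (i.c a), p.2.2.2))
      (fun _ _ => 1)) ?_ (fun c hc => absurd hc (h2 c)) (fun c hc => absurd hc (h2 c))
    (fun c hc => absurd hc (h3 c))
  intro c p
  rw [(Top.Emb.c_injective i).extend_apply]

/-- the step down without new two-cells or with a two-cell which is a free face -/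
theorem down_simple {K K' : FinCW} {j : Emb L K} {j' : Emb L K'} {i : Emb K K'}
    (hj : ∀ x, j'.f x = i.f (j.f x)) {Λ : Lab L} {w : K.cell 2 → FreeGroup (K.cell 1)}
    {D : K.cell 3 → K.cell 2} {w' : K'.cell 2 → FreeGroup (K'.cell 1)}
    {D' : K'.cell 3 → K'.cell 2} (hw : ∀ c, w' (i.c c) = FreeGroup.map i.c (w c))
    (hD : ∀ e, D' (i.c e) = i.c (D e)) (h : SX K' j' Λ w' D')
    (hc : ∀ c, (∀ c₀, i.c c₀ ≠ c) → ∃ e, D' e = c ∧ ∀ c', c' ≠ c → ∃ c₀, i.c c₀ = c') :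
    SX K j Λ w D := by
  obtain ⟨J, hJ, W, V, hW, hV, hWb, hVb, hWL, hWe, hn⟩ := h
  have hσ : Continuous fun p : Par (K.cell 1) J =>
      (Function.extend i.c p.2.2.1 (fun _ => 1) : K'.cell 1 → Gam) :=
    extend_continuous i (by fun_prop) continuous_const
  refine down hj hw hD hW hWb hWL hWe J (fun p => Function.extend i.c p.2.2.1 (fun _ => 1))
    (fun p => p.2.2.2) hσ (by fun_prop) (fun p a => (Top.Emb.c_injective i).extend_apply _ _ _)
    (fun k p => V k (p.1, p.2.1, Function.extend i.c p.2.2.1 (fun _ => 1), p.2.2.2))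
    (fun k => (hV k).comp (by fun_prop)) (fun k y hy g x z => hVb k y hy _ _ _) ?_
  rintro p ⟨h1, h2⟩
  refine hn (p.1, p.2.1, Function.extend i.c p.2.2.1 (fun _ => 1), p.2.2.2) ⟨fun c => ?_, h2⟩
  by_cases h3 : ∃ c₀, i.c c₀ = c
  · obtain ⟨c₀, rfl⟩ := h3
    exact h1 c₀
  · obtain ⟨e, rfl, he⟩ := hc c (fun c₀ h₀ => h3 ⟨c₀, h₀⟩)
    apply hWe
    intro c' hc' _
    obtain ⟨c₀, rfl⟩ := he c' hc'
    exact h1 c₀

theorem down0 {K K' : FinCW} {j : Emb L K} {j' : Emb L K'} {i : Emb K K'}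
    (hj : ∀ x, j'.f x = i.f (j.f x)) {Λ : Lab L} (hi : IsExpansion i 0)
    (hK : SExt K' j' Λ) : SExt K j Λ := by
  obtain ⟨a, b, hall, -⟩ := (isExpansion_iff _ _).1 hi
  have h2 : ∀ c : K'.cell 2, ¬ ∀ c₀, i.c c₀ ≠ c := by
    intro c hc
    rcases hall 2 c with ⟨c₀, h⟩ | h | h
    · exact hc c₀ h.symm
    · exact absurd (dim_ne h) (by norm_num)
    · exact absurd (dim_ne h) (by norm_num)
  have h3 : ∀ c : K'.cell 3, ¬ ∀ c₀, i.c c₀ ≠ c := by
    intro c hc
    rcases hall 3 c with ⟨c₀, h⟩ | h | h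
    · exact hc c₀ h.symm
    · exact absurd (dim_ne h) (by norm_num)
    · exact absurd (dim_ne h) (by norm_num)
  intro w hw D hD
  obtain ⟨w', hw', hww, -⟩ := words_up i hw (fun _ _ => True) (fun c hc => absurd hc (h2 c))
  obtain ⟨D', hD', hDD, -⟩ := faces_up i hD (fun _ _ => True) (fun c hc => absurd hc (h3 c))
  exact down_simple hj hww hDD (hK w' hw' D' hD') (fun c hc => absurd hc (h2 c))

/-! ### dimension two -/

theorem up1 {K K' : FinCW} {j : Emb L K} {j' : Emb L K'} {i : Emb K K'}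
    (hj : ∀ x, j'.f x = i.f (j.f x)) {Λ : Lab L} (hi : IsExpansion i 1)
    (hK : SExt K j Λ) : SExt K' j' Λ := by
  obtain ⟨a, b, hall, ha, hb, h, h', hh, hh', hu, hl⟩ := (isExpansion_iff _ _).1 hi
  have h2 : ∀ c : K'.cell 2, (∀ c₀, i.c c₀ ≠ c) → c = b := by
    intro c hc
    rcases hall 2 c with ⟨c₀, h⟩ | h | h
    · exact absurd h.symm (hc c₀)
    · exact absurd (dim_ne h) (by norm_num)
    · exact cell_eq h
  have h3 : ∀ c : K'.cell 3, ¬ ∀ c₀, i.c c₀ ≠ c := by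
    intro c hc
    rcases hall 3 c with ⟨c₀, h⟩ | h | h
    · exact hc c₀ h.symm
    · exact absurd (dim_ne h) (by norm_num)
    · exact absurd (dim_ne h) (by norm_num)
  obtain ⟨v, hv⟩ := exists_word b
  obtain ⟨u, ε, hε, hcj⟩ := free_edge i hh hh' hu hl hv
  refine sext_up (i := i) hK
    (fun _ x => x = (FreeGroup.of a * FreeGroup.map i.c u) ^ ε) (fun c hc => ?_) ?_
  · obtain rfl := h2 c hc
    exact ⟨_, HasHol.of_conj hv hcj, rfl⟩
  rintro w D w' D' hw' hD' hw hD hwn ⟨J, hJ, W, V, hW, hV, hWb, hVb, hWL, hWe, hn⟩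
  refine up hj hw hD hW hV hWb hVb hWL hWe hn
    (Function.extend i.c (fun c p => W c (p.1, p.2.1, fun a => p.2.2.1 (i.c a), p.2.2.2))
      (fun _ p => (p.2.2.1 a * EV j Λ (p.1, p.2.1) (fun a => p.2.2.1 (i.c a)) u) ^ ε))
    ?_ ?_ ?_ (fun c hc => absurd hc (h3 c))
  · intro c p
    rw [(Top.Emb.c_injective i).extend_apply]
  · intro c hc
    rw [Function.extend_apply' _ _ _ (fun ⟨c₀, h₀⟩ => hc c₀ h₀)]
    have h4 : Continuous fun p : Par (K'.cell 1) J =>
        EV j Λ (p.1, p.2.1) (fun a => p.2.2.1 (i.c a)) u :=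
      EV_continuous j Λ u (by fun_prop) (by fun_prop)
    have h5 : Continuous fun p : Par (K'.cell 1) J => p.2.2.1 a := by fun_prop
    exact (h5.mul h4).zpow ε
  · intro c hc y hy g x z
    rw [Function.extend_apply' _ _ _ (fun ⟨c₀, h₀⟩ => hc c₀ h₀), hwn c hc, map_zpow, map_mul,
      val_new hj ha, EV_map hj]

theorem down1 {K K' : FinCW} {j : Emb L K} {j' : Emb L K'} {i : Emb K K'}
    (hj : ∀ x, j'.f x = i.f (j.f x)) {Λ : Lab L} (hi : IsExpansion i 1)
    (hK : SExt K' j' Λ) : SExt K j Λ := by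
  obtain ⟨a, b, hall, ha, hb, h, h', hh, hh', hu, hl⟩ := (isExpansion_iff _ _).1 hi
  have h2 : ∀ c : K'.cell 2, (∀ c₀, i.c c₀ ≠ c) → c = b := by
    intro c hc
    rcases hall 2 c with ⟨c₀, h⟩ | h | h
    · exact absurd h.symm (hc c₀)
    · exact absurd (dim_ne h) (by norm_num)
    · exact cell_eq h
  have h3 : ∀ c : K'.cell 3, ¬ ∀ c₀, i.c c₀ ≠ c := by
    intro c hc
    rcases hall 3 c with ⟨c₀, h⟩ | h | h
    · exact hc c₀ h.symm
    · exact absurd (dim_ne h) (by norm_num)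
    · exact absurd (dim_ne h) (by norm_num)
  obtain ⟨v, hv⟩ := exists_word b
  obtain ⟨u, ε, hε, hcj⟩ := free_edge i hh hh' hu hl hv
  intro w hw D hD
  obtain ⟨w', hw', hww, hwn⟩ := words_up i hw
    (fun _ x => x = (FreeGroup.of a * FreeGroup.map i.c u) ^ ε) (fun c hc => by
      obtain rfl := h2 c hc
      exact ⟨_, HasHol.of_conj hv hcj, rfl⟩)
  obtain ⟨D', hD', hDD, -⟩ := faces_up i hD (fun _ _ => True) (fun c hc => absurd hc (h3 c))
  obtain ⟨J, hJ, W, V, hW, hV, hWb, hVb, hWL, hWe, hn⟩ := hK w' hw' D' hD'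
  let σx : Par (K.cell 1) (Option J) → K'.cell 1 → Gam := fun p =>
    Function.extend i.c p.2.2.1
      (fun _ => p.2.2.2 none * (EV j Λ (p.1, p.2.1) p.2.2.1 u)⁻¹)
  let σz : Par (K.cell 1) (Option J) → J → Gam := fun p k => p.2.2.2 (some k)
  have hσx : Continuous σx := by
    apply extend_continuous i (by fun_prop)
    apply continuous_pi
    intro _
    have h4 : Continuous fun p : Par (K.cell 1) (Option J) => EV j Λ (p.1, p.2.1) p.2.2.1 u :=
      EV_continuous j Λ u (by fun_prop) (by fun_prop)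
    have h5 : Continuous fun p : Par (K.cell 1) (Option J) => p.2.2.2 none := by fun_prop
    exact h5.mul h4.inv
  have hσz : Continuous σz := by fun_prop
  have hcon : Continuous fun p : Par (K.cell 1) (Option J) =>
      ((p.1, p.2.1, σx p, σz p) : Par (K'.cell 1) J) := by fun_prop
  refine down hj hww hDD hW hWb hWL hWe (Option J) σx σz hσx hσz
    (fun p a => (Top.Emb.c_injective i).extend_apply _ _ _)
    (fun k p => match k with
      | none => (W b (p.1, p.2.1, σx p, σz p)) ^ ε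
      | some k => V k (p.1, p.2.1, σx p, σz p)) ?_ ?_ ?_
  · intro k
    cases k with
    | none => exact ((hW b).comp hcon).zpow ε
    | some k => exact (hV k).comp hcon
  · intro k y hy g x z
    cases k with
    | none =>
      simp only
      rw [hWb b y hy, hwn b hb, map_zpow, map_mul, val_new hj ha, EV_map hj, zpow_zpow_self hε]
      have h4 : (fun a => σx (y, g, x, z) (i.c a)) = x := by
        funext c
        exact (Top.Emb.c_injective i).extend_apply _ _ _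
      rw [h4]
      simp only [σx]
      rw [Function.extend_apply' _ _ _ (fun ⟨c₀, h₀⟩ => ha c₀ h₀), inv_mul_cancel_right]
    | some k => exact hVb k y hy _ _ _
  · rintro p ⟨h4, h5⟩
    refine hn (p.1, p.2.1, σx p, σz p) ⟨fun c => ?_, fun k => h5 (some k)⟩
    by_cases h6 : ∃ c₀, i.c c₀ = c
    · obtain ⟨c₀, rfl⟩ := h6
      exact h4 c₀
    · obtain rfl := h2 c (fun c₀ h₀ => h6 ⟨c₀, h₀⟩)
      exact (cen_zpow hε).1 (h5 none)

/-! ### dimension three -/

/-- extension of the values of elements of a normal closure -/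
theorem nc_extend {K : FinCW} (j : Emb L K) (Λ : Lab L) {w : K.cell 2 → FreeGroup (K.cell 1)}
    {J : Type} (U : K.cell 2 → Par (K.cell 1) J → Gam) (S : Set (K.cell 2))
    (hU : ∀ c ∈ S, Continuous (U c))
    (hUb : ∀ c ∈ S, ∀ y, Bd y → ∀ g x z, U c (y, g, x, z) = EV j Λ (y, g) x (w c))
    {u : FreeGroup (K.cell 1)} (hu : u ∈ Subgroup.normalClosure (w '' S)) :
    ∃ X : Par (K.cell 1) J → Gam, Continuous X ∧
      (∀ y, Bd y → ∀ g x z, X (y, g, x, z) = EV j Λ (y, g) x u) ∧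
      ∀ p, (∀ c ∈ S, Cen (U c p)) → Cen (X p) := by
  let N : Subgroup (FreeGroup (K.cell 1)) :=
    { carrier := {u | ∃ X : Par (K.cell 1) J → Gam, Continuous X ∧
        (∀ y, Bd y → ∀ g x z, X (y, g, x, z) = EV j Λ (y, g) x u) ∧
        ∀ p, (∀ c ∈ S, Cen (U c p)) → Cen (X p)}
      mul_mem' := by
        rintro u v ⟨X, hX, hXb, hXc⟩ ⟨Y, hY, hYb, hYc⟩
        refine ⟨fun p => X p * Y p, hX.mul hY, fun y hy g x z => ?_, fun p hp =>
          (hXc p hp).mul (hYc p hp)⟩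
        simp only [hXb y hy, hYb y hy, map_mul]
      one_mem' := ⟨fun _ => 1, continuous_const, fun y hy g x z => (map_one _).symm,
        fun _ _ => cen_one⟩
      inv_mem' := by
        rintro u ⟨X, hX, hXb, hXc⟩
        refine ⟨fun p => (X p)⁻¹, hX.inv, fun y hy g x z => ?_, fun p hp => (hXc p hp).inv⟩
        simp only [hXb y hy, map_inv] }
  have hN : N.Normal := by
    constructor
    rintro u ⟨X, hX, hXb, hXc⟩ k
    have hk : Continuous fun p : Par (K.cell 1) J => EV j Λ (p.1, p.2.1) p.2.2.1 k :=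
      EV_continuous j Λ k (by fun_prop) (by fun_prop)
    refine ⟨fun p => EV j Λ (p.1, p.2.1) p.2.2.1 k * X p * (EV j Λ (p.1, p.2.1) p.2.2.1 k)⁻¹,
      (hk.mul hX).mul hk.inv, fun y hy g x z => ?_, fun p hp => (hXc p hp).conj _⟩
    simp only [hXb y hy, map_mul, map_inv]
  have h1 : Subgroup.normalClosure (w '' S) ≤ N := by
    apply Subgroup.normalClosure_le_normal
    rintro _ ⟨c, hc, rfl⟩
    exact ⟨U c, hU c hc, hUb c hc, fun p hp => hp c hc⟩
  exact h1 hu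

theorem simple_of_expansion {K K' : FinCW} {i : Emb K K'} {a : K'.cell 2} {b : K'.cell 3}
    (ha : ∀ c₀ : K.cell 2, i.c c₀ ≠ a)
    {h : Disc 3 ≃ₜ Disc 3} {h' : Disc 2 ≃ₜ Disc 2}
    (hh : ∀ x, ‖(h x).1‖ = 1 ↔ ‖x.1‖ = 1) (hh' : ∀ x, ‖(h' x).1‖ = 1 ↔ ‖x.1‖ = 1)
    (hu : ∀ x, K'.χ b (h (upper x)) = K'.χ a (h' x))
    (hl : ∀ x, K'.χ b (h (lower x)) ∈ range i.f) : Simple K' b a := by
  refine ⟨fun x => K'.χ b (h x), (FChar.self b).homeo hh, ?_, fun x y hy hxy => ?_⟩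
  · simp only [hu]
    exact (FChar.self a).homeo hh'
  obtain ⟨p, hp⟩ := hl x
  have hp : i.f p = K'.χ a y := hp.trans hxy
  have h1 := congrArg (rep K') hp
  rw [Top.Emb.rep_f, rep_unique a hy] at h1
  generalize rep K p = q at h1
  obtain ⟨n, c', x'⟩ := q
  simp only [Sigma.mk.injEq] at h1
  obtain ⟨rfl, h2⟩ := h1
  simp only [heq_eq_eq, Prod.mk.injEq] at h2
  exact ha c' h2.1

theorem up2 {K K' : FinCW} {j : Emb L K} {j' : Emb L K'} {i : Emb K K'}
    (hj : ∀ x, j'.f x = i.f (j.f x)) {Λ : Lab L} (hi : IsExpansion i 2)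
    (hK : SExt K j Λ) : SExt K' j' Λ := by
  classical
  obtain ⟨a, b, hall, ha, hb, h, h', hh, hh', hu, hl⟩ := (isExpansion_iff _ _).1 hi
  have h2 : ∀ c : K'.cell 2, (∀ c₀, i.c c₀ ≠ c) → c = a := by
    intro c hc
    rcases hall 2 c with ⟨c₀, h⟩ | h | h
    · exact absurd h.symm (hc c₀)
    · exact cell_eq h
    · exact absurd (dim_ne h) (by norm_num)
  have h3 : ∀ c : K'.cell 3, (∀ c₀, i.c c₀ ≠ c) → c = b := by
    intro c hc
    rcases hall 3 c with ⟨c₀, h⟩ | h | h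
    · exact absurd h.symm (hc c₀)
    · exact absurd (dim_ne h) (by norm_num)
    · exact cell_eq h
  have hsa : Simple K' b a := simple_of_expansion ha hh hh' hu hl
  refine sext_up (i := i) hK (fun _ _ => True) (fun c hc => ?_) ?_
  · obtain ⟨v, hv⟩ := exists_word c
    exact ⟨v, hv, trivial⟩
  rintro w D w' D' hw' hD' hw hD - ⟨J, hJ, W, V, hW, hV, hWb, hVb, hWL, hWe, hn⟩
  let U₀ : K'.cell 2 → Par (K'.cell 1) J → Gam :=
    Function.extend i.c (fun c p => W c (p.1, p.2.1, fun a => p.2.2.1 (i.c a), p.2.2.2))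
      (fun _ _ => 1)
  have hU₀ : ∀ c p, U₀ (i.c c) p = W c (p.1, p.2.1, fun a => p.2.2.1 (i.c a), p.2.2.2) := by
    intro c p
    simp only [U₀]
    rw [(Top.Emb.c_injective i).extend_apply]
  have hU₀c : ∀ c, c ≠ a → Continuous (U₀ c) := by
    intro c hc
    obtain ⟨c₀, rfl⟩ : ∃ c₀, i.c c₀ = c := by
      by_contra hcon
      exact hc (h2 c (fun c₀ h₀ => hcon ⟨c₀, h₀⟩))
    have : U₀ (i.c c₀) = fun p => W c₀ (p.1, p.2.1, fun a => p.2.2.1 (i.c a), p.2.2.2) :=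
      funext (hU₀ c₀)
    rw [this]
    exact (hW c₀).comp (by fun_prop)
  have hU₀b : ∀ c, c ≠ a → ∀ y, Bd y → ∀ g x z,
      U₀ c (y, g, x, z) = EV j' Λ (y, g) x (w' c) := by
    intro c hc y hy g x z
    obtain ⟨c₀, rfl⟩ : ∃ c₀, i.c c₀ = c := by
      by_contra hcon
      exact hc (h2 c (fun c₀ h₀ => hcon ⟨c₀, h₀⟩))
    rw [hU₀, hw, EV_map hj]
    exact hWb c₀ y hy _ _ _
  have key : ∃ X : Par (K'.cell 1) J → Gam, Continuous X ∧
      (∀ y, Bd y → ∀ g x z, X (y, g, x, z) = EV j' Λ (y, g) x (w' a)) ∧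
      ∀ p, (∀ c, c ≠ D' b → Meets K' b c → Cen (Function.update U₀ a X c p)) →
        Cen (Function.update U₀ a X (D' b) p) := by
    by_cases hab : D' b = a
    · have h4 := one_face hw' hsa
      obtain ⟨X, hX, hXb, hXc⟩ := nc_extend j' Λ U₀ {c | c ≠ a ∧ Meets K' b c}
        (fun c hc => hU₀c c hc.1) (fun c hc => hU₀b c hc.1) h4
      refine ⟨X, hX, hXb, fun p hp => ?_⟩
      rw [hab, Function.update_self]
      apply hXc
      intro c hc
      have := hp c (by rw [hab]; exact hc.1) hc.2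
      rwa [Function.update_of_ne hc.1] at this
    · obtain ⟨k, ε, hε, h4⟩ := two_faces hw' hsa (hD' b) (Ne.symm hab)
      obtain ⟨X, hX, hXb, hXc⟩ := nc_extend j' Λ U₀ {c | c ≠ a ∧ c ≠ D' b ∧ Meets K' b c}
        (fun c hc => hU₀c c hc.1) (fun c hc => hU₀b c hc.1) h4
      have hk : Continuous fun p : Par (K'.cell 1) J => EV j' Λ (p.1, p.2.1) p.2.2.1 k :=
        EV_continuous j' Λ k (by fun_prop) (by fun_prop)
      refine ⟨fun p => EV j' Λ (p.1, p.2.1) p.2.2.1 k * (U₀ (D' b) p) ^ ε *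
        (EV j' Λ (p.1, p.2.1) p.2.2.1 k)⁻¹ * (X p)⁻¹, ?_, ?_, ?_⟩
      · exact ((hk.mul ((hU₀c _ hab).zpow ε)).mul hk.inv).mul hX.inv
      · intro y hy g x z
        simp only [hXb y hy, hU₀b _ hab y hy, map_mul, map_inv, map_zpow]
        group
      · intro p hp
        rw [Function.update_of_ne hab]
        have h5 : Cen (X p) := by
          apply hXc
          intro c hc
          have := hp c hc.2.1 hc.2.2
          rwa [Function.update_of_ne hc.1] at this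
        have h6 := hp a (Ne.symm hab) (simple_meets hsa)
        rw [Function.update_self] at h6
        have h7 := h6.mul h5
        rw [inv_mul_cancel_right, Alg.cen_conj_iff, cen_zpow hε] at h7
        exact h7
  obtain ⟨X, hX, hXb, hXe⟩ := key
  refine up hj hw hD hW hV hWb hVb hWL hWe hn (Function.update U₀ a X) ?_ ?_ ?_ ?_
  · intro c p
    rw [Function.update_of_ne (ha c), hU₀]
  · intro c hc
    obtain rfl := h2 c hc
    rw [Function.update_self]
    exact hX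
  · intro c hc
    obtain rfl := h2 c hc
    rw [Function.update_self]
    exact hXb
  · intro e he
    obtain rfl := h3 e he
    exact hXe

theorem down2 {K K' : FinCW} {j : Emb L K} {j' : Emb L K'} {i : Emb K K'}
    (hj : ∀ x, j'.f x = i.f (j.f x)) {Λ : Lab L} (hi : IsExpansion i 2)
    (hK : SExt K' j' Λ) : SExt K j Λ := by
  obtain ⟨a, b, hall, ha, hb, h, h', hh, hh', hu, hl⟩ := (isExpansion_iff _ _).1 hi
  have h2 : ∀ c : K'.cell 2, (∀ c₀, i.c c₀ ≠ c) → c = a := by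
    intro c hc
    rcases hall 2 c with ⟨c₀, h⟩ | h | h
    · exact absurd h.symm (hc c₀)
    · exact cell_eq h
    · exact absurd (dim_ne h) (by norm_num)
  have h3 : ∀ c : K'.cell 3, (∀ c₀, i.c c₀ ≠ c) → c = b := by
    intro c hc
    rcases hall 3 c with ⟨c₀, h⟩ | h | h
    · exact absurd h.symm (hc c₀)
    · exact absurd (dim_ne h) (by norm_num)
    · exact cell_eq h
  have hsa : Simple K' b a := simple_of_expansion ha hh hh' hu hl
  intro w hw D hD
  obtain ⟨w', hw', hww, -⟩ := words_up i hw (fun _ _ => True) (fun c hc => by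
    obtain ⟨v, hv⟩ := exists_word c
    exact ⟨v, hv, trivial⟩)
  obtain ⟨D', hD', hDD, hDn⟩ := faces_up i hD (fun _ c => c = a) (fun e he => by
    obtain rfl := h3 e he
    exact ⟨a, hsa, rfl⟩)
  refine down_simple hj hww hDD (hK w' hw' D' hD') (fun c hc => ?_)
  obtain rfl := h2 c hc
  refine ⟨b, hDn b hb, fun c' hc' => ?_⟩
  by_contra hcon
  exact hc' (h2 c' (fun c₀ h₀ => hcon ⟨c₀, h₀⟩))

/-- Invariance under elementary expansions of dimension at most three. -/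
theorem sext_expansion {K K' : FinCW} {j : Emb L K} {j' : Emb L K'} {i : Emb K K'} {n : ℕ}
    (hn : n + 1 ≤ 3) (hj : ∀ x, j'.f x = i.f (j.f x)) (Λ : Lab L) (hi : IsExpansion i n) :
    SExt K j Λ ↔ SExt K' j' Λ := by
  have h1 : n = 0 ∨ n = 1 ∨ n = 2 := by omega
  rcases h1 with rfl | rfl | rfl
  · exact ⟨up0 hj hi, down0 hj hi⟩
  · exact ⟨up1 hj hi, down1 hj hi⟩
  · exact ⟨up2 hj hi, down2 hj hi⟩

/-- Invariance under three-deformations. -/
theorem sext_deformation {K K' : FinCW} {j : Emb L K} {j' : Emb L K'} {g : C(K.X, K'.X)}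
    (Λ : Lab L) (h : Deformation 3 L K K' j j' g) : SExt K j Λ ↔ SExt K' j' Λ := by
  induction h with
  | refl j => exact Iff.rfl
  | expand K K' j₀ j j' g i n hn hi hj h ih =>
    exact ih.trans (sext_expansion (by exact_mod_cast hn) hj Λ hi)
  | collapse K K' j₀ j j' g i n hn hi hj h r hr hr' ih =>
    exact ih.trans (sext_expansion (by exact_mod_cast hn) hj Λ hi).symm

end Pool.Agent.Run7.h41.Inv
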