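import Pool.Agent.Run7.h41.ModelBase
import Pool.Agent.Run7.h41.ModelEmb
import Pool.Agent.Run7.h41.Steps

/-!
# The example
-/

set_option autoImplicit false

namespace Pool.Agent.Run7.h41.Exm

open Set Pool.Agent.Run7.h41 Pool.Agent.Run7.h41.CW Pool.Agent.Run7.h41.Top
open Pool.Agent.Run7.h41.Mod Pool.Agent.Run7.h41.Inv
open Pool.Agent.Run7.h41.Alg (Cen cen_one Bd)

/-- the relator `s² y⁻³ t⁻¹ s⁻¹ t⁻¹` -/
def R1 (s t y : Fin 6) : Wd 6 :=
  [(s, true), (s, true), (y, false), (y, false), (y, false), (t, false), (s, false), (t, false)]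

/-- the relator `y³ t³ s⁻¹ t⁻¹ s⁻¹` -/
def R2 (s t y : Fin 6) : Wd 6 :=
  [(y, true), (y, true), (y, true), (t, true), (t, true), (t, true), (s, false), (t, false),
    (s, false)]

/-- the relators of `L` -/
def PL : Fin 4 → Wd 6 := ![R1 0 1 2, R2 0 1 2, R1 3 4 5, R2 3 4 5]

/-- the relators of `K` -/
def PK : Fin 6 → Wd 6 := ![R1 0 1 2, R2 0 1 2, R1 3 4 5, R2 3 4 5, [(1, true), (2, true)],
  [(3, true), (4, true), (5, true)]]

/-! ### contractibility -/

section
variable {Q : Type} [Group Q] {s t y : Q}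

theorem id1 (h : t * y = 1) :
    y * y * y * t * t * t * s⁻¹ * t⁻¹ * s⁻¹ = s⁻¹ * t⁻¹ * s⁻¹ := by
  have hy : y = t⁻¹ := eq_inv_of_mul_eq_one_right h
  subst hy
  group

theorem id2 (h : t * y = 1) (h2 : s⁻¹ * t⁻¹ * s⁻¹ = 1) :
    s * s * y⁻¹ * y⁻¹ * y⁻¹ * t⁻¹ * s⁻¹ * t⁻¹ = s⁻¹ := by
  have hy : y = t⁻¹ := eq_inv_of_mul_eq_one_right h
  subst hy
  have ht : t = s⁻¹ * s⁻¹ := by
    have h3 : t⁻¹ = s * s := by
      calc t⁻¹ = s * (s⁻¹ * t⁻¹ * s⁻¹) * s := by group
        _ = s * s := by rw [h2, mul_one]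
    rw [← inv_inv t, h3]
    group
  subst ht
  group

theorem id5 (h : s * t * y = 1) :
    s * s * y⁻¹ * y⁻¹ * y⁻¹ * t⁻¹ * s⁻¹ * t⁻¹ = s * s * s * t * s := by
  have hy : y = (s * t)⁻¹ := eq_inv_of_mul_eq_one_right h
  subst hy
  group

theorem id6 (h : s * t * y = 1) (h2 : s * s * s * t * s = 1) :
    y * y * y * t * t * t * s⁻¹ * t⁻¹ * s⁻¹ = s⁻¹ := by
  have hy : y = (s * t)⁻¹ := eq_inv_of_mul_eq_one_right h
  subst hy
  have ht : t = (s * s * s)⁻¹ * s⁻¹ := by
    calc t = (s * s * s)⁻¹ * (s * s * s * t * s) * s⁻¹ := by group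
      _ = (s * s * s)⁻¹ * s⁻¹ := by rw [h2, mul_one]
  subst ht
  group
end

/-- the last presentation -/
def Q8 : Fin 6 → Wd 6 := ![[(0, false)], [(1, false)], [(4, true)], [(3, false)], [(2, true)],
  [(5, true)]]

def Q7 : Fin 6 → Wd 6 := ![[(0, false)], [(1, false)], [(4, true)], [(3, false)], [(2, true)],
  [(3, true), (4, true), (5, true)]]

def Q6 : Fin 6 → Wd 6 := ![[(0, false)], [(1, false)],
  [(3, true), (3, true), (3, true), (4, true), (3, true)], [(3, false)], [(2, true)],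
  [(3, true), (4, true), (5, true)]]

def Q5 : Fin 6 → Wd 6 := ![[(0, false)], [(1, false)],
  [(3, true), (3, true), (3, true), (4, true), (3, true)], R2 3 4 5, [(2, true)],
  [(3, true), (4, true), (5, true)]]

def Q4 : Fin 6 → Wd 6 := ![[(0, false)], [(1, false)], R1 3 4 5, R2 3 4 5, [(2, true)],
  [(3, true), (4, true), (5, true)]]

def Q3 : Fin 6 → Wd 6 := ![[(0, false)], [(1, false)], R1 3 4 5, R2 3 4 5,
  [(1, true), (2, true)], [(3, true), (4, true), (5, true)]]

def Q2 : Fin 6 → Wd 6 := ![[(0, false)], [(0, false), (1, false), (0, false)], R1 3 4 5,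
  R2 3 4 5, [(1, true), (2, true)], [(3, true), (4, true), (5, true)]]

def Q1 : Fin 6 → Wd 6 := ![R1 0 1 2, [(0, false), (1, false), (0, false)], R1 3 4 5,
  R2 3 4 5, [(1, true), (2, true)], [(3, true), (4, true), (5, true)]]

theorem c8 : ContractibleSpace (kp Q8).X := by
  refine contr_base (σ := ![0, 1, 4, 3, 2, 5]) (by decide)
    (b := ![false, false, true, false, true, true]) ?_ (by norm_num)
  intro j
  fin_cases j <;> rfl

theorem c7 : ContractibleSpace (kp Q7).X := by
  refine contr_step (P' := Q8) 5 (by intro j hj; fin_cases j <;> first | rfl | exact absurd rfl hj)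
    ?_ c8
  intro Q _ x h
  have h2 := h 2 (by decide)
  have h3 := h 3 (by decide)
  simp only [Q7, Q8, ev_cons, ev_nil, Matrix.cons_val, cond_true, cond_false, mul_one] at h2 h3 ⊢
  rw [h2, inv_eq_one.1 h3, one_mul, one_mul]

theorem c6 : ContractibleSpace (kp Q6).X := by
  refine contr_step (P' := Q7) 2 (by intro j hj; fin_cases j <;> first | rfl | exact absurd rfl hj)
    ?_ c7
  intro Q _ x h
  have h3 := h 3 (by decide)
  simp only [Q6, Q7, ev_cons, ev_nil, Matrix.cons_val, cond_true, cond_false, mul_one] at h3 ⊢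
  rw [inv_eq_one.1 h3, one_mul, one_mul, one_mul, mul_one]

theorem c5 : ContractibleSpace (kp Q5).X := by
  refine contr_step (P' := Q6) 3 (by intro j hj; fin_cases j <;> first | rfl | exact absurd rfl hj)
    ?_ c6
  intro Q _ x h
  have h2 := h 2 (by decide)
  have h5 := h 5 (by decide)
  simp only [Q5, Q6, R2, ev_cons, ev_nil, Matrix.cons_val, cond_true, cond_false, mul_one] at h2 h5 ⊢
  have := id6 (s := x 3) (t := x 4) (y := x 5) (by rw [← h5]; group) (by rw [← h2]; group)
  simp only [mul_assoc] at this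
  exact this

theorem c4 : ContractibleSpace (kp Q4).X := by
  refine contr_step (P' := Q5) 2 (by intro j hj; fin_cases j <;> first | rfl | exact absurd rfl hj)
    ?_ c5
  intro Q _ x h
  have h5 := h 5 (by decide)
  simp only [Q4, Q5, R1, ev_cons, ev_nil, Matrix.cons_val, cond_true, cond_false, mul_one] at h5 ⊢
  have := id5 (s := x 3) (t := x 4) (y := x 5) (by rw [← h5]; group)
  simp only [mul_assoc] at this
  rw [this]

theorem c3 : ContractibleSpace (kp Q3).X := by
  refine contr_step (P' := Q4) 4 (by intro j hj; fin_cases j <;> first | rfl | exact absurd rfl hj)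
    ?_ c4
  intro Q _ x h
  have h1 := h 1 (by decide)
  simp only [Q3, Q4, ev_cons, ev_nil, Matrix.cons_val, cond_true, cond_false, mul_one] at h1 ⊢
  rw [inv_eq_one.1 h1, one_mul]

theorem c2 : ContractibleSpace (kp Q2).X := by
  refine contr_step (P' := Q3) 1 (by intro j hj; fin_cases j <;> first | rfl | exact absurd rfl hj)
    ?_ c3
  intro Q _ x h
  have h0 := h 0 (by decide)
  simp only [Q2, Q3, ev_cons, ev_nil, Matrix.cons_val, cond_false, mul_one] at h0 ⊢
  rw [h0, one_mul, mul_one]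

theorem c1 : ContractibleSpace (kp Q1).X := by
  refine contr_step (P' := Q2) 0 (by intro j hj; fin_cases j <;> first | rfl | exact absurd rfl hj)
    ?_ c2
  intro Q _ x h
  have h1 := h 1 (by decide)
  have h4 := h 4 (by decide)
  simp only [Q1, Q2, R1, ev_cons, ev_nil, Matrix.cons_val, cond_true, cond_false, mul_one] at h1 h4 ⊢
  have := id2 (s := x 0) (t := x 1) (y := x 2) h4 (by rw [← h1]; group)
  simp only [mul_assoc] at this
  exact this

theorem c0 : ContractibleSpace (kp PK).X := by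
  refine contr_step (P' := Q1) 1 (by intro j hj; fin_cases j <;> first | rfl | exact absurd rfl hj)
    ?_ c1
  intro Q _ x h
  have h4 := h 4 (by decide)
  simp only [PK, Q1, R2, ev_cons, ev_nil, Matrix.cons_val, cond_true, cond_false, mul_one] at h4 ⊢
  have := id1 (s := x 0) (t := x 1) (y := x 2) h4
  simp only [mul_assoc] at this
  exact this

end Pool.Agent.Run7.h41.Exm
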