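import Pool.Agent.Run7.h41.ModelEmb
import Pool.Agent.Run7.h41.Steps
import Pool.Agent.Run7.h41.Example

/-!
# The two inclusions of `L` in `K` and the invariant
-/

set_option autoImplicit false

namespace Pool.Agent.Run7.h41.Exm

open Set Pool.Agent.Run7.h41 Pool.Agent.Run7.h41.CW Pool.Agent.Run7.h41.Top
open Pool.Agent.Run7.h41.Mod Pool.Agent.Run7.h41.Inv
open Pool.Agent.Run7.h41.Alg (Cen cen_one Bd)

/-- the swap of the two copies -/
def σ₁ : Equiv.Perm (Fin 6) where
  toFun := ![3, 4, 5, 0, 1, 2]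
  invFun := ![3, 4, 5, 0, 1, 2]
  left_inv := by decide
  right_inv := by decide

/-- the two-cells, for the first inclusion -/
def τ₀ : Fin 4 → Fin 6 := ![0, 1, 2, 3]

/-- the two-cells, for the second inclusion -/
def τ₁ : Fin 4 → Fin 6 := ![2, 3, 0, 1]

/-- the first inclusion -/
noncomputable def j₀ : Emb (kp PL) (kp PK) :=
  kemb PL PK 1 τ₀ (by decide) (by intro j; fin_cases j <;> rfl)

/-- the second inclusion -/
noncomputable def j₁ : Emb (kp PL) (kp PK) :=
  kemb PL PK σ₁ τ₁ (by decide) (by intro j; fin_cases j <;> rfl)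

/-- the labels -/
noncomputable def lam (i : Fin 6) (d : Dn × Gam) : Gam :=
  ![sg, tq, (d.1 : Gam), 1, d.2 * d.2 * d.2, d.2⁻¹ * d.2⁻¹] i

theorem lam_continuous (i : Fin 6) : Continuous (lam i) := by
  have h1 : Continuous fun d : Dn × Gam => (d.1 : Gam) := continuous_subtype_val.comp continuous_fst
  have h2 : Continuous fun d : Dn × Gam => d.2 := continuous_snd
  fin_cases i
  · exact continuous_const
  · exact continuous_const
  · exact h1
  · exact continuous_const
  · exact (h2.mul h2).mul h2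
  · exact h2.inv.mul h2.inv

theorem bd3 {y : Dn} (hy : Bd y) : (y : Gam) * (y : Gam) * (y : Gam) = 1 := y3 hy

theorem rel1 {s t y : Gam} (h1 : s * s * s = (s * t) * (s * t)) (h3 : y * y * y = 1) :
    s * (s * (y⁻¹ * (y⁻¹ * (y⁻¹ * (t⁻¹ * (s⁻¹ * t⁻¹)))))) = 1 := by
  have h4 : y⁻¹ * (y⁻¹ * (y⁻¹ * (t⁻¹ * (s⁻¹ * t⁻¹)))) = t⁻¹ * (s⁻¹ * t⁻¹) := by
    calc y⁻¹ * (y⁻¹ * (y⁻¹ * (t⁻¹ * (s⁻¹ * t⁻¹)))) = (y * y * y)⁻¹ * (t⁻¹ * (s⁻¹ * t⁻¹)) := by
          group
      _ = t⁻¹ * (s⁻¹ * t⁻¹) := by rw [h3, inv_one, one_mul]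
  rw [h4]
  have h5 : s * s = t * s * t := by
    have : s * (s * s) = s * (t * s * t) := by
      calc s * (s * s) = s * s * s := by group
        _ = (s * t) * (s * t) := h1
        _ = s * (t * s * t) := by group
    exact mul_left_cancel this
  calc s * (s * (t⁻¹ * (s⁻¹ * t⁻¹))) = (s * s) * (t * s * t)⁻¹ := by group
    _ = 1 := by rw [h5, mul_inv_cancel]

theorem rel2 {s t y : Gam} (h1 : s * s * s = (s * t) * (s * t))
    (h2 : t * t * t * t = (s * t) * (s * t)) (h3 : y * y * y = 1) :
    y * (y * (y * (t * (t * (t * (s⁻¹ * (t⁻¹ * s⁻¹))))))) = 1 := by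
  have h5 : s * s = t * s * t := by
    have : s * (s * s) = s * (t * s * t) := by
      calc s * (s * s) = s * s * s := by group
        _ = (s * t) * (s * t) := h1
        _ = s * (t * s * t) := by group
    exact mul_left_cancel this
  have h6 : t * t * t = s * t * s := by
    have h7 : t * (t * t * t) = t * (s * t * s) := by
      calc t * (t * t * t) = t * t * t * t := by group
        _ = s * (t * s * t) := by rw [h2]; group
        _ = s * (s * s) := by rw [h5]
        _ = (s * s) * s := by group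
        _ = t * s * t * s := by rw [h5]
        _ = t * (s * t * s) := by group
    exact mul_left_cancel h7
  calc y * (y * (y * (t * (t * (t * (s⁻¹ * (t⁻¹ * s⁻¹)))))))
      = (y * y * y) * ((t * t * t) * (s * t * s)⁻¹) := by group
    _ = 1 := by rw [h3, h6, mul_inv_cancel, one_mul]

theorem sg_rel : sg * sg * sg = (sg * tq) * (sg * tq) := by rw [s3, st2]

theorem tq_rel : tq * tq * tq * tq = (sg * tq) * (sg * tq) := by rw [t4, st2]

theorem ev_rel {y : Dn} (hy : Bd y) (g : Gam) (c : Fin 4) :
    Mod.ev (fun a => lam a (y, g)) (PL c) = 1 := by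
  fin_cases c
  · show Mod.ev (fun a => lam a (y, g)) (R1 0 1 2) = 1
    simp only [R1, ev_cons, ev_nil, cond_true, cond_false, mul_one, lam, Matrix.cons_val]
    exact rel1 sg_rel (bd3 hy)
  · show Mod.ev (fun a => lam a (y, g)) (R2 0 1 2) = 1
    simp only [R2, ev_cons, ev_nil, cond_true, cond_false, mul_one, lam, Matrix.cons_val]
    exact rel2 sg_rel tq_rel (bd3 hy)
  · show Mod.ev (fun a => lam a (y, g)) (R1 3 4 5) = 1
    simp only [R1, ev_cons, ev_nil, cond_true, cond_false, mul_one, lam, Matrix.cons_val]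
    group
  · show Mod.ev (fun a => lam a (y, g)) (R2 3 4 5) = 1
    simp only [R2, ev_cons, ev_nil, cond_true, cond_false, mul_one, lam, Matrix.cons_val]
    group

theorem lift_conj {n : ℕ} {Q : Type} [Group Q] (x : Fin n → Q) {u v : FreeGroup (Fin n)}
    (h : IsConj u v) (hu : FreeGroup.lift x u = 1) : FreeGroup.lift x v = 1 := by
  obtain ⟨c, hc⟩ := isConj_iff.1 h
  rw [← hc, map_mul, map_mul, map_inv, hu, mul_one, mul_inv_cancel]

/-- the labelling of `L` -/
noncomputable def Λ : Lab (kp PL) where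
  lam i := lam i
  cont i := lam_continuous i
  rel c w hw y hy g := lift_conj (n := 6) (fun a => lam a (y, g)) ((word_kp PL c).isConj hw)
    (ev_rel hy g c)

theorem val_j (σ : Equiv.Perm (Fin 6)) (τ : Fin 4 → Fin 6) (hτ : Function.Injective τ)
    (h : ∀ j, PK (τ j) = ren σ (PL j)) (d : Dn × Gam) (x : (kp PK).cell 1 → Gam) (a : Fin 6) :
    val (kemb PL PK σ τ hτ h) Λ d x a = lam (σ.symm a) d := by
  have h1 : (kemb PL PK σ τ hτ h).c (n := 1) (σ.symm a) = a := by
    rw [kemb_c1]
    exact σ.apply_symm_apply a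
  have h2 := (Top.Emb.c_injective (kemb PL PK σ τ hτ h) (n := 1)).extend_apply
    (fun a => Λ.lam a d) x (σ.symm a)
  rw [h1] at h2
  exact h2

theorem EV_j (σ : Equiv.Perm (Fin 6)) (τ : Fin 4 → Fin 6) (hτ : Function.Injective τ)
    (h : ∀ j, PK (τ j) = ren σ (PL j)) (d : Dn × Gam) (x : (kp PK).cell 1 → Gam) (l : Wd 6) :
    EV (kemb PL PK σ τ hτ h) Λ d x (FreeGroup.mk l : FreeGroup (Fin 6)) =
      Mod.ev (fun a => lam (σ.symm a) d) l := by
  unfold EV Mod.ev
  have h1 : val (kemb PL PK σ τ hτ h) Λ d x = fun a : Fin 6 => lam (σ.symm a) d :=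
    funext (val_j σ τ hτ h d x)
  rw [h1]
  rfl

theorem not_cen (y : Dn) : ¬ Cen (sg * tq * (y : Gam)) := by
  intro h2
  have h3 : ∀ e : Gam, (e = 1 ∨ e = -1) → sg * tq * (y : Gam) = e →
      ((y : Gam) : Quaternion ℝ).re = 0 := by
    intro e he h4
    have h5 : (y : Gam) = (sg * tq)⁻¹ * e := by rw [← h4]; group
    rw [h5]
    have h6 : (((sg * tq)⁻¹ : Gam) : Quaternion ℝ).re = 0 := by
      rw [g_inv]
      simp [sg, tq]
    rcases he with rfl | rfl
    · rw [mul_one]; exact h6
    · rw [Alg.mul_neg_g, mul_one, g_neg, Quaternion.re_neg, h6, neg_zero]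
  have h4 := h3 _ h2 rfl
  have h5 := y.2
  rw [h4] at h5
  norm_num at h5

/-- the extension property for the second inclusion -/
theorem sext_j₁ : SExt (kp PK) j₁ Λ := by
  intro w hw D hD
  have h1 : SX (kp PK) j₁ Λ (fun c : Fin 6 => (FreeGroup.mk (PK c) : FreeGroup (Fin 6))) D := by
    refine ⟨Empty, inferInstance,
      fun (c : Fin 6) p => ![1, 1, 1, 1, p.2.1, sg * tq * (p.1 : Gam)] c,
      fun k => k.elim, ?_, fun k => k.elim, ?_, fun k => k.elim, ?_, ?_, ?_⟩
    · intro c
      have h1 : Continuous fun p : Par (Fin 6) Empty => (p.1 : Gam) :=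
        continuous_subtype_val.comp continuous_fst
      have h2 : Continuous fun p : Par (Fin 6) Empty => p.2.1 :=
        continuous_fst.comp continuous_snd
      have h3 : ∀ c : Fin 6, Continuous fun p : Par (Fin 6) Empty =>
          (![1, 1, 1, 1, p.2.1, sg * tq * (p.1 : Gam)] : Fin 6 → Gam) c := by
        intro c
        fin_cases c
        · exact continuous_const
        · exact continuous_const
        · exact continuous_const
        · exact continuous_const
        · exact h2
        · exact continuous_const.mul h1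
      exact h3 c
    · have h3 : ∀ (c : Fin 6) (y : Dn), Bd y → ∀ g : Gam,
          (![1, 1, 1, 1, g, sg * tq * (y : Gam)] : Fin 6 → Gam) c =
          Mod.ev (fun a => lam (σ₁.symm a) (y, g)) (PK c) := by
        intro c y hy g
        fin_cases c
        · show (1 : Gam) = Mod.ev (fun a => lam (σ₁.symm a) (y, g)) (R1 0 1 2)
          exact (ev_rel hy g 2).symm
        · show (1 : Gam) = Mod.ev (fun a => lam (σ₁.symm a) (y, g)) (R2 0 1 2)
          exact (ev_rel hy g 3).symm
        · show (1 : Gam) = Mod.ev (fun a => lam (σ₁.symm a) (y, g)) (R1 3 4 5)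
          exact (ev_rel hy g 0).symm
        · show (1 : Gam) = Mod.ev (fun a => lam (σ₁.symm a) (y, g)) (R2 3 4 5)
          exact (ev_rel hy g 1).symm
        · show g = Mod.ev (fun a => lam (σ₁.symm a) (y, g)) [(1, true), (2, true)]
          rw [ev_cons, ev_cons, ev_nil]
          show g = g * g * g * (g⁻¹ * g⁻¹ * 1)
          group
        · show sg * tq * (y : Gam) =
            Mod.ev (fun a => lam (σ₁.symm a) (y, g)) [(3, true), (4, true), (5, true)]
          rw [ev_cons, ev_cons, ev_cons, ev_nil]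
          show sg * tq * (y : Gam) = sg * (tq * ((y : Gam) * 1))
          group
      intro c y hy g x z
      exact (h3 c y hy g).trans (EV_j σ₁ τ₁ _ _ (y, g) x (PK c)).symm
    · intro c₀ p
      have h3 : ∀ c₀ : Fin 4,
          (![1, 1, 1, 1, p.2.1, sg * tq * (p.1 : Gam)] : Fin 6 → Gam) (τ₁ c₀) = 1 := by
        intro c₀
        fin_cases c₀ <;> rfl
      exact Or.inl (h3 c₀)
    · intro e
      exact e.elim
    · rintro p ⟨h3, -⟩
      exact not_cen p.1 (h3 (5 : Fin 6))
  exact h1.conj (fun c => (word_kp PK c).isConj (hw c))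

/-- the extension property fails for the first inclusion -/
theorem not_sext_j₀ : ¬ SExt (kp PK) j₀ Λ := by
  classical
  intro h
  obtain ⟨J, hJ, W, V, hW, hV, hWb, hVb, hWL, -, hn⟩ :=
    h (fun c : Fin 6 => (FreeGroup.mk (PK c) : FreeGroup (Fin 6))) (word_kp PK) (fun e => e.elim)
      (fun e => e.elim)
  have : Fintype J := Fintype.ofFinite J
  let P : Dn × (Option J → Gam) → Par ((kp PK).cell 1) J := fun d =>
    (d.1, d.2 none, fun _ => 1, fun k => d.2 (some k))
  have hP : Continuous P := by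
    refine continuous_fst.prodMk (Continuous.prodMk ?_ (continuous_const.prodMk ?_))
    · exact (continuous_apply none).comp continuous_snd
    · exact continuous_pi fun k => (continuous_apply (some k)).comp continuous_snd
  have hW4 : ∀ y : Dn, Bd y → ∀ g x z, W (4 : Fin 6) (y, g, x, z) = tq * (y : Gam) := by
    intro y hy g x z
    rw [hWb (4 : Fin 6) y hy]
    refine (EV_j 1 τ₀ _ _ (y, g) x (PK 4)).trans ?_
    show Mod.ev (fun a => lam a (y, g)) [(1, true), (2, true)] = _
    rw [ev_cons, ev_cons, ev_nil]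
    show tq * ((y : Gam) * 1) = _
    rw [mul_one]
  have hW5 : ∀ y : Dn, Bd y → ∀ g x z, W (5 : Fin 6) (y, g, x, z) = g := by
    intro y hy g x z
    rw [hWb (5 : Fin 6) y hy]
    refine (EV_j 1 τ₀ _ _ (y, g) x (PK 5)).trans ?_
    show Mod.ev (fun a => lam a (y, g)) [(3, true), (4, true), (5, true)] = _
    rw [ev_cons, ev_cons, ev_cons, ev_nil]
    show 1 * (g * g * g * (g⁻¹ * g⁻¹ * 1)) = g
    group
  refine noExt (J := Option J) (fun d o => match o with
    | none => W (4 : Fin 6) (P d)
    | some none => W (5 : Fin 6) (P d)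
    | some (some k) => V k (P d)) ?_ ?_ ?_
  · refine continuous_pi fun o => ?_
    match o with
    | none => exact (hW _).comp hP
    | some none => exact (hW _).comp hP
    | some (some k) => exact (hV k).comp hP
  · intro y x hy
    refine ⟨hW4 y hy _ _ _, fun o => ?_⟩
    match o with
    | none => exact hW5 y hy _ _ _
    | some k => exact hVb k y hy _ _ _
  · intro d
    by_contra hcon
    push Not at hcon
    have hc : ∀ {g : Gam}, (g ≠ 1 → g = -1) → Cen g := fun {g} h => by
      by_cases h1 : g = 1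
      · exact Or.inl h1
      · exact Or.inr (h h1)
    refine hn (P d) ⟨?_, fun k => hc (hcon (some (some k)))⟩
    have h3 : ∀ c : Fin 6, Cen (W c (P d)) := by
      intro c
      have hL : ∀ c₀ : Fin 4, Cen (W (τ₀ c₀) (P d)) := fun c₀ => hWL c₀ (P d)
      fin_cases c
      · exact hL 0
      · exact hL 1
      · exact hL 2
      · exact hL 3
      · exact hc (hcon none)
      · exact hc (hcon (some none))
    exact h3

end Pool.Agent.Run7.h41.Exm
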