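import Pool.Agent.Run7.h41.ExampleLab

/-!
# The map of the pair
-/

set_option autoImplicit false

namespace Pool.Agent.Run7.h41.Exm

open Set Pool.Agent.Run7.h41 Pool.Agent.Run7.h41.CW Pool.Agent.Run7.h41.Top
open Pool.Agent.Run7.h41.Mod Pool.Agent.Run7.h41.Inv

/-- loops in a contractible space bound discs -/
theorem exists_disc {X : Type} [TopologicalSpace X] [ContractibleSpace X] {ψ : ℝ → X}
    (hψ : Continuous ψ) (hper : ∀ t, ψ (t + 1) = ψ t) :
    ∃ γ : Disc 2 → X, Continuous γ ∧ ∀ t, γ (circ t) = ψ t := by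
  obtain ⟨p, ⟨H⟩⟩ := (contractible_iff_id_nullhomotopic X).1 inferInstance
  obtain ⟨γ, hγ, hγ1⟩ := polar_ext (fun r t => H (projIcc 0 1 zero_le_one (1 - r), ψ t))
    (H.continuous.comp ((continuous_projIcc.comp (by fun_prop)).prodMk (hψ.comp continuous_snd)))
    (fun r t => by rw [hper])
    (fun t => by
      have h1 : projIcc (0 : ℝ) 1 zero_le_one (1 - 0) = 1 := by
        rw [sub_zero]
        exact projIcc_right (zero_le_one (α := ℝ))
      rw [h1, H.apply_one, H.apply_one]
      rfl)
  refine ⟨γ, hγ, fun t => ?_⟩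
  rw [← pol_one, hγ1 1 t zero_le_one le_rfl]
  have h1 : projIcc (0 : ℝ) 1 zero_le_one (1 - 1) = 0 := by
    rw [sub_self]
    exact projIcc_left (zero_le_one (α := ℝ))
  rw [h1, H.apply_zero]
  rfl

/-- maps to a contractible space are homotopic -/
theorem homotopic_of_contractible {X Y : Type} [TopologicalSpace X] [TopologicalSpace Y]
    [ContractibleSpace Y] (f g : C(X, Y)) : f.Homotopic g := by
  obtain ⟨p, hp⟩ := (contractible_iff_id_nullhomotopic Y).1 inferInstance
  have h1 : ∀ f : C(X, Y), f.Homotopic (ContinuousMap.const X p) := fun f =>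
    hp.comp (ContinuousMap.Homotopic.refl f)
  exact (h1 f).trans (h1 g).symm

instance contrK : ContractibleSpace (kp PK).X := c0

/-- the loop of `L` along which the two-cell `j` of `K` is attached -/
noncomputable def lo (j : Fin 6) (t : ℝ) : (kp PL).X := k1pt PL (wl (PK j) t) (wl_mem _ t)

theorem lo_continuous (j : Fin 6) : Continuous (lo j) :=
  Continuous.subtype_mk ((wl_continuous _).prodMk continuous_const) _

theorem chi_lo (j : Fin 6) (t : ℝ) : (kp PK).χ (n := 2) j (circ t) = j₀.f (lo j t) := by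
  rw [chi_circ]
  apply Subtype.ext
  show (wl (PK j) t, (0 : Fin 6 → ℂ × ℝ)) = amap 1 τ₀ (wl (PK j) t, 0)
  apply Prod.ext
  · rfl
  · exact (extend_zero τ₀).symm

theorem exists_map : ∃ f : C((kp PK).X, (kp PK).X), ∀ x, f (j₀.f x) = j₁.f x := by
  have hψ : ∀ b : Bool, Continuous fun t => j₁.f (lo (cond b 4 5) t) := fun b =>
    j₁.f.continuous.comp (lo_continuous _)
  choose γ hγ hγ1 using fun b : Bool => exists_disc (hψ b) (fun t => by
    simp only [lo, wl_add_one])
  have hopen : ∀ (b : Bool) (z : Disc 2) (a : (kp PL).X), ‖z.1‖ < 1 →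
      j₀.f a ≠ (kp PK).χ (n := 2) (cond b 4 5 : Fin 6) z := by
    intro b z a hz h
    have h1 := congrArg (rep (kp PK)) h
    rw [Top.Emb.rep_f, rep_unique (K := kp PK) (n := 2) (cond b 4 5 : Fin 6) hz] at h1
    generalize rep (kp PL) a = q at h1
    obtain ⟨n, c', x'⟩ := q
    simp only [Sigma.mk.injEq] at h1
    obtain ⟨rfl, h2⟩ := h1
    simp only [heq_eq_eq, Prod.mk.injEq] at h2
    have h3 : τ₀ c' = (cond b 4 5 : Fin 6) := h2.1
    have h4 : ∀ (c : Fin 4) (b : Bool), τ₀ c ≠ (cond b 4 5 : Fin 6) := by decide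
    exact h4 c' b h3
  have hcomp : CompactSpace (kp PL).X := finCWCompact (kp PL)
  obtain ⟨F, hF, hF1, -⟩ := glue_two (X := (kp PK).X) (A := (kp PL).X) (D := Bool × Disc 2)
    (Y := (kp PK).X) (α := j₀.f) j₀.f.continuous
    (χ := fun q => (kp PK).χ (n := 2) (cond q.1 4 5 : Fin 6) q.2)
    (by
      apply continuous_prod_of_discrete_left.2
      intro b
      exact (kp PK).continuous_χ (n := 2) (cond b 4 5 : Fin 6))
    (by
      intro x
      have h1 : ∀ (m : ℕ) (c : (kp PK).cell m) (z : Disc m),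
          (kp PK).χ c z ∈ range j₀.f ∨ (kp PK).χ c z ∈
            range fun q : Bool × Disc 2 => (kp PK).χ (n := 2) (cond q.1 4 5 : Fin 6) q.2 := by
        intro m c z
        match m, c, z with
        | 0, c, z => exact Or.inl ⟨(kp PL).χ (n := 0) () z, j₀.comm (n := 0) () z⟩
        | 1, c, z => exact Or.inl ⟨(kp PL).χ (n := 1) c z, j₀.comm (n := 1) c z⟩
        | 2, c, z =>
          have h2 : ∀ c : Fin 6, (∃ c₀ : Fin 4, τ₀ c₀ = c) ∨ ∃ b : Bool, (cond b 4 5 : Fin 6) = c := by
            decide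
          rcases h2 c with ⟨c₀, rfl⟩ | ⟨b, rfl⟩
          · exact Or.inl ⟨(kp PL).χ (n := 2) c₀ z, j₀.comm (n := 2) c₀ z⟩
          · exact Or.inr ⟨(b, z), rfl⟩
        | m + 3, c, z => exact c.elim
      have h2 := h1 _ (rep (kp PK) x).2.1 (rep (kp PK) x).2.2
      rwa [rep_χ] at h2)
    (by
      rintro ⟨b, z⟩ ⟨b', z'⟩ h
      rcases z.norm_le.lt_or_eq with h2 | h2
      · rcases z'.norm_le.lt_or_eq with h3 | h3
        · left
          have h4 := congrArg (rep (kp PK)) h
          simp only at h4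
          rw [rep_unique (K := kp PK) (n := 2) (cond b 4 5 : Fin 6) h2,
            rep_unique (K := kp PK) (n := 2) (cond b' 4 5 : Fin 6) h3] at h4
          simp only [Sigma.mk.injEq, heq_eq_eq, Prod.mk.injEq, true_and] at h4
          have h5 : ∀ b b' : Bool, (cond b 4 5 : Fin 6) = cond b' 4 5 → b = b' := by decide
          rw [h5 b b' h4.1, h4.2]
        · exact absurd h (open_ne_boundary (K := kp PK) h2 h3)
      · right
        obtain ⟨t, -, -, rfl⟩ := circ_surj h2
        exact ⟨_, (chi_lo _ t).symm⟩)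
    (β := j₁.f) j₁.f.continuous (γ := fun q => γ q.1 q.2)
    (by
      apply continuous_prod_of_discrete_left.2
      exact hγ)
    (by
      intro a a' h
      rw [j₀.injective h])
    (by
      rintro a ⟨b, z⟩ h
      rcases z.norm_le.lt_or_eq with h2 | h2
      · exact absurd h (hopen b z a h2)
      · obtain ⟨t, -, -, rfl⟩ := circ_surj h2
        simp only at h ⊢
        rw [chi_lo] at h
        rw [j₀.injective h, hγ1])
  exact ⟨⟨F, hF⟩, hF1⟩

/-- the inclusion of the empty complex -/
def emptyEmb (K : FinCW) : Emb FinCW.empty K where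
  f := ⟨fun x : Empty => x.elim, by
    rw [continuous_def]
    intro s _
    convert isOpen_empty
    ext x
    exact Empty.elim x⟩
  injective := fun x : Empty => x.elim
  c := fun a => Empty.elim a
  comm := fun a => Empty.elim a

theorem isSimple_of_contractible {K : FinCW} [ContractibleSpace K.X] (f : C(K.X, K.X)) :
    IsSimple f :=
  ⟨emptyEmb K, emptyEmb K, ContinuousMap.id K.X, Deformation.refl K _,
    homotopic_of_contractible _ _⟩

theorem no_deformation (g : C((kp PK).X, (kp PK).X)) :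
    ¬ Deformation 3 (kp PL) (kp PK) (kp PK) j₀ j₁ g :=
  fun h => not_sext_j₀ ((sext_deformation Λ h).2 sext_j₁)

end Pool.Agent.Run7.h41.Exm
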