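import Pool.Agent.Run7.h41.Ball

/-!
# Finite CW complexes (with unspecified characteristic maps), expansions and deformations
-/

set_option autoImplicit false

namespace Pool.Agent.Run7.h41.Flex

open Set Pool.Agent.Run7.h41.CW

/-- `φ` is a characteristic map of the `n`-cell `c`; here `o` gives the open cells. -/
def IsChar {X : Type} [TopologicalSpace X] {cell : ℕ → Type} (o : ∀ n : ℕ, cell n → Set X)
    {n : ℕ} (c : cell n) (φ : Disc n → X) : Prop :=
  Continuous φ ∧ (∀ x y, IsInt x → IsInt y → φ x = φ y → x = y) ∧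
    (∀ p, p ∈ o n c ↔ ∃ x, IsInt x ∧ φ x = p) ∧
    ∀ x, IsBd x → ∃ m, m < n ∧ ∃ c' : cell m, φ x ∈ o m c'

/-- A finite CW complex: a Hausdorff space which is the disjoint union of finitely many open cells,
each of which has a characteristic map. -/
structure Cx where
  /-- the space -/
  X : Type
  [top : TopologicalSpace X]
  [t2 : T2Space X]
  /-- the cells of dimension `n` -/
  cell : ℕ → Type
  finite_cell : Finite (Σ n, cell n)
  /-- the open cells -/
  o : ∀ n : ℕ, cell n → Set X
  partition : ∀ p : X, ∃! q : (Σ n, cell n), p ∈ o q.1 q.2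
  exists_char : ∀ {n : ℕ} (c : cell n), ∃ φ : Disc n → X, IsChar o c φ

attribute [instance] Cx.top Cx.t2

/-- The inclusion of `K` as a subcomplex of `K'`. -/
structure Sub (K K' : Cx) where
  /-- the map of spaces -/
  f : C(K.X, K'.X)
  injective : Function.Injective f
  /-- the map of cells -/
  c : ∀ {n : ℕ}, K.cell n → K'.cell n
  img : ∀ {n : ℕ} (a : K.cell n), f '' K.o n a = K'.o n (c a)

/-- The inclusion `i : K → K'` is an elementary expansion: the cells of `K'` which are not in `K`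
are an `n`-cell `a` and an `(n + 1)`-cell `b`, and `b` has a characteristic map whose restriction to
the upper hemisphere is a characteristic map of `a` and which maps the lower hemisphere to `K`. -/
def IsExp {K K' : Cx} (i : Sub K K') (n : ℕ) : Prop :=
  ∃ (a : K'.cell n) (b : K'.cell (n + 1)),
    (∀ (m : ℕ) (c : K'.cell m), (∃ c₀ : K.cell m, c = i.c c₀) ∨
      (⟨m, c⟩ : Σ m, K'.cell m) = ⟨n, a⟩ ∨ (⟨m, c⟩ : Σ m, K'.cell m) = ⟨n + 1, b⟩) ∧
    (∀ c₀ : K.cell n, i.c c₀ ≠ a) ∧ (∀ c₀ : K.cell (n + 1), i.c c₀ ≠ b) ∧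
    ∃ φ : Disc (n + 1) → K'.X, IsChar K'.o b φ ∧ IsChar K'.o a (fun x => φ (upper x)) ∧
      ∀ x, φ (lower x) ∈ range i.f

/-- `Deform m L K K' j j' g`: there is a finite sequence of elementary expansions and
collapses of dimension at most `m` from `K` to `K'`, which leaves the subcomplex `L` fixed
throughout, and which determines the map `g`. -/
inductive Deform (m : ℕ∞) (L : Cx) : (K K' : Cx) → Sub L K → Sub L K' → C(K.X, K'.X) → Prop
  /-- the empty sequence -/
  | refl (K : Cx) (j : Sub L K) : Deform m L K K j j (ContinuousMap.id K.X)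
  /-- an elementary expansion -/
  | expand (K₀ K K' : Cx) (j₀ : Sub L K₀) (j : Sub L K) (j' : Sub L K') (g : C(K₀.X, K.X))
      (i : Sub K K') (n : ℕ) (hn : ((n + 1 : ℕ) : ℕ∞) ≤ m) (hi : IsExp i n)
      (hj : ∀ x, j'.f x = i.f (j.f x)) (h : Deform m L K₀ K j₀ j g) :
      Deform m L K₀ K' j₀ j' (i.f.comp g)
  /-- an elementary collapse, and a deformation retraction `r` -/
  | collapse (K₀ K K' : Cx) (j₀ : Sub L K₀) (j : Sub L K) (j' : Sub L K') (g : C(K₀.X, K'.X))
      (i : Sub K K') (n : ℕ) (hn : ((n + 1 : ℕ) : ℕ∞) ≤ m) (hi : IsExp i n)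
      (hj : ∀ x, j'.f x = i.f (j.f x)) (h : Deform m L K₀ K' j₀ j' g)
      (r : C(K'.X, K.X)) (hr : ∀ x, r (i.f x) = x)
      (hr' : (i.f.comp r).HomotopicRel (ContinuousMap.id K'.X) (range i.f)) :
      Deform m L K₀ K j₀ j (r.comp g)

/-- A simple-homotopy equivalence: a map homotopic to the map determined by a deformation
(which leaves fixed an empty complex `E`). -/
def IsSimpleEq {K K' : Cx} (f : C(K.X, K'.X)) : Prop :=
  ∃ (E : Cx) (j : Sub E K) (j' : Sub E K') (g : C(K.X, K'.X)),
    IsEmpty E.X ∧ Deform ⊤ E K K' j j' g ∧ f.Homotopic g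

/-- `dim (K - L) = n`: all cells of `K` which are not in the subcomplex `L` have dimension at most
`n`, and there is such a cell of dimension `n`. -/
def RelDim {L K : Cx} (j : Sub L K) (n : ℕ) : Prop :=
  (∀ (m : ℕ) (c : K.cell m), (∀ c₀ : L.cell m, j.c c₀ ≠ c) → m ≤ n) ∧
    ∃ c : K.cell n, ∀ c₀ : L.cell n, j.c c₀ ≠ c

end Pool.Agent.Run7.h41.Flex
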