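import Pool.Agent.Run7.h41.FSphere

/-!
# The complement of the preimage of a point in the boundary sphere is contractible
-/

set_option autoImplicit false

namespace Pool.Agent.Run7.h41.Top

open Set Pool.Agent.Run7.h41.CW

theorem mem_cone_self {n : ℕ} {S : Set (Disc n)} {z : Disc n} (hz : z ∈ S) : z ∈ cone S :=
  ⟨z, hz, 1, zero_le_one, le_rfl, (scl_one z).symm⟩

/-- points of norm one of the cone -/
theorem cone_norm_one {n : ℕ} {S : Set (Disc n)} {z : Disc n} (hz : z ∈ cone S)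
    (h1 : ‖z.1‖ = 1) : z ∈ S := by
  obtain ⟨w, hw, σ, h0, h1', rfl⟩ := hz
  rw [scl_norm h0 h1'] at h1
  have h2 : σ = 1 := by
    have := w.norm_le
    nlinarith [norm_nonneg w.1]
  rw [h2, scl_one]
  exact hw

theorem zero_mem_cone {n : ℕ} {S : Set (Disc n)} (hS : S.Nonempty) {z : Disc n} (hz : z.1 = 0) :
    z ∈ cone S := by
  obtain ⟨w, hw⟩ := hS
  refine ⟨w, hw, 0, le_rfl, zero_le_one, Subtype.ext ?_⟩
  rw [scl_val le_rfl zero_le_one, zero_smul, hz]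

theorem mem_cone_of_dr {n : ℕ} {S : Set (Disc n)} {z : Disc n} (hz : dr z ∈ S) : z ∈ cone S :=
  ⟨dr z, hz, ‖z.1‖, norm_nonneg _, z.norm_le, (scl_dr z).symm⟩

theorem contract {X : Type} [TopologicalSpace X] [T2Space X] {O : Set X} {φ₀ φ₁ : Disc 3 → X}
    (h₀ : Chr O φ₀) (h₁ : Chr O φ₁) (hN : ∀ z, φ₀ z = φ₀ (upper ctr) → z = upper ctr)
    {C : Set (Disc 3)} (hC : IsCompact C) (hC1 : ∀ z ∈ C, ‖z.1‖ = 1 ∧ φ₁ z ≠ φ₀ (upper ctr)) :
    ∃ (K : Disc 3 × ℝ → Disc 3) (z₀ : Disc 3), ContinuousOn K (C ×ˢ Icc 0 1) ∧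
      (∀ z ∈ C, ∀ t ∈ Icc (0 : ℝ) 1, ‖(K (z, t)).1‖ = 1 ∧ φ₁ (K (z, t)) ≠ φ₀ (upper ctr)) ∧
      (∀ z ∈ C, K (z, 0) = z) ∧ ∀ z ∈ C, K (z, 1) = z₀ := by
  obtain ⟨η, hηc, hη1, hη2⟩ := h₀.trans h₁
  obtain ⟨η', hηc', hη1', hη2'⟩ := h₁.trans h₀
  have hηη := h₀.trans_trans hη1 hη2 hη1' hη2'
  have hηη' := h₁.trans_trans hη1' hη2' hη1 hη2
  set N : Disc 3 := upper ctr with hNdef
  have hN1 : ‖N.1‖ = 1 := upper_norm _
  have hNl : N.1 (Fin.last 2) = 1 := upper_ctr_last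
  have hcn : Continuous fun z : Disc 3 => ‖z.1‖ := continuous_norm.comp continuous_subtype_val
  have hcl : Continuous fun z : Disc 3 => z.1 (Fin.last 2) :=
    (EuclideanSpace.proj (𝕜 := ℝ) (Fin.last 2)).continuous.comp continuous_subtype_val
  -- the preimage of the point
  let F₁ : Set (Disc 3) := {z | ‖z.1‖ = 1 ∧ φ₁ z = φ₀ N}
  have hF₁ : IsCompact F₁ := by
    apply IsClosed.isCompact
    exact (isClosed_eq hcn continuous_const).inter (isClosed_eq h₁.cont continuous_const)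
  have hF₁ne : F₁.Nonempty := by
    have h1 : φ₀ N ∈ range φ₁ := by
      rw [← h₀.range_eq h₁]
      exact mem_range_self _
    obtain ⟨z, hz⟩ := h1
    refine ⟨z, ?_, hz⟩
    by_contra h2
    have h3 : ‖z.1‖ < 1 := lt_of_le_of_ne z.norm_le h2
    have h4 := h₁.int z h3
    rw [hz] at h4
    exact h₀.bd N hN1 h4
  have hB₁ : IsCompact (cone F₁) := cone_compact hF₁
  let Z₀ : Set (Disc 3) := φ₀ ⁻¹' (φ₁ '' cone F₁)
  have hZ₀ : IsClosed Z₀ := (hB₁.image h₁.cont).isClosed.preimage h₀.cont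
  have hz1 : ∀ z ∈ Z₀, ‖z.1‖ = 1 → z = N := by
    rintro z ⟨w, hw, hw2⟩ hz
    apply hN
    have h2 : ‖w.1‖ = 1 := by
      by_contra h3
      apply h₀.bd z hz
      rw [← hw2]
      exact h₁.int w (lt_of_le_of_ne w.norm_le h3)
    rw [← hw2]
    exact (cone_norm_one hw h2).2
  have hz2 : N ∈ Z₀ := by
    obtain ⟨w, hw⟩ := hF₁ne
    exact ⟨w, mem_cone_self hw, hw.2⟩
  have hz3 : ∀ P, ‖P.1‖ < 1 → P ∉ Z₀ → (η P).1 ≠ 0 ∧ dr (η P) ∉ F₁ := by
    intro P hP hPZ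
    have h1 : η P ∉ cone F₁ := fun h => hPZ ⟨η P, h, hη2 P hP⟩
    exact ⟨fun h => h1 (zero_mem_cone hF₁ne h), fun h => h1 (mem_cone_of_dr h)⟩
  -- the saturation
  let R₀ : Set (Disc 3) := {y | ∃ z ∈ Z₀, ‖y.1‖ ≤ ‖z.1‖ ∧
    z.1 (Fin.last 2) * ‖y.1‖ ≤ y.1 (Fin.last 2) * ‖z.1‖}
  have hR₀ : IsCompact R₀ := by
    have h1 : IsCompact {q : Disc 3 × Disc 3 | q.2 ∈ Z₀ ∧ ‖q.1.1‖ ≤ ‖q.2.1‖ ∧
        q.2.1 (Fin.last 2) * ‖q.1.1‖ ≤ q.1.1 (Fin.last 2) * ‖q.2.1‖} := by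
      apply IsClosed.isCompact
      refine (hZ₀.preimage continuous_snd).inter (IsClosed.inter ?_ ?_)
      · exact isClosed_le (hcn.comp continuous_fst) (hcn.comp continuous_snd)
      · exact isClosed_le ((hcl.comp continuous_snd).mul (hcn.comp continuous_fst))
          ((hcl.comp continuous_fst).mul (hcn.comp continuous_snd))
    have h2 := h1.image continuous_fst
    convert h2 using 1
    ext y
    constructor
    · rintro ⟨z, hz, h3, h4⟩
      exact ⟨(y, z), ⟨hz, h3, h4⟩, rfl⟩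
    · rintro ⟨⟨y', z⟩, ⟨hz, h3, h4⟩, rfl⟩
      exact ⟨z, hz, h3, h4⟩
  have hr1 : ∀ y ∈ R₀, ‖y.1‖ = 1 → y = N := by
    rintro y ⟨z, hz, h1, h2⟩ hy
    have h3 : ‖z.1‖ = 1 := le_antisymm z.norm_le (hy.symm.le.trans h1)
    have h4 := hz1 z hz h3
    rw [h4, hN1, hNl, hy] at h2
    apply eq_N
    linarith
  obtain ⟨r, hr0, hr1', hr⟩ := push h₁.cont hC (hR₀.image h₀.cont).isClosed (by
    rintro z hz ⟨y, hy, hy2⟩
    have h1 : ‖y.1‖ = 1 := by
      by_contra h3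
      apply h₁.bd z (hC1 z hz).1
      rw [← hy2]
      exact h₀.int y (lt_of_le_of_ne y.norm_le h3)
    apply (hC1 z hz).2
    rw [← hy2, hr1 y hy h1])
  let y : Disc 3 → Disc 3 := fun z => η' (scl r z)
  have hsz : ∀ z : Disc 3, ‖(scl r z).1‖ < 1 := by
    intro z
    rw [scl_norm hr0.le hr1'.le]
    nlinarith [z.norm_le, norm_nonneg z.1]
  have hyc : Continuous y := hηc'.comp_continuous
    (scl_continuous.comp (continuous_const.prodMk continuous_id)) hsz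
  have hy1 : ∀ z, ‖(y z).1‖ < 1 := fun z => hη1' _ (hsz z)
  have hyR : ∀ z ∈ C, y z ∉ R₀ := by
    intro z hz h
    exact hr r le_rfl hr1'.le z hz ⟨y z, h, hη2' _ (hsz z)⟩
  have hyl : ∀ z ∈ C, (y z).1 (Fin.last 2) < ‖(y z).1‖ := by
    intro z hz
    by_contra h
    apply hyR z hz
    refine ⟨N, hz2, by rw [hN1]; exact (y z).norm_le, ?_⟩
    rw [hNl, hN1, one_mul, mul_one]
    exact not_lt.1 h
  obtain ⟨ρ, hρ0, hρ1, hρ⟩ := norm_bound (hC.image hyc) (by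
    rintro _ ⟨z, -, rfl⟩
    exact hy1 z)
  have hρ' : ∀ z ∈ C, ‖(y z).1‖ ≤ ρ := fun z hz => hρ _ ⟨z, hz, rfl⟩
  let rad : Disc 3 × ℝ → ℝ := fun q => (1 - q.2) * ‖(y q.1).1‖ + q.2 * ρ
  have hradc : Continuous rad := by
    have h1 : Continuous fun q : Disc 3 × ℝ => ‖(y q.1).1‖ := hcn.comp (hyc.comp continuous_fst)
    exact ((continuous_const.sub continuous_snd).mul h1).add (continuous_snd.mul continuous_const)
  have hrad : ∀ z ∈ C, ∀ t ∈ Icc (0 : ℝ) 1, ‖(y z).1‖ ≤ rad (z, t) ∧ rad (z, t) < 1 ∧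
      0 ≤ rad (z, t) := by
    intro z hz t ht
    have h1 := hρ' z hz
    have h2 := norm_nonneg (y z).1
    have h3 : ‖(y z).1‖ ≤ rad (z, t) := by
      simp only [rad]
      nlinarith [ht.1, ht.2, mul_le_mul_of_nonneg_left h1 ht.1]
    refine ⟨h3, ?_, h2.trans h3⟩
    simp only [rad]
    nlinarith [ht.1, ht.2, mul_le_mul_of_nonneg_left h1 (sub_nonneg.2 ht.2)]
  have hmv : ∀ z ∈ C, ∀ t ∈ Icc (0 : ℝ) 1, (mv t (y z)).1 ≠ 0 := by
    intro z hz t ht h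
    have h1 := mv_nsq ht.1 ht.2 (y z)
    have h2 := mv_last ht.1 ht.2 (y z)
    rw [h] at h1 h2
    rw [norm_zero] at h1
    have h2' : 0 = (1 - t) * (y z).1 (Fin.last 2) - t * ‖(y z).1‖ := h2
    have h3 := hyl z hz
    have h4 : 0 < ‖(y z).1‖ := by
      rcases (norm_nonneg (y z).1).eq_or_lt with h5 | h5
      · have := neg_last_le_norm (y z).1
        linarith
      · exact h5
    rcases ht.2.lt_or_eq with h5 | h5
    · have h6 : (1 - t) * (y z).1 (Fin.last 2) < (1 - t) * ‖(y z).1‖ :=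
        mul_lt_mul_of_pos_left h3 (by linarith)
      have h7 : t * ‖(y z).1‖ < (1 - t) * ‖(y z).1‖ := by linarith
      have h8 : ((1 - t) * ‖(y z).1‖) ^ 2 - (t * ‖(y z).1‖) ^ 2 = 0 := by
        have h9 : (1 - t) * (y z).1 (Fin.last 2) = t * ‖(y z).1‖ := by linarith
        have h10 : 2 * (1 - t) * (t * ‖(y z).1‖) * (y z).1 (Fin.last 2) =
            2 * (t * ‖(y z).1‖) ^ 2 := by
          calc _ = 2 * (t * ‖(y z).1‖) * ((1 - t) * (y z).1 (Fin.last 2)) := by ring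
            _ = _ := by rw [h9]; ring
        rw [h10] at h1
        linarith
      have h9 := mul_nonneg ht.1 h4.le
      nlinarith
    · rw [h5] at h2'
      linarith
  have hmvn : ∀ z ∈ C, ∀ t ∈ Icc (0 : ℝ) 1, 0 < ‖(mv t (y z)).1‖ := fun z hz t ht =>
    norm_pos_iff.2 (hmv z hz t ht)
  let P : Disc 3 × ℝ → Disc 3 := fun q => scl (rad q) (dr (mv q.2 (y q.1)))
  have hPn : ∀ z ∈ C, ∀ t ∈ Icc (0 : ℝ) 1, ‖(P (z, t)).1‖ = rad (z, t) := by
    intro z hz t ht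
    obtain ⟨h1, h2, h3⟩ := hrad z hz t ht
    simp only [P]
    rw [scl_norm h3 h2.le, dr_norm (hmv z hz t ht), mul_one]
  have hPl : ∀ z ∈ C, ∀ t ∈ Icc (0 : ℝ) 1, (P (z, t)).1 (Fin.last 2) =
      rad (z, t) * (‖(mv t (y z)).1‖⁻¹ * (mv t (y z)).1 (Fin.last 2)) := by
    intro z hz t ht
    obtain ⟨h1, h2, h3⟩ := hrad z hz t ht
    simp only [P]
    rw [scl_val h3 h2.le]
    rfl
  have hPZ : ∀ z ∈ C, ∀ t ∈ Icc (0 : ℝ) 1, P (z, t) ∉ Z₀ := by
    intro z hz t ht h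
    obtain ⟨h1, h2, h3⟩ := hrad z hz t ht
    apply hyR z hz
    refine ⟨P (z, t), h, by rw [hPn z hz t ht]; exact h1, ?_⟩
    rw [hPn z hz t ht, hPl z hz t ht]
    have h4 := mv_ineq ht.1 ht.2 (y z)
    have h5 := hmvn z hz t ht
    have h6 : ‖(mv t (y z)).1‖⁻¹ * (mv t (y z)).1 (Fin.last 2) * ‖(y z).1‖ ≤
        (y z).1 (Fin.last 2) := by
      rw [mul_assoc, inv_mul_le_iff₀ h5]
      linarith
    calc rad (z, t) * (‖(mv t (y z)).1‖⁻¹ * (mv t (y z)).1 (Fin.last 2)) * ‖(y z).1‖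
        = rad (z, t) * (‖(mv t (y z)).1‖⁻¹ * (mv t (y z)).1 (Fin.last 2) * ‖(y z).1‖) := by ring
      _ ≤ rad (z, t) * (y z).1 (Fin.last 2) := mul_le_mul_of_nonneg_left h6 h3
      _ = (y z).1 (Fin.last 2) * rad (z, t) := by ring
  have hPn1 : ∀ z ∈ C, ∀ t ∈ Icc (0 : ℝ) 1, ‖(P (z, t)).1‖ < 1 := by
    intro z hz t ht
    rw [hPn z hz t ht]
    exact (hrad z hz t ht).2.1
  have hmvc : ContinuousOn (fun q : Disc 3 × ℝ => dr (mv q.2 (y q.1))) (C ×ˢ Icc 0 1) := by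
    apply dr_continuousOn.comp
    · exact (mv_continuous.comp ((hyc.comp continuous_fst).prodMk continuous_snd)).continuousOn
    · rintro ⟨z, t⟩ ⟨hz, ht⟩
      exact hmv z hz t ht
  have hPc : ContinuousOn P (C ×ˢ Icc 0 1) :=
    scl_continuous.comp_continuousOn (hradc.continuousOn.prodMk hmvc)
  refine ⟨fun q => dr (η (P q)), dr (η (scl ρ (⟨-N.1, by
    rw [mem_closedBall_zero_iff, norm_neg, hN1]⟩ : Disc 3))), ?_, ?_, ?_, ?_⟩
  · apply dr_continuousOn.comp (hηc.comp hPc _)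
    · rintro ⟨z, t⟩ ⟨hz, ht⟩
      exact (hz3 _ (hPn1 z hz t ht) (hPZ z hz t ht)).1
    · rintro ⟨z, t⟩ ⟨hz, ht⟩
      exact hPn1 z hz t ht
  · intro z hz t ht
    obtain ⟨h1, h2⟩ := hz3 _ (hPn1 z hz t ht) (hPZ z hz t ht)
    refine ⟨dr_norm h1, fun h3 => h2 ⟨dr_norm h1, h3⟩⟩
  · intro z hz
    have h1 : mv 0 (y z) = y z := by
      apply Subtype.ext
      rw [mv_val le_rfl zero_le_one]
      simp
    have h2 : rad (z, 0) = ‖(y z).1‖ := by simp [rad]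
    have h3 : P (z, 0) = y z := by
      simp only [P]
      rw [h1, h2, scl_dr]
    simp only [h3]
    show dr (η (η' (scl r z))) = z
    rw [hηη' _ (hsz z), dr_scl (hC1 z hz).1 hr0 hr1'.le]
  · intro z hz
    have h2 : rad (z, 1) = ρ := by simp [rad]
    have hy0 : 0 < ‖(y z).1‖ := by
      have h5 := hmvn z hz 1 (by simp)
      have h6 := mv_nsq zero_le_one le_rfl (y z)
      rcases (norm_nonneg (y z).1).eq_or_lt with h7 | h7
      · rw [← h7] at h6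
        simp only [sub_self, mul_zero, zero_mul, ne_eq, OfNat.ofNat_ne_zero, not_false_eq_true,
          zero_pow, add_zero] at h6
        have := sq_pos_of_pos h5
        linarith
      · exact h7
    have h3 : dr (mv 1 (y z)) = (⟨-N.1, by
        rw [mem_closedBall_zero_iff, norm_neg, hN1]⟩ : Disc 3) := by
      apply Subtype.ext
      simp only [dr]
      rw [mv_val zero_le_one le_rfl]
      simp only [sub_self, zero_smul, one_mul, zero_sub, norm_neg, smul_neg]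
      rw [norm_smul, hN1, mul_one, norm_norm, smul_smul, inv_mul_cancel₀ hy0.ne', one_smul]
    simp only [P, h2, h3]

end Pool.Agent.Run7.h41.Top
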