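import Pool.Agent.Run7.h41.FTop

/-!
# The loops of two characteristic maps of an open two-cell
-/

set_option autoImplicit false

namespace Pool.Agent.Run7.h41.Top

open Set Pool.Agent.Run7.h41.CW

theorem loop_deg {q : Disc 2} (hq : ‖q.1‖ < 1) {b : ℝ → Disc 2} (hb : Continuous b)
    (hper : ∀ t, b (t + 1) = b t) (hne : ∀ t, b t ≠ q) :
    ∃ m : ℤ, ∀ (G : Type) [Group G] (Ψ : Disc 2 → BG G), ContinuousOn Ψ {v | v ≠ q} → ∀ g : G,
      HasHol (fun t => Ψ (circ t)) g → HasHol (fun t => Ψ (b t)) (g ^ m) := by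
  obtain ⟨R, H, hR, hH, hR1, hR2, hH0, hH1, hHq⟩ := radial q hq
  let b' : ℝ → {v : Disc 2 // v ≠ q} := fun t => ⟨b t, hne t⟩
  have hb' : Continuous b' := Continuous.subtype_mk hb _
  have hper' : ∀ t, b' (t + 1) = b' t := fun t => Subtype.ext (hper t)
  obtain ⟨a, m, ha, hc, hm⟩ := exists_deg (η := fun t => R (b' t))
    (hR.comp hb') (fun t => hR1 _) (fun t => by simp only [hper'])
  refine ⟨m, fun G _ Ψ hΨ g h => ?_⟩
  have hF : Continuous fun p : ℝ × ℝ => Ψ (H (b' p.1, p.2)) := by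
    apply hΨ.comp_continuous
    · exact hH.comp ((hb'.comp continuous_fst).prodMk continuous_snd)
    · intro p
      exact hHq _
  have h1 : HasHol (fun t => (fun p : ℝ × ℝ => Ψ (H (b' p.1, p.2))) (t, 1)) (g ^ m) := by
    refine (h.reparam ha m hm).congr (fun t => ?_)
    simp only [hH1, hc]
  have h2 := HasHol.homotopy (b := 0) hF (fun t s => by simp only [hper']) h1
  exact h2.congr (fun t => by simp only [hH0]; rfl)

theorem HasHol.homotopyOn {G : Type} [Group G] {F : ℝ × ℝ → BG G} {a b : ℝ}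
    (hF : ContinuousOn F (univ ×ˢ Icc a b)) (hper : ∀ t, ∀ s ∈ Icc a b, F (t + 1, s) = F (t, s))
    {u v : ℝ} (hu : u ∈ Icc a b) (hv : v ∈ Icc a b) {g : G} (h : HasHol (fun t => F (t, u)) g) :
    HasHol (fun t => F (t, v)) g := by
  have hab : a ≤ b := hu.1.trans hu.2
  have h1 : Continuous fun q : ℝ × ℝ => F (q.1, (projIcc a b hab q.2 : ℝ)) := by
    apply hF.comp_continuous
    · exact continuous_fst.prodMk (continuous_subtype_val.comp (continuous_projIcc.comp continuous_snd))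
    · intro q
      exact ⟨mem_univ _, (projIcc a b hab q.2).2⟩
  have h2 : HasHol (fun t => (fun q : ℝ × ℝ => F (q.1, (projIcc a b hab q.2 : ℝ))) (t, u)) g := by
    refine h.congr (fun t => ?_)
    simp only
    rw [projIcc_of_mem hab hu]
  have h3 := HasHol.homotopy (b := v) h1 (fun t s => hper _ _ (projIcc a b hab s).2) h2
  refine h3.congr (fun t => ?_)
  simp only
  rw [projIcc_of_mem hab hv]

theorem cx_scl {s : ℝ} (h0 : 0 ≤ s) (h1 : s ≤ 1) (z : Disc 2) : cx (scl s z) = s * cx z := by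
  have h := scl_val h0 h1 z
  apply Complex.ext
  · simp [cx, h]
  · simp [cx, h]

theorem scl_circ {s : ℝ} (h0 : 0 ≤ s) (h1 : s ≤ 1) (t : ℝ) : scl s (circ t) = pol s t := by
  apply cx_inj
  rw [cx_scl h0 h1, pol_eq h0 h1, circ, cx_ofc]

theorem unit_radial : ∃ Ξ : Disc 2 → BG (Multiplicative ℤ), ContinuousOn Ξ {v | v ≠ ctr} ∧
    (∀ r t, 0 < r → r ≤ 1 → Ξ (pol r t) = Ξ (circ t)) ∧
    HasHol (fun t => Ξ (circ t)) (Multiplicative.ofAdd 1) := by
  obtain ⟨f, hf, hper, hf1⟩ := exists_unit_loop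
  obtain ⟨F, hF, hFf⟩ := radial_ext hf hper
  have hFc : ∀ t, F (circ t) = f t := fun t => by
    rw [← pol_one, hFf 1 t zero_lt_one le_rfl]
  exact ⟨F, hF, fun r t h0 h1 => by rw [hFf r t h0 h1, hFc], hf1.congr (fun t => (hFc t).symm)⟩

theorem zpow_unit {m : ℤ} {m' : ℤ}
    (h : ((Multiplicative.ofAdd (1 : ℤ)) ^ m) ^ m' = Multiplicative.ofAdd (1 : ℤ)) :
    m = 1 ∨ m = -1 := by
  rw [← zpow_mul, ← ofAdd_zsmul] at h
  have h3 : m * m' = 1 := by
    have := Multiplicative.ofAdd.injective h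
    simpa using this
  exact Int.eq_one_or_neg_one_of_mul_eq_one h3

/-- The loops of two characteristic maps of a two-cell have the same holonomy up to orientation. -/
theorem chr_loops {X : Type} [TopologicalSpace X] [T2Space X] {O : Set X} {α β : Disc 2 → X}
    (hα : Chr O α) (hβ : Chr O β) {G : Type} [Group G] {f : X → BG G} {B : Set X}
    (hf : ContinuousOn f B) (hβB : ∀ x, ‖x.1‖ = 1 → β x ∈ B)
    {g : G} (h : HasHol (fun t => f (α (circ t))) g) :
    HasHol (fun t => f (β (circ t))) g ∨ HasHol (fun t => f (β (circ t))) g⁻¹ := by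
  classical
  obtain ⟨η, hηc, hη1, hη2⟩ := hα.trans hβ
  obtain ⟨η', hηc', hη1', hη2'⟩ := hβ.trans hα
  have hηη := hα.trans_trans hη1 hη2 hη1' hη2'
  have hηη' := hβ.trans_trans hη1' hη2' hη1 hη2
  have hctr : ‖ctr.1‖ < 1 := by rw [ctr_norm]; exact zero_lt_one
  -- the label on the complement of a point of the two-cell
  have hf1 : Continuous fun t => f (β (circ t)) := by
    apply hf.comp_continuous (hβ.cont.comp circ_continuous)
    intro t
    exact hβB _ (circ_norm t)
  have hf1p : ∀ t, f (β (circ (t + 1))) = f (β (circ t)) := fun t => by rw [circ_add_one]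
  obtain ⟨F, hF, hFf⟩ := radial_ext hf1 hf1p
  have hFc : ∀ t, F (circ t) = f (β (circ t)) := fun t => by
    rw [← pol_one, hFf 1 t zero_lt_one le_rfl]
    rw [pol_one]
  have hiv : ∀ p : X, ∃ x : Disc 2, p ∈ O → ‖x.1‖ < 1 ∧ β x = p := by
    intro p
    by_cases hp : p ∈ O
    · obtain ⟨x, hx⟩ := hβ.surj p hp
      exact ⟨x, fun _ => hx⟩
    · exact ⟨ctr, fun h => absurd h hp⟩
  choose iv hiv using hiv
  let Gl : X → BG G := fun p => if p ∈ O then F (iv p) else f p
  have hGβ : ∀ x, Gl (β x) = F x := by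
    intro x
    rcases x.norm_le.lt_or_eq with hx | hx
    · have h1 := hβ.int x hx
      simp only [Gl, if_pos h1]
      rw [hβ.inj _ _ (hiv _ h1).1 hx (hiv _ h1).2]
    · simp only [Gl, if_neg (hβ.bd x hx)]
      obtain ⟨t, -, -, rfl⟩ := circ_surj hx
      rw [hFc]
  have hGc : ContinuousOn Gl (range β \ {β ctr}) := by
    apply quot_off hβ.cont
    simp only [hGβ]
    apply hF.mono
    intro x hx hx2
    have hx2' : x = ctr := hx2
    exact hx (by rw [hx2']; rfl)
  have hrange : range α = range β := hα.range_eq hβ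
  obtain ⟨r₁, hr0, hr1, hr⟩ := push hα.cont (loop_compact circ_continuous circ_add_one)
    (isClosed_singleton (x := β ctr)) (by
      rintro _ ⟨t, rfl⟩ h1
      apply hα.bd _ (circ_norm t)
      rw [mem_singleton_iff] at h1
      rw [h1]
      exact hβ.int _ hctr)
  have hr' : ∀ s, r₁ ≤ s → s ≤ 1 → ∀ t, α (scl s (circ t)) ≠ β ctr := fun s h1 h2 t h3 =>
    hr s h1 h2 _ (mem_range_self t) h3
  have hlt : ∀ s, 0 ≤ s → s < 1 → ∀ t, ‖(scl s (circ t)).1‖ < 1 := by
    intro s h0 h1 t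
    rw [scl_norm h0 h1.le, circ_norm, mul_one]
    exact h1
  have hsc : Continuous fun q : ℝ × ℝ => scl q.2 (circ q.1) :=
    scl_continuous.comp (continuous_snd.prodMk (circ_continuous.comp continuous_fst))
  have h2 : HasHol (fun t => Gl (α (scl r₁ (circ t)))) g := by
    refine HasHol.homotopyOn (F := fun q : ℝ × ℝ => Gl (α (scl q.2 (circ q.1)))) (a := r₁) (b := 1)
      ?_ (fun t s _ => by simp only [circ_add_one]) (u := 1) (right_mem_Icc.2 hr1.le)
      (v := r₁) (left_mem_Icc.2 hr1.le) (h.congr (fun t => ?_))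
    · apply hGc.comp (hα.cont.comp hsc).continuousOn
      rintro ⟨t, s⟩ ⟨-, hs⟩
      refine ⟨by rw [← hrange]; exact mem_range_self _, ?_⟩
      exact hr' s hs.1 hs.2 t
    · simp only [scl_one]
      simp only [Gl, if_neg (hα.bd _ (circ_norm t))]
  -- the loop in the punctured disc
  let b : ℝ → Disc 2 := fun t => η (scl r₁ (circ t))
  have hbc : Continuous b := hηc.comp_continuous
    (scl_continuous.comp (continuous_const.prodMk circ_continuous)) (fun t => hlt r₁ hr0.le hr1 t)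
  have hbp : ∀ t, b (t + 1) = b t := fun t => by simp only [b, circ_add_one]
  have hbn : ∀ t, b t ≠ ctr := by
    intro t h1
    apply hr' r₁ le_rfl hr1.le t
    rw [← hη2 _ (hlt r₁ hr0.le hr1 t)]
    exact congrArg β h1
  obtain ⟨m, hm⟩ := loop_deg hctr hbc hbp hbn
  obtain ⟨g', hg'⟩ := exists_hol hf1 hf1p
  have h3 : HasHol (fun t => Gl (α (scl r₁ (circ t)))) (g' ^ m) := by
    refine (hm _ F hF g' (hg'.congr (fun t => (hFc t).symm))).congr (fun t => ?_)
    rw [← hη2 _ (hlt r₁ hr0.le hr1 t), hGβ]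
  have h4 := h2.isConj h3
  -- the degree
  obtain ⟨Ξ, hΞ, hΞr, hΞ1⟩ := unit_radial
  have h5 := hm _ Ξ hΞ _ hΞ1
  set q := η' ctr with hq
  have hq1 : ‖q.1‖ < 1 := hη1' _ hctr
  let b₀ : ℝ → Disc 2 := fun t => η' (scl (1 / 2) (circ t))
  have hb₀c : Continuous b₀ := hηc'.comp_continuous
    (scl_continuous.comp (continuous_const.prodMk circ_continuous))
    (fun t => hlt _ (by norm_num) (by norm_num) t)
  have hb₀p : ∀ t, b₀ (t + 1) = b₀ t := fun t => by simp only [b₀, circ_add_one]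
  obtain ⟨r₂, hr20, hr21, hr2⟩ := norm_bound (loop_compact hb₀c hb₀p) (by
    rintro _ ⟨t, rfl⟩
    exact hη1' _ (hlt _ (by norm_num) (by norm_num) t))
  set R := max (max r₁ r₂) ((1 + ‖q.1‖) / 2) with hR
  have hR0 : 0 < R := lt_of_lt_of_le hr0 ((le_max_left _ _).trans (le_max_left _ _))
  have hR1 : R < 1 := max_lt (max_lt hr1 hr21) (by linarith)
  have hRr : r₁ ≤ R := (le_max_left _ _).trans (le_max_left _ _)
  have hdiv : ∀ x : Disc 2, ‖x.1‖ ≤ R → ‖R⁻¹ • x.1‖ ≤ 1 := by
    intro x hx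
    rw [norm_smul, norm_inv, Real.norm_of_nonneg hR0.le, inv_mul_le_iff₀ hR0, mul_one]
    exact hx
  have hb₀R : ∀ t, ‖(b₀ t).1‖ ≤ R := fun t =>
    (hr2 _ (mem_range_self t)).trans ((le_max_right _ _).trans (le_max_left _ _))
  have hqR : ‖q.1‖ < R := lt_of_lt_of_le (by linarith) (le_max_right _ _)
  let b' : ℝ → Disc 2 := fun t => ⟨R⁻¹ • (b₀ t).1, mem_closedBall_zero_iff.2 (hdiv _ (hb₀R t))⟩
  let q' : Disc 2 := ⟨R⁻¹ • q.1, mem_closedBall_zero_iff.2 (hdiv _ hqR.le)⟩
  have hb'R : ∀ t, scl R (b' t) = b₀ t := by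
    intro t
    apply Subtype.ext
    rw [scl_val hR0.le hR1.le]
    simp only [b']
    rw [smul_smul, mul_inv_cancel₀ hR0.ne', one_smul]
  have hq'R : scl R q' = q := by
    apply Subtype.ext
    rw [scl_val hR0.le hR1.le]
    simp only [q']
    rw [smul_smul, mul_inv_cancel₀ hR0.ne', one_smul]
  have hsinj : ∀ x y : Disc 2, scl R x = scl R y → x = y := by
    intro x y hxy
    have h6 := congrArg Subtype.val hxy
    rw [scl_val hR0.le hR1.le, scl_val hR0.le hR1.le] at h6
    exact Subtype.ext (smul_right_injective _ hR0.ne' h6)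
  have hlR : ∀ x : Disc 2, ‖(scl R x).1‖ < 1 := by
    intro x
    rw [scl_norm hR0.le hR1.le]
    nlinarith [x.norm_le, norm_nonneg x.1]
  have hb'c : Continuous b' := by
    apply Continuous.subtype_mk
    exact (continuous_subtype_val.comp hb₀c).const_smul R⁻¹
  have hb'p : ∀ t, b' (t + 1) = b' t := fun t => Subtype.ext (by simp only [b', hb₀p])
  have hb'n : ∀ t, b' t ≠ q' := by
    intro t h6
    have h7 := congrArg (scl R) h6
    rw [hb'R, hq'R] at h7
    have h8 : scl (1 / 2) (circ t) = ctr := by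
      have := congrArg η h7
      simp only [b₀, hq] at this
      rwa [hηη' _ (hlt _ (by norm_num) (by norm_num) t), hηη' _ hctr] at this
    have h9 : ‖(scl (1 / 2) (circ t)).1‖ = ‖ctr.1‖ := by rw [h8]
    rw [scl_norm (by norm_num) (by norm_num), circ_norm, ctr_norm] at h9
    norm_num at h9
  have hq'1 : ‖q'.1‖ < 1 := by
    simp only [q']
    rw [norm_smul, norm_inv, Real.norm_of_nonneg hR0.le, inv_mul_lt_iff₀ hR0, mul_one]
    exact hqR
  obtain ⟨m', hm'⟩ := loop_deg hq'1 hb'c hb'p hb'n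
  have h6 : HasHol (fun t => Ξ (η (scl R (circ t)))) (Multiplicative.ofAdd (1 : ℤ) ^ m) := by
    refine HasHol.homotopyOn (F := fun q : ℝ × ℝ => Ξ (η (scl q.2 (circ q.1)))) (a := r₁) (b := R)
      ?_ (fun t s _ => by simp only [circ_add_one]) (u := r₁) (left_mem_Icc.2 hRr)
      (v := R) (right_mem_Icc.2 hRr) h5
    apply hΞ.comp (hηc.comp hsc.continuousOn _)
    · rintro ⟨t, s⟩ ⟨-, hs⟩ h7
      apply hr' s hs.1 (hs.2.trans hR1.le) t
      rw [← hη2 _ (hlt s (hr0.le.trans hs.1) (hs.2.trans_lt hR1) t)]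
      exact congrArg β h7
    · rintro ⟨t, s⟩ ⟨-, hs⟩
      exact hlt s (hr0.le.trans hs.1) (hs.2.trans_lt hR1) t
  have h7 := hm' _ (fun x => Ξ (η (scl R x))) (by
    apply hΞ.comp (hηc.comp (scl_continuous.comp
      (continuous_const.prodMk continuous_id)).continuousOn (fun x _ => hlR x))
    intro x hx h8
    apply hx
    show x = q'
    apply hsinj
    rw [hq'R]
    apply hα.inj _ _ (hlR x) hq1
    rw [← hη2 _ (hlR x), hq, hη2' _ hctr]
    exact congrArg β h8) _ h6
  have h8 : HasHol (fun t => Ξ (η (scl R (b' t)))) (Multiplicative.ofAdd (1 : ℤ)) := by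
    refine hΞ1.congr (fun t => ?_)
    rw [hb'R]
    simp only [b₀]
    rw [hηη' _ (hlt _ (by norm_num) (by norm_num) t), scl_circ (by norm_num) (by norm_num),
      hΞr _ _ (by norm_num) (by norm_num)]
  have h9 := hasHol_abelian h7 h8
  rcases zpow_unit h9 with rfl | rfl
  · left
    rw [zpow_one] at h4
    exact hg'.of_conj h4.symm
  · right
    obtain ⟨k, hk⟩ := isConj_iff.1 h4
    refine hg'.of_conj (isConj_iff.2 ⟨k⁻¹, ?_⟩)
    have h10 : g = k⁻¹ * g' ^ (-1 : ℤ) * k := by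
      rw [← hk]
      group
    rw [h10]
    group

end Pool.Agent.Run7.h41.Top
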