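import Pool.Agent.Helper202.Riemann
import Pool.Agent.Run7.h41.FDeg

/-!
# Loops in a simply connected plane domain without a point
-/

set_option autoImplicit false

namespace Pool.Agent.Run7.h41.Top

open Set Pool.Agent.Run7.h41.CW

/-- a simply connected plane domain is homeomorphic to the disc -/
theorem disc_param {U : Set ℂ} (hU : IsOpen U) (hs : IsSimplyConnected U) {a : ℂ} (ha : a ∈ U) :
    ∃ Γ Φ : ℂ → ℂ, ContinuousOn Γ (Metric.ball 0 1) ∧ ContinuousOn Φ U ∧
      (∀ z ∈ Metric.ball (0 : ℂ) 1, Γ z ∈ U) ∧ (∀ z ∈ U, Φ z ∈ Metric.ball (0 : ℂ) 1) ∧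
      (∀ z ∈ U, Γ (Φ z) = z) ∧ (∀ z ∈ Metric.ball (0 : ℂ) 1, Φ (Γ z) = z) ∧ Γ 0 = a := by
  by_cases hne : U = univ
  · subst hne
    let u : ℂ ≃ₜ Metric.ball (0 : ℂ) 1 := Homeomorph.unitBall
    have hu0 : (u 0 : ℂ) = 0 := Homeomorph.coe_unitBall_apply_zero
    classical
    let Γ : ℂ → ℂ := fun w => if h : w ∈ Metric.ball (0 : ℂ) 1 then u.symm ⟨w, h⟩ + a else 0
    have hΓ : ∀ w : Metric.ball (0 : ℂ) 1, Γ w.1 = u.symm w + a := fun w => dif_pos w.2
    refine ⟨Γ, fun z => (u (z - a)).1, ?_, ?_, fun _ _ => mem_univ _, fun z _ => (u (z - a)).2,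
      ?_, ?_, ?_⟩
    · rw [continuousOn_iff_continuous_domRestrict]
      have : (Metric.ball (0 : ℂ) 1).domRestrict Γ = fun w => u.symm w + a := funext hΓ
      rw [this]
      exact u.symm.continuous.add continuous_const
    · exact (continuous_subtype_val.comp (u.continuous.comp
        (continuous_id.sub continuous_const))).continuousOn
    · intro z _
      rw [hΓ, Homeomorph.symm_apply_apply, sub_add_cancel]
    · intro w hw
      rw [hΓ ⟨w, hw⟩]
      simp
    · have h0 : (0 : ℂ) ∈ Metric.ball (0 : ℂ) 1 := by simp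
      rw [hΓ ⟨0, h0⟩]
      have : u.symm ⟨0, h0⟩ = 0 := by
        rw [Homeomorph.symm_apply_eq]
        exact Subtype.ext hu0.symm
      rw [this, zero_add]
  · obtain ⟨g, φ, h1, h2, h3, h4, h5, h6, h7, h8⟩ :=
      Pool.Agent.Helper202.Riemann.riemann_inv hU hs hne ha
    exact ⟨g, φ, h1.continuousOn, h5.continuousOn, h2.mapsTo, h6, h7, h8, h4⟩

theorem ex_circ (t : ℝ) : cx (circ t) = ex t := by rw [circ, cx_ofc]

/-- every loop in the domain without a point is homotopic to a multiple of a fixed loop -/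
theorem hl_plane {U : Set ℂ} (hU : IsOpen U) (hs : IsSimplyConnected U) {a : ℂ} (ha : a ∈ U) :
    ∃ M : ℝ → ℂ, Continuous M ∧ (∀ t, M (t + 1) = M t) ∧ (∀ t, M t ∈ U ∧ M t ≠ a) ∧
      ∀ l : ℝ → ℂ, Continuous l → (∀ t, l (t + 1) = l t) → (∀ t, l t ∈ U ∧ l t ≠ a) →
        ∃ (n : ℤ) (H : ℝ × ℝ → ℂ), Continuous H ∧ (∀ t s, H (t + 1, s) = H (t, s)) ∧
          (∀ p, H p ∈ U ∧ H p ≠ a) ∧ (∀ t, H (t, 0) = l t) ∧ ∀ t, H (t, 1) = M (n * t) := by
  obtain ⟨Γ, Φ, hΓ, hΦ, hΓm, hΦm, hΓΦ, hΦΓ, hΓ0⟩ := disc_param hU hs ha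
  have hb0 : (0 : ℂ) ∈ Metric.ball (0 : ℂ) 1 := by simp
  have hna : ∀ w ∈ Metric.ball (0 : ℂ) 1, w ≠ 0 → Γ w ≠ a := by
    intro w hw hw0 h
    apply hw0
    rw [← hΦΓ w hw, h, ← hΓ0, hΦΓ 0 hb0]
  have hex : ∀ t, ex t ≠ 0 := fun t h => by
    have := ex_norm t
    rw [h, norm_zero] at this
    exact zero_ne_one this
  have hball : ∀ (r : ℝ) (t : ℝ), 0 < r → r < 1 →
      ((r : ℂ) * ex t) ∈ Metric.ball (0 : ℂ) 1 ∧ (r : ℂ) * ex t ≠ 0 := by
    intro r t h0 h1
    constructor
    · rw [mem_ball_zero_iff, norm_mul, ex_norm, mul_one, Complex.norm_real,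
        Real.norm_of_nonneg h0.le]
      exact h1
    · exact mul_ne_zero (by exact_mod_cast h0.ne') (hex t)
  refine ⟨fun t => Γ (((1 / 2 : ℝ) : ℂ) * ex t), ?_, ?_, ?_, ?_⟩
  · apply hΓ.comp_continuous (continuous_const.mul ex_continuous)
    intro t
    exact (hball _ t (by norm_num) (by norm_num)).1
  · intro t
    simp only [ex_add_one]
  · intro t
    have h := hball (1 / 2) t (by norm_num) (by norm_num)
    exact ⟨hΓm _ h.1, hna _ h.1 h.2⟩
  intro l hl hlp hlU
  let μ : ℝ → ℂ := fun t => Φ (l t)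
  have hμc : Continuous μ := hΦ.comp_continuous hl (fun t => (hlU t).1)
  have hμb : ∀ t, ‖μ t‖ < 1 := fun t => by
    have := hΦm _ (hlU t).1
    rwa [mem_ball_zero_iff] at this
  have hμ0 : ∀ t, μ t ≠ 0 := by
    intro t h
    apply (hlU t).2
    rw [← hΓΦ _ (hlU t).1]
    show Γ (μ t) = a
    rw [h, hΓ0]
  have hμn : ∀ t, 0 < ‖μ t‖ := fun t => norm_pos_iff.2 (hμ0 t)
  have hu1 : ∀ t, ‖μ t / (‖μ t‖ : ℂ)‖ = 1 := by
    intro t
    rw [norm_div, Complex.norm_real, norm_norm, div_self (hμn t).ne']
  obtain ⟨b, n, hb, hbc, hbn⟩ := exists_deg (η := fun t => ofc (μ t / (‖μ t‖ : ℂ)) (hu1 t).le)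
    (by
      apply ofc_continuous
      apply hμc.div (Complex.continuous_ofReal.comp (continuous_norm.comp hμc))
      intro t
      exact Complex.ofReal_ne_zero.2 (hμn t).ne')
    (fun t => (ofc_norm _ _).trans (hu1 t))
    (fun t => by
      apply cx_inj
      rw [cx_ofc, cx_ofc]
      simp only [μ, hlp])
  have hbμ : ∀ t, (‖μ t‖ : ℂ) * ex (b t) = μ t := by
    intro t
    rw [← ex_circ, hbc, cx_ofc]
    have : (‖μ t‖ : ℂ) ≠ 0 := by exact_mod_cast (hμn t).ne'
    field_simp
  let c : ℝ → ℝ := fun s => (projIcc (0 : ℝ) 1 zero_le_one s : ℝ)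
  have hc : Continuous c := continuous_subtype_val.comp continuous_projIcc
  have hc0 : ∀ s, 0 ≤ c s := fun s => (projIcc _ _ _ s).2.1
  have hc1 : ∀ s, c s ≤ 1 := fun s => (projIcc _ _ _ s).2.2
  have hc00 : c 0 = 0 := by simp [c]
  have hc11 : c 1 = 1 := by simp [c]
  let rad : ℝ × ℝ → ℝ := fun p => (1 - c p.2) * ‖μ p.1‖ + c p.2 * (1 / 2)
  have hrad0 : ∀ p, 0 < rad p := by
    intro p
    have h1 := hμn p.1
    rcases (hc0 p.2).eq_or_lt with h2 | h2
    · simp only [rad]; rw [← h2]; linarith
    · have := mul_nonneg (sub_nonneg.2 (hc1 p.2)) h1.le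
      simp only [rad]
      linarith
  have hrad1 : ∀ p, rad p < 1 := by
    intro p
    have h1 := hμb p.1
    have h2 := mul_le_mul_of_nonneg_left h1.le (sub_nonneg.2 (hc1 p.2))
    rcases (hc0 p.2).eq_or_lt with h3 | h3
    · simp only [rad]; rw [← h3]; linarith
    · simp only [rad]
      linarith
  have hradc : Continuous rad := by
    have h1 : Continuous fun p : ℝ × ℝ => c p.2 := hc.comp continuous_snd
    have h2 : Continuous fun p : ℝ × ℝ => ‖μ p.1‖ := continuous_norm.comp (hμc.comp continuous_fst)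
    exact ((continuous_const.sub h1).mul h2).add (h1.mul continuous_const)
  let ang : ℝ × ℝ → ℝ := fun p => (1 - c p.2) * b p.1 + c p.2 * (n * p.1)
  have hangc : Continuous ang := by
    have h1 : Continuous fun p : ℝ × ℝ => c p.2 := hc.comp continuous_snd
    have h2 : Continuous fun p : ℝ × ℝ => b p.1 := hb.comp continuous_fst
    exact ((continuous_const.sub h1).mul h2).add (h1.mul (continuous_const.mul continuous_fst))
  have hpt : ∀ p, ((rad p : ℝ) : ℂ) * ex (ang p) ∈ Metric.ball (0 : ℂ) 1 ∧
      ((rad p : ℝ) : ℂ) * ex (ang p) ≠ 0 := fun p => hball _ _ (hrad0 p) (hrad1 p)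
  refine ⟨n, fun p => Γ (((rad p : ℝ) : ℂ) * ex (ang p)), ?_, ?_, ?_, ?_, ?_⟩
  · apply hΓ.comp_continuous
    · exact (Complex.continuous_ofReal.comp hradc).mul (ex_continuous.comp hangc)
    · intro p
      exact (hpt p).1
  · intro t s
    have h1 : rad (t + 1, s) = rad (t, s) := by simp only [rad, μ, hlp]
    have h2 : ang (t + 1, s) = ang (t, s) + n := by
      simp only [ang, hbn]
      ring
    simp only [h1, h2, ex_add_int]
  · intro p
    exact ⟨hΓm _ (hpt p).1, hna _ (hpt p).1 (hpt p).2⟩
  · intro t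
    have h1 : rad (t, 0) = ‖μ t‖ := by simp only [rad, hc00]; ring
    have h2 : ang (t, 0) = b t := by simp only [ang, hc00]; ring
    simp only [h1, h2, hbμ]
    exact hΓΦ _ (hlU t).1
  · intro t
    have h1 : rad (t, 1) = 1 / 2 := by simp only [rad, hc11]; ring
    have h2 : ang (t, 1) = n * t := by simp only [ang, hc11]; ring
    simp only [h1, h2]

/-- A set is simply connected if its compact subsets are contractible in it. -/
theorem isSimplyConnected_of_compact {X : Type} [TopologicalSpace X] {S : Set X}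
    (hne : S.Nonempty) (hcon : ∀ C ⊆ S, IsCompact C → ∃ (K : X × ℝ → X) (z₀ : X),
      ContinuousOn K (C ×ˢ Icc 0 1) ∧ (∀ z ∈ C, ∀ t ∈ Icc (0 : ℝ) 1, K (z, t) ∈ S) ∧
      (∀ z ∈ C, K (z, 0) = z) ∧ ∀ z ∈ C, K (z, 1) = z₀) : IsSimplyConnected S := by
  rw [isSimplyConnected_iff_exists_homotopy_refl_forall_mem]
  constructor
  · obtain ⟨x, hx⟩ := hne
    refine ⟨x, hx, fun y hy => ?_⟩
    obtain ⟨K, z₀, hK, hKS, hK0, hK1⟩ := hcon {x, y} (by
      rintro z (rfl | rfl)
      · exact hx
      · exact hy) (by simp)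
    have h1 : ∀ z ∈ ({x, y} : Set X), JoinedIn S z z₀ := by
      intro z hz
      have h2 : ContinuousOn (fun t : ℝ => K (z, t)) (Icc 0 1) :=
        hK.comp (continuous_const.prodMk continuous_id).continuousOn (fun t ht => ⟨hz, ht⟩)
      refine ⟨⟨⟨fun t => K (z, t.1), h2.comp_continuous continuous_subtype_val (fun t => t.2)⟩,
        ?_, ?_⟩, fun t => hKS z hz _ t.2⟩
      · exact hK0 z hz
      · exact hK1 z hz
    exact (h1 x (by simp)).trans (h1 y (by simp)).symm
  · intro x p hp
    obtain ⟨K, z₀, hK, hKS, hK0, hK1⟩ := hcon (range p) (by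
      rintro _ ⟨t, rfl⟩
      exact hp t) (isCompact_range p.continuous)
    let cl : ℝ → ℝ := fun s => (projIcc (0 : ℝ) 1 zero_le_one s : ℝ)
    have hcl : Continuous cl := continuous_subtype_val.comp continuous_projIcc
    have hclm : ∀ s, cl s ∈ Icc (0 : ℝ) 1 := fun s => (projIcc _ _ _ s).2
    have hcl_le : ∀ s, s ≤ 0 → cl s = 0 := fun s hs => by
      simp only [cl]; rw [projIcc_of_le_left _ hs]
    have hcl_ge : ∀ s, 1 ≤ s → cl s = 1 := fun s hs => by
      simp only [cl]; rw [projIcc_of_right_le _ hs]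
    have hcl_id : ∀ s, 0 ≤ s → s ≤ 1 → cl s = s := fun s h0 h1 => by
      simp only [cl]; rw [projIcc_of_mem zero_le_one ⟨h0, h1⟩]
    let P : ℝ → X := fun a => p (projIcc (0 : ℝ) 1 zero_le_one a)
    have hP : Continuous P := p.continuous.comp continuous_projIcc
    have hP0 : P 0 = x := by simp [P]
    have hP1 : P 1 = x := by simp [P]
    have hPcl : ∀ a, a ≤ 0 → P a = x := fun a ha => by
      simp only [P]; rw [projIcc_of_le_left _ ha]; exact p.source
    have hPcl' : ∀ a, 1 ≤ a → P a = x := fun a ha => by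
      simp only [P]; rw [projIcc_of_right_le _ ha]; exact p.target
    let H : ℝ × ℝ → X := fun q => K (P q.1, cl q.2)
    have hH : Continuous H := by
      apply hK.comp_continuous ((hP.comp continuous_fst).prodMk (hcl.comp continuous_snd))
      intro q
      exact ⟨mem_range_self _, hclm _⟩
    have hHS : ∀ q, H q ∈ S := fun q => hKS _ (mem_range_self _) _ (hclm _)
    -- the loop `q` followed by its inverse
    let Yc : ℝ → ℝ := fun a => min (3 * a) (3 - 3 * a)
    let p₁ : Path x x := ⟨⟨fun a => H (0, Yc a), hH.comp (by fun_prop)⟩, by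
      simp only [Yc, H]
      have : cl (min (3 * ((0 : unitInterval) : ℝ)) (3 - 3 * ((0 : unitInterval) : ℝ))) = 0 := by
        apply hcl_le
        norm_num
      rw [this, hP0, hK0 _ ⟨0, p.source⟩], by
      simp only [Yc, H]
      have : cl (min (3 * ((1 : unitInterval) : ℝ)) (3 - 3 * ((1 : unitInterval) : ℝ))) = 0 := by
        apply hcl_le
        norm_num
      rw [this, hP0, hK0 _ ⟨0, p.source⟩]⟩
    have hxr : x ∈ range p := ⟨0, p.source⟩
    let F₁ : Path.Homotopy p p₁ :=
      { toFun := fun q => H ((1 - q.1.1) * q.2.1 + q.1.1 * (3 * q.2.1 - 1), q.1.1 * Yc q.2.1)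
        continuous_toFun := hH.comp (by fun_prop)
        map_zero_left := by
          intro a
          simp only [H]
          have h1 : (1 - ((0 : unitInterval) : ℝ)) * a.1 + ((0 : unitInterval) : ℝ) * (3 * a.1 - 1) =
            a.1 := by simp
          have h2 : cl (((0 : unitInterval) : ℝ) * Yc a.1) = 0 := hcl_le _ (by simp)
          rw [h1, h2]
          have h3 : P a.1 = p a := by simp [P]
          rw [h3, hK0 _ (mem_range_self _)]
          rfl
        map_one_left := by
          intro a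
          have h1 : (1 - ((1 : unitInterval) : ℝ)) * a.1 + ((1 : unitInterval) : ℝ) * (3 * a.1 - 1) =
            3 * a.1 - 1 := by simp
          have h2 : ((1 : unitInterval) : ℝ) * Yc a.1 = Yc a.1 := by simp
          show H _ = H (0, Yc a.1)
          rw [h1, h2]
          simp only [H]
          rcases le_total (3 * a.1 - 1) 0 with h3 | h3
          · rw [hPcl _ h3, hPcl _ le_rfl]
          · rcases le_total (3 * a.1 - 1) 1 with h4 | h4
            · have h5 : cl (Yc a.1) = 1 := by
                apply hcl_ge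
                simp only [Yc]
                apply le_min <;> linarith
              rw [h5, hK1 _ (mem_range_self _), hK1 _ (mem_range_self _)]
            · rw [hPcl' _ h4, hPcl _ le_rfl]
        prop' := by
          intro t a ha
          simp only [H, ContinuousMap.coe_mk, Path.coe_toContinuousMap]
          rcases ha with rfl | ha
          · have h2 : cl (t.1 * Yc ((0 : unitInterval) : ℝ)) = 0 := by
              apply hcl_le
              simp [Yc]
            rw [h2, p.source]
            have h3 : P ((1 - t.1) * ((0 : unitInterval) : ℝ) +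
                t.1 * (3 * ((0 : unitInterval) : ℝ) - 1)) = x := by
              apply hPcl
              simp only [Set.Icc.coe_zero]
              linarith [t.2.1]
            rw [h3, hK0 _ hxr]
          · rw [mem_singleton_iff] at ha
            subst ha
            have h2 : cl (t.1 * Yc ((1 : unitInterval) : ℝ)) = 0 := by
              apply hcl_le
              simp [Yc]
            rw [h2, p.target]
            have h3 : P ((1 - t.1) * ((1 : unitInterval) : ℝ) +
                t.1 * (3 * ((1 : unitInterval) : ℝ) - 1)) = x := by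
              apply hPcl'
              simp only [Set.Icc.coe_one]
              linarith [t.2.1]
            rw [h3, hK0 _ hxr] }
    let F₂ : Path.Homotopy p₁ (Path.refl x) :=
      { toFun := fun q => H (0, (1 - q.1.1) * Yc q.2.1)
        continuous_toFun := hH.comp (by fun_prop)
        map_zero_left := by
          intro a
          show H _ = H (0, Yc a.1)
          simp
        map_one_left := by
          intro a
          simp only [H]
          have h2 : cl ((1 - ((1 : unitInterval) : ℝ)) * Yc a.1) = 0 := hcl_le _ (by simp)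
          rw [h2, hP0, hK0 _ hxr]
          rfl
        prop' := by
          intro t a ha
          have h1 : (Path.refl x).toContinuousMap a = x := rfl
          simp only [H, ContinuousMap.coe_mk]
          rcases ha with rfl | ha
          · have h2 : cl ((1 - t.1) * Yc ((0 : unitInterval) : ℝ)) = 0 := by
              apply hcl_le
              simp [Yc]
            rw [h2, hP0, hK0 _ hxr]
            exact p₁.source.symm
          · rw [mem_singleton_iff] at ha
            subst ha
            have h2 : cl ((1 - t.1) * Yc ((1 : unitInterval) : ℝ)) = 0 := by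
              apply hcl_le
              simp [Yc]
            rw [h2, hP0, hK0 _ hxr]
            exact p₁.target.symm }
    refine ⟨F₁.trans F₂, fun q => ?_⟩
    rw [Path.Homotopy.trans_apply]
    split_ifs with h
    · exact hHS _
    · exact hHS _

end Pool.Agent.Run7.h41.Top
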