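import Pool.Agent.Run7.h41.FPlane

/-!
# The sphere without the preimage of a point
-/

set_option autoImplicit false

namespace Pool.Agent.Run7.h41.Top

open Set Pool.Agent.Run7.h41.CW

theorem hl_sphere {F : Set (Disc 3)} (hF : IsClosed F) {f : Disc 3} (hf : f ∈ F) (hf1 : ‖f.1‖ = 1)
    {p : Disc 3} (hp1 : ‖p.1‖ = 1) (hp : p ∉ F)
    (hcon : ∀ C : Set (Disc 3), IsCompact C → (∀ z ∈ C, ‖z.1‖ = 1 ∧ z ∉ F) →
      ∃ (K : Disc 3 × ℝ → Disc 3) (z₀ : Disc 3), ContinuousOn K (C ×ˢ Icc 0 1) ∧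
        (∀ z ∈ C, ∀ t ∈ Icc (0 : ℝ) 1, ‖(K (z, t)).1‖ = 1 ∧ K (z, t) ∉ F) ∧
        (∀ z ∈ C, K (z, 0) = z) ∧ ∀ z ∈ C, K (z, 1) = z₀) :
    ∃ M : ℝ → Disc 3, Continuous M ∧ (∀ t, M (t + 1) = M t) ∧
      (∀ t, ‖(M t).1‖ = 1 ∧ M t ∉ F ∧ M t ≠ p) ∧
      ∀ l : ℝ → Disc 3, Continuous l → (∀ t, l (t + 1) = l t) →
        (∀ t, ‖(l t).1‖ = 1 ∧ l t ∉ F ∧ l t ≠ p) →
        ∃ (n : ℤ) (H : ℝ × ℝ → Disc 3), Continuous H ∧ (∀ t s, H (t + 1, s) = H (t, s)) ∧
          (∀ q, ‖(H q).1‖ = 1 ∧ H q ∉ F ∧ H q ≠ p) ∧ (∀ t, H (t, 0) = l t) ∧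
          ∀ t, H (t, 1) = M (n * t) := by
  have : Fact (Module.finrank ℝ (EuclideanSpace ℝ (Fin 3)) = 2 + 1) := ⟨by simp⟩
  have hv0 : f.1 ≠ 0 := ne_zero_of_norm_one hf1
  have hfin : Module.finrank ℝ (Submodule.span ℝ {f.1})ᗮ = Module.finrank ℝ ℂ := by
    rw [Complex.finrank_real_complex]
    exact Submodule.finrank_orthogonal_span_singleton hv0
  let L : (Submodule.span ℝ {f.1})ᗮ ≃L[ℝ] ℂ := ContinuousLinearEquiv.ofFinrankEq hfin
  let e : ℂ → Disc 3 := fun w =>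
    Set.inclusion Metric.sphere_subset_closedBall ((stereographic hf1).symm (L.symm w))
  have he : Topology.IsEmbedding e := (Topology.IsEmbedding.inclusion
    Metric.sphere_subset_closedBall).comp
    ((isOpenEmbedding_stereographic_symm hf1).isEmbedding.comp
      L.symm.toHomeomorph.isEmbedding)
  have he1 : ∀ w, ‖(e w).1‖ = 1 := fun w =>
    mem_sphere_zero_iff_norm.1 ((stereographic hf1).symm (L.symm w)).2
  have hrange : ∀ z : Disc 3, ‖z.1‖ = 1 → z ≠ f → ∃ w, e w = z := by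
    intro z hz hne
    have h1 : (⟨z.1, mem_sphere_zero_iff_norm.2 hz⟩ : Metric.sphere (0 : EuclideanSpace ℝ (Fin 3)) 1) ∈
        Set.range (stereographic hf1).symm := by
      rw [range_stereographic_symm hf1 (by simpa using hf1)]
      intro h2
      rw [mem_singleton_iff] at h2
      apply hne
      exact Subtype.ext (congrArg
        (fun x : Metric.sphere (0 : EuclideanSpace ℝ (Fin 3)) 1 => x.1) h2)
    obtain ⟨w, hw⟩ := h1
    refine ⟨L w, ?_⟩
    apply Subtype.ext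
    show ((stereographic hf1).symm (L.symm (L w))).1 = z.1
    rw [ContinuousLinearEquiv.symm_apply_apply, hw]
  set U : Set ℂ := e ⁻¹' Fᶜ with hUdef
  have hU : IsOpen U := hF.isOpen_compl.preimage he.continuous
  have himg : e '' U = {z | ‖z.1‖ = 1 ∧ z ∉ F} := by
    ext z
    constructor
    · rintro ⟨w, hw, rfl⟩
      exact ⟨he1 w, hw⟩
    · rintro ⟨h1, h2⟩
      obtain ⟨w, rfl⟩ := hrange z h1 (fun h => h2 (h ▸ hf))
      exact ⟨w, h2, rfl⟩
  have hs : IsSimplyConnected U := by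
    rw [← he.isSimplyConnected_image, himg]
    refine isSimplyConnected_of_compact (S := {z : Disc 3 | ‖z.1‖ = 1 ∧ z ∉ F}) ⟨p, hp1, hp⟩ ?_
    intro C hC hCc
    exact hcon C hCc hC
  obtain ⟨a, ha⟩ := hrange p hp1 (fun h => hp (h ▸ hf))
  have haU : a ∈ U := by
    show e a ∉ F
    rw [ha]
    exact hp
  obtain ⟨M, hM, hMp, hMU, hMl⟩ := hl_plane hU hs haU
  have hna : ∀ w, w ≠ a → e w ≠ p := by
    intro w hw h
    exact hw (he.injective (h.trans ha.symm))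
  refine ⟨fun t => e (M t), he.continuous.comp hM, fun t => congrArg e (hMp t),
    fun t => ⟨he1 _, (hMU t).1, hna _ (hMU t).2⟩, ?_⟩
  intro l hl hlp hlF
  choose l' hl' using fun t => hrange (l t) (hlF t).1 (fun h => (hlF t).2.1 (h ▸ hf))
  have hl'c : Continuous l' := by
    rw [he.isInducing.continuous_iff]
    have : e ∘ l' = l := funext hl'
    rw [this]
    exact hl
  obtain ⟨n, H, hH, hHp, hHU, hH0, hH1⟩ := hMl l' hl'c (fun t => he.injective (by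
    rw [hl', hl', hlp])) (fun t => ⟨by
      show e (l' t) ∉ F
      rw [hl']
      exact (hlF t).2.1, fun h => (hlF t).2.2 (by rw [← hl', h, ha])⟩)
  refine ⟨n, fun q => e (H q), he.continuous.comp hH, fun t s => congrArg e (hHp t s),
    fun q => ⟨he1 _, (hHU q).1, hna _ (hHU q).2⟩, fun t => ?_, fun t => ?_⟩
  · simp only [hH0, hl']
  · simp only [hH1]

/-! ### moving away from the north pole -/

theorem inner_N (y : EuclideanSpace ℝ (Fin 3)) : inner ℝ y (upper ctr).1 = y (Fin.last 2) := by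
  have h0 : ∀ i : Fin 2, ctr.1 i = 0 := by
    intro i
    have h1 : ctr.1 = 0 := norm_eq_zero.1 ctr_norm
    rw [h1]
    rfl
  have h1 : ∀ i : Fin 2, (upper ctr).1 (Fin.castSucc i) = 0 := by
    intro i
    simp only [upper, Fin.snoc_castSucc]
    exact h0 i
  rw [PiLp.inner_apply, Fin.sum_univ_castSucc]
  simp only [h1, upper_ctr_last]
  simp

theorem nsq_N (y : EuclideanSpace ℝ (Fin 3)) (a b : ℝ) :
    ‖a • y - b • (upper ctr).1‖ ^ 2 = a ^ 2 * ‖y‖ ^ 2 - 2 * a * b * y (Fin.last 2) + b ^ 2 := by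
  rw [norm_sub_sq_real, norm_smul, norm_smul, upper_norm, inner_smul_left, inner_smul_right, inner_N]
  simp only [Real.norm_eq_abs, mul_pow, sq_abs, conj_trivial]
  ring

theorem last_le_norm (y : EuclideanSpace ℝ (Fin 3)) : y (Fin.last 2) ≤ ‖y‖ := by
  rw [← inner_N]
  have := real_inner_le_norm y (upper ctr).1
  rwa [upper_norm, mul_one] at this

theorem neg_last_le_norm (y : EuclideanSpace ℝ (Fin 3)) : -y (Fin.last 2) ≤ ‖y‖ := by
  have h := last_le_norm (-y)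
  rw [norm_neg] at h
  exact h

theorem eq_N {y : Disc 3} (h : 1 ≤ y.1 (Fin.last 2)) : y = upper ctr := by
  have h1 := nsq_N y.1 1 1
  have h2 := y.norm_le
  have h3 : ‖(1 : ℝ) • y.1 - (1 : ℝ) • (upper ctr).1‖ ^ 2 ≤ 0 := by
    rw [h1]
    nlinarith [norm_nonneg y.1]
  have h4 : ‖(1 : ℝ) • y.1 - (1 : ℝ) • (upper ctr).1‖ = 0 := by
    have := sq_nonneg ‖(1 : ℝ) • y.1 - (1 : ℝ) • (upper ctr).1‖
    have h5 : ‖(1 : ℝ) • y.1 - (1 : ℝ) • (upper ctr).1‖ ^ 2 = 0 := le_antisymm h3 this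
    simpa using h5
  rw [norm_eq_zero, one_smul, one_smul, sub_eq_zero] at h4
  exact Subtype.ext h4

/-- moving towards the south pole -/
noncomputable def mv (t : ℝ) (y : Disc 3) : Disc 3 :=
  ⟨(1 - (projIcc (0 : ℝ) 1 zero_le_one t : ℝ)) • y.1 -
    ((projIcc (0 : ℝ) 1 zero_le_one t : ℝ) * ‖y.1‖) • (upper ctr).1, by
    rw [mem_closedBall_zero_iff]
    refine (norm_sub_le _ _).trans ?_
    have h0 := (projIcc (0 : ℝ) 1 zero_le_one t).2.1
    have h1 := (projIcc (0 : ℝ) 1 zero_le_one t).2.2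
    rw [norm_smul, norm_smul, upper_norm, mul_one, Real.norm_of_nonneg (sub_nonneg.2 h1),
      Real.norm_of_nonneg (mul_nonneg h0 (norm_nonneg _))]
    nlinarith [y.norm_le]⟩

theorem mv_val {t : ℝ} (h0 : 0 ≤ t) (h1 : t ≤ 1) (y : Disc 3) :
    (mv t y).1 = (1 - t) • y.1 - (t * ‖y.1‖) • (upper ctr).1 := by
  simp only [mv]
  rw [projIcc_of_mem zero_le_one ⟨h0, h1⟩]

theorem mv_continuous : Continuous fun q : Disc 3 × ℝ => mv q.2 q.1 := by
  apply Continuous.subtype_mk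
  have h1 : Continuous fun q : Disc 3 × ℝ => (projIcc (0 : ℝ) 1 zero_le_one q.2 : ℝ) :=
    continuous_subtype_val.comp (continuous_projIcc.comp continuous_snd)
  have h2 : Continuous fun q : Disc 3 × ℝ => q.1.1 := continuous_subtype_val.comp continuous_fst
  exact ((continuous_const.sub h1).smul h2).sub ((h1.mul (continuous_norm.comp h2)).smul
    continuous_const)

theorem mv_last {t : ℝ} (h0 : 0 ≤ t) (h1 : t ≤ 1) (y : Disc 3) :
    (mv t y).1 (Fin.last 2) = (1 - t) * y.1 (Fin.last 2) - t * ‖y.1‖ := by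
  rw [mv_val h0 h1]
  have h2 : ((1 - t) • y.1 - (t * ‖y.1‖) • (upper ctr).1) (Fin.last 2) =
    (1 - t) * y.1 (Fin.last 2) - (t * ‖y.1‖) * (upper ctr).1 (Fin.last 2) := rfl
  rw [h2, upper_ctr_last, mul_one]

theorem mv_nsq {t : ℝ} (h0 : 0 ≤ t) (h1 : t ≤ 1) (y : Disc 3) :
    ‖(mv t y).1‖ ^ 2 = (1 - t) ^ 2 * ‖y.1‖ ^ 2 - 2 * (1 - t) * (t * ‖y.1‖) * y.1 (Fin.last 2) +
      (t * ‖y.1‖) ^ 2 := by
  rw [mv_val h0 h1, nsq_N]

theorem le_of_sq_le_sq' {a b : ℝ} (h : a ^ 2 ≤ b ^ 2) (hb : 0 ≤ b) : a ≤ b := by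
  by_contra hc
  have := not_le.1 hc
  nlinarith

theorem mv_ineq {t : ℝ} (h0 : 0 ≤ t) (h1 : t ≤ 1) (y : Disc 3) :
    (mv t y).1 (Fin.last 2) * ‖y.1‖ ≤ y.1 (Fin.last 2) * ‖(mv t y).1‖ := by
  rw [mv_last h0 h1]
  have h2 := mv_nsq h0 h1 y
  have hl := last_le_norm y.1
  have hl' := neg_last_le_norm y.1
  have hY := norm_nonneg y.1
  have hV := norm_nonneg (mv t y).1
  set Y := ‖y.1‖
  set l := y.1 (Fin.last 2)
  set V := ‖(mv t y).1‖
  have ht : 0 ≤ 1 - t := sub_nonneg.2 h1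
  have hll : l ^ 2 ≤ Y ^ 2 := by nlinarith
  rcases le_total 0 l with h3 | h3
  · have h4 : (1 - t) * Y - t * l ≤ V := by
      apply le_of_sq_le_sq' _ hV
      rw [h2]
      have : t ^ 2 * l ^ 2 ≤ t ^ 2 * Y ^ 2 := mul_le_mul_of_nonneg_left hll (sq_nonneg t)
      nlinarith
    have h5 : l * ((1 - t) * Y - t * l) ≤ l * V := mul_le_mul_of_nonneg_left h4 h3
    have h6 : t * l ^ 2 ≤ t * Y ^ 2 := mul_le_mul_of_nonneg_left hll h0
    nlinarith
  · have h4 : V ≤ Y := by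
      apply le_of_sq_le_sq' _ hY
      rw [h2]
      have h7 : -(((1 - t) * t * Y) * l) ≤ ((1 - t) * t * Y) * Y := by
        have := mul_le_mul_of_nonneg_left hl' (mul_nonneg (mul_nonneg ht h0) hY)
        linarith
      nlinarith
    have h5 : l * Y ≤ l * V := mul_le_mul_of_nonpos_left h4 h3
    have h6 : t * Y * (-l) ≤ t * Y * Y := mul_le_mul_of_nonneg_left hl' (mul_nonneg h0 hY)
    nlinarith
end Pool.Agent.Run7.h41.Top
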