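import Pool.Agent.Run7.h41.Word

/-!
# Characteristic maps of an open cell: general topology
-/

set_option autoImplicit false

namespace Pool.Agent.Run7.h41.Top

open Set Pool.Agent.Run7.h41.CW

/-- Continuity on a finite union of images of compact spaces, outside of a set `P`. -/
theorem glue_off {ι : Type} [Finite ι] {C : ι → Type} [∀ i, TopologicalSpace (C i)]
    [∀ i, CompactSpace (C i)] {X Y : Type} [TopologicalSpace X] [T2Space X] [TopologicalSpace Y]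
    (χ : ∀ i, C i → X) (hχ : ∀ i, Continuous (χ i)) (F : X → Y) (P : Set X)
    (hF : ∀ i, ContinuousOn (fun x => F (χ i x)) {x | χ i x ∉ P}) :
    ContinuousOn F ((⋃ i, range (χ i)) \ P) := by
  rw [continuousOn_iff_isClosed]
  intro t ht
  choose T hT1 hT2 using fun i => (continuousOn_iff_isClosed.1 (hF i)) t ht
  refine ⟨⋃ i, χ i '' (T i), ?_, ?_⟩
  · apply isClosed_iUnion_of_finite
    intro i
    exact ((hT1 i).isCompact.image (hχ i)).isClosed
  · ext p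
    constructor
    · rintro ⟨h1, h2, h3⟩
      obtain ⟨i, x, rfl⟩ := mem_iUnion.1 h2
      have h4 : x ∈ T i ∩ {x | χ i x ∉ P} := by
        rw [← hT2 i]
        exact ⟨h1, h3⟩
      exact ⟨mem_iUnion.2 ⟨i, x, h4.1, rfl⟩, h2, h3⟩
    · rintro ⟨h1, h2, h3⟩
      obtain ⟨i, x, hx, rfl⟩ := mem_iUnion.1 h1
      have h4 : x ∈ (fun x => F (χ i x)) ⁻¹' t ∩ {x | χ i x ∉ P} := by
        rw [hT2 i]
        exact ⟨hx, h3⟩
      exact ⟨h4.1, h2, h3⟩

/-- the version for one map -/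
theorem quot_off {C : Type} [TopologicalSpace C] [CompactSpace C] {X Y : Type} [TopologicalSpace X]
    [T2Space X] [TopologicalSpace Y] {χ : C → X} (hχ : Continuous χ) (F : X → Y) (P : Set X)
    (hF : ContinuousOn (fun x => F (χ x)) {x | χ x ∉ P}) : ContinuousOn F (range χ \ P) := by
  have h := glue_off (ι := Unit) (C := fun _ => C) (fun _ => χ) (fun _ => hχ) F P (fun _ => hF)
  refine h.mono (fun p hp => ⟨mem_iUnion.2 ⟨(), hp.1⟩, hp.2⟩)

/-! ### scaling -/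

/-- multiplication by a number in `[0, 1]` -/
noncomputable def scl {n : ℕ} (s : ℝ) (z : Disc n) : Disc n :=
  ⟨(projIcc (0 : ℝ) 1 zero_le_one s : ℝ) • z.1, by
    rw [mem_closedBall_zero_iff, norm_smul, Real.norm_of_nonneg (projIcc _ _ _ s).2.1]
    exact mul_le_one₀ (projIcc _ _ _ s).2.2 (norm_nonneg _) z.norm_le⟩

theorem scl_val {n : ℕ} {s : ℝ} (h0 : 0 ≤ s) (h1 : s ≤ 1) (z : Disc n) : (scl s z).1 = s • z.1 := by
  simp only [scl]
  rw [projIcc_of_mem zero_le_one ⟨h0, h1⟩]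

theorem scl_norm {n : ℕ} {s : ℝ} (h0 : 0 ≤ s) (h1 : s ≤ 1) (z : Disc n) :
    ‖(scl s z).1‖ = s * ‖z.1‖ := by
  rw [scl_val h0 h1, norm_smul, Real.norm_of_nonneg h0]

theorem scl_one {n : ℕ} (z : Disc n) : scl 1 z = z := by
  apply Subtype.ext
  rw [scl_val zero_le_one le_rfl, one_smul]

theorem scl_scl {n : ℕ} {s s' : ℝ} (h0 : 0 ≤ s) (h1 : s ≤ 1) (h0' : 0 ≤ s') (h1' : s' ≤ 1)
    (z : Disc n) : scl s (scl s' z) = scl (s * s') z := by
  apply Subtype.ext
  rw [scl_val h0 h1, scl_val h0' h1', scl_val (mul_nonneg h0 h0') (mul_le_one₀ h1 h0' h1'), smul_smul]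

theorem scl_continuous {n : ℕ} : Continuous fun q : ℝ × Disc n => scl q.1 q.2 := by
  apply Continuous.subtype_mk
  have h1 : Continuous fun q : ℝ × Disc n => (projIcc (0 : ℝ) 1 zero_le_one q.1 : ℝ) :=
    continuous_subtype_val.comp (continuous_projIcc.comp continuous_fst)
  have h2 : Continuous fun q : ℝ × Disc n => q.2.1 := continuous_subtype_val.comp continuous_snd
  exact h1.smul h2

/-- the direction -/
noncomputable def dr {n : ℕ} (z : Disc n) : Disc n :=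
  ⟨‖z.1‖⁻¹ • z.1, by
    rw [mem_closedBall_zero_iff, norm_smul, norm_inv, norm_norm]
    exact inv_mul_le_one⟩

theorem dr_norm {n : ℕ} {z : Disc n} (hz : z.1 ≠ 0) : ‖(dr z).1‖ = 1 := by
  simp only [dr]
  rw [norm_smul, norm_inv, norm_norm]
  exact inv_mul_cancel₀ (norm_ne_zero_iff.2 hz)

theorem dr_continuousOn {n : ℕ} : ContinuousOn (dr : Disc n → Disc n) {z | z.1 ≠ 0} := by
  rw [continuousOn_iff_continuous_domRestrict]
  apply Continuous.subtype_mk
  have h2 : Continuous fun x : {z : Disc n // z.1 ≠ 0} => x.1.1 :=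
    continuous_subtype_val.comp continuous_subtype_val
  exact ((continuous_norm.comp h2).inv₀ (fun x => norm_ne_zero_iff.2 x.2)).smul h2

theorem scl_dr {n : ℕ} (z : Disc n) : scl ‖z.1‖ (dr z) = z := by
  apply Subtype.ext
  rw [scl_val (norm_nonneg _) z.norm_le]
  simp only [dr]
  by_cases h : z.1 = 0
  · rw [h]; simp
  · rw [smul_smul, mul_inv_cancel₀ (norm_ne_zero_iff.2 h), one_smul]

theorem dr_scl {n : ℕ} {z : Disc n} (hz : ‖z.1‖ = 1) {s : ℝ} (h0 : 0 < s) (h1 : s ≤ 1) :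
    dr (scl s z) = z := by
  apply Subtype.ext
  simp only [dr]
  rw [scl_norm h0.le h1, scl_val h0.le h1, hz, mul_one, smul_smul, inv_mul_cancel₀ h0.ne', one_smul]

theorem dr_self {n : ℕ} {z : Disc n} (hz : ‖z.1‖ = 1) : dr z = z := by
  have := dr_scl hz zero_lt_one le_rfl
  rwa [scl_one] at this

theorem ne_zero_of_norm_one {n : ℕ} {z : Disc n} (hz : ‖z.1‖ = 1) : z.1 ≠ 0 := by
  intro h
  rw [h, norm_zero] at hz
  exact zero_ne_one hz

/-- compactness: pushing a compact set into the interior of the ball -/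
theorem push {n : ℕ} {X : Type} [TopologicalSpace X] {φ : Disc n → X} (hφ : Continuous φ)
    {C : Set (Disc n)} (hC : IsCompact C) {B : Set X} (hB : IsClosed B) (h : ∀ z ∈ C, φ z ∉ B) :
    ∃ r : ℝ, 0 < r ∧ r < 1 ∧ ∀ s, r ≤ s → s ≤ 1 → ∀ z ∈ C, φ (scl s z) ∉ B := by
  have h1 : IsOpen {q : ℝ × Disc n | φ (scl q.1 q.2) ∉ B} :=
    hB.isOpen_compl.preimage (hφ.comp scl_continuous)
  obtain ⟨u, v, hu, hv, h1u, hCv, huv⟩ := generalized_tube_lemma (isCompact_singleton (x := (1 : ℝ)))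
    hC h1 (by
      rintro ⟨s, z⟩ ⟨hs, hz⟩
      rw [mem_singleton_iff] at hs
      simp only at hs hz
      simp only [mem_ofPred_eq, hs, scl_one]
      exact h z hz)
  obtain ⟨δ, hδ, hball⟩ := Metric.isOpen_iff.1 hu 1 (h1u rfl)
  refine ⟨max (1 - δ / 2) (1 / 2), by positivity, by
    apply max_lt <;> linarith, fun s hs hs1 z hz => ?_⟩
  apply huv (show (s, z) ∈ u ×ˢ v from ⟨hball ?_, hCv hz⟩)
  rw [Metric.mem_ball, Real.dist_eq, abs_lt]
  have := le_max_left (1 - δ / 2) (1 / 2 : ℝ)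
  constructor <;> linarith

/-- the cone with vertex `0` -/
def cone {n : ℕ} (S : Set (Disc n)) : Set (Disc n) :=
  {y | ∃ z ∈ S, ∃ σ : ℝ, 0 ≤ σ ∧ σ ≤ 1 ∧ y = scl σ z}

theorem cone_compact {n : ℕ} {S : Set (Disc n)} (hS : IsCompact S) : IsCompact (cone S) := by
  have h1 : cone S = (fun q : ℝ × Disc n => scl q.1 q.2) '' (Icc (0 : ℝ) 1 ×ˢ S) := by
    ext y
    constructor
    · rintro ⟨z, hz, σ, h0, h1, rfl⟩
      exact ⟨(σ, z), ⟨⟨h0, h1⟩, hz⟩, rfl⟩
    · rintro ⟨⟨σ, z⟩, ⟨⟨h0, h1⟩, hz⟩, rfl⟩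
      exact ⟨z, hz, σ, h0, h1, rfl⟩
  rw [h1]
  exact (isCompact_Icc.prod hS).image scl_continuous

theorem loop_compact {Y : Type} [TopologicalSpace Y] {f : ℝ → Y} (hf : Continuous f)
    (hper : ∀ t, f (t + 1) = f t) : IsCompact (range f) := by
  have h : Function.Periodic f 1 := hper
  rw [← h.image_Icc zero_lt_one 0]
  exact isCompact_Icc.image hf

/-- a compact subset of the open ball has bounded norm -/
theorem norm_bound {n : ℕ} {C : Set (Disc n)} (hC : IsCompact C) (h : ∀ z ∈ C, ‖z.1‖ < 1) :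
    ∃ r : ℝ, 0 < r ∧ r < 1 ∧ ∀ z ∈ C, ‖z.1‖ ≤ r := by
  rcases C.eq_empty_or_nonempty with rfl | hne
  · exact ⟨1 / 2, by norm_num, by norm_num, fun z hz => absurd hz (notMem_empty z)⟩
  · obtain ⟨z₀, hz₀, hmax⟩ := hC.exists_isMaxOn hne
      (continuous_norm.comp continuous_subtype_val).continuousOn
    refine ⟨max (1 / 2) ‖z₀.1‖, by positivity, max_lt (by norm_num) (h z₀ hz₀), fun z hz => ?_⟩
    exact le_trans (hmax hz) (le_max_right _ _)

/-! ### characteristic maps -/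

/-- `φ` is a characteristic map of the open cell `O` -/
structure Chr {n : ℕ} {X : Type} [TopologicalSpace X] (O : Set X) (φ : Disc n → X) : Prop where
  cont : Continuous φ
  inj : ∀ x y, ‖x.1‖ < 1 → ‖y.1‖ < 1 → φ x = φ y → x = y
  int : ∀ x, ‖x.1‖ < 1 → φ x ∈ O
  surj : ∀ p ∈ O, ∃ x, ‖x.1‖ < 1 ∧ φ x = p
  bd : ∀ x, ‖x.1‖ = 1 → φ x ∉ O

section Chr
variable {n : ℕ} {X : Type} [TopologicalSpace X] {O : Set X} {φ ψ : Disc n → X}

theorem Chr.mem_iff (h : Chr O φ) {x : Disc n} : φ x ∈ O ↔ ‖x.1‖ < 1 := by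
  constructor
  · intro h1
    exact lt_of_le_of_ne x.norm_le (fun h2 => h.bd x h2 h1)
  · exact h.int x

theorem Chr.range_subset [T2Space X] (h : Chr O φ) (h' : Chr O ψ) : range φ ⊆ range ψ := by
  rintro _ ⟨x, rfl⟩
  have hcl : IsClosed (range ψ) := (isCompact_range h'.cont).isClosed
  -- the point is a limit of points of the open cell
  have h1 : Filter.Tendsto (fun k : ℕ => φ (scl (1 - 1 / ((k : ℝ) + 1)) x)) Filter.atTop
      (nhds (φ (scl (1 - 0) x))) := by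
    apply (h.cont.tendsto _).comp
    have h2 : Continuous fun s : ℝ => scl s x :=
      scl_continuous.comp (continuous_id.prodMk continuous_const)
    apply (h2.tendsto _).comp
    exact tendsto_const_nhds.sub tendsto_one_div_add_atTop_nhds_zero_nat
  rw [sub_zero, scl_one] at h1
  apply hcl.mem_of_tendsto h1
  filter_upwards with k
  have hk0 : 0 < 1 / ((k : ℝ) + 1) := by positivity
  have hk1 : 1 / ((k : ℝ) + 1) ≤ 1 := by
    rw [div_le_one (by positivity)]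
    linarith [Nat.cast_nonneg (α := ℝ) k]
  have h3 : ‖(scl (1 - 1 / ((k : ℝ) + 1)) x).1‖ < 1 := by
    rw [scl_norm (by linarith) (by linarith)]
    nlinarith [norm_nonneg x.1, x.norm_le]
  obtain ⟨y, -, hy⟩ := h'.surj _ (h.int _ h3)
  exact ⟨y, hy⟩

theorem Chr.range_eq [T2Space X] (h : Chr O φ) (h' : Chr O ψ) : range φ = range ψ :=
  (h.range_subset h').antisymm (h'.range_subset h)

/-- the transition map -/
theorem Chr.trans [T2Space X] (h : Chr O φ) (h' : Chr O ψ) : ∃ η : Disc n → Disc n,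
    ContinuousOn η {x | ‖x.1‖ < 1} ∧ (∀ x, ‖x.1‖ < 1 → ‖(η x).1‖ < 1) ∧
    ∀ x, ‖x.1‖ < 1 → ψ (η x) = φ x := by
  have h1 : ∀ x : Disc n, ∃ y : Disc n, ‖x.1‖ < 1 → ‖y.1‖ < 1 ∧ ψ y = φ x := by
    intro x
    by_cases hx : ‖x.1‖ < 1
    · obtain ⟨y, hy, hy2⟩ := h'.surj _ (h.int x hx)
      exact ⟨y, fun _ => ⟨hy, hy2⟩⟩
    · exact ⟨x, fun hx' => absurd hx' hx⟩
  choose η hη using h1
  refine ⟨η, ?_, fun x hx => (hη x hx).1, fun x hx => (hη x hx).2⟩
  rw [continuousOn_iff_isClosed]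
  intro t ht
  refine ⟨φ ⁻¹' (ψ '' t), ?_, ?_⟩
  · exact (ht.isCompact.image h'.cont).isClosed.preimage h.cont
  · ext x
    constructor
    · rintro ⟨h2, h3⟩
      exact ⟨⟨η x, h2, (hη x h3).2⟩, h3⟩
    · rintro ⟨⟨z, hz, hz2⟩, h3⟩
      refine ⟨?_, h3⟩
      have h4 : ‖z.1‖ < 1 := by
        rw [← h'.mem_iff, hz2]
        exact h.int x h3
      have h5 : η x = z := h'.inj _ _ (hη x h3).1 h4 ((hη x h3).2.trans hz2.symm)
      rw [mem_preimage, h5]
      exact hz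

/-- the transition maps are inverse to each other -/
theorem Chr.trans_trans (h : Chr O φ) {η η' : Disc n → Disc n}
    (hη : ∀ x, ‖x.1‖ < 1 → ‖(η x).1‖ < 1) (hη2 : ∀ x, ‖x.1‖ < 1 → ψ (η x) = φ x)
    (hη' : ∀ x, ‖x.1‖ < 1 → ‖(η' x).1‖ < 1) (hη2' : ∀ x, ‖x.1‖ < 1 → φ (η' x) = ψ x)
    (x : Disc n) (hx : ‖x.1‖ < 1) : η' (η x) = x :=
  h.inj _ _ (hη' _ (hη x hx)) hx ((hη2' _ (hη x hx)).trans (hη2 x hx))

end Chr

end Pool.Agent.Run7.h41.Top
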