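import Pool.Agent.Run7.h41.FContract

/-!
# The loops of two characteristic maps of an open three-cell
-/

set_option autoImplicit false

namespace Pool.Agent.Run7.h41.Top

open Set Pool.Agent.Run7.h41.CW

theorem scl_cont2 {n : ℕ} {A : Type} [TopologicalSpace A] {u : A → ℝ} {v : A → Disc n}
    (hu : Continuous u) (hv : Continuous v) : Continuous fun a => scl (u a) (v a) :=
  scl_continuous.comp (hu.prodMk hv)

/-- a label of degree one on the sphere without two points -/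
theorem unit_sphere {q : Disc 2} (hq : ‖q.1‖ < 1) : ∃ Z : Disc 3 → BG (Multiplicative ℤ),
    ContinuousOn Z {z | ‖z.1‖ = 1 ∧ z ≠ upper ctr ∧ z ≠ lower q} ∧
    HasHol (fun t => Z (upper (circ t))) (Multiplicative.ofAdd 1) := by
  classical
  obtain ⟨R, H, hR, hH, hR1, hR2, hH0, hH1, hHq⟩ := radial q hq
  obtain ⟨F, hF, -, hF1⟩ := unit_radial
  let F' : Disc 2 → BG (Multiplicative ℤ) := fun v =>
    if h : v ≠ q then F (R ⟨v, h⟩) else F (circ 0)
  have hne : ∀ x : Disc 2, ‖x.1‖ = 1 → x ≠ ctr := by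
    rintro x hx rfl
    rw [ctr_norm] at hx
    exact zero_ne_one hx
  have hF'c : ContinuousOn F' {v | v ≠ q} := by
    rw [continuousOn_iff_continuous_domRestrict]
    have h1 : Continuous fun v : {v : Disc 2 // v ≠ q} => F (R v) :=
      hF.comp_continuous hR (fun v => hne _ (hR1 v))
    refine h1.congr (fun x => ?_)
    have hx : x.1 ≠ q := x.2
    simp only [F', domRestrict_apply, dif_pos hx]
  have hF'1 : ∀ x : Disc 2, ‖x.1‖ = 1 → F' x = F x := by
    intro x hx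
    have h4 : x ≠ q := by
      rintro rfl
      exact absurd hx hq.ne
    have h5 : F' x = F (R ⟨x, h4⟩) := dif_pos h4
    rw [h5, hR2 ⟨x, h4⟩ hx]
  refine ⟨fun z => if (0 : ℝ) ≤ z.1 (Fin.last 2) then F (proj z) else F' (proj z), ?_, ?_⟩
  · rw [continuousOn_iff_continuous_domRestrict]
    have hlast : Continuous fun z : {z : Disc 3 // ‖z.1‖ = 1 ∧ z ≠ upper ctr ∧ z ≠ lower q} =>
        z.1.1 (Fin.last 2) :=
      (EuclideanSpace.proj (𝕜 := ℝ) (Fin.last 2)).continuous.comp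
        (continuous_subtype_val.comp continuous_subtype_val)
    have hpr : Continuous fun z : {z : Disc 3 // ‖z.1‖ = 1 ∧ z ≠ upper ctr ∧ z ≠ lower q} =>
        proj z.1 := proj_continuous.comp continuous_subtype_val
    have h1 : Continuous fun z : {z : Disc 3 // ‖z.1‖ = 1 ∧ z ≠ upper ctr ∧ z ≠ lower q} =>
        if (0 : ℝ) ≤ z.1.1 (Fin.last 2) then F (proj z.1) else F' (proj z.1) := by
      apply continuous_if_le continuous_const hlast
      · apply hF.comp hpr.continuousOn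
        intro z hz hz2
        apply z.2.2.1
        have h2 : proj z.1 = ctr := hz2
        rw [eq_upper z.2.1 hz, h2]
      · apply hF'c.comp hpr.continuousOn
        intro z hz hz2
        apply z.2.2.2
        have h2 : proj z.1 = q := hz2
        rw [eq_lower z.2.1 hz, h2]
      · intro z hz
        have h2 : ‖(proj z.1).1‖ = 1 := by
          have h3 := proj_norm z.1
          rw [z.2.1, ← hz] at h3
          nlinarith [norm_nonneg (proj z.1).1]
        exact (hF'1 _ h2).symm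
    exact h1
  · refine hF1.congr (fun t => ?_)
    have h3 : (0 : ℝ) ≤ (upper (circ t)).1 (Fin.last 2) := by
      rw [upper_last]
      exact Real.sqrt_nonneg _
    simp only [if_pos h3, proj_upper]

theorem zpow_unit' {x : Multiplicative ℤ} {m : ℤ} (h : x ^ m = Multiplicative.ofAdd (1 : ℤ)) :
    m = 1 ∨ m = -1 := by
  have h3 : m * Multiplicative.toAdd x = 1 := by
    have h1 := congrArg Multiplicative.toAdd h
    rw [toAdd_zpow, toAdd_ofAdd] at h1
    simpa using h1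
  exact Int.eq_one_or_neg_one_of_mul_eq_one h3

theorem isConj_zpow_unit {G : Type} [Group G] {g h : G} {n : ℤ} (hn : n = 1 ∨ n = -1)
    (hc : IsConj g (h ^ n)) : IsConj h (g ^ n) := by
  obtain ⟨k, hk⟩ := isConj_iff.1 hc
  refine isConj_iff.2 ⟨k⁻¹, ?_⟩
  have h1 : g = k⁻¹ * h ^ n * k := by
    rw [← hk]
    group
  have h2 : g ^ n = k⁻¹ * (h ^ n) ^ n * k := by
    rw [h1]
    have := conj_zpow (a := k⁻¹) (b := h ^ n) (i := n)
    rw [inv_inv] at this
    exact this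
  rw [h2, inv_inv]
  rcases hn with rfl | rfl <;> simp

theorem IsConj.zpow' {G : Type} [Group G] {g h : G} (hc : IsConj g h) (n : ℤ) :
    IsConj (g ^ n) (h ^ n) := by
  obtain ⟨k, rfl⟩ := isConj_iff.1 hc
  exact isConj_iff.2 ⟨k, by rw [conj_zpow]⟩

/-- two characteristic maps of a three-cell with different simple faces -/
theorem two_chr {X : Type} [TopologicalSpace X] [T2Space X] {O : Set X} {φ₀ φ₁ : Disc 3 → X}
    (h₀ : Chr O φ₀) (h₁ : Chr O φ₁) (hN₀ : ∀ z, φ₀ z = φ₀ (upper ctr) → z = upper ctr)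
    (hN₁ : ∀ z, φ₁ z = φ₁ (upper ctr) → z = upper ctr)
    (hu₀ : ∀ y : Disc 2, φ₀ (upper y) ≠ φ₁ (upper ctr))
    (hu₁ : ∀ y : Disc 2, φ₁ (upper y) ≠ φ₀ (upper ctr)) :
    ∃ ε : ℤ, (ε = 1 ∨ ε = -1) ∧ ∀ (G : Type) [Group G] (Θ : X → BG G),
      ContinuousOn Θ ((range φ₀ \ O) \ {φ₀ (upper ctr), φ₁ (upper ctr)}) → ∀ g : G,
      HasHol (fun t => Θ (φ₀ (upper (circ t)))) g →
      HasHol (fun t => Θ (φ₁ (upper (circ t)))) (g ^ ε) := by
  classical
  obtain ⟨η, hηc, hη1, hη2⟩ := h₀.trans h₁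
  obtain ⟨η', hηc', hη1', hη2'⟩ := h₁.trans h₀
  have hηη := h₀.trans_trans hη1 hη2 hη1' hη2'
  have hηη' := h₁.trans_trans hη1' hη2' hη1 hη2
  have hrange : range φ₀ = range φ₁ := h₀.range_eq h₁
  set N : Disc 3 := upper ctr with hNdef
  have hN1 : ‖N.1‖ = 1 := upper_norm _
  have hcn : Continuous fun z : Disc 3 => ‖z.1‖ := continuous_norm.comp continuous_subtype_val
  have hcirc : ∀ t, upper (circ t) ≠ N := fun t h => circ_ne_ctr t (upper_inj h)
  have hbn₀ : ∀ w : Disc 3, φ₀ w ∉ O → ‖w.1‖ = 1 := fun w hw => by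
    by_contra h
    exact hw (h₀.int w (lt_of_le_of_ne w.norm_le h))
  have hbn₁ : ∀ w : Disc 3, φ₁ w ∉ O → ‖w.1‖ = 1 := fun w hw => by
    by_contra h
    exact hw (h₁.int w (lt_of_le_of_ne w.norm_le h))
  -- points over the two centres
  have hlow : ∀ {φ : Disc 3 → X} {p : X} (z : Disc 3), ‖z.1‖ = 1 → φ z = p →
      (∀ y : Disc 2, φ (upper y) ≠ p) → ∃ q : Disc 2, ‖q.1‖ < 1 ∧ z = lower q := by
    intro φ p z hz hzp hup
    rcases le_total (z.1 (Fin.last 2)) 0 with h1 | h1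
    · refine ⟨proj z, ?_, eq_lower hz h1⟩
      refine lt_of_le_of_ne (proj z).norm_le (fun h2 => ?_)
      apply hup (proj z)
      rw [upper_eq_lower h2, ← eq_lower hz h1]
      exact hzp
    · exfalso
      apply hup (proj z)
      rw [← eq_upper hz h1]
      exact hzp
  obtain ⟨f₀, hf₀p⟩ : ∃ f, φ₀ f = φ₁ N := by
    have h1 : φ₁ N ∈ range φ₀ := by rw [hrange]; exact mem_range_self _
    exact h1
  have hf₀1 : ‖f₀.1‖ = 1 := hbn₀ _ (by rw [hf₀p]; exact h₁.bd N hN1)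
  obtain ⟨f₁, hf₁p⟩ : ∃ f, φ₁ f = φ₀ N := by
    have h1 : φ₀ N ∈ range φ₁ := by rw [← hrange]; exact mem_range_self _
    exact h1
  have hf₁1 : ‖f₁.1‖ = 1 := hbn₁ _ (by rw [hf₁p]; exact h₀.bd N hN1)
  obtain ⟨q₀, hq₀, hfq₀⟩ := hlow f₀ hf₀1 hf₀p hu₀
  obtain ⟨q₁, hq₁, hfq₁⟩ := hlow f₁ hf₁1 hf₁p hu₁
  -- bad directions
  let S₀ : Set (Disc 3) := {z | ‖z.1‖ = 1 ∧ (φ₀ z = φ₀ N ∨ φ₀ z = φ₁ N)}
  have hS₀ : IsCompact S₀ := by
    apply IsClosed.isCompact
    exact (isClosed_eq hcn continuous_const).inter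
      ((isClosed_eq h₀.cont continuous_const).union (isClosed_eq h₀.cont continuous_const))
  have hNS : N ∈ S₀ := ⟨hN1, Or.inl rfl⟩
  have hfS : f₀ ∈ S₀ := ⟨hf₀1, Or.inr hf₀p⟩
  let B₀ : Set X := φ₀ '' cone S₀
  have hB₀ : IsClosed B₀ := ((cone_compact hS₀).image h₀.cont).isClosed
  have hb0 : φ₀ N ∈ B₀ := ⟨N, mem_cone_self hNS, rfl⟩
  have hb1 : φ₁ N ∈ B₀ := ⟨f₀, mem_cone_self hfS, hf₀p⟩
  have hbdir : ∀ z, φ₀ z ∉ B₀ → z.1 ≠ 0 ∧ dr z ∉ S₀ := fun z hz =>
    ⟨fun h => hz ⟨z, zero_mem_cone ⟨N, hNS⟩ h, rfl⟩, fun h => hz ⟨z, mem_cone_of_dr h, rfl⟩⟩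
  have hbB : ∀ x, x ∉ O → x ∈ B₀ → x = φ₀ N ∨ x = φ₁ N := by
    rintro x hx ⟨w, hw, rfl⟩
    exact (cone_norm_one hw (hbn₀ w hx)).2
  -- the shadow in the other coordinates
  have hZc : IsCompact (φ₁ ⁻¹' B₀) := (hB₀.preimage h₁.cont).isCompact
  have hZne : (φ₁ ⁻¹' B₀).Nonempty := ⟨N, hb1⟩
  obtain ⟨r, hr0, hr1, hr⟩ := push (C := range fun t => upper (circ t)) h₀.cont
    (loop_compact (upper_continuous.comp circ_continuous) (fun t => by
      simp only [circ_add_one]))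
    ((cone_compact hZc).image h₁.cont).isClosed (by
      rintro _ ⟨t, rfl⟩ ⟨w, hw, hw2⟩
      have h1 : φ₀ (upper (circ t)) ∉ O := h₀.bd _ (upper_norm _)
      have h2 : φ₁ w ∈ B₀ := cone_norm_one hw (hbn₁ w (by rw [hw2]; exact h1))
      rw [hw2] at h2
      rcases hbB _ h1 h2 with h3 | h3
      · exact hcirc t (hN₀ _ h3)
      · exact hu₀ _ h3)
  have hg1 : ∀ t, ‖(scl r (upper (circ t))).1‖ < 1 := by
    intro t
    rw [scl_norm hr0.le hr1.le, upper_norm, mul_one]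
    exact hr1
  let D : ℝ → Disc 3 := fun t => η (scl r (upper (circ t)))
  have hDc : Continuous D := hηc.comp_continuous (scl_continuous.comp
    (continuous_const.prodMk (upper_continuous.comp circ_continuous))) hg1
  have hDp : ∀ t, D (t + 1) = D t := fun t => by simp only [D, circ_add_one]
  have hD1 : ∀ t, ‖(D t).1‖ < 1 := fun t => hη1 _ (hg1 t)
  have hDφ : ∀ t, φ₁ (D t) = φ₀ (scl r (upper (circ t))) := fun t => hη2 _ (hg1 t)
  have hDR : ∀ t, D t ∉ cone (φ₁ ⁻¹' B₀) := by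
    intro t h
    exact hr r le_rfl hr1.le _ (mem_range_self t) ⟨D t, h, hDφ t⟩
  have hD0 : ∀ t, (D t).1 ≠ 0 := fun t h => hDR t (zero_mem_cone hZne h)
  have hDn : ∀ t, 0 < ‖(D t).1‖ := fun t => norm_pos_iff.2 (hD0 t)
  let l : ℝ → Disc 3 := fun t => dr (D t)
  have hlc : Continuous l := dr_continuousOn.comp_continuous hDc hD0
  have hlp : ∀ t, l (t + 1) = l t := fun t => by simp only [l, hDp]
  have hl1 : ∀ t, ‖(l t).1‖ = 1 := fun t => dr_norm (hD0 t)
  have hlB : ∀ t ρ, ‖(D t).1‖ ≤ ρ → ρ ≤ 1 → φ₁ (scl ρ (l t)) ∉ B₀ := by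
    intro t ρ h1 h2 h3
    have hρ : 0 < ρ := lt_of_lt_of_le (hDn t) h1
    apply hDR t
    refine ⟨scl ρ (l t), h3, ‖(D t).1‖ / ρ, by positivity, (div_le_one hρ).2 h1, ?_⟩
    rw [scl_scl (by positivity) ((div_le_one hρ).2 h1) hρ.le h2, div_mul_cancel₀ _ hρ.ne', scl_dr]
  have hlB1 : ∀ t, φ₁ (l t) ∉ B₀ := by
    intro t
    have := hlB t 1 (hD1 t).le le_rfl
    rwa [scl_one] at this
  -- the generating loop
  obtain ⟨M, hM, hMp, hMF, hMl⟩ := hl_sphere (F := {z | φ₁ z = φ₀ N})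
    (isClosed_eq h₁.cont continuous_const) hf₁p hf₁1 hN1 (hu₁ ctr) (by
      intro C hC hCF
      exact contract h₀ h₁ hN₀ hC hCF)
  obtain ⟨n, H, hH, hHp, hHF, hH0, hH1⟩ := hMl l hlc hlp (fun t => ⟨hl1 t,
    fun h => hlB1 t (by
      have h' : φ₁ (l t) = φ₀ N := h
      rw [h']; exact hb0),
    fun h => hlB1 t (by rw [h]; exact hb1)⟩)
  obtain ⟨d, H₁, hH₁, hHp₁, hHF₁, hH₁0, hH₁1⟩ := hMl (fun t => upper (circ t))
    (upper_continuous.comp circ_continuous) (fun t => by rw [circ_add_one])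
    (fun t => ⟨upper_norm _, hu₁ _, hcirc t⟩)
  -- the degree `d`
  have hd : d = 1 ∨ d = -1 := by
    obtain ⟨Ξ, hΞ, hΞ1⟩ := unit_sphere hq₁
    have hmem : ∀ z : Disc 3, (‖z.1‖ = 1 ∧ z ∉ {z | φ₁ z = φ₀ N} ∧ z ≠ N) →
        z ∈ {z : Disc 3 | ‖z.1‖ = 1 ∧ z ≠ upper ctr ∧ z ≠ lower q₁} := by
      rintro z ⟨h1, h2, h3⟩
      refine ⟨h1, h3, fun h4 => h2 ?_⟩
      rw [h4, ← hfq₁]
      exact hf₁p
    obtain ⟨μ, hμ⟩ := exists_hol (f := fun t => Ξ (M t)) (hΞ.comp_continuous hM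
      (fun t => hmem _ (hMF t))) (fun t => by simp only [hMp])
    have h1 := hμ.reparam (η := fun t => d * t) (by fun_prop) d (fun t => by ring)
    have h2 := HasHol.homotopy (F := fun q => Ξ (H₁ q)) (a := 1) (b := 0)
      (hΞ.comp_continuous hH₁ (fun q => hmem _ (hHF₁ q))) (fun t s => by simp only [hHp₁])
      (h1.congr (fun t => by simp only [hH₁1]))
    have h3 := hasHol_abelian (h2.congr (fun t => by simp only [hH₁0])) hΞ1
    exact zpow_unit' h3
  -- the degree `n`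
  have hn : n = 1 ∨ n = -1 := by
    obtain ⟨Ξ, hΞ, hΞ1⟩ := unit_sphere hq₀
    let La : Disc 3 → BG (Multiplicative ℤ) := fun z => Ξ (dr (η' z))
    have hLa : ContinuousOn La {z | ‖z.1‖ < 1 ∧ φ₁ z ∉ B₀} := by
      have h1 : ∀ z : Disc 3, ‖z.1‖ < 1 → φ₁ z ∉ B₀ → (η' z).1 ≠ 0 ∧ dr (η' z) ∉ S₀ := by
        intro z hz hz2
        apply hbdir
        rw [hη2' z hz]
        exact hz2
      apply hΞ.comp (dr_continuousOn.comp (hηc'.mono (fun z hz => hz.1)) _)
      · intro z hz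
        obtain ⟨h2, h3⟩ := h1 z hz.1 hz.2
        refine ⟨dr_norm h2, fun h4 => h3 ?_, fun h4 => h3 ?_⟩
        · simp only [Function.comp_apply] at h4
          rw [h4]
          exact hNS
        · simp only [Function.comp_apply] at h4
          rw [h4, ← hfq₀]
          exact hfS
      · intro z hz
        exact (h1 z hz.1 hz.2).1
    obtain ⟨r₅, hr50, hr51, hr5⟩ := norm_bound (loop_compact hDc hDp) (by
      rintro _ ⟨t, rfl⟩
      exact hD1 t)
    have hCc : IsCompact (H '' (Icc (0 : ℝ) 1 ×ˢ Icc (0 : ℝ) 1) ∪ range M) :=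
      ((isCompact_Icc.prod isCompact_Icc).image hH).union (loop_compact hM hMp)
    have hHC : ∀ t s, s ∈ Icc (0 : ℝ) 1 → H (t, s) ∈ H '' (Icc (0 : ℝ) 1 ×ˢ Icc (0 : ℝ) 1) := by
      intro t s hs
      have hper : Function.Periodic (fun t => H (t, s)) 1 := fun t => hHp t s
      obtain ⟨t', ht', h1⟩ := hper.exists_mem_Ico₀ zero_lt_one t
      refine ⟨(t', s), ⟨⟨ht'.1, ht'.2.le⟩, hs⟩, h1.symm⟩
    have hnB : ∀ z : Disc 3, (‖z.1‖ = 1 ∧ z ∉ {z | φ₁ z = φ₀ N} ∧ z ≠ N) → φ₁ z ∉ B₀ := by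
      rintro z ⟨h1, h2, h3⟩ h4
      rcases hbB _ (h₁.bd z h1) h4 with h5 | h5
      · exact h2 h5
      · exact h3 (hN₁ _ h5)
    obtain ⟨r₄, hr40, hr41, hr4⟩ := push h₁.cont hCc hB₀ (by
      rintro z (⟨q, -, rfl⟩ | ⟨t, rfl⟩)
      · exact hnB _ (hHF q)
      · exact hnB _ (hMF t))
    set r₃ := max r₄ r₅ with hr3
    have hr30 : 0 < r₃ := lt_of_lt_of_le hr40 (le_max_left _ _)
    have hr31 : r₃ < 1 := max_lt hr41 hr51
    have hr35 : ∀ t, ‖(D t).1‖ ≤ r₃ := fun t => (hr5 _ (mem_range_self t)).trans (le_max_right _ _)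
    have hs3 : ∀ z : Disc 3, ‖(scl r₃ z).1‖ < 1 := by
      intro z
      rw [scl_norm hr30.le hr31.le]
      nlinarith [z.norm_le, norm_nonneg z.1]
    -- first homotopy
    have e1 : HasHol (fun t => La (D t)) (Multiplicative.ofAdd (1 : ℤ)) := by
      refine hΞ1.congr (fun t => ?_)
      simp only [La, D]
      rw [hηη _ (hg1 t), dr_scl (upper_norm _) hr0 hr1.le]
    have hsd : ∀ t s, s ∈ Icc (0 : ℝ) 1 → ‖(D t).1‖ ≤ (1 - s) * ‖(D t).1‖ + s * r₃ ∧
        (1 - s) * ‖(D t).1‖ + s * r₃ ≤ r₃ := by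
      intro t s hs
      have h1 := hr35 t
      constructor
      · nlinarith [mul_le_mul_of_nonneg_left h1 hs.1]
      · nlinarith [mul_le_mul_of_nonneg_left h1 (sub_nonneg.2 hs.2)]
    have e2 : HasHol (fun t => La (scl r₃ (l t))) (Multiplicative.ofAdd (1 : ℤ)) := by
      have h1 := HasHol.homotopyOn (F := fun q : ℝ × ℝ =>
        La (scl ((1 - q.2) * ‖(D q.1).1‖ + q.2 * r₃) (l q.1))) (a := 0) (b := 1) ?_ ?_
        (u := 0) (by simp) (v := 1) (by simp) (e1.congr (fun t => ?_))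
      · refine h1.congr (fun t => ?_)
        simp
      · apply hLa.comp
        · apply Continuous.continuousOn
          have h2 : Continuous fun q : ℝ × ℝ => ‖(D q.1).1‖ := hcn.comp (hDc.comp continuous_fst)
          exact scl_cont2 (((continuous_const.sub continuous_snd).mul h2).add
            (continuous_snd.mul continuous_const)) (hlc.comp continuous_fst)
        · rintro ⟨t, s⟩ ⟨-, hs⟩
          obtain ⟨h2, h3⟩ := hsd t s hs
          have h4 := h3.trans hr31.le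
          refine ⟨?_, hlB t _ h2 h4⟩
          simp only
          rw [scl_norm ((norm_nonneg _).trans h2) h4, hl1, mul_one]
          exact lt_of_le_of_lt h3 hr31
      · intro t s _
        simp only [hDp, hlp]
      · simp only [sub_zero, one_mul, zero_mul, add_zero]
        rw [scl_dr]
    -- second homotopy
    obtain ⟨μ, hμ⟩ := exists_hol (f := fun t => La (scl r₃ (M t))) (hLa.comp_continuous
      (scl_continuous.comp (continuous_const.prodMk hM))
      (fun t => ⟨hs3 _, hr4 r₃ (le_max_left _ _) hr31.le _ (Or.inr (mem_range_self t))⟩))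
      (fun t => by simp only [hMp])
    have h1 := hμ.reparam (η := fun t => n * t) (by fun_prop) n (fun t => by ring)
    have h2 := HasHol.homotopyOn (F := fun q : ℝ × ℝ => La (scl r₃ (H q))) (a := 0) (b := 1) ?_ ?_
      (u := 1) (by simp) (v := 0) (by simp) (h1.congr (fun t => by simp only [hH1]))
    · have h3 := hasHol_abelian (h2.congr (fun t => by simp only [hH0])) e2
      exact zpow_unit' h3
    · apply hLa.comp (scl_continuous.comp (continuous_const.prodMk hH)).continuousOn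
      rintro ⟨t, s⟩ ⟨-, hs⟩
      exact ⟨hs3 _, hr4 r₃ (le_max_left _ _) hr31.le _ (Or.inl (hHC t s hs))⟩
    · intro t s _
      simp only [hHp]
  -- the comparison of the labels
  refine ⟨n * d, ?_, fun G _ Θ hΘ g hg => ?_⟩
  · rcases hn with h1 | h1 <;> rcases hd with h2 | h2 <;> rw [h1, h2] <;> simp
  have hiv : ∀ p : X, ∃ x : Disc 3, p ∈ O → ‖x.1‖ < 1 ∧ φ₀ x = p := by
    intro p
    by_cases hp : p ∈ O
    · obtain ⟨x, hx⟩ := h₀.surj p hp
      exact ⟨x, fun _ => hx⟩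
    · exact ⟨N, fun h => absurd h hp⟩
  choose iv hiv using hiv
  let G₀ : X → BG G := fun p => if p ∈ O then Θ (φ₀ (dr (iv p))) else Θ p
  have hG₀ : ∀ z, G₀ (φ₀ z) = Θ (φ₀ (dr z)) := by
    intro z
    rcases z.norm_le.lt_or_eq with hz | hz
    · have h1 := h₀.int z hz
      simp only [G₀, if_pos h1]
      rw [h₀.inj _ _ (hiv _ h1).1 hz (hiv _ h1).2]
    · simp only [G₀, if_neg (h₀.bd z hz)]
      rw [dr_self hz]
  have hG₀c : ContinuousOn G₀ (range φ₀ \ B₀) := by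
    apply quot_off h₀.cont
    simp only [hG₀]
    apply hΘ.comp (h₀.cont.comp_continuousOn (dr_continuousOn.mono _))
    · intro z hz
      obtain ⟨h1, h2⟩ := hbdir z hz
      refine ⟨⟨mem_range_self _, h₀.bd _ (dr_norm h1)⟩, fun h3 => h2 ⟨dr_norm h1, h3⟩⟩
    · intro z hz
      exact (hbdir z hz).1
  have k1 : HasHol (fun t => Θ (φ₁ (l t))) g := by
    have h1 := HasHol.homotopyOn (F := fun q : ℝ × ℝ =>
      G₀ (φ₁ (scl ((1 - q.2) * ‖(D q.1).1‖ + q.2) (l q.1)))) (a := 0) (b := 1) ?_ ?_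
      (u := 0) (by simp) (v := 1) (by simp) (hg.congr (fun t => ?_))
    · refine h1.congr (fun t => ?_)
      simp only [sub_self, zero_mul, zero_add, scl_one]
      simp only [G₀, if_neg (h₁.bd _ (hl1 t))]
    · apply hG₀c.comp
      · apply Continuous.continuousOn
        have h2 : Continuous fun q : ℝ × ℝ => ‖(D q.1).1‖ := hcn.comp (hDc.comp continuous_fst)
        exact h₁.cont.comp (scl_cont2 (((continuous_const.sub continuous_snd).mul h2).add
          continuous_snd) (hlc.comp continuous_fst))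
      · rintro ⟨t, s⟩ ⟨-, hs⟩
        refine ⟨by rw [hrange]; exact mem_range_self _, ?_⟩
        have h1 := hD1 t
        apply hlB t
        · nlinarith [mul_le_mul_of_nonneg_left h1.le hs.1]
        · nlinarith [mul_le_mul_of_nonneg_left h1.le (sub_nonneg.2 hs.2)]
    · intro t s _
      simp only [hDp, hlp]
    · simp only [sub_zero, one_mul, add_zero]
      rw [scl_dr, hDφ, hG₀, dr_scl (upper_norm _) hr0 hr1.le]
  have hΘm : ∀ z : Disc 3, (‖z.1‖ = 1 ∧ z ∉ {z | φ₁ z = φ₀ N} ∧ z ≠ N) →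
      φ₁ z ∈ (range φ₀ \ O) \ {φ₀ N, φ₁ N} := by
    rintro z ⟨h1, h2, h3⟩
    refine ⟨⟨by rw [hrange]; exact mem_range_self _, h₁.bd z h1⟩, ?_⟩
    rintro (h4 | h4)
    · exact h2 h4
    · exact h3 (hN₁ _ h4)
  obtain ⟨gM, hgM⟩ := exists_hol (f := fun t => Θ (φ₁ (M t))) (hΘ.comp_continuous
    (h₁.cont.comp hM) (fun t => hΘm _ (hMF t))) (fun t => by simp only [hMp])
  have k2 : HasHol (fun t => Θ (φ₁ (l t))) (gM ^ n) := by
    have h1 := hgM.reparam (η := fun t => n * t) (by fun_prop) n (fun t => by ring)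
    have h2 := HasHol.homotopy (F := fun q => Θ (φ₁ (H q))) (a := 1) (b := 0)
      (hΘ.comp_continuous (h₁.cont.comp hH) (fun q => hΘm _ (hHF q)))
      (fun t s => by simp only [hHp]) (h1.congr (fun t => by simp only [hH1]))
    exact h2.congr (fun t => by simp only [hH0])
  have k3 : HasHol (fun t => Θ (φ₁ (upper (circ t)))) (gM ^ d) := by
    have h1 := hgM.reparam (η := fun t => d * t) (by fun_prop) d (fun t => by ring)
    have h2 := HasHol.homotopy (F := fun q => Θ (φ₁ (H₁ q))) (a := 1) (b := 0)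
      (hΘ.comp_continuous (h₁.cont.comp hH₁) (fun q => hΘm _ (hHF₁ q)))
      (fun t s => by simp only [hHp₁]) (h1.congr (fun t => by simp only [hH₁1]))
    exact h2.congr (fun t => by simp only [hH₁0])
  have k4 := isConj_zpow_unit hn (k1.isConj k2)
  have k5 := IsConj.zpow' k4 d
  rw [← zpow_mul] at k5
  exact k3.of_conj k5

end Pool.Agent.Run7.h41.Top
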