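import Pool.Agent.Run7.h41.FTwo

/-!
# Relations between the words of the faces of a three-cell
-/

set_option autoImplicit false

namespace Pool.Agent.Run7.h41.Top

open Set Pool.Agent.Run7.h41.CW

/-- `φ` is a characteristic map of the cell `c` -/
structure FChar (K : FinCW) {n : ℕ} (c : K.cell n) (φ : Disc n → K.X) : Prop where
  cont : Continuous φ
  inj : ∀ x y, ‖x.1‖ < 1 → ‖y.1‖ < 1 → φ x = φ y → x = y
  surj : ∀ p, (∃ x, ‖x.1‖ < 1 ∧ K.χ c x = p) ↔ ∃ x, ‖x.1‖ < 1 ∧ φ x = p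
  bd : ∀ x, ‖x.1‖ = 1 → (rep K (φ x)).1 < n

/-- the open cell -/
def ocell (K : FinCW) {n : ℕ} (c : K.cell n) : Set K.X := {p | ∃ x, ‖x.1‖ < 1 ∧ K.χ c x = p}

theorem rep_ocell {K : FinCW} {n : ℕ} {c : K.cell n} {p : K.X} (h : p ∈ ocell K c) :
    (rep K p).1 = n := by
  obtain ⟨x, hx, rfl⟩ := h
  rw [rep_unique c hx]

theorem ocell_inj {K : FinCW} {n : ℕ} {c c' : K.cell n} {p : K.X} (h : p ∈ ocell K c)
    (h' : p ∈ ocell K c') : c = c' := by
  obtain ⟨x, hx, rfl⟩ := h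
  obtain ⟨y, hy, h2⟩ := h'
  have h1 := congrArg (rep K) h2
  rw [rep_unique c hx, rep_unique c' hy] at h1
  simp only [Sigma.mk.injEq, heq_eq_eq, Prod.mk.injEq, true_and] at h1
  exact h1.1.symm

theorem FChar.self {K : FinCW} {n : ℕ} (c : K.cell n) : FChar K c (K.χ c) where
  cont := K.continuous_χ c
  inj := fun x y hx hy h => by
    have h1 := congrArg (rep K) h
    rw [rep_unique c hx, rep_unique c hy] at h1
    simpa using h1
  surj := fun _ => Iff.rfl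
  bd := fun _ hx => rep_boundary c hx

theorem FChar.mem {K : FinCW} {n : ℕ} {c : K.cell n} {φ : Disc n → K.X} (h : FChar K c φ)
    {x : Disc n} (hx : ‖x.1‖ < 1) : φ x ∈ ocell K c := (h.surj _).2 ⟨x, hx, rfl⟩

theorem FChar.chr {K : FinCW} {n : ℕ} {c : K.cell n} {φ : Disc n → K.X} (h : FChar K c φ) :
    Chr (ocell K c) φ where
  cont := h.cont
  inj := h.inj
  int := fun _ hx => h.mem hx
  surj := fun p hp => (h.surj p).1 hp
  bd := fun x hx h1 => by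
    have h2 := h.bd x hx
    rw [rep_ocell h1] at h2
    exact lt_irrefl _ h2

theorem FChar.range_eq {K : FinCW} {n : ℕ} {c : K.cell n} {φ : Disc n → K.X} (h : FChar K c φ) :
    range φ = range (K.χ c) := h.chr.range_eq (FChar.self c).chr

theorem FChar.rep_le {K : FinCW} {n : ℕ} {c : K.cell n} {φ : Disc n → K.X} (h : FChar K c φ)
    (x : Disc n) : (rep K (φ x)).1 ≤ n := by
  rcases x.norm_le.lt_or_eq with h1 | h1
  · exact (rep_ocell (h.mem h1)).le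
  · exact (h.bd x h1).le

/-- the word of a two-cell for another characteristic map -/
theorem word_char {K : FinCW} {c : K.cell 2} {w : FreeGroup (K.cell 1)} (hw : Word K c w)
    {α : Disc 2 → K.X} (hα : FChar K c α) :
    ∃ ε : ℤ, (ε = 1 ∨ ε = -1) ∧ HasHol (fun t => th K (α (circ t))) (w ^ ε) := by
  rcases chr_loops (FChar.self c).chr hα.chr (th_continuousOn K)
    (fun x hx => Or.inl (hα.bd x hx)) hw with h | h
  · exact ⟨1, Or.inl rfl, by rw [zpow_one]; exact h⟩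
  · exact ⟨-1, Or.inr rfl, by rw [zpow_neg_one]; exact h⟩

/-- `c` is a simple face of the three-cell `e` -/
def Simple (K : FinCW) (e : K.cell 3) (c : K.cell 2) : Prop :=
  ∃ φ : Disc 3 → K.X, FChar K e φ ∧ FChar K c (fun x => φ (upper x)) ∧
    ∀ x y, ‖y.1‖ < 1 → φ (lower x) ≠ K.χ c y

/-- the boundary of the three-cell `e` meets the open two-cell `c` -/
def Meets (K : FinCW) (e : K.cell 3) (c : K.cell 2) : Prop :=
  ∃ (x : Disc 3) (y : Disc 2), ‖x.1‖ = 1 ∧ ‖y.1‖ < 1 ∧ K.χ e x = K.χ c y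

theorem meets_of {K : FinCW} {e : K.cell 3} {c : K.cell 2} {φ : Disc 3 → K.X} (h : FChar K e φ)
    {z : Disc 3} {y : Disc 2} (hz : ‖z.1‖ = 1) (hy : ‖y.1‖ < 1) (hc : φ z = K.χ c y) :
    Meets K e c := by
  have h1 : φ z ∈ range (K.χ e) := by
    rw [← h.range_eq]
    exact mem_range_self _
  obtain ⟨x, hx⟩ := h1
  refine ⟨x, y, ?_, hy, hx.trans hc⟩
  by_contra h2
  apply h.chr.bd z hz
  rw [← hx]
  exact (FChar.self e).mem (lt_of_le_of_ne x.norm_le h2)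

theorem lt_one_of {n : ℕ} {h : Disc n ≃ₜ Disc n} (hh : ∀ x, ‖(h x).1‖ = 1 ↔ ‖x.1‖ = 1)
    {x : Disc n} (hx : ‖x.1‖ < 1) : ‖(h x).1‖ < 1 :=
  lt_of_le_of_ne (h x).norm_le (fun h2 => hx.ne ((hh x).1 h2))

theorem FChar.homeo {K : FinCW} {n : ℕ} {c : K.cell n} {φ : Disc n → K.X} (h : FChar K c φ)
    {η : Disc n ≃ₜ Disc n} (hη : ∀ x, ‖(η x).1‖ = 1 ↔ ‖x.1‖ = 1) :
    FChar K c (fun x => φ (η x)) where
  cont := h.cont.comp η.continuous
  inj := fun x y hx hy hxy => η.injective (h.inj _ _ (lt_one_of hη hx) (lt_one_of hη hy) hxy)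
  surj := fun p => by
    rw [h.surj]
    constructor
    · rintro ⟨x, hx, rfl⟩
      refine ⟨η.symm x, ?_, by rw [η.apply_symm_apply]⟩
      refine lt_of_le_of_ne (η.symm x).norm_le (fun h2 => hx.ne ?_)
      rw [← η.apply_symm_apply x]
      exact (hη _).2 h2
    · rintro ⟨x, hx, rfl⟩
      exact ⟨η x, lt_one_of hη hx, rfl⟩
  bd := fun x hx => h.bd _ ((hη x).2 hx)

theorem open_cell_inj {K : FinCW} {c c' : K.cell 2} {x y : Disc 2} (hx : ‖x.1‖ < 1) (hy : ‖y.1‖ < 1)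
    (h : K.χ c x = K.χ c' y) : c = c' := by
  have h1 := congrArg (rep K) h
  rw [rep_unique c hx, rep_unique c' hy] at h1
  simp only [Sigma.mk.injEq, heq_eq_eq, Prod.mk.injEq, true_and] at h1
  exact h1.1

theorem open_ne_boundary {K : FinCW} {c c' : K.cell 2} {x y : Disc 2} (hx : ‖x.1‖ < 1)
    (hy : ‖y.1‖ = 1) : K.χ c x ≠ K.χ c' y := by
  intro h
  have h1 := rep_boundary c' hy
  rw [← h, rep_unique c hx] at h1
  exact absurd h1 (lt_irrefl _)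

/-- the boundary of a three-cell outside of some open two-cells -/
theorem mem_sk_of {K : FinCW} {e : K.cell 3} {φ : Disc 3 → K.X} (hφ : FChar K e φ) {z : Disc 3}
    (hz : ‖z.1‖ = 1) {S : Set (K.cell 2)}
    (h : ∀ c, Meets K e c → (∃ y : Disc 2, ‖y.1‖ < 1 ∧ φ z = K.χ c y) → c ∈ S) :
    φ z ∈ sk K S := by
  have h0 := hφ.bd z hz
  have h1 := rep_χ K (φ z)
  have h2 := rep_norm K (φ z)
  generalize hr : rep K (φ z) = q at h0 h1 h2
  obtain ⟨m, c, y⟩ := q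
  simp only at h0 h1 h2
  by_cases h3 : m < 2
  · left
    rw [hr]
    exact h3
  · have h4 : m = 2 := by omega
    subst h4
    right
    exact ⟨c, h c (meets_of hφ hz h2 h1.symm) ⟨y, h2, h1.symm⟩, y, h2, h1⟩

variable {K : FinCW} {w : K.cell 2 → FreeGroup (K.cell 1)}

theorem one_face (hw : ∀ c, Word K c (w c)) {e : K.cell 3} {c₀ : K.cell 2}
    (hs : Simple K e c₀) :
    w c₀ ∈ Subgroup.normalClosure (w '' {c | c ≠ c₀ ∧ Meets K e c}) := by
  obtain ⟨φ₀, hφ₀, hα₀, hl⟩ := hs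
  set N := Subgroup.normalClosure (w '' {c | c ≠ c₀ ∧ Meets K e c}) with hN
  let φ : FreeGroup (K.cell 1) →* FreeGroup (K.cell 1) ⧸ N := QuotientGroup.mk' N
  obtain ⟨Θ, hΘ1, hΘ2⟩ := extend_cells φ hw {c | c ≠ c₀ ∧ Meets K e c} (fun c hc =>
    (QuotientGroup.eq_one_iff _).2 (Subgroup.subset_normalClosure ⟨c, hc, rfl⟩))
  have h1 : Continuous fun x : Disc 2 => Θ (φ₀ (lower x)) := by
    apply hΘ2.comp_continuous (hφ₀.cont.comp lower_continuous)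
    intro x
    apply mem_sk_of hφ₀ (lower_norm x)
    rintro c hc ⟨y, hy, hy2⟩
    refine ⟨?_, hc⟩
    rintro rfl
    exact hl x y hy hy2
  obtain ⟨ε, hε, h3⟩ := word_char (hw c₀) hα₀
  have h4 := HasHol.map φ h3
  have h2 : HasHol (fun t => Bmap φ (th K (φ₀ (upper (circ t))))) 1 := by
    refine (hasHol_one h1).congr (fun t => ?_)
    rw [← upper_eq_lower (circ_norm t)]
    exact hΘ1 _ (hα₀.bd _ (circ_norm t))
  rw [← QuotientGroup.eq_one_iff]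
  have h5 := isConj_one_right.1 (h2.isConj h4)
  rw [map_zpow] at h5
  rcases hε with rfl | rfl
  · rwa [zpow_one] at h5
  · rw [zpow_neg_one] at h5
    exact inv_eq_one.1 h5

theorem pow_aux {Q : Type} [Group Q] {x y k : Q} {a m b : ℤ} (ha : a = 1 ∨ a = -1)
    (hm : m = 1 ∨ m = -1) (h : k * (x ^ a) ^ m * k⁻¹ = y ^ b) :
    x = k⁻¹ * y ^ (b * (a * m)) * k := by
  have h1 : (k * (x ^ a) ^ m * k⁻¹) ^ (a * m) = (y ^ b) ^ (a * m) := by rw [h]
  have h2 : ((x ^ a) ^ m) ^ (a * m) = x := by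
    rcases ha with rfl | rfl <;> rcases hm with rfl | rfl <;> simp
  rw [conj_zpow, h2, ← zpow_mul] at h1
  rw [← h1]
  group

/-- the centre of a simple face has a single preimage -/
theorem face_centre {e : K.cell 3} {c₀ : K.cell 2} {φ₀ : Disc 3 → K.X} (hφ₀ : FChar K e φ₀)
    (hα₀ : FChar K c₀ (fun x => φ₀ (upper x)))
    (hl : ∀ x y, ‖y.1‖ < 1 → φ₀ (lower x) ≠ K.χ c₀ y) (z : Disc 3)
    (hz : φ₀ z = φ₀ (upper ctr)) : z = upper ctr := by
  have hctr : ‖ctr.1‖ < 1 := by rw [ctr_norm]; exact zero_lt_one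
  have hmem : φ₀ (upper ctr) ∈ ocell K c₀ := hα₀.mem hctr
  have h1 : ‖z.1‖ = 1 := by
    by_contra h
    have h2 := rep_ocell (hφ₀.mem (lt_of_le_of_ne z.norm_le h))
    rw [hz, rep_ocell hmem] at h2
    exact absurd h2 (by norm_num)
  rcases le_total (z.1 (Fin.last 2)) 0 with h2 | h2
  · exfalso
    obtain ⟨y, hy, hy2⟩ := hmem
    apply hl (proj z) y hy
    rw [← eq_lower h1 h2, hz, hy2]
  · have h3 := eq_upper h1 h2
    have h4 : φ₀ (upper (proj z)) = φ₀ (upper ctr) := by rw [← h3, hz]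
    have h5 : ‖(proj z).1‖ < 1 := by
      refine lt_of_le_of_ne (proj z).norm_le (fun h => ?_)
      have h6 := hα₀.bd _ h
      rw [h4, rep_ocell hmem] at h6
      exact lt_irrefl _ h6
    rw [h3, hα₀.inj _ _ h5 hctr h4]

theorem face_ne {c₀ c₁ : K.cell 2} (hne : c₀ ≠ c₁) {α : Disc 2 → K.X} (hα : FChar K c₀ α)
    (y : Disc 2) {p : K.X} (hp : p ∈ ocell K c₁) : α y ≠ p := by
  rintro rfl
  rcases y.norm_le.lt_or_eq with h | h
  · exact hne (ocell_inj (hα.mem h) hp)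
  · have h1 := hα.bd y h
    rw [rep_ocell hp] at h1
    exact lt_irrefl _ h1

theorem two_faces (hw : ∀ c, Word K c (w c)) {e : K.cell 3} {c₀ c₁ : K.cell 2}
    (hs₀ : Simple K e c₀) (hs₁ : Simple K e c₁) (hne : c₀ ≠ c₁) :
    ∃ (k : FreeGroup (K.cell 1)) (ε : ℤ), (ε = 1 ∨ ε = -1) ∧
      (w c₀)⁻¹ * (k * (w c₁) ^ ε * k⁻¹) ∈
        Subgroup.normalClosure (w '' {c | c ≠ c₀ ∧ c ≠ c₁ ∧ Meets K e c}) := by
  classical
  obtain ⟨φ₀, hφ₀, hα₀, hl₀⟩ := hs₀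
  obtain ⟨φ₁, hφ₁, hα₁, hl₁⟩ := hs₁
  set N := Subgroup.normalClosure (w '' {c | c ≠ c₀ ∧ c ≠ c₁ ∧ Meets K e c}) with hN
  let φ : FreeGroup (K.cell 1) →* FreeGroup (K.cell 1) ⧸ N := QuotientGroup.mk' N
  set S : Set (K.cell 2) := {c | c ≠ c₀ ∧ c ≠ c₁ ∧ Meets K e c} with hS
  obtain ⟨Θ', hΘ1, hΘ2⟩ := extend_cells φ hw S (fun c hc =>
    (QuotientGroup.eq_one_iff _).2 (Subgroup.subset_normalClosure ⟨c, hc, rfl⟩))
  have hctr : ‖ctr.1‖ < 1 := by rw [ctr_norm]; exact zero_lt_one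
  let α₀ : Disc 2 → K.X := fun x => φ₀ (upper x)
  let α₁ : Disc 2 → K.X := fun x => φ₁ (upper x)
  have hm₀ : α₀ ctr ∈ ocell K c₀ := hα₀.mem hctr
  have hm₁ : α₁ ctr ∈ ocell K c₁ := hα₁.mem hctr
  obtain ⟨ε, hε, htwo⟩ := two_chr hφ₀.chr hφ₁.chr (face_centre hφ₀ hα₀ hl₀)
    (face_centre hφ₁ hα₁ hl₁) (fun y => face_ne hne hα₀ y hm₁)
    (fun y => face_ne (Ne.symm hne) hα₁ y hm₀)
  -- the labels on the two faces
  have hlab : ∀ {c : K.cell 2} {α : Disc 2 → K.X}, FChar K c α →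
      ∃ F : Disc 2 → BG (FreeGroup (K.cell 1) ⧸ N), ContinuousOn F {x | x ≠ ctr} ∧
        ∀ x : Disc 2, ‖x.1‖ = 1 → F x = Θ' (α x) := by
    intro c α hα
    have h1 : Continuous fun t => Θ' (α (circ t)) := hΘ2.comp_continuous
      (hα.cont.comp circ_continuous) (fun t => Or.inl (hα.bd _ (circ_norm t)))
    obtain ⟨F, hF, hFf⟩ := radial_ext h1 (fun t => by simp only [circ_add_one])
    refine ⟨F, hF, fun x hx => ?_⟩
    obtain ⟨t, -, -, rfl⟩ := circ_surj hx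
    rw [← pol_one, hFf 1 t zero_lt_one le_rfl, pol_one]
  obtain ⟨F₀, hF₀, hF₀b⟩ := hlab hα₀
  obtain ⟨F₁, hF₁, hF₁b⟩ := hlab hα₁
  have hinv : ∀ {c : K.cell 2} {α : Disc 2 → K.X}, FChar K c α →
      ∃ iv : K.X → Disc 2, ∀ x : Disc 2, ‖x.1‖ < 1 → iv (α x) = x := by
    intro c α hα
    have h1 : ∀ p : K.X, ∃ x : Disc 2, p ∈ ocell K c → ‖x.1‖ < 1 ∧ α x = p := by
      intro p
      by_cases hp : p ∈ ocell K c
      · obtain ⟨x, hx⟩ := (hα.surj p).1 hp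
        exact ⟨x, fun _ => hx⟩
      · exact ⟨ctr, fun h => absurd h hp⟩
    choose iv hiv using h1
    exact ⟨iv, fun x hx => hα.inj _ _ (hiv _ (hα.mem hx)).1 hx (hiv _ (hα.mem hx)).2⟩
  obtain ⟨iv₀, hiv₀⟩ := hinv hα₀
  obtain ⟨iv₁, hiv₁⟩ := hinv hα₁
  let Θ : K.X → BG (FreeGroup (K.cell 1) ⧸ N) := fun p =>
    if p ∈ ocell K c₀ then F₀ (iv₀ p) else if p ∈ ocell K c₁ then F₁ (iv₁ p) else Θ' p
  have hlt : ∀ {c : K.cell 2} {p : K.X}, (rep K p).1 < 2 → p ∉ ocell K c := by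
    intro c p h1 h2
    rw [rep_ocell h2] at h1
    exact lt_irrefl _ h1
  have hΘlow : ∀ p, (rep K p).1 < 2 → Θ p = Θ' p := by
    intro p hp
    simp only [Θ, if_neg (hlt hp)]
  have hΘ₀ : ∀ x, Θ (α₀ x) = F₀ x := by
    intro x
    rcases x.norm_le.lt_or_eq with hx | hx
    · have h1 : α₀ x ∈ ocell K c₀ := hα₀.mem hx
      have h2 : iv₀ (α₀ x) = x := hiv₀ x hx
      simp only [Θ, if_pos h1, h2]
    · rw [hΘlow _ (hα₀.bd x hx), hF₀b x hx]
  have hΘ₁ : ∀ x, Θ (α₁ x) = F₁ x := by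
    intro x
    rcases x.norm_le.lt_or_eq with hx | hx
    · have h1 : α₁ x ∈ ocell K c₁ := hα₁.mem hx
      have h3 : α₁ x ∉ ocell K c₀ := fun h => hne (ocell_inj h h1)
      have h2 : iv₁ (α₁ x) = x := hiv₁ x hx
      simp only [Θ, if_pos h1, if_neg h3, h2]
    · rw [hΘlow _ (hα₁.bd x hx), hF₁b x hx]
  have hΘc : ∀ c ∈ S, ∀ x : Disc 2, Θ (K.χ c x) = Θ' (K.χ c x) := by
    intro c hc x
    rcases x.norm_le.lt_or_eq with hx | hx
    · have h1 : K.χ c x ∈ ocell K c := ⟨x, hx, rfl⟩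
      have h2 : K.χ c x ∉ ocell K c₀ := fun h => hc.1 (ocell_inj h1 h)
      have h3 : K.χ c x ∉ ocell K c₁ := fun h => hc.2.1 (ocell_inj h1 h)
      simp only [Θ, if_neg h2, if_neg h3]
    · exact hΘlow _ (rep_boundary c hx)
  -- continuity
  have := K.finite_cell
  let ι := {q : Σ n, K.cell n // q.1 < 2 ∨ ∃ c ∈ S, q = ⟨2, c⟩} ⊕ Bool
  let dm : ι → ℕ := fun i => match i with
    | Sum.inl q => q.1.1
    | Sum.inr _ => 2
  let ψ : ∀ i : ι, Disc (dm i) → K.X := fun i => match i with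
    | Sum.inl q => K.χ q.1.2
    | Sum.inr false => α₀
    | Sum.inr true => α₁
  have hglue := glue_off (ι := ι) (C := fun i => Disc (dm i)) ψ (by
      rintro (q | (_ | _))
      · exact K.continuous_χ q.1.2
      · exact hα₀.cont
      · exact hα₁.cont) Θ {α₀ ctr, α₁ ctr} (by
      rintro (⟨⟨m, c⟩, hq⟩ | (_ | _))
      · have h1 : ∀ x : Disc m, Θ (K.χ c x) = Θ' (K.χ c x) ∧ K.χ c x ∈ sk K S := by
          intro x
          rcases hq with h | ⟨c', hc', h⟩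
          · have h2 := lt_of_le_of_lt (Top.rep_le c x) h
            exact ⟨hΘlow _ h2, Or.inl h2⟩
          · cases h
            refine ⟨hΘc c' hc' x, ?_⟩
            rcases x.norm_le.lt_or_eq with hx | hx
            · exact Or.inr ⟨c', hc', x, hx, rfl⟩
            · exact Or.inl (rep_boundary c' hx)
        have h2 : Continuous fun x : Disc m => Θ' (K.χ c x) :=
          hΘ2.comp_continuous (K.continuous_χ c) (fun x => (h1 x).2)
        have h3 : Continuous fun x : Disc m => Θ (K.χ c x) := by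
          simp only [(h1 _).1]
          exact h2
        exact h3.continuousOn
      · show ContinuousOn (fun x => Θ (α₀ x)) {x | α₀ x ∉ ({α₀ ctr, α₁ ctr} : Set K.X)}
        simp only [hΘ₀]
        apply hF₀.mono
        rintro x hx rfl
        exact hx (Or.inl rfl)
      · show ContinuousOn (fun x => Θ (α₁ x)) {x | α₁ x ∉ ({α₀ ctr, α₁ ctr} : Set K.X)}
        simp only [hΘ₁]
        apply hF₁.mono
        rintro x hx rfl
        exact hx (Or.inr rfl))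
  have hΘcont : ContinuousOn Θ ((range φ₀ \ ocell K e) \ {φ₀ (upper ctr), φ₁ (upper ctr)}) := by
    apply hglue.mono
    rintro _ ⟨⟨⟨z, rfl⟩, h2⟩, h3⟩
    refine ⟨?_, h3⟩
    have hz : ‖z.1‖ = 1 := by
      by_contra h
      exact h2 (hφ₀.mem (lt_of_le_of_ne z.norm_le h))
    have h0 := hφ₀.bd z hz
    have h4 := rep_χ K (φ₀ z)
    have h5 := rep_norm K (φ₀ z)
    generalize rep K (φ₀ z) = q at h0 h4 h5
    obtain ⟨m, c, y⟩ := q
    simp only at h0 h4 h5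
    by_cases h6 : m < 2
    · exact mem_iUnion.2 ⟨Sum.inl ⟨⟨m, c⟩, Or.inl h6⟩, y, h4⟩
    · have h7 : m = 2 := by omega
      subst h7
      by_cases hc0 : c = c₀
      · subst hc0
        obtain ⟨x, -, hx⟩ := (hα₀.surj (φ₀ z)).1 ⟨y, h5, h4⟩
        exact mem_iUnion.2 ⟨Sum.inr false, x, hx⟩
      · by_cases hc1 : c = c₁
        · subst hc1
          obtain ⟨x, -, hx⟩ := (hα₁.surj (φ₀ z)).1 ⟨y, h5, h4⟩
          exact mem_iUnion.2 ⟨Sum.inr true, x, hx⟩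
        · exact mem_iUnion.2 ⟨Sum.inl ⟨⟨2, c⟩, Or.inr ⟨c, ⟨hc0, hc1,
            meets_of hφ₀ hz h5 h4.symm⟩, rfl⟩⟩, y, h4⟩
  -- the words
  obtain ⟨ε₀, hε₀, hw₀⟩ := word_char (hw c₀) hα₀
  obtain ⟨ε₁, hε₁, hw₁⟩ := word_char (hw c₁) hα₁
  have hv₀ : HasHol (fun t => Θ (φ₀ (upper (circ t)))) (φ (w c₀) ^ ε₀) := by
    have h1 := HasHol.map φ hw₀
    rw [map_zpow] at h1
    refine h1.congr (fun t => ?_)
    rw [hΘlow _ (hα₀.bd _ (circ_norm t)), hΘ1 _ (hα₀.bd _ (circ_norm t))]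
  have hv₁ : HasHol (fun t => Θ (φ₁ (upper (circ t)))) (φ (w c₁) ^ ε₁) := by
    have h1 := HasHol.map φ hw₁
    rw [map_zpow] at h1
    refine h1.congr (fun t => ?_)
    rw [hΘlow _ (hα₁.bd _ (circ_norm t)), hΘ1 _ (hα₁.bd _ (circ_norm t))]
  have h5 := htwo _ Θ hΘcont _ hv₀
  have h6 := h5.isConj hv₁
  obtain ⟨k, hk⟩ := isConj_iff.1 h6
  obtain ⟨k', hk'⟩ := QuotientGroup.mk'_surjective N k
  have h7 : φ (w c₀) = k⁻¹ * (φ (w c₁)) ^ (ε₁ * (ε₀ * ε)) * k := pow_aux hε₀ hε hk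
  refine ⟨k'⁻¹, ε₁ * (ε₀ * ε), ?_, ?_⟩
  · rcases hε₀ with rfl | rfl <;> rcases hε₁ with rfl | rfl <;> rcases hε with rfl | rfl <;> simp
  · rw [← QuotientGroup.eq_one_iff]
    have h9 : φ ((w c₀)⁻¹ * (k'⁻¹ * (w c₁) ^ (ε₁ * (ε₀ * ε)) * k'⁻¹⁻¹)) =
        (φ (w c₀))⁻¹ * (k⁻¹ * φ (w c₁) ^ (ε₁ * (ε₀ * ε)) * k) := by
      rw [← hk', inv_inv, map_mul, map_mul, map_mul, map_inv, map_inv, map_zpow]
    refine Eq.trans h9 ?_
    rw [← h7, inv_mul_cancel]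

end Pool.Agent.Run7.h41.Top
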