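import Pool.Agent.Run7.h41.Faces
import Pool.Agent.Run7.h41.Edge
import Pool.Agent.Run7.h41.AlgExt

/-!
# The invariant of a CW complex relative to a labelled subcomplex
-/

set_option autoImplicit false

namespace Pool.Agent.Run7.h41.Inv

open Set Pool.Agent.Run7.h41 Pool.Agent.Run7.h41.CW Pool.Agent.Run7.h41.Top
open Pool.Agent.Run7.h41.Alg (Cen cen_one Bd)

/-- A labelling of the one-cells of `L` by functions on the ball (times the group). -/
structure Lab (L : FinCW) where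
  /-- the labels -/
  lam : L.cell 1 → Dn × Gam → Gam
  cont : ∀ a, Continuous (lam a)
  rel : ∀ (c : L.cell 2) (w : FreeGroup (L.cell 1)), Word L c w → ∀ (y : Dn), Bd y → ∀ g : Gam,
    FreeGroup.lift (fun a => lam a (y, g)) w = 1

/-- the parameter space -/
abbrev Par (E J : Type) : Type := Dn × Gam × (E → Gam) × (J → Gam)

variable {L : FinCW}

/-- the values of the one-cells -/
noncomputable def val {K : FinCW} (j : Emb L K) (Λ : Lab L) (d : Dn × Gam) (x : K.cell 1 → Gam) :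
    K.cell 1 → Gam :=
  Function.extend j.c (fun a => Λ.lam a d) x

/-- the evaluation of words -/
noncomputable def EV {K : FinCW} (j : Emb L K) (Λ : Lab L) (d : Dn × Gam) (x : K.cell 1 → Gam) :
    FreeGroup (K.cell 1) →* Gam :=
  FreeGroup.lift (val j Λ d x)

theorem Emb_c_comp {K K' : FinCW} {j : Emb L K} {j' : Emb L K'} {i : Emb K K'}
    (hj : ∀ x, j'.f x = i.f (j.f x)) {n : ℕ} (a : L.cell n) : j'.c a = i.c (j.c a) := by
  let o : Disc n := ⟨0, by simp⟩
  have ho : ‖o.1‖ < 1 := by simp [o]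
  have h1 := hj (L.χ a o)
  rw [j'.comm, j.comm, i.comm] at h1
  have h3 := congrArg (rep K') h1
  rw [rep_unique _ ho, rep_unique _ ho] at h3
  simpa using h3

theorem val_comp {K K' : FinCW} {j : Emb L K} {j' : Emb L K'} {i : Emb K K'}
    (hj : ∀ x, j'.f x = i.f (j.f x)) (Λ : Lab L) (d : Dn × Gam) (x : K'.cell 1 → Gam)
    (a : K.cell 1) : val j' Λ d x (i.c a) = val j Λ d (fun a => x (i.c a)) a := by
  unfold val
  by_cases h : ∃ a₀, j.c a₀ = a
  · obtain ⟨a₀, rfl⟩ := h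
    rw [← Emb_c_comp hj, (Top.Emb.c_injective j').extend_apply,
      (Top.Emb.c_injective j).extend_apply]
  · rw [Function.extend_apply' _ _ _ h, Function.extend_apply']
    rintro ⟨a₀, h₀⟩
    exact h ⟨a₀, Top.Emb.c_injective i (by rw [← Emb_c_comp hj, h₀])⟩

theorem EV_map {K K' : FinCW} {j : Emb L K} {j' : Emb L K'} {i : Emb K K'}
    (hj : ∀ x, j'.f x = i.f (j.f x)) (Λ : Lab L) (d : Dn × Gam) (x : K'.cell 1 → Gam)
    (u : FreeGroup (K.cell 1)) :
    EV j' Λ d x (FreeGroup.map i.c u) = EV j Λ d (fun a => x (i.c a)) u := by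
  have h1 : (EV j' Λ d x).comp (FreeGroup.map i.c) = EV j Λ d (fun a => x (i.c a)) := by
    apply FreeGroup.ext_hom
    intro a
    simp only [MonoidHom.comp_apply, FreeGroup.map.of, EV, FreeGroup.lift_apply_of]
    exact val_comp hj Λ d x a
  exact DFunLike.congr_fun h1 u

theorem EV_continuous {K : FinCW} (j : Emb L K) (Λ : Lab L) (u : FreeGroup (K.cell 1))
    {A : Type} [TopologicalSpace A] {d : A → Dn × Gam} {x : A → K.cell 1 → Gam}
    (hd : Continuous d) (hx : Continuous x) : Continuous fun a => EV j Λ (d a) (x a) u := by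
  induction u using FreeGroup.induction_on with
  | C1 => simp only [map_one]; exact continuous_const
  | of a =>
    simp only [EV, FreeGroup.lift_apply_of, val]
    by_cases h : ∃ a₀, j.c a₀ = a
    · obtain ⟨a₀, rfl⟩ := h
      simp only [(Top.Emb.c_injective j).extend_apply]
      exact (Λ.cont a₀).comp hd
    · have h1 : ∀ b : A, Function.extend j.c (fun a => Λ.lam a (d b)) (x b) a = x b a :=
        fun b => Function.extend_apply' _ _ _ h
      simp only [h1]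
      exact (continuous_apply a).comp hx
  | inv_of a ih => simp only [map_inv]; exact ih.inv
  | mul a b iha ihb => simp only [map_mul]; exact iha.mul ihb

/-- the extension property -/
def SX (K : FinCW) (j : Emb L K) (Λ : Lab L) (w : K.cell 2 → FreeGroup (K.cell 1))
    (D : K.cell 3 → K.cell 2) : Prop :=
  ∃ (J : Type) (_ : Finite J) (W : K.cell 2 → Par (K.cell 1) J → Gam)
    (V : J → Par (K.cell 1) J → Gam),
    (∀ c, Continuous (W c)) ∧ (∀ k, Continuous (V k)) ∧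
    (∀ c y, Bd y → ∀ g x z, W c (y, g, x, z) = EV j Λ (y, g) x (w c)) ∧
    (∀ k y, Bd y → ∀ g x z, V k (y, g, x, z) = z k) ∧
    (∀ (c₀ : L.cell 2) p, Cen (W (j.c c₀) p)) ∧
    (∀ e p, (∀ c, c ≠ D e → Meets K e c → Cen (W c p)) → Cen (W (D e) p)) ∧
    ∀ p, ¬ ((∀ c, Cen (W c p)) ∧ ∀ k, Cen (V k p))

/-- the extension property for all choices -/
def SExt (K : FinCW) (j : Emb L K) (Λ : Lab L) : Prop :=
  ∀ w : K.cell 2 → FreeGroup (K.cell 1), (∀ c, Word K c (w c)) →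
    ∀ D : K.cell 3 → K.cell 2, (∀ e, Simple K e (D e)) → SX K j Λ w D

theorem SX.conj {K : FinCW} {j : Emb L K} {Λ : Lab L} {w w' : K.cell 2 → FreeGroup (K.cell 1)}
    {D : K.cell 3 → K.cell 2} (h : SX K j Λ w D) (hw : ∀ c, IsConj (w c) (w' c)) :
    SX K j Λ w' D := by
  obtain ⟨J, hJ, W, V, hW, hV, hWb, hVb, hWL, hWe, hn⟩ := h
  choose k hk using fun c => isConj_iff.1 (hw c)
  have hcen : ∀ c (p : Par (K.cell 1) J), Cen (EV j Λ (p.1, p.2.1) p.2.2.1 (k c) * W c p *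
      (EV j Λ (p.1, p.2.1) p.2.2.1 (k c))⁻¹) ↔ Cen (W c p) := fun c p => Alg.cen_conj_iff
  refine ⟨J, hJ, fun c p => EV j Λ (p.1, p.2.1) p.2.2.1 (k c) * W c p *
    (EV j Λ (p.1, p.2.1) p.2.2.1 (k c))⁻¹, V, ?_, hV, ?_, hVb, ?_, ?_, ?_⟩
  · intro c
    have h1 : Continuous fun p : Par (K.cell 1) J => EV j Λ (p.1, p.2.1) p.2.2.1 (k c) :=
      EV_continuous j Λ (k c) (by fun_prop) (by fun_prop)
    exact (h1.mul (hW c)).mul h1.inv
  · intro c y hy g x z
    simp only [hWb c y hy g x z]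
    rw [← hk, map_mul, map_mul, map_inv]
  · intro c₀ p
    rw [hcen]
    exact hWL c₀ p
  · intro e p hp
    rw [hcen]
    exact hWe e p (fun c h1 h2 => (hcen c p).1 (hp c h1 h2))
  · rintro p ⟨h1, h2⟩
    exact hn p ⟨fun c => (hcen c p).1 (h1 c), h2⟩

/-! ### subcomplexes -/

theorem meets_map {K K' : FinCW} (i : Emb K K') {e : K.cell 3} {c : K.cell 2} :
    Meets K' (i.c e) (i.c c) ↔ Meets K e c := by
  constructor
  · rintro ⟨x, y, hx, hy, h⟩
    refine ⟨x, y, hx, hy, i.injective ?_⟩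
    rw [i.comm, i.comm, h]
  · rintro ⟨x, y, hx, hy, h⟩
    refine ⟨x, y, hx, hy, ?_⟩
    rw [← i.comm, ← i.comm, h]

theorem meets_range {K K' : FinCW} (i : Emb K K') {e : K.cell 3} {c : K'.cell 2}
    (h : Meets K' (i.c e) c) : ∃ c₀, c = i.c c₀ := by
  obtain ⟨x, y, -, hy, h⟩ := h
  rw [← i.comm] at h
  have h1 := congrArg (rep K') h
  rw [Top.Emb.rep_f, rep_unique c hy] at h1
  generalize rep K (K.χ e x) = q at h1
  obtain ⟨n, c', x'⟩ := q
  simp only [Sigma.mk.injEq] at h1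
  obtain ⟨rfl, h2⟩ := h1
  simp only [heq_eq_eq, Prod.mk.injEq] at h2
  exact ⟨c', h2.1.symm⟩

theorem simple_meets {K : FinCW} {e : K.cell 3} {c : K.cell 2} (h : Simple K e c) :
    Meets K e c := by
  obtain ⟨φ, hφ, hα, -⟩ := h
  obtain ⟨y, hy, hy2⟩ := hα.mem (x := ctr) (by rw [ctr_norm]; exact zero_lt_one)
  exact meets_of hφ (upper_norm ctr) hy hy2.symm

/-- characteristic maps in a subcomplex -/
theorem fchar_emb {K K' : FinCW} (i : Emb K K') {n : ℕ} {c : K.cell n} {φ : Disc n → K.X}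
    (hφ : Continuous φ) : FChar K' (i.c c) (fun x => i.f (φ x)) ↔ FChar K c φ := by
  constructor
  · intro h
    refine ⟨hφ, fun x y hx hy hxy => h.inj x y hx hy (congrArg i.f hxy), fun p => ?_,
      fun x hx => ?_⟩
    · have h1 := h.surj (i.f p)
      constructor
      · rintro ⟨x, hx, h2⟩
        obtain ⟨y, hy, h3⟩ := h1.1 ⟨x, hx, by rw [← i.comm, h2]⟩
        exact ⟨y, hy, i.injective h3⟩
      · rintro ⟨x, hx, h2⟩
        obtain ⟨y, hy, h3⟩ := h1.2 ⟨x, hx, congrArg i.f h2⟩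
        exact ⟨y, hy, i.injective (by rw [i.comm, h3])⟩
    · have h1 := h.bd x hx
      rwa [Top.Emb.rep_dim] at h1
  · intro h
    refine ⟨i.f.continuous.comp hφ, fun x y hx hy hxy => h.inj x y hx hy (i.injective hxy),
      fun p => ?_, fun x hx => ?_⟩
    · constructor
      · rintro ⟨x, hx, rfl⟩
        obtain ⟨y, hy, h3⟩ := (h.surj (K.χ c x)).1 ⟨x, hx, rfl⟩
        exact ⟨y, hy, by rw [← i.comm, h3]⟩
      · rintro ⟨x, hx, rfl⟩
        obtain ⟨y, hy, h3⟩ := (h.surj (φ x)).2 ⟨x, hx, rfl⟩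
        exact ⟨y, hy, by rw [← i.comm, h3]⟩
    · rw [Top.Emb.rep_dim]
      exact h.bd x hx

theorem simple_map {K K' : FinCW} (i : Emb K K') {e : K.cell 3} {c : K.cell 2} :
    Simple K' (i.c e) (i.c c) ↔ Simple K e c := by
  constructor
  · rintro ⟨φ, hφ, hα, hl⟩
    have h1 : ∀ x, φ x ∈ range i.f := by
      intro x
      have h2 : φ x ∈ range (K'.χ (i.c e)) := by
        rw [← hφ.range_eq]
        exact mem_range_self _
      obtain ⟨y, hy⟩ := h2
      exact ⟨K.χ e y, by rw [i.comm, hy]⟩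
    obtain ⟨g, hg, hgf⟩ := Emb.factor i hφ.cont h1
    have hφg : φ = fun x => i.f (g x) := funext (fun x => (hgf x).symm)
    subst hφg
    refine ⟨g, (fchar_emb i hg).1 hφ, (fchar_emb i (hg.comp upper_continuous)).1 hα,
      fun x y hy hxy => hl x y hy ?_⟩
    rw [← i.comm, ← hxy]
  · rintro ⟨φ, hφ, hα, hl⟩
    refine ⟨fun x => i.f (φ x), (fchar_emb i hφ.cont).2 hφ, (fchar_emb i hα.cont).2 hα,
      fun x y hy hxy => hl x y hy (i.injective ?_)⟩
    rw [i.comm, ← hxy]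

/-- restriction of the choice of faces to a subcomplex -/
theorem restrict_faces {K K' : FinCW} (i : Emb K K') {D' : K'.cell 3 → K'.cell 2}
    (hD' : ∀ e, Simple K' e (D' e)) :
    ∃ D : K.cell 3 → K.cell 2, (∀ e, Simple K e (D e)) ∧ ∀ e, D' (i.c e) = i.c (D e) := by
  have h1 : ∀ e : K.cell 3, ∃ c : K.cell 2, D' (i.c e) = i.c c := fun e =>
    meets_range i (simple_meets (hD' (i.c e)))
  choose D hD using h1
  exact ⟨D, fun e => (simple_map i).1 (hD e ▸ hD' (i.c e)), hD⟩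

/-- the general step to a subcomplex -/
theorem down {K K' : FinCW} {j : Emb L K} {j' : Emb L K'} {i : Emb K K'}
    (hj : ∀ x, j'.f x = i.f (j.f x)) {Λ : Lab L} {w : K.cell 2 → FreeGroup (K.cell 1)}
    {D : K.cell 3 → K.cell 2} {w' : K'.cell 2 → FreeGroup (K'.cell 1)}
    {D' : K'.cell 3 → K'.cell 2} (hw : ∀ c, w' (i.c c) = FreeGroup.map i.c (w c))
    (hD : ∀ e, D' (i.c e) = i.c (D e)) {J' : Type} {W : K'.cell 2 → Par (K'.cell 1) J' → Gam}
    (hW : ∀ c, Continuous (W c))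
    (hWb : ∀ c y, Bd y → ∀ g x z, W c (y, g, x, z) = EV j' Λ (y, g) x (w' c))
    (hWL : ∀ (c₀ : L.cell 2) p, Cen (W (j'.c c₀) p))
    (hWe : ∀ e p, (∀ c, c ≠ D' e → Meets K' e c → Cen (W c p)) → Cen (W (D' e) p))
    (J : Type) [hJ : Finite J] (σx : Par (K.cell 1) J → K'.cell 1 → Gam)
    (σz : Par (K.cell 1) J → J' → Gam) (hσx : Continuous σx) (hσz : Continuous σz)
    (hσ : ∀ p a, σx p (i.c a) = p.2.2.1 a) (V : J → Par (K.cell 1) J → Gam)
    (hV : ∀ k, Continuous (V k)) (hVb : ∀ k y, Bd y → ∀ g x z, V k (y, g, x, z) = z k)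
    (hn : ∀ p : Par (K.cell 1) J, ¬ ((∀ c, Cen (W (i.c c) (p.1, p.2.1, σx p, σz p))) ∧
      ∀ k, Cen (V k p))) : SX K j Λ w D := by
  refine ⟨J, hJ, fun c p => W (i.c c) (p.1, p.2.1, σx p, σz p), V, ?_, hV, ?_, hVb, ?_, ?_, hn⟩
  · intro c
    exact (hW _).comp (by fun_prop)
  · intro c y hy g x z
    simp only [hWb (i.c c) y hy]
    rw [hw, EV_map hj]
    congr 2
    funext a
    exact hσ _ a
  · intro c₀ p
    show Cen (W (i.c (j.c c₀)) _)
    rw [← Emb_c_comp hj]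
    exact hWL c₀ _
  · intro e p hp
    show Cen (W (i.c (D e)) _)
    rw [← hD]
    apply hWe
    intro c hc hm
    obtain ⟨c₀, rfl⟩ := meets_range i hm
    apply hp c₀ _ ((meets_map i).1 hm)
    rintro rfl
    exact hc (hD e).symm

/-- the extension of a choice of words -/
theorem word_extend {K K' : FinCW} (i : Emb K K') {w : K.cell 2 → FreeGroup (K.cell 1)}
    (hw : ∀ c, Word K c (w c)) {w' : K'.cell 2 → FreeGroup (K'.cell 1)}
    (hw' : ∀ c, (∀ c₀, i.c c₀ ≠ c) → Word K' c (w' c)) (c : K'.cell 2) :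
    Word K' c (Function.extend i.c (fun c => FreeGroup.map i.c (w c)) w' c) := by
  by_cases h : ∃ c₀, i.c c₀ = c
  · obtain ⟨c₀, rfl⟩ := h
    rw [(Top.Emb.c_injective i).extend_apply]
    exact Word.map i (hw c₀)
  · rw [Function.extend_apply' _ _ _ h]
    exact hw' c (fun c₀ h₀ => h ⟨c₀, h₀⟩)

theorem faces_extend {K K' : FinCW} (i : Emb K K') {D : K.cell 3 → K.cell 2}
    (hD : ∀ e, Simple K e (D e)) {D' : K'.cell 3 → K'.cell 2}
    (hD' : ∀ e, (∀ e₀, i.c e₀ ≠ e) → Simple K' e (D' e)) (e : K'.cell 3) :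
    Simple K' e (Function.extend i.c (fun e => i.c (D e)) D' e) := by
  by_cases h : ∃ e₀, i.c e₀ = e
  · obtain ⟨e₀, rfl⟩ := h
    rw [(Top.Emb.c_injective i).extend_apply]
    exact (simple_map i).2 (hD e₀)
  · rw [Function.extend_apply' _ _ _ h]
    exact hD' e (fun e₀ h₀ => h ⟨e₀, h₀⟩)

theorem extend_continuous {K K' : FinCW} (i : Emb K K') {A : Type} [TopologicalSpace A]
    {x : A → K.cell 1 → Gam} (hx : Continuous x) {y : A → K'.cell 1 → Gam} (hy : Continuous y) :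
    Continuous fun a => (Function.extend i.c (x a) (y a) : K'.cell 1 → Gam) := by
  apply continuous_pi
  intro b
  by_cases h : ∃ b₀, i.c b₀ = b
  · obtain ⟨b₀, rfl⟩ := h
    simp only [(Top.Emb.c_injective i).extend_apply]
    exact (continuous_apply b₀).comp hx
  · have h1 : ∀ a : A, Function.extend i.c (x a) (y a) b = y a b := fun a =>
      Function.extend_apply' _ _ _ h
    simp only [h1]
    exact (continuous_apply b).comp hy

/-- the general step to a larger complex -/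
theorem up {K K' : FinCW} {j : Emb L K} {j' : Emb L K'} {i : Emb K K'}
    (hj : ∀ x, j'.f x = i.f (j.f x)) {Λ : Lab L} {w : K.cell 2 → FreeGroup (K.cell 1)}
    {D : K.cell 3 → K.cell 2} {w' : K'.cell 2 → FreeGroup (K'.cell 1)}
    {D' : K'.cell 3 → K'.cell 2} (hw : ∀ c, w' (i.c c) = FreeGroup.map i.c (w c))
    (hD : ∀ e, D' (i.c e) = i.c (D e)) {J : Type} [hJ : Finite J]
    {W : K.cell 2 → Par (K.cell 1) J → Gam}
    {V : J → Par (K.cell 1) J → Gam}
    (hW : ∀ c, Continuous (W c)) (hV : ∀ k, Continuous (V k))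
    (hWb : ∀ c y, Bd y → ∀ g x z, W c (y, g, x, z) = EV j Λ (y, g) x (w c))
    (hVb : ∀ k y, Bd y → ∀ g x z, V k (y, g, x, z) = z k)
    (hWL : ∀ (c₀ : L.cell 2) p, Cen (W (j.c c₀) p))
    (hWe : ∀ e p, (∀ c, c ≠ D e → Meets K e c → Cen (W c p)) → Cen (W (D e) p))
    (hn : ∀ p, ¬ ((∀ c, Cen (W c p)) ∧ ∀ k, Cen (V k p)))
    (U : K'.cell 2 → Par (K'.cell 1) J → Gam)
    (hUW : ∀ c p, U (i.c c) p = W c (p.1, p.2.1, fun a => p.2.2.1 (i.c a), p.2.2.2))
    (hU : ∀ c, (∀ c₀, i.c c₀ ≠ c) → Continuous (U c))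
    (hUb : ∀ c, (∀ c₀, i.c c₀ ≠ c) → ∀ y, Bd y → ∀ g x z,
      U c (y, g, x, z) = EV j' Λ (y, g) x (w' c))
    (hUe : ∀ e, (∀ e₀, i.c e₀ ≠ e) → ∀ p, (∀ c, c ≠ D' e → Meets K' e c → Cen (U c p)) →
      Cen (U (D' e) p)) : SX K' j' Λ w' D' := by
  refine ⟨J, hJ, U, fun k p => V k (p.1, p.2.1, fun a => p.2.2.1 (i.c a), p.2.2.2), ?_, ?_, ?_, ?_,
    ?_, ?_, ?_⟩
  · intro c
    by_cases h : ∃ c₀, i.c c₀ = c
    · obtain ⟨c₀, rfl⟩ := h
      have : U (i.c c₀) = fun p => W c₀ (p.1, p.2.1, fun a => p.2.2.1 (i.c a), p.2.2.2) :=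
        funext (hUW c₀)
      rw [this]
      exact (hW c₀).comp (by fun_prop)
    · exact hU c (fun c₀ h₀ => h ⟨c₀, h₀⟩)
  · intro k
    exact (hV k).comp (by fun_prop)
  · intro c y hy g x z
    by_cases h : ∃ c₀, i.c c₀ = c
    · obtain ⟨c₀, rfl⟩ := h
      rw [hUW, hw, EV_map hj]
      exact hWb c₀ y hy _ _ _
    · exact hUb c (fun c₀ h₀ => h ⟨c₀, h₀⟩) y hy g x z
  · intro k y hy g x z
    exact hVb k y hy _ _ _
  · intro c₀ p
    rw [Emb_c_comp hj, hUW]
    exact hWL c₀ _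
  · intro e p hp
    by_cases h : ∃ e₀, i.c e₀ = e
    · obtain ⟨e₀, rfl⟩ := h
      rw [hD, hUW]
      apply hWe
      intro c hc hm
      rw [← hUW]
      apply hp _ _ ((meets_map i).2 hm)
      rw [hD]
      exact fun h₀ => hc (Top.Emb.c_injective i h₀)
    · exact hUe e (fun e₀ h₀ => h ⟨e₀, h₀⟩) p hp
  · rintro p ⟨h1, h2⟩
    exact hn _ ⟨fun c => by rw [← hUW]; exact h1 _, h2⟩

end Pool.Agent.Run7.h41.Inv
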