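import Pool.Agent.Run7.h41.Deg

/-!
# Self maps of powers of the group of unit quaternions

A continuous self map of `Γ ^ ι` which is the identity near `1`, takes the value `1` only near `1`, is
onto the point `(-1, 1, …, 1)`.
-/

set_option autoImplicit false
set_option linter.unusedSectionVars false

open Set Metric Filter Topology Quaternion

namespace Pool.Agent.Run7.h41

/-- the group of unit quaternions -/
abbrev Gam : Type := Metric.sphere (0 : ℍ[ℝ]) 1

open Classical in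
/-- the unit vector in the direction of `z` -/
noncomputable def un (z : ℍ[ℝ]) : Gam :=
  if h : z = 0 then 1 else ⟨‖z‖⁻¹ • z, by
    rw [mem_sphere_zero_iff_norm, norm_smul, norm_inv, norm_norm,
      inv_mul_cancel₀ (norm_ne_zero_iff.2 h)]⟩

theorem norm_gam (g : Gam) : ‖(g : ℍ[ℝ])‖ = 1 := mem_sphere_zero_iff_norm.1 g.2

theorem un_coe {z : ℍ[ℝ]} (h : z ≠ 0) : ((un z : Gam) : ℍ[ℝ]) = ‖z‖⁻¹ • z := by
  simp [un, h]

theorem norm_smul_un {z : ℍ[ℝ]} (h : z ≠ 0) : ‖z‖ • ((un z : Gam) : ℍ[ℝ]) = z := by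
  rw [un_coe h, smul_smul, mul_inv_cancel₀ (norm_ne_zero_iff.2 h), one_smul]

theorem un_gam (g : Gam) : un (g : ℍ[ℝ]) = g := by
  have h : (g : ℍ[ℝ]) ≠ 0 := norm_ne_zero_iff.1 (by rw [norm_gam]; exact one_ne_zero)
  apply Subtype.ext
  rw [un_coe h, norm_gam, inv_one, one_smul]

theorem continuousAt_un {z : ℍ[ℝ]} (h : z ≠ 0) : ContinuousAt un z := by
  rw [Topology.IsInducing.subtypeVal.continuousAt_iff]
  have h1 : ContinuousAt (fun z : ℍ[ℝ] => ‖z‖⁻¹ • z) z := by
    exact ContinuousAt.smul (f := fun z : ℍ[ℝ] => ‖z‖⁻¹) (g := fun z : ℍ[ℝ] => z)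
      (continuousAt_id.norm.inv₀ (norm_ne_zero_iff.2 h)) continuousAt_id
  apply h1.congr
  filter_upwards [isOpen_ne.mem_nhds h] with w hw
  exact (un_coe hw).symm

/-- the cut-off in one variable -/
noncomputable def cut (r : ℝ) : ℝ := max 0 (min 1 (min (4 * r - 1) (4 - r)))

theorem continuous_cut : Continuous cut := by
  unfold cut
  fun_prop

theorem cut_one {r : ℝ} (h1 : 1 / 2 ≤ r) (h2 : r ≤ 2) : cut r = 1 := by
  unfold cut
  rw [min_eq_left (le_min (by linarith) (by linarith)), max_eq_right zero_le_one]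

theorem cut_zero {r : ℝ} (h : r ≤ 1 / 4 ∨ 4 ≤ r) : cut r = 0 := by
  unfold cut
  rw [max_eq_left]
  rcases h with h | h
  · exact (min_le_right _ _).trans ((min_le_left _ _).trans (by linarith))
  · exact (min_le_right _ _).trans ((min_le_right _ _).trans (by linarith))

variable {ι : Type} [Fintype ι] [DecidableEq ι]

/-- the cut-off -/
noncomputable def chi (z : ι → ℍ[ℝ]) : ℝ := ∏ j, cut ‖z j‖

theorem continuous_chi : Continuous (chi (ι := ι)) := by
  unfold chi
  apply continuous_finsetProd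
  intro j _
  exact continuous_cut.comp (continuous_apply j).norm

theorem chi_one {z : ι → ℍ[ℝ]} (h : ∀ j, 1 / 2 ≤ ‖z j‖ ∧ ‖z j‖ ≤ 2) : chi z = 1 := by
  unfold chi
  exact Finset.prod_eq_one fun j _ => cut_one (h j).1 (h j).2

theorem chi_zero {z : ι → ℍ[ℝ]} {j : ι} (h : ‖z j‖ ≤ 1 / 4 ∨ 4 ≤ ‖z j‖) : chi z = 0 := by
  unfold chi
  exact Finset.prod_eq_zero (Finset.mem_univ j) (cut_zero h)

/-- the homogeneous extension of `G`, multiplied by `q` in the coordinate `i0` -/
noncomputable def hat (G : (ι → Gam) → (ι → Gam)) (i0 : ι) (q : ℍ[ℝ]) (z : ι → ℍ[ℝ]) : ι → ℍ[ℝ] :=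
  fun j => (if j = i0 then q else 1) * (‖z j‖ • ((G (fun i => un (z i)) j : Gam) : ℍ[ℝ]))

/-- the extension to the whole space -/
noncomputable def ext (G : (ι → Gam) → (ι → Gam)) (i0 : ι) (q : ℍ[ℝ]) (z : ι → ℍ[ℝ]) : ι → ℍ[ℝ] :=
  z + chi z • (hat G i0 q z - z)

theorem continuous_ext {G : (ι → Gam) → (ι → Gam)} (hG : Continuous G) (i0 : ι) (q : ℍ[ℝ]) :
    Continuous (ext G i0 q) := by
  rw [continuous_iff_continuousAt]
  intro z
  by_cases h : ∃ j, ‖z j‖ < 1 / 4
  · obtain ⟨j, hj⟩ := h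
    have h1 : ContinuousAt (id : (ι → ℍ[ℝ]) → (ι → ℍ[ℝ])) z := continuousAt_id
    apply h1.congr
    have h2 : {w : ι → ℍ[ℝ] | ‖w j‖ < 1 / 4} ∈ 𝓝 z :=
      (isOpen_lt (continuous_apply j).norm continuous_const).mem_nhds hj
    filter_upwards [h2] with w hw
    rw [ext, chi_zero (j := j) (Or.inl (le_of_lt hw)), zero_smul, add_zero]
    rfl
  · push Not at h
    have hz : ∀ j, z j ≠ 0 := fun j hj => by
      have := h j
      rw [hj, norm_zero] at this
      linarith
    have h1 : ContinuousAt (fun w : ι → ℍ[ℝ] => (fun i => un (w i) : ι → Gam)) z := by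
      rw [continuousAt_pi]
      intro i
      exact ContinuousAt.comp (f := fun w : ι → ℍ[ℝ] => w i) (continuousAt_un (hz i))
        (continuous_apply i).continuousAt
    have h2 : ContinuousAt (fun w : ι → ℍ[ℝ] => hat G i0 q w) z := by
      rw [continuousAt_pi]
      intro j
      unfold hat
      apply ContinuousAt.mul continuousAt_const
      have h3 : ContinuousAt (fun w : ι → ℍ[ℝ] => G (fun i => un (w i))) z :=
        hG.continuousAt.comp h1
      have h4 : ContinuousAt (fun w : ι → ℍ[ℝ] => ((G (fun i => un (w i)) j : Gam) : ℍ[ℝ])) z :=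
        continuous_subtype_val.continuousAt.comp
          (ContinuousAt.comp (f := fun w : ι → ℍ[ℝ] => G (fun i => un (w i)))
            (continuous_apply j).continuousAt h3)
      exact ContinuousAt.smul (f := fun w : ι → ℍ[ℝ] => ‖w j‖) (continuous_apply j).norm.continuousAt h4
    exact continuousAt_id.add (continuous_chi.continuousAt.smul (h2.sub continuousAt_id))

theorem norm_hat {G : (ι → Gam) → (ι → Gam)} {i0 : ι} {q : ℍ[ℝ]} {z : ι → ℍ[ℝ]} {j : ι}
    (hj : j ≠ i0) : ‖hat G i0 q z j‖ = ‖z j‖ := by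
  unfold hat
  rw [if_neg hj, one_mul, norm_smul, norm_norm, norm_gam, mul_one]

theorem hat_ne {G : (ι → Gam) → (ι → Gam)} {i0 : ι} {q q' : ℍ[ℝ]} {z : ι → ℍ[ℝ]} {j : ι}
    (hj : j ≠ i0) : hat G i0 q z j = hat G i0 q' z j := by
  unfold hat
  rw [if_neg hj, if_neg hj]

theorem ext_eq {G : (ι → Gam) → (ι → Gam)} {i0 : ι} {q : ℍ[ℝ]} {z : ι → ℍ[ℝ]}
    (h : ∀ j, 1 / 2 ≤ ‖z j‖ ∧ ‖z j‖ ≤ 2) : ext G i0 q z = hat G i0 q z := by
  rw [ext, chi_one h, one_smul, add_sub_cancel]

theorem bdd_box (r : ℝ) : Bornology.IsBounded {z : ι → ℍ[ℝ] | ∀ j, ‖z j‖ < r} := by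
  by_cases hr : 0 ≤ r
  · apply (Metric.isBounded_closedBall (x := (0 : ι → ℍ[ℝ])) (r := r)).subset
    intro z hz
    rw [mem_closedBall_zero_iff, pi_norm_le_iff_of_nonneg hr]
    exact fun j => (hz j).le
  · push Not at hr
    apply (Metric.isBounded_closedBall (x := (0 : ι → ℍ[ℝ])) (r := 0)).subset
    intro z hz
    rw [mem_closedBall_zero_iff, pi_norm_le_iff_of_nonneg le_rfl]
    intro j
    have := hz j
    linarith

/-- the norm of `1 - t + t i` -/
theorem norm_path (q q' : ℍ[ℝ]) (hq : ‖q‖ = 1) (hq' : ‖q'‖ = 1) (horth : inner ℝ q q' = (0 : ℝ))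
    {t : ℝ} (ht : t ∈ Icc (0 : ℝ) 1) :
    1 / 2 ≤ ‖q + t • (q' - q)‖ ^ 2 ∧ ‖q + t • (q' - q)‖ ≤ 1 := by
  have h1 : q + t • (q' - q) = (1 - t) • q + t • q' := by module
  have h2 : ‖q + t • (q' - q)‖ ^ 2 = (1 - t) ^ 2 + t ^ 2 := by
    rw [h1, norm_add_sq_real, norm_smul, norm_smul, inner_smul_left, inner_smul_right, horth, hq,
      hq']
    simp
  constructor
  · rw [h2]
    nlinarith [sq_nonneg (2 * t - 1)]
  · have h3 : ‖q + t • (q' - q)‖ ^ 2 ≤ 1 := by
      rw [h2]
      nlinarith [ht.1, ht.2]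
    exact (sq_le_one_iff₀ (norm_nonneg _)).1 h3

theorem key {G : (ι → Gam) → (ι → Gam)} (hG : Continuous G) (i0 : ι) {O : Set (ι → Gam)}
    (hO : IsOpen O) (h1 : (1 : ι → Gam) ∈ O) (hid : ∀ x ∈ O, G x = x) (hone : ∀ x, G x = 1 → x ∈ O)
    (hmiss : ∀ x, G x ≠ Function.update (1 : ι → Gam) i0 (-1)) : False := by
  obtain ⟨ρ, hρ, hρO⟩ := Metric.isOpen_iff.1 hO 1 h1
  -- sets
  set U : Set (ι → ℍ[ℝ]) := {z | ∀ j, 1 / 2 < ‖z j‖ ∧ ‖z j‖ < 2} with hU
  have hUo : IsOpen U := by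
    have : U = ⋂ j, {z : ι → ℍ[ℝ] | 1 / 2 < ‖z j‖ ∧ ‖z j‖ < 2} := by
      ext z; simp [hU]
    rw [this]
    apply isOpen_iInter_of_finite
    intro j
    exact (isOpen_lt continuous_const (continuous_apply j).norm).inter
      (isOpen_lt (continuous_apply j).norm continuous_const)
  have hUb : Bornology.IsBounded U := (bdd_box (ι := ι) 2).subset fun z hz j => (hz j).2
  have hUc : ∀ z ∈ closure U, ∀ j, 1 / 2 ≤ ‖z j‖ ∧ ‖z j‖ ≤ 2 := by
    have hcl : IsClosed {z : ι → ℍ[ℝ] | ∀ j, 1 / 2 ≤ ‖z j‖ ∧ ‖z j‖ ≤ 2} := by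
      have : {z : ι → ℍ[ℝ] | ∀ j, 1 / 2 ≤ ‖z j‖ ∧ ‖z j‖ ≤ 2} =
          ⋂ j, {z : ι → ℍ[ℝ] | 1 / 2 ≤ ‖z j‖ ∧ ‖z j‖ ≤ 2} := by
        ext z; simp
      rw [this]
      apply isClosed_iInter
      intro j
      exact (isClosed_le continuous_const (continuous_apply j).norm).inter
        (isClosed_le (continuous_apply j).norm continuous_const)
    intro z hz
    exact closure_minimal (fun z hz j => ⟨(hz j).1.le, (hz j).2.le⟩) hcl hz
  have hnz : ∀ z : ι → ℍ[ℝ], (∀ j, 1 / 2 ≤ ‖z j‖ ∧ ‖z j‖ ≤ 2) → ∀ j, z j ≠ 0 := by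
    intro z hz j hj
    have := (hz j).1
    rw [hj, norm_zero] at this
    linarith
  set qi : ℍ[ℝ] := ⟨0, 1, 0, 0⟩ with hqi
  have hqin : ‖qi‖ = 1 := by
    have : ‖qi‖ ^ 2 = 1 := by
      rw [sq, ← Quaternion.normSq_eq_norm_mul_self, Quaternion.normSq_def']
      simp [hqi]
    nlinarith [norm_nonneg qi]
  have hqiqi : qi * qi = -1 := by
    ext <;> simp [hqi]
  -- homotopies
  have hhom : ∀ q q' : ℍ[ℝ], ‖q‖ = 1 → ‖q'‖ = 1 → inner ℝ q q' = (0 : ℝ) → ∀ x ∈ frontier U,
      ∀ t ∈ Icc (0 : ℝ) 1, ext G i0 q x + t • (ext G i0 q' x - ext G i0 q x) ≠ 1 := by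
    intro q q' hq hq' horth x hx t ht hcon
    have hxc := hUc x (frontier_subset_closure hx)
    rw [hUo.frontier_eq] at hx
    apply hx.2
    rw [ext_eq hxc, ext_eq hxc] at hcon
    intro j
    by_cases hj : j = i0
    · subst hj
      have h2 := congrFun hcon j
      simp only [Pi.add_apply, Pi.smul_apply, Pi.sub_apply, Pi.one_apply, hat, if_true] at h2
      rw [← sub_mul, ← smul_mul_assoc, ← add_mul] at h2
      have h3 := congrArg norm h2
      rw [norm_mul, norm_smul, norm_norm, norm_gam, mul_one, norm_one] at h3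
      obtain ⟨h4, h5⟩ := norm_path q q' hq hq' horth ht
      have h6 := norm_nonneg (q + t • (q' - q))
      constructor
      · nlinarith [norm_nonneg (x j)]
      · by_contra hcon2
        push Not at hcon2
        nlinarith [norm_nonneg (x j)]
    · have h2 := congrFun hcon j
      simp only [Pi.add_apply, Pi.smul_apply, Pi.sub_apply, Pi.one_apply] at h2
      rw [hat_ne (q' := q) hj (q := q'), sub_self, smul_zero, add_zero] at h2
      have h3 := congrArg norm h2
      rw [norm_hat hj, norm_one] at h3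
      rw [h3]
      norm_num
  -- the set where the map is the identity
  set W : Set (ι → ℍ[ℝ]) := U ∩ {z | (fun i => un (z i) : ι → Gam) ∈ ball (1 : ι → Gam) (ρ / 2)}
    with hW
  have hunc : ContinuousOn (fun z : ι → ℍ[ℝ] => (fun i => un (z i) : ι → Gam))
      {z | ∀ j, 1 / 2 ≤ ‖z j‖ ∧ ‖z j‖ ≤ 2} := by
    intro z hz
    apply ContinuousAt.continuousWithinAt
    rw [continuousAt_pi]
    intro i
    exact ContinuousAt.comp (f := fun w : ι → ℍ[ℝ] => w i) (continuousAt_un (hnz z hz i))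
      (continuous_apply i).continuousAt
  have hWo : IsOpen W :=
    (hunc.mono fun z hz j => ⟨(hz j).1.le, (hz j).2.le⟩).isOpen_inter_preimage hUo isOpen_ball
  have hWc : ∀ z ∈ closure W, (∀ j, 1 / 2 ≤ ‖z j‖ ∧ ‖z j‖ ≤ 2) ∧
      (fun i => un (z i) : ι → Gam) ∈ closedBall (1 : ι → Gam) (ρ / 2) := by
    intro z hz
    have hz1 := hUc z (closure_mono inter_subset_left hz)
    refine ⟨hz1, ?_⟩
    have h2 : ContinuousWithinAt (fun z : ι → ℍ[ℝ] => (fun i => un (z i) : ι → Gam)) W z :=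
      (hunc z hz1).mono fun w hw j => ⟨(hw.1 j).1.le, (hw.1 j).2.le⟩
    have h3 := h2.mem_closure hz (t := ball (1 : ι → Gam) (ρ / 2)) (fun w hw => hw.2)
    exact closure_ball_subset_closedBall h3
  have hout : ∀ q : ℍ[ℝ], ∀ x : ι → ℍ[ℝ], x ∉ {z : ι → ℍ[ℝ] | ∀ j, ‖z j‖ < 4} →
      ext G i0 q x = x := by
    intro q x hx
    simp only [mem_ofPred_eq, not_forall, not_lt] at hx
    obtain ⟨j, hj⟩ := hx
    rw [ext, chi_zero (j := j) (Or.inr hj), zero_smul, add_zero]
  refine contraV (continuous_ext hG i0 1) (continuous_ext hG i0 qi) (continuous_ext hG i0 (-1))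
    (bdd_box (ι := ι) 4) (hout 1) (hout qi) (hout (-1)) (U := U) (W := W) hUo hUb (y := 1)
    (hhom 1 qi norm_one hqin ?_) (hhom qi (-1) hqin (by rw [norm_neg, norm_one]) ?_) hWo
    inter_subset_left ?_ ?_ ?_ ?_
  · rw [Quaternion.inner_def]
    simp [hqi]
  · rw [Quaternion.inner_def]
    simp [hqi]
  · refine ⟨fun j => ?_, ?_⟩
    · simp only [Pi.one_apply, norm_one]
      norm_num
    · have : (fun i => un ((1 : ι → ℍ[ℝ]) i) : ι → Gam) = 1 := by
        funext i
        have := un_gam 1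
        simpa using this
      show (fun i => un ((1 : ι → ℍ[ℝ]) i) : ι → Gam) ∈ ball (1 : ι → Gam) (ρ / 2)
      rw [this]
      exact mem_ball_self (by positivity)
  · intro x hx
    obtain ⟨h2, h3⟩ := hWc x hx
    rw [ext_eq h2]
    funext j
    unfold hat
    rw [hid _ (hρO (closedBall_subset_ball (by linarith) h3)), ite_self, one_mul,
      norm_smul_un (hnz x h2 j)]
  · intro x hx hx1
    have hxc := hUc x hx
    rw [ext_eq hxc] at hx1
    have h2 : ∀ j, ‖x j‖ = 1 := by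
      intro j
      have h3 := congrArg norm (congrFun hx1 j)
      unfold hat at h3
      rw [ite_self, one_mul, norm_smul, norm_norm, norm_gam, mul_one] at h3
      rw [h3]
      simp
    have h3 : G (fun i => un (x i)) = 1 := by
      funext j
      apply Subtype.ext
      have h4 := congrFun hx1 j
      unfold hat at h4
      rw [ite_self, one_mul, h2 j, one_smul] at h4
      rw [h4]
      simp
    have h4 := hone _ h3
    rw [hid _ h4] at h3
    refine ⟨fun j => ?_, ?_⟩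
    · rw [h2 j]
      norm_num
    · show (fun i => un (x i)) ∈ ball (1 : ι → Gam) (ρ / 2)
      rw [h3]
      exact mem_ball_self (by positivity)
  · intro x hx hx1
    have hxc := hUc x hx
    rw [ext_eq hxc] at hx1
    have h2 : ∀ j, ‖x j‖ = 1 := by
      intro j
      have h3 := congrArg norm (congrFun hx1 j)
      unfold hat at h3
      rw [norm_mul, norm_smul, norm_norm, norm_gam, mul_one] at h3
      have h4 : ‖(if j = i0 then (-1 : ℍ[ℝ]) else 1)‖ = 1 := by
        split_ifs <;> simp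
      rw [h4, one_mul] at h3
      rw [h3]
      simp
    apply hmiss (fun i => un (x i))
    funext j
    apply Subtype.ext
    have h4 := congrFun hx1 j
    unfold hat at h4
    rw [h2 j, one_smul] at h4
    by_cases hj : j = i0
    · subst hj
      rw [if_pos rfl] at h4
      rw [Function.update_self]
      have h5 : ((G (fun i => un (x i)) j : Gam) : ℍ[ℝ]) = -1 := by
        have : (-1 : ℍ[ℝ]) * ((G (fun i => un (x i)) j : Gam) : ℍ[ℝ]) = 1 := h4
        rw [neg_one_mul] at this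
        rw [← this, neg_neg]
      rw [h5]
      rfl
    · rw [if_neg hj, one_mul] at h4
      rw [Function.update_of_ne hj, h4]
      simp

end Pool.Agent.Run7.h41
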