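import Pool.Agent.Run7.h41.Word

/-!
# Presentation complexes as subspaces of a vector space
-/

set_option autoImplicit false

namespace Pool.Agent.Run7.h41.Mod

open Set Pool.Agent.Run7.h41.CW Pool.Agent.Run7.h41.Top

/-- words in `n` letters and their inverses -/
abbrev Wd (n : ℕ) : Type := List (Fin n × Bool)

variable {n k : ℕ}

/-- the point with angle `2 π t` of the circle number `i` -/
noncomputable def cg (i : Fin n) (t : ℝ) : Fin n → ℂ := Pi.single i (ex t - 1)

theorem ex_zero : ex 0 = 1 := by simp [ex]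

theorem ex_one : ex 1 = 1 := by
  have := ex_add_one 0
  rwa [zero_add, ex_zero] at this

theorem cg_zero (i : Fin n) : cg i 0 = 0 := by simp [cg, ex_zero]

theorem cg_one (i : Fin n) : cg i 1 = 0 := by simp [cg, ex_one]

theorem cg_continuous (i : Fin n) : Continuous (cg i) := by
  unfold cg
  apply continuous_pi
  intro j
  by_cases h : j = i
  · subst h
    simp only [Pi.single_eq_same]
    exact ex_continuous.sub continuous_const
  · simp only [Pi.single_eq_of_ne h]
    exact continuous_const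

theorem ex_ne_one {t : ℝ} (h0 : 0 < t) (h1 : t < 1) : ex t - 1 ≠ 0 := by
  intro h
  have h2 : ex t = ex 0 := by rw [ex_zero]; exact sub_eq_zero.1 h
  obtain ⟨m, hm⟩ := ex_eq h2
  rw [zero_add] at hm
  rw [hm] at h0 h1
  have h3 : 0 < m := by exact_mod_cast h0
  have h4 : m < 1 := by exact_mod_cast h1
  omega

theorem cg_ne_zero {i : Fin n} {t : ℝ} (h0 : 0 < t) (h1 : t < 1) : cg i t ≠ 0 := by
  intro h
  have := congrFun h i
  simp only [cg, Pi.single_eq_same, Pi.zero_apply] at this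
  exact ex_ne_one h0 h1 this

theorem cg_inj {i i' : Fin n} {t t' : ℝ} (h0 : 0 < t) (h1 : t < 1) (h0' : 0 < t') (h1' : t' < 1)
    (h : cg i t = cg i' t') : i = i' ∧ t = t' := by
  have hi : i = i' := by
    by_contra hne
    have := congrFun h i
    simp only [cg, Pi.single_eq_same, Pi.single_eq_of_ne hne] at this
    exact ex_ne_one h0 h1 this
  subst hi
  refine ⟨rfl, ?_⟩
  have h2 := congrFun h i
  simp only [cg, Pi.single_eq_same] at h2
  obtain ⟨m, hm⟩ := ex_eq (sub_left_injective h2)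
  have h3 : (m : ℝ) < 1 := by linarith
  have h4 : (-1 : ℝ) < m := by linarith
  have h5 : m < 1 := by exact_mod_cast h3
  have h6 : -1 < m := by exact_mod_cast h4
  have : m = 0 := by omega
  rw [this] at hm
  simpa using hm

/-- the path of a letter -/
noncomputable def lp (a : Fin n × Bool) : Path (0 : Fin n → ℂ) 0 where
  toFun t := cg a.1 (cond a.2 (t : ℝ) (1 - t))
  continuous_toFun := by
    apply (cg_continuous a.1).comp
    cases a.2
    · exact continuous_const.sub continuous_subtype_val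
    · exact continuous_subtype_val
  source' := by
    cases h : a.2
    · simp [cg_one]
    · simp [cg_zero]
  target' := by
    cases h : a.2
    · simp [cg_zero]
    · simp [cg_one]

/-- the path of a word -/
noncomputable def wp : Wd n → Path (0 : Fin n → ℂ) 0
  | [] => Path.refl 0
  | a :: l => (lp a).trans (wp l)

/-- the loop of a word -/
noncomputable def wl (l : Wd n) (t : ℝ) : Fin n → ℂ := (wp l).extend (Int.fract t)

theorem wl_continuous (l : Wd n) : Continuous (wl l) :=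
  fract_loop (wp l).continuous_extend (by simp)

theorem wl_add_one (l : Wd n) (t : ℝ) : wl l (t + 1) = wl l t := by
  unfold wl
  rw [Int.fract_add_one]

theorem wl_eq (l : Wd n) (t : unitInterval) : wl l t = wp l t := by
  unfold wl
  by_cases h : (t : ℝ) = 1
  · have h1 : t = 1 := Subtype.ext h
    subst h1
    simp
  · have h1 : Int.fract (t : ℝ) = t :=
      Int.fract_eq_self.2 ⟨t.2.1, lt_of_le_of_ne t.2.2 h⟩
    rw [h1, Path.extend_apply _ t.2]

/-- the wedge of circles -/
def K1 (n : ℕ) : Set (Fin n → ℂ) := {v | v = 0 ∨ ∃ (i : Fin n) (t : ℝ), 0 < t ∧ t < 1 ∧ v = cg i t}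

theorem cg_mem (i : Fin n) {t : ℝ} (h0 : 0 ≤ t) (h1 : t ≤ 1) : cg i t ∈ K1 n := by
  rcases h0.eq_or_lt with h | h
  · left; rw [← h, cg_zero]
  · rcases h1.eq_or_lt with h' | h'
    · left; rw [h', cg_one]
    · right; exact ⟨i, t, h, h', rfl⟩

theorem lp_mem (a : Fin n × Bool) (t : unitInterval) : lp a t ∈ K1 n := by
  show cg a.1 (cond a.2 (t : ℝ) (1 - t)) ∈ K1 n
  cases a.2
  · exact cg_mem _ (by simpa using t.2.2) (by simpa using t.2.1)
  · exact cg_mem _ t.2.1 t.2.2

theorem wp_mem (l : Wd n) (t : unitInterval) : wp l t ∈ K1 n := by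
  induction l generalizing t with
  | nil => left; rfl
  | cons a l ih =>
    show ((lp a).trans (wp l)) t ∈ K1 n
    rw [Path.trans_apply]
    split_ifs
    · exact lp_mem _ _
    · exact ih _

theorem wl_mem (l : Wd n) (t : ℝ) : wl l t ∈ K1 n := by
  have h := wl_eq l ⟨Int.fract t, Int.fract_nonneg t, (Int.fract_lt_one t).le⟩
  have h1 : wl l t = wl l (Int.fract t) := by
    unfold wl
    rw [Int.fract_fract]
  rw [h1, h]
  exact wp_mem _ _

theorem wl_zero (l : Wd n) : wl l 0 = 0 := by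
  unfold wl
  simp

/-- the ambient space -/
abbrev Amb (n k : ℕ) : Type := (Fin n → ℂ) × (Fin k → ℂ × ℝ)

theorem exists_cd (l : Wd n) (j : Fin k) : ∃ F : Disc 2 → Amb n k, Continuous F ∧
    ∀ r t, 0 ≤ r → r ≤ 1 → F (pol r t) =
      (r • wl l t, Pi.single j ((((1 - r) * r : ℝ) : ℂ) * ex t, 1 - r)) := by
  apply polar_ext (fun r t => ((r • wl l t, Pi.single j ((((1 - r) * r : ℝ) : ℂ) * ex t, 1 - r)) :
    Amb n k))
  · apply Continuous.prodMk
    · exact continuous_fst.smul ((wl_continuous l).comp continuous_snd)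
    · apply continuous_pi
      intro j'
      by_cases h : j' = j
      · subst h
        simp only [Pi.single_eq_same]
        apply Continuous.prodMk
        · apply Continuous.mul
          · exact Complex.continuous_ofReal.comp (by fun_prop)
          · exact ex_continuous.comp continuous_snd
        · fun_prop
      · simp only [Pi.single_eq_of_ne h]
        exact continuous_const
  · intro r t
    simp only [wl_add_one, ex_add_one]
  · intro t
    simp

/-- the characteristic map of a two-cell in the ambient space -/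
noncomputable def cd (l : Wd n) (j : Fin k) : Disc 2 → Amb n k := (exists_cd l j).choose

theorem cd_continuous (l : Wd n) (j : Fin k) : Continuous (cd l j) := (exists_cd l j).choose_spec.1

theorem cd_pol (l : Wd n) (j : Fin k) {r t : ℝ} (h0 : 0 ≤ r) (h1 : r ≤ 1) : cd l j (pol r t) =
    (r • wl l t, Pi.single j ((((1 - r) * r : ℝ) : ℂ) * ex t, 1 - r)) :=
  (exists_cd l j).choose_spec.2 r t h0 h1

theorem cd_circ (l : Wd n) (j : Fin k) (t : ℝ) : cd l j (circ t) = (wl l t, 0) := by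
  rw [← pol_one, cd_pol l j zero_le_one le_rfl]
  simp

theorem cd_snd (l : Wd n) (j : Fin k) (z : Disc 2) :
    (cd l j z).2 = Pi.single j (((1 - ‖z.1‖ : ℝ) : ℂ) * cx z, 1 - ‖z.1‖) := by
  obtain ⟨t, -, -, h⟩ := pol_surj z
  have h1 := cd_pol l j (t := t) (norm_nonneg z.1) z.norm_le
  have h2 := pol_eq (t := t) (norm_nonneg z.1) z.norm_le
  rw [h] at h1 h2
  rw [h1, h2]
  simp only
  congr 2
  push_cast
  ring

theorem cd_snd_ne {l : Wd n} {j : Fin k} {z : Disc 2} (hz : ‖z.1‖ < 1) : (cd l j z).2 ≠ 0 := by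
  intro h
  have h1 := congrFun h j
  rw [cd_snd, Pi.single_eq_same] at h1
  have h2 := congrArg Prod.snd h1
  simp only [Pi.zero_apply, Prod.snd_zero] at h2
  linarith

theorem cd_inj {l l' : Wd n} {j j' : Fin k} {z z' : Disc 2} (hz : ‖z.1‖ < 1) (hz' : ‖z'.1‖ < 1)
    (h : cd l j z = cd l' j' z') : j = j' ∧ z = z' := by
  have h1 := congrArg Prod.snd h
  rw [cd_snd, cd_snd] at h1
  have hj : j = j' := by
    by_contra hne
    have h2 := congrFun h1 j
    rw [Pi.single_eq_same, Pi.single_eq_of_ne hne] at h2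
    have h3 := congrArg Prod.snd h2
    simp only [Prod.snd_zero] at h3
    linarith
  subst hj
  refine ⟨rfl, ?_⟩
  have h2 := congrFun h1 j
  rw [Pi.single_eq_same, Pi.single_eq_same] at h2
  have h3 := congrArg Prod.snd h2
  have h4 := congrArg Prod.fst h2
  simp only at h3 h4
  have h5 : ‖z.1‖ = ‖z'.1‖ := by linarith
  rw [h5] at h4
  have h6 : ((1 - ‖z'.1‖ : ℝ) : ℂ) ≠ 0 := by
    exact_mod_cast (by linarith : (0 : ℝ) < 1 - ‖z'.1‖).ne'
  exact cx_inj (mul_left_cancel₀ h6 h4)

theorem cd_boundary {l : Wd n} {j : Fin k} {z : Disc 2} (hz : ‖z.1‖ = 1) :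
    ∃ v ∈ K1 n, cd l j z = (v, 0) := by
  obtain ⟨t, -, -, rfl⟩ := circ_surj hz
  exact ⟨wl l t, wl_mem l t, cd_circ l j t⟩

/-- the points of the presentation complex -/
def carrier (P : Fin k → Wd n) : Set (Amb n k) :=
  {p | (p.2 = 0 ∧ p.1 ∈ K1 n) ∨ ∃ (j : Fin k) (z : Disc 2), p = cd (P j) j z}

/-- the cells of the presentation complex -/
def pcell (n k : ℕ) : ℕ → Type
  | 0 => Unit
  | 1 => Fin n
  | 2 => Fin k
  | _ + 3 => Empty

instance pcell_finite (n k : ℕ) : Finite (Σ m, pcell n k m) := by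
  apply Finite.of_surjective (α := Unit ⊕ Fin n ⊕ Fin k)
    (f := fun x => match x with
      | Sum.inl u => ⟨0, u⟩
      | Sum.inr (Sum.inl i) => ⟨1, i⟩
      | Sum.inr (Sum.inr j) => ⟨2, j⟩)
  rintro ⟨m, c⟩
  match m, c with
  | 0, c => exact ⟨Sum.inl c, rfl⟩
  | 1, c => exact ⟨Sum.inr (Sum.inl c), rfl⟩
  | 2, c => exact ⟨Sum.inr (Sum.inr c), rfl⟩
  | m + 3, c => exact c.elim

/-- the characteristic maps -/
noncomputable def pchi (P : Fin k → Wd n) : ∀ {m : ℕ}, pcell n k m → Disc m → carrier P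
  | 0, _, _ => ⟨(0, 0), Or.inl ⟨rfl, Or.inl rfl⟩⟩
  | 1, i, x => ⟨(cg i ((x.1 0 + 1) / 2), 0), Or.inl ⟨rfl, by
      have h1 := x.norm_le
      rw [disc1_norm, abs_le] at h1
      exact cg_mem i (by linarith) (by linarith)⟩⟩
  | 2, j, z => ⟨cd (P j) j z, Or.inr ⟨j, z, rfl⟩⟩
  | _ + 3, c, _ => c.elim

theorem pchi_continuous (P : Fin k → Wd n) {m : ℕ} (c : pcell n k m) : Continuous (pchi P c) := by
  match m, c with
  | 0, c => exact continuous_const
  | 1, c =>
    apply Continuous.subtype_mk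
    apply Continuous.prodMk _ continuous_const
    apply (cg_continuous c).comp
    have h1 : Continuous fun x : Disc 1 => x.1 0 :=
      (EuclideanSpace.proj (𝕜 := ℝ) (0 : Fin 1)).continuous.comp continuous_subtype_val
    fun_prop
  | 2, c => exact Continuous.subtype_mk (cd_continuous _ _) _
  | m + 3, c => exact c.elim

/-- the one-dimensional disc point of a real number -/
noncomputable def d1 (s : ℝ) (h : |s| ≤ 1) : Disc 1 :=
  ⟨WithLp.toLp 2 (fun _ => s), by
    rw [mem_closedBall_zero_iff]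
    have h1 := EuclideanSpace.norm_sq_eq (WithLp.toLp 2 (fun _ => s) : EuclideanSpace ℝ (Fin 1))
    simp only [Fin.sum_univ_one, Real.norm_eq_abs, sq_abs] at h1
    have h2 := abs_le.1 h
    nlinarith [norm_nonneg (WithLp.toLp 2 (fun _ => s) : EuclideanSpace ℝ (Fin 1))]⟩

theorem d1_apply (s : ℝ) (h : |s| ≤ 1) : (d1 s h).1 0 = s := rfl

theorem k1_cell (P : Fin k → Wd n) {v : Fin n → ℂ} (hv : v ∈ K1 n) :
    ∃ m, m < 2 ∧ ∃ (c : pcell n k m) (x : Disc m), ‖x.1‖ < 1 ∧ (pchi P c x).1 = (v, 0) := by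
  rcases hv with rfl | ⟨i, t, h0, h1, rfl⟩
  · refine ⟨0, by norm_num, (), ⟨0, by simp⟩, by simp, rfl⟩
  · refine ⟨1, by norm_num, i, d1 (2 * t - 1) (by rw [abs_le]; constructor <;> linarith), ?_, ?_⟩
    · rw [disc1_norm, d1_apply, abs_lt]
      constructor <;> linarith
    · show (cg i (((d1 (2 * t - 1) _).1 0 + 1) / 2), (0 : Fin k → ℂ × ℝ)) = _
      rw [d1_apply]
      congr 2
      ring

theorem disc0_eq (x y : Disc 0) : x = y := by
  apply Subtype.ext
  ext i
  exact i.elim0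

theorem pchi_inj (P : Fin k → Wd n) {m m' : ℕ} {c : pcell n k m} {c' : pcell n k m'}
    {x : Disc m} {x' : Disc m'} (hx : ‖x.1‖ < 1) (hx' : ‖x'.1‖ < 1)
    (h : (pchi P c x).1 = (pchi P c' x').1) :
    (⟨m, c, x⟩ : Σ m, pcell n k m × Disc m) = ⟨m', c', x'⟩ := by
  have hr : ∀ x : Disc 1, ‖x.1‖ < 1 → 0 < (x.1 0 + 1) / 2 ∧ (x.1 0 + 1) / 2 < 1 := by
    intro x hx
    rw [disc1_norm, abs_lt] at hx
    constructor <;> linarith
  match m, m', c, c', x, x' with
  | 0, 0, (), (), x, x' => rw [disc0_eq x x']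
  | 0, 1, c, c', x, x' =>
    have h1 : (0 : Fin n → ℂ) = cg c' ((x'.1 0 + 1) / 2) := congrArg Prod.fst h
    exact absurd h1.symm (cg_ne_zero (hr x' hx').1 (hr x' hx').2)
  | 0, 2, c, c', x, x' =>
    have h1 : (0 : Fin k → ℂ × ℝ) = (cd (P c') c' x').2 := congrArg Prod.snd h
    exact absurd h1.symm (cd_snd_ne hx')
  | 1, 0, c, c', x, x' =>
    have h1 : cg c ((x.1 0 + 1) / 2) = (0 : Fin n → ℂ) := congrArg Prod.fst h
    exact absurd h1 (cg_ne_zero (hr x hx).1 (hr x hx).2)
  | 1, 1, c, c', x, x' =>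
    have h1 : cg c ((x.1 0 + 1) / 2) = cg c' ((x'.1 0 + 1) / 2) := congrArg Prod.fst h
    obtain ⟨h2, h3⟩ := cg_inj (hr x hx).1 (hr x hx).2 (hr x' hx').1 (hr x' hx').2 h1
    subst h2
    have h4 : x.1 0 = x'.1 0 := by linarith
    have h5 : x = x' := by
      apply Subtype.ext
      ext i
      fin_cases i
      exact h4
    rw [h5]
  | 1, 2, c, c', x, x' =>
    have h1 : (0 : Fin k → ℂ × ℝ) = (cd (P c') c' x').2 := congrArg Prod.snd h
    exact absurd h1.symm (cd_snd_ne hx')
  | 2, 0, c, c', x, x' =>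
    have h1 : (cd (P c) c x).2 = (0 : Fin k → ℂ × ℝ) := congrArg Prod.snd h
    exact absurd h1 (cd_snd_ne hx)
  | 2, 1, c, c', x, x' =>
    have h1 : (cd (P c) c x).2 = (0 : Fin k → ℂ × ℝ) := congrArg Prod.snd h
    exact absurd h1 (cd_snd_ne hx)
  | 2, 2, c, c', x, x' =>
    have h1 : cd (P c) c x = cd (P c') c' x' := h
    obtain ⟨h2, h3⟩ := cd_inj hx hx' h1
    subst h2
    rw [h3]
  | m + 3, _, c, _, _, _ => exact c.elim
  | _, m' + 3, _, c', _, _ => exact c'.elim

/-- The presentation complex. -/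
noncomputable def kp (P : Fin k → Wd n) : FinCW where
  X := carrier P
  cell := pcell n k
  finite_cell := pcell_finite n k
  χ := pchi P
  continuous_χ := pchi_continuous P
  partition := by
    rintro ⟨p, hp⟩
    have h1 : ∃ (m : ℕ) (c : pcell n k m) (x : Disc m), ‖x.1‖ < 1 ∧ (pchi P c x).1 = p := by
      rcases hp with ⟨h2, h3⟩ | ⟨j, z, h2⟩
      · obtain ⟨m, -, c, x, hx, h4⟩ := k1_cell P h3
        exact ⟨m, c, x, hx, h4.trans (Prod.ext rfl h2.symm)⟩
      · rcases z.norm_le.lt_or_eq with h3 | h3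
        · exact ⟨2, j, z, h3, h2.symm⟩
        · obtain ⟨v, hv, h4⟩ := cd_boundary (l := P j) (j := j) h3
          obtain ⟨m, -, c, x, hx, h5⟩ := k1_cell P hv
          exact ⟨m, c, x, hx, by rw [h5, h2, h4]⟩
    obtain ⟨m, c, x, hx, h2⟩ := h1
    refine ⟨⟨m, c, x⟩, ⟨hx, Subtype.ext h2⟩, ?_⟩
    rintro ⟨m', c', x'⟩ ⟨hx', h3⟩
    exact pchi_inj P hx' hx ((congrArg Subtype.val h3).trans h2.symm)
  boundary := by
    intro m c x hx
    have hx : ‖x.1‖ = 1 := hx
    match m, c, x, hx with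
    | 0, c, x, hx =>
      have : x = ⟨0, by simp⟩ := disc0_eq _ _
      rw [this] at hx
      simp at hx
    | 1, c, x, hx =>
      refine ⟨0, by norm_num, (), ⟨0, by simp⟩, by simp [IsInt], ?_⟩
      apply Subtype.ext
      show ((0 : Fin n → ℂ), (0 : Fin k → ℂ × ℝ)) = (cg c ((x.1 0 + 1) / 2), 0)
      rw [disc1_norm] at hx
      rcases eq_or_eq_neg_of_abs_eq hx with h | h
      · rw [h]; norm_num; rw [cg_one]
      · rw [h]; norm_num; rw [cg_zero]
    | 2, c, x, hx =>
      obtain ⟨v, hv, h4⟩ := cd_boundary (l := P c) (j := c) hx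
      obtain ⟨m, hm, c', y, hy, h5⟩ := k1_cell P hv
      exact ⟨m, hm, c', y, hy, Subtype.ext (h5.trans h4.symm)⟩
    | m + 3, c, _, _ => exact c.elim

end Pool.Agent.Run7.h41.Mod
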