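import Pool.Agent.Run7.h41.ModelStep
import Pool.Agent.Run7.h41.Edge

/-!
# A wedge of discs is contractible
-/

set_option autoImplicit false

namespace Pool.Agent.Run7.h41.Mod

open Set Pool.Agent.Run7.h41.CW Pool.Agent.Run7.h41.Top

variable {n k : ℕ}

/-- the base point -/
def bp (P : Fin k → Wd n) : (kp P).X := k1pt P 0 (Or.inl rfl)

theorem wl_single (a : Fin n × Bool) {t : ℝ} (h0 : 0 ≤ t) (h1 : t < 1) :
    wl [a] t = if t ≤ 1 / 2 then cg a.1 (cond a.2 (2 * t) (1 - 2 * t)) else 0 := by
  have h2 := wl_eq [a] ⟨t, h0, h1.le⟩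
  rw [h2]
  show ((lp a).trans (Path.refl 0)) ⟨t, h0, h1.le⟩ = _
  rw [Path.trans_apply]
  split_ifs <;> rfl

theorem circ_low {t : ℝ} (h0 : 0 ≤ t) (h1 : t < 1) (h : (circ t).1 (Fin.last 1) ≤ 0) :
    t = 0 ∨ 1 / 2 ≤ t := by
  rw [circ_last] at h
  by_contra hcon
  push Not at hcon
  have h2 : 0 < Real.sin (2 * Real.pi * t) := by
    apply Real.sin_pos_of_pos_of_lt_pi
    · have h3 : 0 < t := lt_of_le_of_ne h0 (Ne.symm hcon.1)
      have := Real.pi_pos
      positivity
    · nlinarith [Real.pi_pos]
  linarith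

theorem chi_lower (P : Fin k → Wd n) (j : Fin k) (a : Fin n × Bool) (hj : P j = [a]) (y : Disc 1) :
    (kp P).χ (n := 2) j (lower y) = bp P := by
  obtain ⟨t, h0, h1, ht⟩ := circ_surj (lower_norm y)
  have h2 : (circ t).1 (Fin.last 1) ≤ 0 := by
    rw [ht, lower_last]
    have := Real.sqrt_nonneg (1 - ‖y.1‖ ^ 2)
    linarith
  rw [← ht, chi_circ]
  apply Subtype.ext
  show (wl (P j) t, (0 : Fin k → ℂ × ℝ)) = (0, 0)
  congr 1
  rw [hj]
  rcases circ_low h0 h1 h2 with h3 | h3
  · rw [h3, wl_zero]
  · rw [wl_single a h0 h1]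
    split_ifs with h4
    · have h5 : t = 1 / 2 := le_antisymm h4 h3
      rw [h5]
      cases a.2
      · norm_num
        exact cg_zero _
      · norm_num
        exact cg_one _
    · rfl

/-- the vertical homotopy -/
noncomputable def vh (z : Disc 2) (s : unitInterval) : Disc 2 :=
  ⟨(1 - (s : ℝ)) • z.1 + (s : ℝ) • (lower (proj z)).1,
    (convex_closedBall _ _) z.2 (lower (proj z)).2 (by linarith [s.2.2]) s.2.1 (by ring)⟩

theorem vh_continuous : Continuous fun q : Disc 2 × unitInterval => vh q.1 q.2 := by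
  apply Continuous.subtype_mk
  have h1 : Continuous fun q : Disc 2 × unitInterval => (lower (proj q.1)).1 :=
    continuous_subtype_val.comp (lower_continuous.comp (proj_continuous.comp continuous_fst))
  have h2 : Continuous fun q : Disc 2 × unitInterval => q.1.1 :=
    continuous_subtype_val.comp continuous_fst
  have h3 : Continuous fun q : Disc 2 × unitInterval => (q.2 : ℝ) :=
    continuous_subtype_val.comp continuous_snd
  exact ((continuous_const.sub h3).smul h2).add (h3.smul h1)

theorem vh_zero (z : Disc 2) : vh z 0 = z := by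
  apply Subtype.ext
  simp [vh]

theorem vh_one (z : Disc 2) : vh z 1 = lower (proj z) := by
  apply Subtype.ext
  simp [vh]

theorem vh_fix {z : Disc 2} (h : z = lower (proj z)) (s : unitInterval) : vh z s = z := by
  apply Subtype.ext
  show (1 - (s : ℝ)) • z.1 + (s : ℝ) • (lower (proj z)).1 = z.1
  rw [← h, ← add_smul]
  simp

theorem chi_val (P : Fin k → Wd n) (j : Fin k) (z : Disc 2) :
    ((kp P).χ (n := 2) j z : carrier P).1 = cd (P j) j z := rfl

theorem kp_compat {P : Fin k → Wd n} {σ : Fin k → Fin n} (hσ : Function.Injective σ)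
    {b : Fin k → Bool} (hP : ∀ j, P j = [(σ j, b j)]) {j j' : Fin k} {z z' : Disc 2}
    (h : (kp P).χ (n := 2) j z = (kp P).χ (n := 2) j' z') (s : unitInterval) :
    (kp P).χ (n := 2) j (vh z s) = (kp P).χ (n := 2) j' (vh z' s) := by
  have h1 : cd (P j) j z = cd (P j') j' z' :=
    congrArg (fun p : (kp P).X => (p : carrier P).1) h
  rcases z.norm_le.lt_or_eq with h2 | h2
  · rcases z'.norm_le.lt_or_eq with h3 | h3
    · obtain ⟨h4, h5⟩ := cd_inj h2 h3 h1
      subst h4
      rw [h5]
    · exact absurd ((congrArg Prod.snd h1).trans (cd_snd_zero h3)) (cd_snd_ne h2)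
  rcases z'.norm_le.lt_or_eq with h3 | h3
  · exact absurd ((congrArg Prod.snd h1).symm.trans (cd_snd_zero h2)) (cd_snd_ne h3)
  obtain ⟨t, ht0, ht1, rfl⟩ := circ_surj h2
  obtain ⟨t', ht0', ht1', rfl⟩ := circ_surj h3
  have h4 : wl (P j) t = wl (P j') t' := by
    rw [cd_circ, cd_circ] at h1
    exact congrArg Prod.fst h1
  -- the loops at the base point
  have key : ∀ (j : Fin k) (t : ℝ), 0 ≤ t → t < 1 → wl (P j) t = 0 →
      ∀ s, (kp P).χ (n := 2) j (vh (circ t) s) = bp P := by
    intro j t h0 h1 hw s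
    have hlow : t = 0 ∨ 1 / 2 ≤ t := by
      by_contra hcon
      push Not at hcon
      have h0' : 0 < t := lt_of_le_of_ne h0 (Ne.symm hcon.1)
      rw [hP, wl_single _ h0 h1, if_pos hcon.2.le] at hw
      cases hb : b j
      · rw [hb] at hw
        exact cg_ne_zero (i := σ j) (t := 1 - 2 * t) (by linarith [hcon.2]) (by linarith) hw
      · rw [hb] at hw
        exact cg_ne_zero (i := σ j) (t := 2 * t) (by linarith) (by linarith [hcon.2]) hw
    have hz : circ t = lower (proj (circ t)) := by
      rcases hlow with rfl | h3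
      · have h10 : circ 1 = circ 0 := by simpa using circ_add_one 0
        rw [← h10]
        exact circ_lower (by norm_num) le_rfl
      · exact circ_lower h3 h1.le
    rw [vh_fix hz, hz]
    exact chi_lower P j _ (hP j) _
  by_cases h5 : wl (P j) t = 0
  · rw [key j t ht0 ht1 h5, key j' t' ht0' ht1' (h4 ▸ h5)]
  · have h6 : ∀ (j : Fin k) (t : ℝ), 0 ≤ t → t < 1 → wl (P j) t ≠ 0 → 0 < t ∧ t < 1 / 2 := by
      intro j t h0 h1 hw
      constructor
      · rcases h0.eq_or_lt with h | h
        · exact absurd (by rw [← h, wl_zero]) hw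
        · exact h
      · by_contra hcon
        push Not at hcon
        apply hw
        rw [hP, wl_single _ h0 h1]
        split_ifs with h7
        · have h8 : t = 1 / 2 := le_antisymm h7 hcon
          rw [h8]
          cases b j
          · norm_num
            exact cg_zero _
          · norm_num
            exact cg_one _
        · rfl
    obtain ⟨a1, a2⟩ := h6 j t ht0 ht1 h5
    obtain ⟨b1, b2⟩ := h6 j' t' ht0' ht1' (h4 ▸ h5)
    rw [hP, hP, wl_single _ ht0 ht1, wl_single _ ht0' ht1', if_pos a2.le, if_pos b2.le] at h4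
    have h7 : ∀ (c : Bool) (t : ℝ), 0 < t → t < 1 / 2 →
        0 < cond c (2 * t) (1 - 2 * t) ∧ cond c (2 * t) (1 - 2 * t) < 1 := by
      intro c t h0 h1
      cases c
      · exact ⟨by simp only [cond_false]; linarith, by simp only [cond_false]; linarith⟩
      · exact ⟨by simp only [cond_true]; linarith, by simp only [cond_true]; linarith⟩
    obtain ⟨h8, h9⟩ := cg_inj (h7 (b j) t a1 a2).1 (h7 (b j) t a1 a2).2 (h7 (b j') t' b1 b2).1
      (h7 (b j') t' b1 b2).2 h4
    have h10 : j = j' := hσ h8
    subst h10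
    have h11 : t = t' := by
      cases hb : b j
      · rw [hb] at h9
        simp only [cond_false] at h9
        linarith
      · rw [hb] at h9
        simp only [cond_true] at h9
        linarith
    rw [h11]

theorem kp_cover {P : Fin k → Wd n} {σ : Fin k → Fin n} (hσ : Function.Surjective σ)
    {b : Fin k → Bool} (hP : ∀ j, P j = [(σ j, b j)]) (hk : 0 < k) (x : (kp P).X) :
    ∃ (j : Fin k) (z : Disc 2), (kp P).χ (n := 2) j z = x := by
  obtain ⟨⟨v, w⟩, hx⟩ := x
  rcases hx with ⟨h1, h2⟩ | ⟨j, z, h1⟩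
  · simp only at h1 h2
    subst h1
    rcases h2 with rfl | ⟨i, t, h0, h1, rfl⟩
    · exact ⟨⟨0, hk⟩, lower ⟨0, by simp⟩, chi_lower P _ _ (hP _) _⟩
    · obtain ⟨j, rfl⟩ := hσ i
      refine ⟨j, circ (cond (b j) (t / 2) ((1 - t) / 2)), ?_⟩
      rw [chi_circ]
      apply Subtype.ext
      show (wl (P j) _, (0 : Fin k → ℂ × ℝ)) = (cg (σ j) t, 0)
      congr 1
      rw [hP]
      cases hb : b j
      · simp only [cond_false]
        rw [wl_single _ (by linarith) (by linarith), if_pos (by linarith)]
        simp only [cond_false]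
        congr 1
        ring
      · simp only [cond_true]
        rw [wl_single _ (by linarith) (by linarith), if_pos (by linarith)]
        simp only [cond_true]
        congr 1
        ring
  · exact ⟨j, z, Subtype.ext h1.symm⟩

theorem contr_base {P : Fin k → Wd n} {σ : Fin k → Fin n} (hσ : Function.Bijective σ)
    {b : Fin k → Bool} (hP : ∀ j, P j = [(σ j, b j)]) (hk : 0 < k) :
    ContractibleSpace (kp P).X := by
  choose jj zz hz using kp_cover hσ.2 hP hk
  have hc1 : ∀ j : Fin k, Continuous fun q : Disc 2 × unitInterval =>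
      (kp P).χ (n := 2) j (vh q.1 q.2) := fun j =>
    ((kp P).continuous_χ (n := 2) j).comp vh_continuous
  let G : Fin k → Disc 2 → C(unitInterval, (kp P).X) := fun j z =>
    ⟨fun s => (kp P).χ (n := 2) j (vh z s), (hc1 j).comp (Continuous.prodMk_right z)⟩
  have hG : ∀ j, Continuous (G j) := fun j =>
    ContinuousMap.continuous_of_continuous_uncurry _ (hc1 j)
  let F : (kp P).X → C(unitInterval, (kp P).X) := fun x => G (jj x) (zz x)
  have hF1 : ∀ j z, F ((kp P).χ (n := 2) j z) = G j z := by
    intro j z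
    ext s : 1
    exact kp_compat hσ.1 hP (hz _) s
  have hF : Continuous F := by
    rw [← continuousOn_univ]
    have h1 := glue (ι := Fin k) (C := fun _ => Disc 2) (fun j => (kp P).χ (n := 2) j)
      (fun j => (kp P).continuous_χ (n := 2) j) F
      (fun j => by simp only [hF1]; exact hG j)
    have h2 : (⋃ j : Fin k, range ((kp P).χ (n := 2) j)) = univ := by
      ext x
      simp only [mem_iUnion, mem_univ, iff_true]
      exact ⟨jj x, zz x, hz x⟩
    rwa [h2] at h1
  rw [contractible_iff_id_nullhomotopic]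
  refine ⟨bp P, ⟨⟨⟨fun q => F q.2 q.1, ?_⟩, ?_, ?_⟩⟩⟩
  · exact (ContinuousMap.continuous_uncurry_of_continuous ⟨F, hF⟩).comp continuous_swap
  · intro x
    show (kp P).χ (n := 2) (jj x) (vh (zz x) 0) = x
    rw [vh_zero]
    exact hz x
  · intro x
    show (kp P).χ (n := 2) (jj x) (vh (zz x) 1) = bp P
    rw [vh_one]
    exact chi_lower P _ _ (hP _) _

end Pool.Agent.Run7.h41.Mod
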