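import Pool.Agent.Run7.h41.ModelWord
import Pool.Agent.Run7.h41.Attach

/-!
# Changing a relator of a presentation complex
-/

set_option autoImplicit false

namespace Pool.Agent.Run7.h41.Mod

open Set Pool.Agent.Run7.h41.CW Pool.Agent.Run7.h41.Top

variable {n k : ℕ}

/-- the complex without the two-cell `i` -/
def cA (P : Fin k → Wd n) (i : Fin k) : Set (Amb n k) :=
  {p | (p.2 = 0 ∧ p.1 ∈ K1 n) ∨ ∃ j, j ≠ i ∧ ∃ z : Disc 2, p = cd (P j) j z}

theorem K1_compact : IsCompact (K1 n) := by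
  have h : K1 n = {0} ∪ ⋃ i : Fin n, cg i '' Icc 0 1 := by
    ext v
    constructor
    · rintro (rfl | ⟨i, t, h0, h1, rfl⟩)
      · exact Or.inl rfl
      · exact Or.inr (mem_iUnion.2 ⟨i, t, ⟨h0.le, h1.le⟩, rfl⟩)
    · rintro (h | h)
      · exact Or.inl h
      · obtain ⟨i, t, ⟨h0, h1⟩, rfl⟩ := mem_iUnion.1 h
        exact cg_mem i h0 h1
  rw [h]
  exact isCompact_singleton.union (isCompact_iUnion (fun i => isCompact_Icc.image (cg_continuous i)))

theorem cA_compact (P : Fin k → Wd n) (i : Fin k) : IsCompact (cA P i) := by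
  have h : cA P i = ((fun v => (v, (0 : Fin k → ℂ × ℝ))) '' K1 n) ∪
      ⋃ j : {j // j ≠ i}, range (cd (P j.1) j.1) := by
    ext p
    constructor
    · rintro (⟨h1, h2⟩ | ⟨j, hj, z, rfl⟩)
      · exact Or.inl ⟨p.1, h2, Prod.ext rfl h1.symm⟩
      · exact Or.inr (mem_iUnion.2 ⟨⟨j, hj⟩, z, rfl⟩)
    · rintro (⟨v, hv, rfl⟩ | h)
      · exact Or.inl ⟨rfl, hv⟩
      · obtain ⟨⟨j, hj⟩, z, rfl⟩ := mem_iUnion.1 h
        exact Or.inr ⟨j, hj, z, rfl⟩
  rw [h]
  exact (K1_compact.image (by fun_prop)).union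
    (isCompact_iUnion (fun j => isCompact_range (cd_continuous _ _)))

instance cA_compactSpace (P : Fin k → Wd n) (i : Fin k) : CompactSpace (cA P i) :=
  isCompact_iff_compactSpace.1 (cA_compact P i)

/-- a point of the one-skeleton -/
def apt (P : Fin k → Wd n) (i : Fin k) (v : Fin n → ℂ) (hv : v ∈ K1 n) : cA P i :=
  ⟨(v, 0), Or.inl ⟨rfl, hv⟩⟩

theorem cd_snd_zero {l : Wd n} {j : Fin k} {z : Disc 2} (hz : ‖z.1‖ = 1) : (cd l j z).2 = 0 := by
  obtain ⟨v, -, h⟩ := cd_boundary (l := l) (j := j) hz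
  rw [h]

theorem cA_sub {P P' : Fin k → Wd n} {i : Fin k} (h : ∀ j, j ≠ i → P' j = P j) {p : Amb n k}
    (hp : p ∈ cA P i) : p ∈ carrier P' := by
  rcases hp with h1 | ⟨j, hj, z, h1⟩
  · exact Or.inl h1
  · exact Or.inr ⟨j, z, by rw [h j hj]; exact h1⟩

/-- the inclusion of the subcomplex -/
def attα (P P' : Fin k → Wd n) (i : Fin k) (h : ∀ j, j ≠ i → P' j = P j) (a : cA P i) :
    (kp P').X := (⟨a.1, cA_sub h a.2⟩ : carrier P')

/-- the disc -/
noncomputable def attχ (P' : Fin k → Wd n) (i : Fin k) (z : Disc 2) : (kp P').X :=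
  (⟨cd (P' i) i z, Or.inr ⟨i, z, rfl⟩⟩ : carrier P')

theorem attα_val {P P' : Fin k → Wd n} {i : Fin k} {h : ∀ j, j ≠ i → P' j = P j} {a : cA P i}
    {x : (kp P').X} : attα P P' i h a = x ↔ a.1 = (x : carrier P').1 :=
  ⟨fun h1 => congrArg (fun p : (kp P').X => (p : carrier P').1) h1, fun h1 => Subtype.ext h1⟩

/-- the attaching data -/
noncomputable def att (P P' : Fin k → Wd n) (i : Fin k) (h : ∀ j, j ≠ i → P' j = P j) :
    Att (cA P i) (kp P').X (fun t => apt P i (wl (P' i) t) (wl_mem _ t)) where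
  α := attα P P' i h
  χ := attχ P' i
  cα := Continuous.subtype_mk continuous_subtype_val _
  cχ := Continuous.subtype_mk (cd_continuous _ _) _
  inj _ _ hab := Subtype.ext (attα_val.1 hab)
  cov := by
    rintro ⟨p, hp⟩
    rcases hp with h1 | ⟨j, z, h1⟩
    · exact Or.inl ⟨⟨p, Or.inl h1⟩, rfl⟩
    · by_cases hj : j = i
      · subst hj
        exact Or.inr ⟨z, Subtype.ext h1.symm⟩
      · exact Or.inl ⟨⟨p, Or.inr ⟨j, hj, z, by rw [← h j hj]; exact h1⟩⟩, rfl⟩
  injχ z z' hzz := by
    have h1 : cd (P' i) i z = cd (P' i) i z' :=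
      congrArg (fun p : (kp P').X => (p : carrier P').1) hzz
    rcases z.norm_le.lt_or_eq with h2 | h2
    · rcases z'.norm_le.lt_or_eq with h3 | h3
      · exact Or.inl (cd_inj h2 h3 h1).2
      · exact absurd ((congrArg Prod.snd h1).trans (cd_snd_zero h3)) (cd_snd_ne h2)
    · obtain ⟨v, hv, h3⟩ := cd_boundary (l := P' i) (j := i) h2
      exact Or.inr ⟨⟨(v, 0), Or.inl ⟨rfl, hv⟩⟩, Subtype.ext h3.symm⟩
  bd t := Subtype.ext (cd_circ _ _ _)
  int z hz := by
    rintro ⟨⟨p, hp⟩, h1⟩
    have h2 : p = cd (P' i) i z := attα_val.1 h1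
    rcases hp with h3 | ⟨j, hj, z', h3⟩
    · rw [h2] at h3
      exact cd_snd_ne hz h3.1
    · rw [h2] at h3
      rcases z'.norm_le.lt_or_eq with h4 | h4
      · exact hj (cd_inj hz h4 h3).1.symm
      · exact cd_snd_ne hz ((congrArg Prod.snd h3).trans (cd_snd_zero h4))

/-- the path of a word in the subcomplex -/
noncomputable def wa (P : Fin k → Wd n) (i : Fin k) (l : Wd n) :
    Path (apt P i 0 (Or.inl rfl)) (apt P i 0 (Or.inl rfl)) where
  toFun t := apt P i (wp l t) (wp_mem l t)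
  continuous_toFun := Continuous.subtype_mk ((wp l).continuous.prodMk continuous_const) _
  source' := by
    apply Subtype.ext
    show (wp l 0, (0 : Fin k → ℂ × ℝ)) = (0, 0)
    rw [Path.source]
  target' := by
    apply Subtype.ext
    show (wp l 1, (0 : Fin k → ℂ × ℝ)) = (0, 0)
    rw [Path.target]

/-- the path of a letter in the subcomplex -/
noncomputable def la (P : Fin k → Wd n) (i : Fin k) (a : Fin n × Bool) :
    Path (apt P i 0 (Or.inl rfl)) (apt P i 0 (Or.inl rfl)) where
  toFun t := apt P i (lp a t) (lp_mem a t)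
  continuous_toFun := Continuous.subtype_mk ((lp a).continuous.prodMk continuous_const) _
  source' := by
    apply Subtype.ext
    show (lp a 0, (0 : Fin k → ℂ × ℝ)) = (0, 0)
    rw [Path.source]
  target' := by
    apply Subtype.ext
    show (lp a 1, (0 : Fin k → ℂ × ℝ)) = (0, 0)
    rw [Path.target]

theorem wa_nil (P : Fin k → Wd n) (i : Fin k) : wa P i [] = Path.refl _ := rfl

theorem wa_cons (P : Fin k → Wd n) (i : Fin k) (a : Fin n × Bool) (l : Wd n) :
    wa P i (a :: l) = (la P i a).trans (wa P i l) := by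
  refine Path.ext (funext fun t => Subtype.ext ?_)
  have h1 : ((wa P i (a :: l)) t).1 = (((lp a).trans (wp l)) t, 0) := rfl
  have h2 : (((la P i a).trans (wa P i l)) t).1 = (((lp a).trans (wp l)) t, 0) := by
    rw [Path.trans_apply, Path.trans_apply]
    split_ifs <;> rfl
  exact h1.trans h2.symm

theorem la_symm (P : Fin k → Wd n) (i : Fin k) (a : Fin n) :
    la P i (a, false) = (la P i (a, true)).symm := by
  refine Path.ext (funext fun t => Subtype.ext ?_)
  apply congrArg (fun v => (v, (0 : Fin k → ℂ × ℝ)))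
  show cg a (1 - (t : ℝ)) = cg a ((unitInterval.symm t : unitInterval) : ℝ)
  rw [unitInterval.coe_symm_eq]

/-- the value of a word -/
def ev {Q : Type} [Group Q] (x : Fin n → Q) (l : Wd n) : Q := FreeGroup.lift x (FreeGroup.mk l)

theorem ev_nil {Q : Type} [Group Q] (x : Fin n → Q) : ev x [] = 1 := map_one _

theorem ev_cons {Q : Type} [Group Q] (x : Fin n → Q) (i : Fin n) (b : Bool) (l : Wd n) :
    ev x ((i, b) :: l) = cond b (x i) (x i)⁻¹ * ev x l := by
  unfold ev
  rw [FreeGroup.lift_mk, FreeGroup.lift_mk, List.map_cons, List.prod_cons]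

instance disc_contractible : ContractibleSpace (Disc 2) :=
  (convex_closedBall (0 : EuclideanSpace ℝ (Fin 2)) 1).contractibleSpace ⟨0, by simp⟩

/-- the class of a loop -/
noncomputable def cls (P : Fin k → Wd n) (i : Fin k)
    (p : Path (apt P i 0 (Or.inl rfl)) (apt P i 0 (Or.inl rfl))) :
    (FundamentalGroup (cA P i) (apt P i 0 (Or.inl rfl)))ᵐᵒᵖ :=
  MulOpposite.op (FundamentalGroup.fromPath (Path.Homotopic.Quotient.mk p))

theorem cls_trans (P : Fin k → Wd n) (i : Fin k)
    (p q : Path (apt P i 0 (Or.inl rfl)) (apt P i 0 (Or.inl rfl))) :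
    cls P i (p.trans q) = cls P i p * cls P i q := by
  unfold cls
  rw [← MulOpposite.op_mul, FundamentalGroup.mul_def]
  rfl

theorem ev_wa (P : Fin k → Wd n) (i : Fin k) (l : Wd n) :
    ev (fun a => cls P i (la P i (a, true))) l = cls P i (wa P i l) := by
  induction l with
  | nil =>
    rw [ev_nil, wa_nil]
    rfl
  | cons a l ih =>
    obtain ⟨a, b⟩ := a
    rw [ev_cons, ih, wa_cons, cls_trans]
    congr 1
    cases b
    · simp only [cond_false]
      rw [la_symm]
      unfold cls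
      rw [← MulOpposite.op_inv, FundamentalGroup.inv_def]
      rfl
    · rfl

theorem cls_relator (P : Fin k → Wd n) {i j : Fin k} (hj : j ≠ i) :
    cls P i (wa P i (P j)) = 1 := by
  let κ : C(Disc 2, cA P i) := ⟨fun z => ⟨cd (P j) j z, Or.inr ⟨j, hj, z, rfl⟩⟩,
    Continuous.subtype_mk (cd_continuous _ _) _⟩
  have hκ : ∀ t, κ (circ t) = apt P i (wl (P j) t) (wl_mem _ t) := fun t =>
    Subtype.ext (cd_circ _ _ _)
  have h10 : circ 1 = circ 0 := by simpa using circ_add_one 0
  let cp : Path (circ 0) (circ 0) :=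
    { toFun := fun t => circ t
      continuous_toFun := circ_continuous.comp continuous_subtype_val
      source' := rfl
      target' := h10 }
  have h1 : cp.Homotopic (Path.refl _) := SimplyConnectedSpace.paths_homotopic _ _
  have h2 : apt P i 0 (Or.inl rfl) = κ (circ 0) := by
    rw [hκ]
    apply Subtype.ext
    show ((0 : Fin n → ℂ), (0 : Fin k → ℂ × ℝ)) = (wl (P j) 0, 0)
    rw [wl_zero]
  have h3 := (h1.map κ).pathCast h2 h2
  have h4 : (cp.map κ.continuous).cast h2 h2 = wa P i (P j) := by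
    refine Path.ext (funext fun t => Subtype.ext ?_)
    show (κ (circ t)).1 = (wp (P j) t, (0 : Fin k → ℂ × ℝ))
    rw [hκ, ← wl_eq]
    rfl
  have h5 : ((Path.refl (circ 0)).map κ.continuous).cast h2 h2 = Path.refl _ := by
    refine Path.ext (funext fun t => Subtype.ext ?_)
    exact congrArg Subtype.val h2.symm
  rw [h4, h5] at h3
  unfold cls
  rw [Path.Homotopic.Quotient.eq.2 h3]
  rfl

/-- Changing a relator modulo the other ones. -/
theorem contr_step {P P' : Fin k → Wd n} (i : Fin k) (h : ∀ j, j ≠ i → P' j = P j)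
    (hQ : ∀ (Q : Type) [Group Q] (x : Fin n → Q), (∀ j, j ≠ i → ev x (P j) = 1) →
      ev x (P i) = ev x (P' i)) (hc : ContractibleSpace (kp P').X) :
    ContractibleSpace (kp P).X := by
  have h1 := hQ _ (fun a => cls P i (la P i (a, true)))
    (fun j hj => by rw [ev_wa]; exact cls_relator P hj)
  rw [ev_wa, ev_wa] at h1
  obtain ⟨F⟩ := Path.Homotopic.Quotient.eq.1 (MulOpposite.op_injective h1)
  let g : ℝ → C(unitInterval, cA P i) := fun t =>
    ⟨fun s => F (s, projIcc 0 1 zero_le_one t), F.continuous.comp (by fun_prop)⟩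
  have hg : Continuous g := by
    apply ContinuousMap.continuous_of_continuous_uncurry
    exact F.continuous.comp (continuous_snd.prodMk (continuous_projIcc.comp continuous_fst))
  have hg01 : g 0 = g 1 := by
    ext s : 1
    show F (s, projIcc 0 1 zero_le_one 0) = F (s, projIcc 0 1 zero_le_one 1)
    rw [projIcc_left, projIcc_right]
    exact (F.source s).trans (F.target s).symm
  have hgf := fract_loop hg hg01
  let Φ : ℝ → ℝ → cA P i := fun s t => g (Int.fract t) (projIcc 0 1 zero_le_one s)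
  have hΦ : Continuous fun q : ℝ × ℝ => Φ q.1 q.2 := by
    have h2 : Continuous fun q : ℝ × ℝ => (g (Int.fract q.2), projIcc (0 : ℝ) 1 zero_le_one q.1) :=
      (hgf.comp continuous_snd).prodMk (continuous_projIcc.comp continuous_fst)
    exact ContinuousEval.continuous_eval.comp h2
  have hfr : ∀ t : ℝ, projIcc (0 : ℝ) 1 zero_le_one (Int.fract t) =
      ⟨Int.fract t, Int.fract_nonneg t, (Int.fract_lt_one t).le⟩ := fun t =>
    projIcc_of_mem _ ⟨Int.fract_nonneg t, (Int.fract_lt_one t).le⟩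
  have hwl : ∀ (l : Wd n) (t : ℝ), (wa P i l) (projIcc (0 : ℝ) 1 zero_le_one (Int.fract t)) =
      apt P i (wl l t) (wl_mem l t) := by
    intro l t
    apply Subtype.ext
    show (wp l (projIcc (0 : ℝ) 1 zero_le_one (Int.fract t)), (0 : Fin k → ℂ × ℝ)) = (wl l t, 0)
    rfl
  refine (att P P i (fun _ _ => rfl)).contractible (att P P' i h) (Φ := Φ) hΦ ?_ ?_ ?_ hc
  · intro s t
    simp only [Φ, Int.fract_add_one]
  · intro t
    show F (projIcc 0 1 zero_le_one 0, projIcc 0 1 zero_le_one (Int.fract t)) = _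
    rw [projIcc_left, ← hwl]
    exact F.apply_zero _
  · intro t
    show F (projIcc 0 1 zero_le_one 1, projIcc 0 1 zero_le_one (Int.fract t)) = _
    rw [projIcc_right, ← hwl]
    exact F.apply_one _

end Pool.Agent.Run7.h41.Mod
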