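import Pool.Agent.Run7.h41.Model

/-!
# The words of the two-cells of a presentation complex
-/

set_option autoImplicit false

namespace Pool.Agent.Run7.h41.Mod

open Set Pool.Agent.Run7.h41.CW Pool.Agent.Run7.h41.Top

variable {n k : ℕ}

/-- a point of the one-skeleton -/
def k1pt (P : Fin k → Wd n) (v : Fin n → ℂ) (hv : v ∈ K1 n) : (kp P).X :=
  (⟨(v, 0), Or.inl ⟨rfl, hv⟩⟩ : carrier P)

/-- the free group on the one-cells -/
abbrev FG (n : ℕ) : Type := FreeGroup (Fin n)

theorem th_cg (P : Fin k → Wd n) (i : Fin n) {t : ℝ} (h0 : 0 ≤ t) (h1 : t ≤ 1) :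
    th (kp P) (k1pt P (cg i t) (cg_mem i h0 h1)) = pr (FG n) (gp (FreeGroup.of i) t) := by
  have h2 : k1pt P (cg i t) (cg_mem i h0 h1) =
      (kp P).χ (n := 1) i (d1 (2 * t - 1) (by rw [abs_le]; constructor <;> linarith)) := by
    apply Subtype.ext
    show (cg i t, (0 : Fin k → ℂ × ℝ)) = (cg i (((d1 (2 * t - 1) _).1 0 + 1) / 2), 0)
    rw [d1_apply]
    congr 2
    ring
  rw [h2, th_one (K := kp P) i, d1_apply]
  show pr (FG n) _ = _
  congr 2
  ring

/-- the lift of a letter -/
noncomputable def lq (a : Fin n × Bool) : Path (e0 : EG (FG n)) (FreeGroup.mk [a] • e0) where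
  toFun t := cond a.2 (gp (FreeGroup.of a.1) t)
    ((FreeGroup.of a.1)⁻¹ • gp (FreeGroup.of a.1) (1 - t))
  continuous_toFun := by
    cases a.2
    · exact (smul_continuous _).comp ((gp_continuous _).comp
        (continuous_const.sub continuous_subtype_val))
    · exact (gp_continuous _).comp continuous_subtype_val
  source' := by
    cases h : a.2
    · simp [gp_one]
    · simp [gp_zero]
  target' := by
    obtain ⟨i, b⟩ := a
    cases b
    · have : (FreeGroup.mk [(i, false)] : FG n) = (FreeGroup.of i)⁻¹ := by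
        simp [FreeGroup.of, FreeGroup.inv_mk, FreeGroup.invRev]
      simp [gp_zero, this]
    · have : (FreeGroup.mk [(i, true)] : FG n) = FreeGroup.of i := rfl
      simp [gp_one, this]

theorem lq_pr (P : Fin k → Wd n) (a : Fin n × Bool) (t : unitInterval) :
    pr (FG n) (lq a t) = th (kp P) (k1pt P (lp a t) (lp_mem a t)) := by
  obtain ⟨i, b⟩ := a
  cases b
  · have h := th_cg P i (t := 1 - t) (by linarith [t.2.2]) (by linarith [t.2.1])
    refine Eq.trans ?_ h.symm
    exact pr_smul _ _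
  · have h := th_cg P i (t := t) t.2.1 t.2.2
    exact h.symm

/-- multiplication of a path -/
noncomputable def gpath {G : Type} [Group G] (g : G) {e e' : EG G} (p : Path e e') :
    Path (g • e) (g • e') := p.map (smul_continuous g)

theorem lift_word (P : Fin k → Wd n) (l : Wd n) :
    ∃ p : Path (e0 : EG (FG n)) (FreeGroup.mk l • e0), ∀ t,
      pr (FG n) (p t) = th (kp P) (k1pt P (wp l t) (wp_mem l t)) := by
  induction l with
  | nil =>
    refine ⟨(Path.refl e0).cast rfl (by
      rw [show (FreeGroup.mk [] : FG n) = 1 from rfl, one_smul]), fun t => ?_⟩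
    have h : k1pt P (wp [] t) (wp_mem [] t) = (kp P).χ (n := 0) () ⟨0, by simp⟩ := rfl
    rw [h, th_zero]
    rfl
  | cons a l ih =>
    obtain ⟨p, hp⟩ := ih
    have h1 : (FreeGroup.mk (a :: l) : FG n) • (e0 : EG (FG n)) =
        (FreeGroup.mk [a] : FG n) • ((FreeGroup.mk l : FG n) • (e0 : EG (FG n))) := by
      rw [← mul_smul]
      rfl
    refine ⟨((lq a).trans (gpath (FreeGroup.mk [a]) p)).cast rfl h1, fun t => ?_⟩
    show pr (FG n) (((lq a).trans (gpath (FreeGroup.mk [a]) p)) t) =
      th (kp P) (k1pt P (((lp a).trans (wp l)) t) _)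
    rw [Path.trans_apply]
    split_ifs with h
    · rw [lq_pr P a]
      congr 2
      rw [Path.trans_apply, dif_pos h]
    · have h2 : gpath (FreeGroup.mk [a]) p ⟨2 * t - 1, unitInterval.two_mul_sub_one_mem_iff.2
          ⟨(not_le.1 h).le, t.2.2⟩⟩ = (FreeGroup.mk [a] : FG n) •
          p ⟨2 * t - 1, unitInterval.two_mul_sub_one_mem_iff.2 ⟨(not_le.1 h).le, t.2.2⟩⟩ := rfl
      rw [h2, pr_smul, hp]
      congr 2
      rw [Path.trans_apply, dif_neg h]

theorem chi_circ (P : Fin k → Wd n) (j : Fin k) (t : ℝ) :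
    (kp P).χ (n := 2) j (circ t) = k1pt P (wl (P j) t) (wl_mem _ t) :=
  Subtype.ext (cd_circ (P j) j t)

theorem word_kp (P : Fin k → Wd n) (j : Fin k) : Word (kp P) j (FreeGroup.mk (P j) : FG n) := by
  obtain ⟨p, hp⟩ := lift_word P (P j)
  refine hasHol_of_path (G := FG n) (p := p.extend) (bd_continuous (K := kp P) j)
    (fun t => by simp only [circ_add_one]) p.continuous_extend.continuousOn ?_ ?_
  · intro t ht
    rw [Path.extend_apply _ ht]
    refine (hp ⟨t, ht⟩).trans ?_
    refine congrArg (th (kp P)) ?_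
    refine Eq.trans ?_ (chi_circ P j t).symm
    apply Subtype.ext
    show (wp (P j) ⟨t, ht⟩, (0 : Fin k → ℂ × ℝ)) = (wl (P j) t, 0)
    rw [← wl_eq]
  · rw [Path.extend_one, Path.extend_zero]
    rfl

end Pool.Agent.Run7.h41.Mod
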