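import Pool.Agent.Run7.h41.Key

/-!
# The non-extension statement

`Dn` is the closed ball of unit quaternions with real part at most `-1/2`; its boundary consists of the
elements of order three.
-/

set_option autoImplicit false

open Set Metric Filter Topology Quaternion

namespace Pool.Agent.Run7.h41

/-- quaternions from coordinates -/
def mkq (a b c d : ℝ) : ℍ[ℝ] := QuaternionAlgebra.mk a b c d

theorem norm_sq_q (z : ℍ[ℝ]) : ‖z‖ ^ 2 = z.re ^ 2 + z.imI ^ 2 + z.imJ ^ 2 + z.imK ^ 2 := by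
  rw [sq, ← Quaternion.normSq_eq_norm_mul_self, Quaternion.normSq_def']

theorem norm_mkq {a b c d : ℝ} (h : a ^ 2 + b ^ 2 + c ^ 2 + d ^ 2 = 1) : ‖mkq a b c d‖ = 1 := by
  have h1 : ‖mkq a b c d‖ ^ 2 = 1 := by
    rw [norm_sq_q]
    exact h
  nlinarith [norm_nonneg (mkq a b c d)]

/-- unit quaternions from coordinates -/
noncomputable def mkG (a b c d : ℝ) (h : a ^ 2 + b ^ 2 + c ^ 2 + d ^ 2 = 1) : Gam :=
  ⟨mkq a b c d, mem_sphere_zero_iff_norm.2 (norm_mkq h)⟩

theorem gam_sq (g : Gam) : (g : ℍ[ℝ]).re ^ 2 + (g : ℍ[ℝ]).imI ^ 2 + (g : ℍ[ℝ]).imJ ^ 2 +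
    (g : ℍ[ℝ]).imK ^ 2 = 1 := by
  rw [← norm_sq_q, norm_gam, one_pow]

theorem q_ext {a b : ℍ[ℝ]} (h0 : a.re = b.re) (h1 : a.imI = b.imI) (h2 : a.imJ = b.imJ)
    (h3 : a.imK = b.imK) : a = b := QuaternionAlgebra.ext h0 h1 h2 h3

theorem gam_ext {a b : Gam} (h0 : (a : ℍ[ℝ]).re = (b : ℍ[ℝ]).re)
    (h1 : (a : ℍ[ℝ]).imI = (b : ℍ[ℝ]).imI) (h2 : (a : ℍ[ℝ]).imJ = (b : ℍ[ℝ]).imJ)
    (h3 : (a : ℍ[ℝ]).imK = (b : ℍ[ℝ]).imK) : a = b :=
  Subtype.ext (q_ext h0 h1 h2 h3)

section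
variable (a b : Gam)
@[simp] theorem g_mul : ((a * b : Gam) : ℍ[ℝ]) = (a : ℍ[ℝ]) * (b : ℍ[ℝ]) := rfl
@[simp] theorem g_neg : ((-a : Gam) : ℍ[ℝ]) = -(a : ℍ[ℝ]) := rfl
@[simp] theorem g_one : ((1 : Gam) : ℍ[ℝ]) = 1 := rfl
theorem g_inv : ((a⁻¹ : Gam) : ℍ[ℝ]) = star (a : ℍ[ℝ]) := by
  have h1 : ((a⁻¹ : Gam) : ℍ[ℝ]) = (a : ℍ[ℝ])⁻¹ := rfl
  have h2 : (a : ℍ[ℝ])⁻¹ = (Quaternion.normSq (a : ℍ[ℝ]))⁻¹ • star (a : ℍ[ℝ]) := rfl
  rw [h1, h2, Quaternion.normSq_eq_norm_mul_self, norm_gam]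
  simp
end

@[simp] theorem mkG_re {a b c d : ℝ} (h) : ((mkG a b c d h : Gam) : ℍ[ℝ]).re = a := rfl
@[simp] theorem mkG_I {a b c d : ℝ} (h) : ((mkG a b c d h : Gam) : ℍ[ℝ]).imI = b := rfl
@[simp] theorem mkG_J {a b c d : ℝ} (h) : ((mkG a b c d h : Gam) : ℍ[ℝ]).imJ = c := rfl
@[simp] theorem mkG_K {a b c d : ℝ} (h) : ((mkG a b c d h : Gam) : ℍ[ℝ]).imK = d := rfl

theorem sqrt2 : √2 * √2 = 2 := Real.mul_self_sqrt (by norm_num)

/-- `(1 + i) / √2` -/
noncomputable def tq : Gam := mkG (√2 / 2) (√2 / 2) 0 0 (by nlinarith [sqrt2])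

/-- `(1 + i + j + k) / 2` -/
noncomputable def sg : Gam := mkG (1 / 2) (1 / 2) (1 / 2) (1 / 2) (by norm_num)

theorem t2 : tq * tq = mkG 0 1 0 0 (by norm_num) := by
  have h2 := sqrt2
  apply gam_ext <;> simp [tq] <;> nlinarith

theorem t4 : tq * tq * tq * tq = -1 := by
  rw [mul_assoc (tq * tq), t2]
  apply gam_ext <;> simp

theorem s3 : sg * sg * sg = -1 := by
  apply gam_ext <;> simp [sg] <;> norm_num

theorem st2 : (sg * tq) * (sg * tq) = -1 := by
  have h2 := sqrt2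
  apply gam_ext <;> simp [sg, tq] <;> nlinarith

theorem re_tinv : ((tq⁻¹ : Gam) : ℍ[ℝ]).re = √2 / 2 := by
  rw [g_inv]
  simp [tq]

/-- elements of real part `-1/2` have order three -/
theorem y3 {y : Gam} (h : (y : ℍ[ℝ]).re = -1 / 2) : y * y * y = 1 := by
  have h1 := gam_sq y
  have h2 : (y : ℍ[ℝ]) * (y : ℍ[ℝ]) = -(y : ℍ[ℝ]) - 1 := by
    apply q_ext
    · simp only [Quaternion.re_mul, Quaternion.re_sub, Quaternion.re_neg, Quaternion.re_one]
      rw [h] at h1 ⊢
      nlinarith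
    · simp only [Quaternion.imI_mul, Quaternion.imI_sub, Quaternion.imI_neg, Quaternion.imI_one]
      rw [h]
      ring
    · simp only [Quaternion.imJ_mul, Quaternion.imJ_sub, Quaternion.imJ_neg, Quaternion.imJ_one]
      rw [h]
      ring
    · simp only [Quaternion.imK_mul, Quaternion.imK_sub, Quaternion.imK_neg, Quaternion.imK_one]
      rw [h]
      ring
  apply Subtype.ext
  rw [g_mul, g_mul, h2, sub_mul, neg_mul, h2, one_mul]
  simp

/-- the closed ball of unit quaternions of real part at most `-1/2` -/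
abbrev Dn : Type := {y : Gam // (y : ℍ[ℝ]).re ≤ -1 / 2}

theorem continuous_re : Continuous (fun y : Gam => (y : ℍ[ℝ]).re) :=
  Quaternion.continuous_re.comp continuous_subtype_val

/-- **No extension.** The map `(y, x) ↦ (t y, x)` on the boundary of `Dn`, times `Γ ^ J`, has no
extension to `Dn × Γ ^ J` which avoids the central tuples. -/
theorem noExt {J : Type} [Fintype J] [DecidableEq J] (F : Dn × (J → Gam) → (Option J → Gam))
    (hF : Continuous F)
    (hb : ∀ (y : Dn) (x : J → Gam), ((y : Gam) : ℍ[ℝ]).re = -1 / 2 →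
      F (y, x) none = tq * (y : Gam) ∧ ∀ j, F (y, x) (some j) = x j)
    (hE : ∀ d, ∃ o, F d o ≠ 1 ∧ F d o ≠ -1) : False := by
  -- the map
  let yy : (Option J → Gam) → Gam := fun z => tq⁻¹ * z none
  have hyc : Continuous yy := continuous_const.mul (continuous_apply none)
  let A : Set (Option J → Gam) := {z | ((yy z : Gam) : ℍ[ℝ]).re ≤ -1 / 2}
  let B : Set (Option J → Gam) := {z | -1 / 2 ≤ ((yy z : Gam) : ℍ[ℝ]).re}
  have hA : IsClosed A := isClosed_le (continuous_re.comp hyc) continuous_const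
  have hB : IsClosed B := isClosed_le continuous_const (continuous_re.comp hyc)
  classical
  let G : (Option J → Gam) → (Option J → Gam) := fun z =>
    if h : ((yy z : Gam) : ℍ[ℝ]).re ≤ -1 / 2 then F (⟨yy z, h⟩, fun j => z (some j)) else z
  have hGA : ∀ z (h : z ∈ A), G z = F (⟨yy z, h⟩, fun j => z (some j)) := fun z h => dif_pos h
  have hGB : ∀ z ∈ B, G z = z := by
    intro z hz
    by_cases h : z ∈ A
    · rw [hGA z h]
      obtain ⟨h1, h2⟩ := hb ⟨yy z, h⟩ (fun j => z (some j)) (le_antisymm h hz)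
      funext o
      cases o with
      | none => rw [h1]; simp [yy]
      | some j => rw [h2]
    · exact dif_neg h
  have hGc : Continuous G := by
    have hu : A ∪ B = univ := by
      ext z
      simp only [mem_union, mem_univ, iff_true]
      exact le_total ((yy z : Gam) : ℍ[ℝ]).re (-1 / 2)
    rw [← continuousOn_univ, ← hu]
    apply ContinuousOn.union_of_isClosed _ _ hA hB
    · rw [continuousOn_iff_continuous_domRestrict]
      have : A.domRestrict G = fun z : A => F (⟨yy z, z.2⟩, fun j => z.1 (some j)) := by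
        funext z
        exact hGA z.1 z.2
      rw [this]
      apply hF.comp
      apply Continuous.prodMk
      · exact (hyc.comp continuous_subtype_val).subtype_mk _
      · exact continuous_pi fun j => (continuous_apply _).comp continuous_subtype_val
    · exact continuousOn_id.congr hGB
  refine key hGc none (O := {z | -1 / 2 < ((yy z : Gam) : ℍ[ℝ]).re})
    (isOpen_lt continuous_const (continuous_re.comp hyc)) ?_ ?_ ?_ ?_
  · show -1 / 2 < ((tq⁻¹ * 1 : Gam) : ℍ[ℝ]).re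
    rw [mul_one, re_tinv]
    have := Real.sqrt_nonneg 2
    linarith
  · intro z hz
    have hz' : -1 / 2 < ((yy z : Gam) : ℍ[ℝ]).re := hz
    exact hGB z hz'.le
  · intro z hz
    by_contra hcon
    have hcon' : ¬ -1 / 2 < ((yy z : Gam) : ℍ[ℝ]).re := hcon
    have h1 : z ∈ A := not_lt.1 hcon'
    rw [hGA z h1] at hz
    obtain ⟨o, ho, -⟩ := hE (⟨yy z, h1⟩, fun j => z (some j))
    exact ho (congrFun hz o)
  · intro z hz
    by_cases h1 : z ∈ A
    · rw [hGA z h1] at hz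
      obtain ⟨o, ho, ho'⟩ := hE (⟨yy z, h1⟩, fun j => z (some j))
      have h2 := congrFun hz o
      cases o with
      | none => rw [Function.update_self] at h2; exact ho' h2
      | some j => rw [Function.update_of_ne (by simp)] at h2; exact ho h2
    · have h1' : ¬ ((yy z : Gam) : ℍ[ℝ]).re ≤ -1 / 2 := h1
      have h2 : z ∈ B := (not_le.1 h1').le
      rw [hGB z h2] at hz
      apply h1
      show ((yy z : Gam) : ℍ[ℝ]).re ≤ -1 / 2
      have h3 : yy z = -tq⁻¹ := by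
        show tq⁻¹ * z none = -tq⁻¹
        rw [hz, Function.update_self]
        apply Subtype.ext
        rw [g_mul, g_neg, g_neg, g_one, mul_neg, mul_one]
      rw [h3, g_neg, Quaternion.re_neg, re_tinv]
      have := Real.one_le_sqrt.2 (show (1 : ℝ) ≤ 2 by norm_num)
      linarith

end Pool.Agent.Run7.h41
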