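import Mathlib

/-!
# Commutative algebra for the finiteness theorem
-/

namespace Run7.h41.PF

universe u v w

/-- The determinant trick gives a minimal prime of the annihilator. -/
theorem minimal_of {R : Type u} {B : Type v} [CommRing R] [IsNoetherianRing R] [AddCommGroup B]
    [Module R B] [Module.Finite R B] (I : Ideal R) [hI : I.IsPrime] (C : Submodule R B)
    (h1 : Module.annihilator R B ≤ I) (h2 : ∀ x ∈ I, ∀ b : B, x • b ∈ C)
    (g : R) (hg : g ∉ I) (h3 : ∀ c ∈ C, g • c ∈ I • C) :
    I ∈ (Module.annihilator R B).minimalPrimes := by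
  classical
  have hfin : Module.Finite R C := inferInstance
  let f : Module.End R C := algebraMap R (Module.End R C) g
  have hf : ∀ c : C, f c = g • c := fun c => rfl
  have hr : LinearMap.range f ≤ I • (⊤ : Submodule R C) := by
    rintro _ ⟨c, rfl⟩
    have h4 := h3 c c.2
    have h5 : (I • (⊤ : Submodule R C)).map C.subtype = I • C := by
      rw [Submodule.map_smul'', Submodule.map_top, Submodule.range_subtype]
    rw [← h5, Submodule.mem_map] at h4
    obtain ⟨y, hy, hy2⟩ := h4
    have : f c = y := by
      apply Subtype.ext
      rw [← show C.subtype y = (y : B) from rfl, hy2]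
      rfl
    rw [this]; exact hy
  obtain ⟨p, hpm, -, hpc, hp0⟩ :=
    LinearMap.exists_monic_and_natDegree_eq_and_coeff_mem_pow_and_aeval_eq_zero R f I hr
  set g0 : R := Polynomial.aeval g p with hg0
  have hkill : ∀ c ∈ C, g0 • c = 0 := by
    intro c hc
    have h6 : Polynomial.aeval f p = algebraMap R (Module.End R C) g0 := by
      rw [hg0, Polynomial.aeval_algebraMap_apply]
    have h7 : (algebraMap R (Module.End R C) g0) ⟨c, hc⟩ = 0 := by
      rw [← h6]
      rw [hp0]; rfl
    have h8 := congrArg (fun z : C => (z : B)) h7
    simpa using h8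
  have hg0I : g0 ∉ I := by
    intro hmem
    apply hg
    have h9 : g0 - g ^ p.natDegree ∈ I := by
      rw [hg0, Polynomial.aeval_eq_sum_range, Finset.sum_range_succ, hpm.coeff_natDegree, one_smul,
        add_sub_cancel_right]
      refine I.sum_mem fun k hk => ?_
      rw [Finset.mem_range] at hk
      rw [smul_eq_mul]
      refine I.mul_mem_right _ ?_
      exact Ideal.pow_le_self (by omega) (hpc k)
    have h10 : g ^ p.natDegree ∈ I := by
      have := I.sub_mem hmem h9
      simpa using this
    exact hI.mem_of_pow_mem _ h10
  refine ⟨⟨hI, h1⟩, ?_⟩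
  rintro q ⟨hq, hq1⟩ hqI x hx
  have h11 : g0 * x ∈ Module.annihilator R B := by
    rw [Module.mem_annihilator]
    intro b
    rw [mul_smul]
    exact hkill _ (h2 x hx b)
  rcases hq.mem_or_mem (hq1 h11) with h | h
  · exact absurd (hqI h) hg0I
  · exact h

/-- The group ring over the integers of a finitely generated torsion-free abelian group. -/
theorem noZeroDivisors_of_tf (A : Type u) [CommGroup A] [IsMulTorsionFree A] [Group.FG A] :
    NoZeroDivisors (MonoidAlgebra ℤ A) := by
  have h1 : Module.Finite ℤ (Additive A) := by
    rw [Module.Finite.iff_addGroup_fg]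
    exact AddGroup.fg_iff_mul_fg.mpr (by infer_instance) |> fun h => h
  have h2 : Module.IsTorsionFree ℤ (Additive A) := inferInstance
  have h3 : Module.Free ℤ (Additive A) := inferInstance
  let b := Module.Free.chooseBasis ℤ (Additive A)
  have h4 : TwoUniqueSums (Module.Free.ChooseBasisIndex ℤ (Additive A) →₀ ℤ) := inferInstance
  have h5 : TwoUniqueSums (Additive A) :=
    TwoUniqueSums.of_injective_addHom (b.repr.toLinearMap.toAddMonoidHom : Additive A →ₙ+ _)
      b.repr.injective h4
  have h6 : UniqueProds A := by
    have : TwoUniqueProds (Multiplicative (Additive A)) := inferInstance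
    have : UniqueProds (Multiplicative (Additive A)) := inferInstance
    exact this
  infer_instance

end Run7.h41.PF
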