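import Pool.Agent.Run7.h41.QA

/-!
# The module `N' / N''` over the group ring of `N / N'`
-/

namespace Run7.h41.PF

universe u v w

open MonoidAlgebra

section
variable (N : Type u) [Group N]

/-- `N' / N''`, written additively. -/
abbrev BB := Additive (Abelianization (commutator N))

/-- The action of `N` on `N' / N''` by conjugation. -/
noncomputable def actHom : N →* Module.End ℤ (BB N) where
  toFun g := (MonoidHom.toAdditive (Abelianization.map
    (MulAut.conjNormal g : MulAut (commutator N)).toMonoidHom)).toIntLinearMap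
  map_one' := by
    ext x
    obtain ⟨y, rfl⟩ := Additive.ofMul.surjective x
    obtain ⟨z, rfl⟩ := QuotientGroup.mk_surjective y
    simp
    rfl
  map_mul' g h := by
    ext x
    obtain ⟨y, rfl⟩ := Additive.ofMul.surjective x
    obtain ⟨z, rfl⟩ := QuotientGroup.mk_surjective y
    simp
    rfl

/-- The class in `N' / N''` of an element of `N'`. -/
noncomputable def cl (c : commutator N) : BB N := Additive.ofMul (Abelianization.of c)

variable {N}

theorem cl_surj (b : BB N) : ∃ c, cl N c = b := by
  obtain ⟨y, rfl⟩ := Additive.ofMul.surjective b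
  obtain ⟨z, rfl⟩ := QuotientGroup.mk_surjective y
  exact ⟨z, rfl⟩

theorem cl_mul (c d : commutator N) : cl N (c * d) = cl N c + cl N d := by
  simp [cl]

theorem cl_one : cl N 1 = 0 := by simp [cl]

theorem cl_inv (c : commutator N) : cl N c⁻¹ = - cl N c := by simp [cl]

theorem actHom_cl (g : N) (c : commutator N) :
    actHom N g (cl N c) = cl N (MulAut.conjNormal g c) := rfl

theorem actHom_comm (g : commutator N) : actHom N g = 1 := by
  ext x
  obtain ⟨c, rfl⟩ := cl_surj x
  rw [actHom_cl]
  have h : (MulAut.conjNormal (g : N) c : commutator N) = g * c * g⁻¹ := by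
    apply Subtype.ext
    simp [MulAut.conjNormal_apply]
  rw [h, cl_mul, cl_mul, cl_inv]
  simp

/-- The representation of `N / N'` on `N' / N''`. -/
noncomputable def rho : Representation ℤ (Abelianization N) (BB N) :=
  QuotientGroup.lift (commutator N) (actHom N) (fun g hg => actHom_comm ⟨g, hg⟩)

theorem rho_of (g : N) : rho (Abelianization.of g) = actHom N g := rfl

/-- `N' / N''` as a module over the group ring. -/
abbrev BM (N : Type u) [Group N] := (rho (N := N)).asModule

/-- The class of an element of `N'`. -/
noncomputable def cm (c : commutator N) : BM N := (rho (N := N)).asModuleEquiv.symm (cl N c)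

theorem cm_surj (b : BM N) : ∃ c, cm c = b := by
  obtain ⟨c, hc⟩ := cl_surj ((rho (N := N)).asModuleEquiv b)
  exact ⟨c, by rw [cm, hc]; simp⟩

theorem cm_mul (c d : commutator N) : cm (c * d) = cm c + cm d := by
  simp [cm, cl_mul]

theorem cm_one : cm (1 : commutator N) = 0 := by simp [cm, cl_one]

theorem cm_inv (c : commutator N) : cm c⁻¹ = - cm c := by
  rw [eq_neg_iff_add_eq_zero, ← cm_mul, inv_mul_cancel, cm_one]

/-- The image in the group ring. -/
noncomputable abbrev gr (g : N) : MonoidAlgebra ℤ (Abelianization N) :=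
  MonoidAlgebra.of ℤ _ (Abelianization.of g)

theorem gr_smul (g : N) (c : commutator N) : gr g • cm c = cm (MulAut.conjNormal g c) := by
  rw [cm, ← Representation.asModuleEquiv_symm_map_rho, rho_of, actHom_cl]
  rfl

theorem smul_cm_conj (g : N) (c : N) (hc : c ∈ commutator N) (hc' : g * c * g⁻¹ ∈ commutator N) :
    gr g • cm ⟨c, hc⟩ = cm ⟨g * c * g⁻¹, hc'⟩ := by
  rw [gr_smul]
  congr 1

end

end Run7.h41.PF
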