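import Pool.Agent.Run7.h41.QB

/-!
# Finite generation
-/

namespace Run7.h41.PF

universe u v w

open MonoidAlgebra

open scoped commutatorElement

/-- A normal subgroup which contains the commutators of the generators contains the commutator
subgroup. -/
theorem commutator_le_of_gen {G : Type u} [Group G] (S : Set G) (hS : Subgroup.closure S = ⊤)
    (K : Subgroup G) [K.Normal] (h : ∀ x ∈ S, ∀ y ∈ S, ⁅x, y⁆ ∈ K) : commutator G ≤ K := by
  have h1 : ∀ x y : G, ⁅x, y⁆ ∈ K := by
    intro x y
    have hx : x ∈ Subgroup.closure S := by rw [hS]; trivial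
    have hy : y ∈ Subgroup.closure S := by rw [hS]; trivial
    have key : ∀ a b : G, ⁅a, b⁆ ∈ K ↔ Commute (a : G ⧸ K) (b : G ⧸ K) := by
      intro a b
      rw [← QuotientGroup.eq_one_iff, ← commutatorElement_eq_one_iff_commute]
      rfl
    rw [key]
    refine Subgroup.closure_induction₂ (k := S)
      (p := fun a b _ _ => Commute (a : G ⧸ K) (b : G ⧸ K))
      ?_ ?_ ?_ ?_ ?_ ?_ ?_ hx hy
    · intro a b ha hb; rw [← key]; exact h a ha b hb
    · intro b _; exact Commute.one_left _
    · intro a _; exact Commute.one_right _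
    · intro a b c _ _ _ h1 h2; exact Commute.mul_left h1 h2
    · intro a b c _ _ _ h1 h2; exact Commute.mul_right h1 h2
    · intro a b _ _ h1; exact Commute.inv_left h1
    · intro a b _ _ h1; exact Commute.inv_right h1
  rw [commutator_def, Subgroup.commutator_le]
  intro x _ y _
  exact h1 x y

section
variable {N : Type u} [Group N]

theorem smul_mem_of (P : AddSubgroup (BM N)) (hP : ∀ g : N, ∀ b ∈ P, gr g • b ∈ P)
    (r : MonoidAlgebra ℤ (Abelianization N)) : ∀ b ∈ P, r • b ∈ P := by
  induction r using MonoidAlgebra.induction_on with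
  | of q =>
    obtain ⟨g, rfl⟩ := QuotientGroup.mk_surjective q
    exact hP g
  | add x y hx hy =>
    intro b hb
    rw [add_smul]
    exact P.add_mem (hx b hb) (hy b hb)
  | smul n x hx =>
    intro b hb
    rw [smul_assoc]
    exact P.zsmul_mem (hx b hb) n

/-- The elements of `K ∩ N'` in `N' / N''`. -/
noncomputable def Cadd (K : Subgroup N) : AddSubgroup (BM N) where
  carrier := {b | ∃ m, ∃ _ : m ∈ K, ∃ h : m ∈ commutator N, cm ⟨m, h⟩ = b}
  zero_mem' := ⟨1, K.one_mem, (commutator N).one_mem, cm_one⟩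
  add_mem' := by
    rintro _ _ ⟨m, hm, h, rfl⟩ ⟨m', hm', h', rfl⟩
    exact ⟨m * m', K.mul_mem hm hm', mul_mem h h', by rw [← cm_mul]; rfl⟩
  neg_mem' := by
    rintro _ ⟨m, hm, h, rfl⟩
    exact ⟨m⁻¹, K.inv_mem hm, inv_mem h, by rw [← cm_inv]; rfl⟩

theorem conj_mem_comm (g : N) {c : N} (hc : c ∈ commutator N) : g * c * g⁻¹ ∈ commutator N :=
  Subgroup.Normal.conj_mem inferInstance c hc g

theorem Cadd_stable (K : Subgroup N) [hK : K.Normal] (g : N) : ∀ b ∈ Cadd K, gr g • b ∈ Cadd K := by
  rintro _ ⟨m, hm, h, rfl⟩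
  exact ⟨g * m * g⁻¹, hK.conj_mem m hm g, conj_mem_comm g h, by rw [smul_cm_conj]⟩

/-- The submodule of `N' / N''` of the elements of `K ∩ N'`. -/
noncomputable def Csub (K : Subgroup N) [K.Normal] :
    Submodule (MonoidAlgebra ℤ (Abelianization N)) (BM N) :=
  { Cadd K with
    smul_mem' := fun r b hb => smul_mem_of (Cadd K) (Cadd_stable K) r b hb }

theorem mem_Csub {K : Subgroup N} [K.Normal] {b : BM N} :
    b ∈ Csub K ↔ ∃ m, ∃ _ : m ∈ K, ∃ h : m ∈ commutator N, cm ⟨m, h⟩ = b := Iff.rfl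

theorem finite_BM [hN : Group.FG N] : Module.Finite (MonoidAlgebra ℤ (Abelianization N)) (BM N) := by
  classical
  obtain ⟨S, hS⟩ := hN.out
  let T : Finset (BM N) := (S ×ˢ S).image fun p => cm ⟨⁅p.1, p.2⁆,
    Subgroup.commutator_mem_commutator (Subgroup.mem_top _) (Subgroup.mem_top _)⟩
  let W : Submodule (MonoidAlgebra ℤ (Abelianization N)) (BM N) := Submodule.span _ (T : Set (BM N))
  let K : Subgroup N :=
    { carrier := {n | ∃ h : n ∈ commutator N, cm ⟨n, h⟩ ∈ W}
      one_mem' := ⟨one_mem _, by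
        have : cm (1 : commutator N) ∈ W := by rw [cm_one]; exact W.zero_mem
        exact this⟩
      mul_mem' := by
        rintro a b ⟨ha, ha'⟩ ⟨hb, hb'⟩
        refine ⟨mul_mem ha hb, ?_⟩
        have := W.add_mem ha' hb'
        rw [← cm_mul] at this
        exact this
      inv_mem' := by
        rintro a ⟨ha, ha'⟩
        refine ⟨inv_mem ha, ?_⟩
        have := W.neg_mem ha'
        rw [← cm_inv] at this
        exact this }
  have hKn : K.Normal := by
    constructor
    rintro n ⟨hn, hn'⟩ g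
    refine ⟨conj_mem_comm g hn, ?_⟩
    rw [← smul_cm_conj g n hn]
    exact W.smul_mem _ hn'
  have h1 : commutator N ≤ K := by
    refine commutator_le_of_gen (S : Set N) hS K ?_
    intro x hx y hy
    refine ⟨Subgroup.commutator_mem_commutator (Subgroup.mem_top _) (Subgroup.mem_top _), ?_⟩
    refine Submodule.subset_span ?_
    simp only [T, Finset.coe_image, Set.mem_image, Finset.mem_coe, Finset.mem_product]
    exact ⟨(x, y), ⟨hx, hy⟩, rfl⟩
  refine ⟨⟨T, ?_⟩⟩
  rw [eq_top_iff]
  intro b _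
  obtain ⟨c, rfl⟩ := cm_surj b
  obtain ⟨h, h'⟩ := h1 c.2
  exact h'

end

end Run7.h41.PF
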