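import Pool.Agent.Run7.h41.QC

/-!
# The ideal of a quotient
-/

namespace Run7.h41.PF

universe u v w

open MonoidAlgebra

open scoped commutatorElement

section
variable {N : Type u} [Group N] {L : Type v} [Group L]

/-- The homomorphism of group rings induced by `π : N → L`. -/
noncomputable def eps (π : N →* L) :
    MonoidAlgebra ℤ (Abelianization N) →+* MonoidAlgebra ℤ (Abelianization L) :=
  MonoidAlgebra.mapDomainRingHom ℤ (Abelianization.map π)

/-- The kernel of this homomorphism. -/
noncomputable def II (π : N →* L) : Ideal (MonoidAlgebra ℤ (Abelianization N)) :=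
  RingHom.ker (eps π)

theorem eps_gr (π : N →* L) (g : N) : eps π (gr g) = gr (π g) := by
  simp [eps, gr, MonoidAlgebra.of_apply, MonoidAlgebra.mapDomainRingHom_apply]

theorem mem_II {π : N →* L} {x : MonoidAlgebra ℤ (Abelianization N)} :
    x ∈ II π ↔ eps π x = 0 := Iff.rfl

theorem comm_surj {π : N →* L} (hπ : Function.Surjective π) {c : L} (hc : c ∈ commutator L) :
    ∃ n ∈ commutator N, π n = c := by
  have h : (commutator N).map π = commutator L := by
    rw [commutator_def, Subgroup.map_commutator, commutator_def,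
      Subgroup.map_top_of_surjective π hπ]
  rw [← h] at hc
  exact hc

theorem gr_eq_iff {g h : N} : gr g = gr h ↔ Abelianization.of g = Abelianization.of h := by
  constructor
  · intro e
    exact MonoidAlgebra.of_injective e
  · intro e
    rw [gr, gr, e]

theorem of_eq_one {g : N} : Abelianization.of g = 1 ↔ g ∈ commutator N :=
  QuotientGroup.eq_one_iff g

theorem gr_comm {c : N} (hc : c ∈ commutator N) : gr c = 1 := by
  rw [gr, of_eq_one.mpr hc, map_one]

theorem gr_mul (g h : N) : gr (g * h) = gr g * gr h := by simp [gr]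

theorem gr_one : gr (1 : N) = 1 := by rw [gr, map_one, map_one]

theorem gr_sub_one_mem (π : N →* L) (g : N) : gr g - 1 ∈ II π ↔ π g ∈ commutator L := by
  rw [mem_II, map_sub, eps_gr, map_one, sub_eq_zero]
  rw [← of_eq_one, ← gr_one (N := L), gr_eq_iff, map_one]

/-- The group elements of `N / N'` with the same image differ by an element of the kernel. -/
theorem lift_ker {π : N →* L} (hπ : Function.Surjective π) {n : N} (hn : π n ∈ commutator L) :
    ∃ m ∈ π.ker, Abelianization.of m = Abelianization.of n := by
  obtain ⟨c, hc, hc2⟩ := comm_surj hπ hn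
  refine ⟨n * c⁻¹, ?_, ?_⟩
  · rw [MonoidHom.mem_ker, map_mul, map_inv, hc2, mul_inv_cancel]
  · rw [map_mul, map_inv, of_eq_one.mpr hc, inv_one, mul_one]

theorem diff_mem {π : N →* L} {m : N} (hm : m ∈ π.ker) (b : BM N) :
    (gr m - 1) • b ∈ Csub π.ker := by
  obtain ⟨⟨c, hc⟩, rfl⟩ := cm_surj b
  rw [sub_smul, one_smul, smul_cm_conj m c hc (conj_mem_comm m hc), sub_eq_add_neg, ← cm_inv,
    ← cm_mul]
  refine mem_Csub.mpr ⟨m * c * m⁻¹ * c⁻¹, ?_, ?_, rfl⟩
  · rw [mul_assoc, mul_assoc]
    refine mul_mem hm ?_
    rw [← mul_assoc]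
    exact Subgroup.Normal.conj_mem inferInstance _ (inv_mem hm) c
  · exact mul_mem (conj_mem_comm m hc) (inv_mem hc)

theorem II_smul_mem {π : N →* L} (hπ : Function.Surjective π) (x) (hx : x ∈ II π) (b : BM N) :
    x • b ∈ Csub π.ker := by
  classical
  -- a section
  have hs0 : ∀ q : Abelianization L, ∃ r : Abelianization N, Abelianization.map π r = q := by
    intro q
    obtain ⟨l, rfl⟩ := QuotientGroup.mk_surjective q
    obtain ⟨n, rfl⟩ := hπ l
    exact ⟨Abelianization.of n, rfl⟩
  choose s hs using hs0
  have key : ∀ y : MonoidAlgebra ℤ (Abelianization N), ∀ b : BM N,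
      (y - MonoidAlgebra.mapDomain s (MonoidAlgebra.mapDomain (Abelianization.map π) y)) • b
        ∈ Csub π.ker := by
    intro y
    induction y using MonoidAlgebra.induction_on with
    | of q =>
      intro b
      obtain ⟨g, rfl⟩ := QuotientGroup.mk_surjective q
      change (gr g - _) • b ∈ _
      set q' := s (Abelianization.map π (Abelianization.of g)) with hq'
      have e1 : MonoidAlgebra.mapDomain s (MonoidAlgebra.mapDomain (Abelianization.map π)
          (gr g)) = MonoidAlgebra.of ℤ _ q' := by
        simp [gr, MonoidAlgebra.of_apply, hq']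
      have e2 : (MonoidAlgebra.of ℤ (Abelianization N)) (QuotientGroup.mk g) = gr g := rfl
      rw [e2, e1]
      obtain ⟨g', hg'⟩ := QuotientGroup.mk_surjective q'
      have e3 : Abelianization.of g' = q' := hg'
      rw [← e3]
      change (gr g - gr g') • b ∈ _
      have e4 : π (g'⁻¹ * g) ∈ commutator L := by
        rw [← of_eq_one, map_mul, map_inv, map_mul, map_inv, ← Abelianization.map_of,
          ← Abelianization.map_of, e3, hq', hs, inv_mul_cancel]
      obtain ⟨m, hm, hm2⟩ := lift_ker hπ e4
      have e5 : gr g - gr g' = gr g' * (gr m - 1) := by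
        rw [mul_sub, mul_one, ← gr_mul]
        congr 1
        rw [gr_eq_iff, map_mul, hm2, map_mul, map_inv, mul_inv_cancel_left]
      rw [e5, mul_smul]
      exact (Csub π.ker).smul_mem _ (diff_mem hm b)
    | add x y hx hy =>
      intro b
      have := (Csub π.ker).add_mem (hx b) (hy b)
      rw [← add_smul] at this
      convert this using 2
      rw [MonoidAlgebra.mapDomain_add, MonoidAlgebra.mapDomain_add]
      abel
    | smul n x hx =>
      intro b
      have h1 : n • ((x - MonoidAlgebra.mapDomain s
          (MonoidAlgebra.mapDomain (Abelianization.map π) x)) • b) ∈ Csub π.ker :=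
        (Csub π.ker).toAddSubgroup.zsmul_mem (hx b) n
      rw [← smul_assoc, smul_sub] at h1
      rw [MonoidAlgebra.mapDomain_smul, MonoidAlgebra.mapDomain_smul]
      exact h1
  have h2 := key x b
  have h3 : MonoidAlgebra.mapDomain (Abelianization.map π) x = 0 := by
    have := mem_II.mp hx
    rwa [eps, MonoidAlgebra.mapDomainRingHom_apply] at this
  rw [h3, MonoidAlgebra.mapDomain_zero, sub_zero] at h2
  exact h2

/-- A derivation with values in the group ring of the abelianization. -/
def IsDer (D : L → MonoidAlgebra ℤ (Abelianization L)) : Prop :=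
  ∀ g h, D (g * h) = D g + gr g * D h

theorem IsDer.one {D : L → MonoidAlgebra ℤ (Abelianization L)} (hD : IsDer D) : D 1 = 0 := by
  have h := hD 1 1
  rw [mul_one, gr_one (N := L), one_mul] at h
  exact left_eq_add.mp h

theorem IsDer.inv {D : L → MonoidAlgebra ℤ (Abelianization L)} (hD : IsDer D) (g : L) :
    D g⁻¹ = - (gr g⁻¹ * D g) := by
  have h := hD g⁻¹ g
  rw [inv_mul_cancel, hD.one] at h
  exact (neg_eq_of_add_eq_zero_left h.symm).symm

theorem IsDer.conj {D : L → MonoidAlgebra ℤ (Abelianization L)} (hD : IsDer D) (g c : L)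
    (hc : c ∈ commutator L) : D (g * c * g⁻¹) = gr g * D c := by
  rw [hD, hD, hD.inv, gr_mul, gr_comm hc, mul_one]
  have : gr g * -(gr g⁻¹ * D g) = - D g := by
    rw [mul_neg, ← mul_assoc, ← gr_mul, mul_inv_cancel, gr_one (N := L), one_mul]
  rw [this]
  abel

/-- The homomorphism from `N' / N''` given by a derivation. -/
theorem exists_map (π : N →* L) {D : L → MonoidAlgebra ℤ (Abelianization L)} (hD : IsDer D) :
    ∃ φ : BM N →+ MonoidAlgebra ℤ (Abelianization L), (∀ c, φ (cm c) = D (π c)) ∧
      ∀ x b, φ (x • b) = eps π x * φ b := by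
  have hc : ∀ c : commutator N, π c ∈ commutator L := by
    intro c
    have h : (commutator N).map π ≤ commutator L := by
      rw [commutator_def, Subgroup.map_commutator, commutator_def]
      exact Subgroup.commutator_mono le_top le_top
    exact h ⟨c, c.2, rfl⟩
  let f : commutator N →* Multiplicative (MonoidAlgebra ℤ (Abelianization L)) :=
    { toFun := fun c => Multiplicative.ofAdd (D (π c))
      map_one' := by simp [hD.one]
      map_mul' := by
        intro a b
        rw [← ofAdd_add]
        congr 1
        rw [Subgroup.coe_mul, map_mul, hD, gr_comm (hc a), one_mul] }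
  let F : Additive (Abelianization (commutator N)) →+ MonoidAlgebra ℤ (Abelianization L) :=
    MonoidHom.toAdditiveLeft (Abelianization.lift f)
  let φ : BM N →+ MonoidAlgebra ℤ (Abelianization L) :=
    F.comp ((rho (N := N)).asModuleEquiv.toAddMonoidHom)
  have hφ : ∀ c, φ (cm c) = D (π c) := by
    intro c
    simp only [φ, AddMonoidHom.comp_apply, cm]
    change F ((rho (N := N)).asModuleEquiv ((rho (N := N)).asModuleEquiv.symm (cl N c))) = _
    rw [LinearEquiv.apply_symm_apply]
    rfl
  refine ⟨φ, hφ, ?_⟩
  intro x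
  induction x using MonoidAlgebra.induction_on with
  | of q =>
    intro b
    obtain ⟨g, rfl⟩ := QuotientGroup.mk_surjective q
    obtain ⟨c, rfl⟩ := cm_surj b
    change φ (gr g • cm c) = eps π (gr g) * _
    rw [gr_smul, hφ, hφ, eps_gr, ← hD.conj _ _ (hc c)]
    congr 1
    rw [MulAut.conjNormal_apply, map_mul, map_mul, map_inv]
  | add x y hx hy =>
    intro b
    rw [add_smul, map_add, hx, hy, map_add, add_mul]
  | smul n x hx =>
    intro b
    rw [smul_assoc, map_zsmul, hx, map_zsmul, smul_mul_assoc]

end

end Run7.h41.PF
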