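import Pool.Agent.Run7.h41.QD

/-!
# The kernel of a quotient gives a minimal prime
-/

namespace Run7.h41.PF

universe u v w

open MonoidAlgebra

open scoped commutatorElement

/-- A subgroup of a finitely generated group is generated by finitely many elements and elements of
the commutator subgroup. -/
theorem exists_finset_mod_comm {M : Type u} [Group M] [Group.FG M] (A : Subgroup M) :
    ∃ T : Finset M, (T : Set M) ⊆ A ∧
      ∀ a ∈ A, ∃ w ∈ Subgroup.closure (T : Set M), w⁻¹ * a ∈ commutator M := by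
  classical
  have h0 : Group.FG (Abelianization M) :=
    Group.fg_of_surjective (f := Abelianization.of (G := M)) (QuotientGroup.mk_surjective)
  have h1 : Module.Finite ℤ (Additive (Abelianization M)) := by
    rw [Module.Finite.iff_addGroup_fg]
    exact AddGroup.fg_iff_mul_fg.mpr h0
  have h2 : IsNoetherian ℤ (Additive (Abelianization M)) := inferInstance
  let B : AddSubgroup (Additive (Abelianization M)) :=
    Subgroup.toAddSubgroup (A.map Abelianization.of)
  obtain ⟨S, hS⟩ := h2.noetherian (AddSubgroup.toIntSubmodule B)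
  have hS' : AddSubgroup.closure (S : Set (Additive (Abelianization M))) = B := by
    have := congrArg Submodule.toAddSubgroup hS
    rw [Submodule.span_int_eq_addSubgroupClosure] at this
    simpa using this
  have h3 : ∀ s ∈ S, ∃ a ∈ A, Additive.ofMul (Abelianization.of a) = s := by
    intro s hs
    have : s ∈ B := by rw [← hS']; exact AddSubgroup.subset_closure hs
    obtain ⟨a, ha, ha2⟩ := this
    exact ⟨a, ha, ha2⟩
  choose! f hf hf2 using h3
  refine ⟨S.image f, ?_, ?_⟩
  · intro x hx
    rw [Finset.coe_image] at hx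
    obtain ⟨s, hs, rfl⟩ := hx
    exact hf s hs
  · intro a ha
    have h4 : ∀ b ∈ AddSubgroup.closure (S : Set (Additive (Abelianization M))),
        ∃ w ∈ Subgroup.closure ((S.image f : Finset M) : Set M),
          Additive.ofMul (Abelianization.of w) = b := by
      intro b hb
      induction hb using AddSubgroup.closure_induction with
      | mem x hx =>
        refine ⟨f x, Subgroup.subset_closure ?_, hf2 x hx⟩
        rw [Finset.coe_image]
        exact ⟨x, hx, rfl⟩
      | zero => exact ⟨1, one_mem _, by simp⟩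
      | add x y _ _ hx hy =>
        obtain ⟨w, hw, rfl⟩ := hx
        obtain ⟨w', hw', rfl⟩ := hy
        exact ⟨w * w', mul_mem hw hw', by simp⟩
      | neg x _ hx =>
        obtain ⟨w, hw, rfl⟩ := hx
        exact ⟨w⁻¹, inv_mem hw, by simp⟩
    have h5 : Additive.ofMul (Abelianization.of a) ∈
        AddSubgroup.closure (S : Set (Additive (Abelianization M))) := by
      rw [hS']
      exact ⟨a, ha, rfl⟩
    obtain ⟨w, hw, hw2⟩ := h4 _ h5
    refine ⟨w, hw, ?_⟩
    have h6 : Abelianization.of w = Abelianization.of a := Additive.ofMul.injective hw2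
    rw [← of_eq_one, map_mul, map_inv, h6, inv_mul_cancel]

section
variable {N : Type u} [Group N] {L : Type v} [Group L]

/-- The coinvariants are finitely generated. -/
theorem finite_coinv (K : Subgroup N) [K.Normal] (hK : K.FG)
    (I : Ideal (MonoidAlgebra ℤ (Abelianization N))) (hI : ∀ m ∈ K, gr m - 1 ∈ I) :
    Module.Finite ℤ (Csub K ⧸ (I • (⊤ : Submodule (MonoidAlgebra ℤ (Abelianization N)) (Csub K)))) := by
  classical
  set J := I • (⊤ : Submodule (MonoidAlgebra ℤ (Abelianization N)) (Csub K)) with hJ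
  have hKfg : Group.FG K := (Group.fg_iff_subgroup_fg K).mpr hK
  let A : Subgroup K := (commutator N).subgroupOf K
  -- the map to the coinvariants
  let κ : A → Csub K ⧸ J := fun a =>
    Submodule.Quotient.mk ⟨cm ⟨((a : K) : N), a.2⟩, mem_Csub.mpr ⟨_, (a : K).2, a.2, rfl⟩⟩
  have κmul : ∀ a b : A, κ (a * b) = κ a + κ b := by
    intro a b
    simp only [κ]
    rw [← Submodule.Quotient.mk_add]
    congr 1
  have κone : κ 1 = 0 := by
    have := κmul 1 1
    rw [mul_one] at this
    exact left_eq_add.mp this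
  have κinv : ∀ a : A, κ a⁻¹ = - κ a := by
    intro a
    rw [eq_neg_iff_add_eq_zero, ← κmul, inv_mul_cancel, κone]
  have κsurj : ∀ d, ∃ a, κ a = d := by
    intro d
    obtain ⟨⟨c, hc⟩, rfl⟩ := Submodule.Quotient.mk_surjective _ d
    obtain ⟨m, hm, hm2, rfl⟩ := mem_Csub.mp hc
    exact ⟨⟨⟨m, hm⟩, hm2⟩, rfl⟩
  have κconj : ∀ (m : K) (a : A) (h : m * a * m⁻¹ ∈ A), κ ⟨m * a * m⁻¹, h⟩ = κ a := by
    intro m a h
    simp only [κ]
    rw [Submodule.Quotient.eq]
    have h1 : (⟨cm ⟨((m * a * m⁻¹ : K) : N), h⟩, mem_Csub.mpr ⟨_, (m * a * m⁻¹ : K).2, h, rfl⟩⟩ :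
        Csub K) = gr (m : N) • ⟨cm ⟨((a : K) : N), a.2⟩, mem_Csub.mpr ⟨_, (a : K).2, a.2, rfl⟩⟩ := by
      apply Subtype.ext
      change cm _ = gr (m : N) • cm _
      rw [smul_cm_conj (m : N) ((a : K) : N) a.2 h]
      rfl
    rw [h1]
    have h2 : ∀ z : Csub K, gr (m : N) • z - z = (gr (m : N) - 1) • z := by
      intro z
      apply Subtype.ext
      change gr (m : N) • (z : BM N) - (z : BM N) = (gr (m : N) - 1) • (z : BM N)
      rw [sub_smul, one_smul]
    rw [h2, hJ]
    exact Submodule.smul_mem_smul (hI _ m.2) trivial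
  obtain ⟨S, hS⟩ := hKfg.out
  obtain ⟨T, hTA, hT⟩ := exists_finset_mod_comm A
  have hAcomm : ∀ x y : K, ⁅x, y⁆ ∈ A := by
    intro x y
    change ((⁅x, y⁆ : K) : N) ∈ commutator N
    have : ((⁅x, y⁆ : K) : N) = ⁅(x : N), (y : N)⁆ := rfl
    rw [this, commutator_def]
    exact Subgroup.commutator_mem_commutator (Subgroup.mem_top _) (Subgroup.mem_top _)
  let T1 : Finset (Csub K ⧸ J) := (S ×ˢ S).image fun p => κ ⟨⁅p.1, p.2⁆, hAcomm _ _⟩
  let T2 : Finset (Csub K ⧸ J) := T.attach.image fun t => κ ⟨t.1, hTA t.2⟩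
  let F : AddSubgroup (Csub K ⧸ J) := AddSubgroup.closure ((T1 ∪ T2 : Finset _) : Set (Csub K ⧸ J))
  let K1 : Subgroup K :=
    { carrier := {n | ∃ h : n ∈ A, κ ⟨n, h⟩ ∈ F}
      one_mem' := ⟨one_mem _, by
        have : κ 1 ∈ F := by rw [κone]; exact F.zero_mem
        exact this⟩
      mul_mem' := by
        rintro a b ⟨ha, ha'⟩ ⟨hb, hb'⟩
        refine ⟨mul_mem ha hb, ?_⟩
        have := F.add_mem ha' hb'
        rw [← κmul] at this
        exact this
      inv_mem' := by
        rintro a ⟨ha, ha'⟩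
        refine ⟨inv_mem ha, ?_⟩
        have := F.neg_mem ha'
        rw [← κinv] at this
        exact this }
  have hAn : A.Normal := inferInstance
  have hK1n : K1.Normal := by
    constructor
    rintro n ⟨hn, hn'⟩ g
    have h' : g * n * g⁻¹ ∈ A := hAn.conj_mem n hn g
    refine ⟨h', ?_⟩
    rw [κconj g ⟨n, hn⟩ h']
    exact hn'
  have h1 : commutator K ≤ K1 := by
    refine commutator_le_of_gen (S : Set K) hS K1 ?_
    intro x hx y hy
    refine ⟨hAcomm x y, AddSubgroup.subset_closure ?_⟩
    rw [Finset.coe_union]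
    left
    simp only [T1, Finset.coe_image, Set.mem_image, Finset.mem_coe, Finset.mem_product]
    exact ⟨(x, y), ⟨hx, hy⟩, rfl⟩
  have h2 : Subgroup.closure (T : Set K) ≤ K1 := by
    rw [Subgroup.closure_le]
    intro t ht
    refine ⟨hTA ht, AddSubgroup.subset_closure ?_⟩
    rw [Finset.coe_union]
    right
    simp only [T2, Finset.coe_image, Set.mem_image, Finset.mem_coe, Finset.mem_attach, true_and]
    exact ⟨⟨t, ht⟩, rfl⟩
  have h3 : A ≤ K1 := by
    intro a ha
    obtain ⟨w, hw, hw2⟩ := hT a ha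
    have := mul_mem (h2 hw) (h1 hw2)
    rwa [mul_inv_cancel_left] at this
  have h4 : F = ⊤ := by
    rw [eq_top_iff]
    intro d _
    obtain ⟨a, rfl⟩ := κsurj d
    obtain ⟨_, h⟩ := h3 a.2
    exact h
  rw [Module.Finite.iff_addGroup_fg]
  exact ⟨⟨T1 ∪ T2, h4⟩⟩

/-- The class of quotients which is considered. -/
structure IsQ (L : Type v) [Group L] : Prop where
  tf : IsMulTorsionFree (Abelianization L)
  nt : Nontrivial (Abelianization L)
  der : ∃ D : L → MonoidAlgebra ℤ (Abelianization L), IsDer D ∧ ∃ c ∈ commutator L, D c ≠ 0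
  nfg : ∀ K : Subgroup L, K.Normal → K ≤ commutator L → K.FG → K = ⊥

theorem II_prime (π : N →* L) [NoZeroDivisors (MonoidAlgebra ℤ (Abelianization L))] :
    (II π).IsPrime := by
  have : IsDomain (MonoidAlgebra ℤ (Abelianization L)) := NoZeroDivisors.to_isDomain _
  exact RingHom.ker_isPrime (eps π)

/-- The annihilator of `N' / N''` is contained in the ideal of the quotient. -/
theorem ann_le (π : N →* L) (hπ : Function.Surjective π)
    [NoZeroDivisors (MonoidAlgebra ℤ (Abelianization L))] (hL : IsQ L) :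
    Module.annihilator (MonoidAlgebra ℤ (Abelianization N)) (BM N) ≤ II π := by
  obtain ⟨D, hD, c, hc, hc2⟩ := hL.der
  obtain ⟨φ, hφ1, hφ2⟩ := exists_map π hD
  intro x hx
  obtain ⟨n, hn, rfl⟩ := comm_surj hπ hc
  have h1 := hφ2 x (cm ⟨n, hn⟩)
  rw [Module.mem_annihilator.mp hx, map_zero, hφ1] at h1
  rcases mul_eq_zero.mp h1.symm with h | h
  · exact h
  · exact absurd h hc2

theorem aeval_ne_zero {A : Type v} [CommGroup A] {a : A} (ha : ∀ i j : ℕ, a ^ i = a ^ j → i = j)
    {f : Polynomial ℤ} (hf : f.Monic) :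
    Polynomial.aeval (MonoidAlgebra.of ℤ A a) f ≠ 0 := by
  classical
  intro h
  have h1 : (Polynomial.aeval (MonoidAlgebra.of ℤ A a) f : MonoidAlgebra ℤ A).coeff
      (a ^ f.natDegree) = 1 := by
    rw [Polynomial.aeval_eq_sum_range, Finset.sum_range_succ]
    have : ∀ k ∈ Finset.range f.natDegree, (f.coeff k • (MonoidAlgebra.of ℤ A a) ^ k :
        MonoidAlgebra ℤ A).coeff (a ^ f.natDegree) = 0 := by
      intro k hk
      rw [Finset.mem_range] at hk
      rw [← map_pow, MonoidAlgebra.coeff_smul_apply, MonoidAlgebra.of_apply,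
        MonoidAlgebra.coeff_single, Finsupp.single_apply, if_neg, smul_zero]
      intro e
      exact absurd (ha _ _ e) (by omega)
    rw [MonoidAlgebra.coeff_add, MonoidAlgebra.coeff_sum, Finsupp.add_apply,
      Finsupp.finsetSum_apply, Finset.sum_eq_zero this, zero_add,
      hf.coeff_natDegree, one_smul, ← map_pow, MonoidAlgebra.of_apply,
      MonoidAlgebra.coeff_single, Finsupp.single_apply, if_pos rfl]
  rw [h] at h1
  exact absurd h1 (by simp)

/-- The ideal of a quotient is a minimal prime over the annihilator of `N' / N''`. -/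
theorem II_minimal [Group.FG N] (π : N →* L) (hπ : Function.Surjective π) (hker : π.ker.FG)
    (hL : IsQ L) : II π ∈
      (Module.annihilator (MonoidAlgebra ℤ (Abelianization N)) (BM N)).minimalPrimes := by
  have hLfg : Group.FG (Abelianization L) :=
    Group.fg_of_surjective (f := Abelianization.of.comp π)
      ((QuotientGroup.mk_surjective (s := commutator L)).comp hπ)
  have hNfg : Group.FG (Abelianization N) :=
    Group.fg_of_surjective (f := Abelianization.of (G := N)) (QuotientGroup.mk_surjective)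
  have := hL.tf
  have h0 : NoZeroDivisors (MonoidAlgebra ℤ (Abelianization L)) := noZeroDivisors_of_tf _
  have hp : (II π).IsPrime := II_prime π
  have h1 : IsNoetherianRing (MonoidAlgebra ℤ (Abelianization N)) :=
    Algebra.FiniteType.isNoetherianRing ℤ _
  have h2 : Module.Finite (MonoidAlgebra ℤ (Abelianization N)) (BM N) := finite_BM
  have h3 : ∀ m ∈ π.ker, gr m - 1 ∈ II π := by
    intro m hm
    rw [gr_sub_one_mem, MonoidHom.mem_ker.mp hm]
    exact one_mem _
  have h4 := finite_coinv π.ker hker (II π) h3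
  -- an element of infinite order
  have hnt := hL.nt
  obtain ⟨a, ha⟩ := exists_ne (1 : Abelianization L)
  obtain ⟨l, rfl⟩ := QuotientGroup.mk_surjective a
  obtain ⟨t, rfl⟩ := hπ l
  have ha' : ∀ i j : ℕ, (Abelianization.of (π t)) ^ i = (Abelianization.of (π t)) ^ j → i = j := by
    intro i j hij
    have h9 : ¬ IsOfFinOrder (Abelianization.of (π t)) := not_isOfFinOrder_of_isMulTorsionFree ha
    rw [← injective_pow_iff_not_isOfFinOrder] at h9
    exact h9 hij
  set C := Csub π.ker
  set J := II π • (⊤ : Submodule (MonoidAlgebra ℤ (Abelianization N)) C) with hJ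
  obtain ⟨f, hf, hf2⟩ := LinearMap.exists_monic_and_aeval_eq_zero ℤ
    (Algebra.lsmul ℤ ℤ (C ⧸ J) (gr t) : Module.End ℤ (C ⧸ J))
  rw [Polynomial.aeval_algHom_apply] at hf2
  refine minimal_of (II π) C (ann_le π hπ hL) (II_smul_mem hπ) (Polynomial.aeval (gr t) f) ?_ ?_
  · intro hmem
    rw [mem_II] at hmem
    have h5 : eps π (Polynomial.aeval (gr t) f) = Polynomial.aeval (gr (π t)) f := by
      rw [← eps_gr]
      exact (Polynomial.aeval_algHom_apply (eps π).toIntAlgHom (gr t) f).symm
    rw [h5] at hmem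
    exact aeval_ne_zero ha' hf hmem
  · intro c hc
    have h6 : (Polynomial.aeval (gr t) f) • (Submodule.Quotient.mk ⟨c, hc⟩ : C ⧸ J) = 0 := by
      have := congrArg (fun φ : Module.End ℤ (C ⧸ J) => φ (Submodule.Quotient.mk ⟨c, hc⟩)) hf2
      simpa using this
    rw [← Submodule.Quotient.mk_smul, Submodule.Quotient.mk_eq_zero] at h6
    have h7 : (II π • (⊤ : Submodule _ C)).map C.subtype = II π • C := by
      rw [Submodule.map_smul'', Submodule.map_top, Submodule.range_subtype]
    rw [← h7]
    exact ⟨_, h6, rfl⟩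

theorem le_of_II_eq {L' : Type w} [Group L'] (π : N →* L) (hπ : Function.Surjective π)
    (hL : IsQ L) (π' : N →* L') (hker' : π'.ker.FG) (h : II π = II π') : π'.ker ≤ π.ker := by
  have h1 : (π'.ker).map π ≤ commutator L := by
    rintro _ ⟨m, hm, rfl⟩
    rw [← gr_sub_one_mem, h, gr_sub_one_mem, MonoidHom.mem_ker.mp hm]
    exact one_mem _
  have h2 : ((π'.ker).map π).FG := by
    classical
    obtain ⟨S, hS⟩ := hker'
    refine ⟨S.image π, ?_⟩
    rw [← hS, MonoidHom.map_closure, Finset.coe_image]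
  have h3 : ((π'.ker).map π).Normal := Subgroup.Normal.map inferInstance π hπ
  have h4 := hL.nfg _ h3 h1 h2
  intro m hm
  have h5 : π m ∈ (π'.ker).map π := ⟨m, hm, rfl⟩
  rw [h4, Subgroup.mem_bot] at h5
  exact h5

/-- **Finiteness theorem.** A finitely generated group has only finitely many finitely generated
normal subgroups with quotient in the class. -/
theorem finite_normal [Group.FG N] :
    {K : Subgroup N | ∃ _ : K.Normal, K.FG ∧ IsQ (N ⧸ K)}.Finite := by
  classical
  have hNfg : Group.FG (Abelianization N) :=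
    Group.fg_of_surjective (f := Abelianization.of (G := N)) (QuotientGroup.mk_surjective)
  have h1 : IsNoetherianRing (MonoidAlgebra ℤ (Abelianization N)) :=
    Algebra.FiniteType.isNoetherianRing ℤ _
  let P : Set (Subgroup N) := {K : Subgroup N | ∃ _ : K.Normal, K.FG ∧ IsQ (N ⧸ K)}
  let g : Subgroup N → Ideal (MonoidAlgebra ℤ (Abelianization N)) := fun K =>
    if h : K.Normal then II (@QuotientGroup.mk' N _ K h) else ⊤
  have hg : ∀ K ∈ P, g K ∈
      (Module.annihilator (MonoidAlgebra ℤ (Abelianization N)) (BM N)).minimalPrimes := by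
    rintro K ⟨hn, hfg, hQ⟩
    simp only [g, dif_pos hn]
    refine II_minimal _ (QuotientGroup.mk'_surjective K) ?_ hQ
    rw [QuotientGroup.ker_mk']
    exact hfg
  have hinj : Set.InjOn g P := by
    rintro K ⟨hn, hfg, hQ⟩ K' ⟨hn', hfg', hQ'⟩ h
    simp only [g, dif_pos hn, dif_pos hn'] at h
    have e1 := le_of_II_eq (QuotientGroup.mk' K) (QuotientGroup.mk'_surjective K) hQ
      (QuotientGroup.mk' K') (by rw [QuotientGroup.ker_mk']; exact hfg') h
    have e2 := le_of_II_eq (QuotientGroup.mk' K') (QuotientGroup.mk'_surjective K') hQ'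
      (QuotientGroup.mk' K) (by rw [QuotientGroup.ker_mk']; exact hfg) h.symm
    rw [QuotientGroup.ker_mk', QuotientGroup.ker_mk'] at e1 e2
    exact le_antisymm e2 e1
  exact Set.Finite.of_injOn hg hinj (Ideal.finite_minimalPrimes_of_isNoetherianRing _ _)

end

end Run7.h41.PF
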