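import Pool.Agent.Run7.h41.QE

/-!
# Automorphisms of extensions
-/

namespace Run7.h41.PF

universe u v w

open MonoidAlgebra

open scoped commutatorElement Pointwise

/-- The finitely generated normal subgroups with a quotient in the class. -/
def QN (N : Type u) [Group N] : Set (Subgroup N) :=
  {K | K.FG ∧ ∃ (L : Type u) (_ : Group L) (π : N →* L), Function.Surjective π ∧ π.ker = K ∧ IsQ L}

theorem finite_QN (N : Type u) [Group N] [Group.FG N] : (QN N).Finite := by
  classical
  have hNfg : Group.FG (Abelianization N) :=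
    Group.fg_of_surjective (f := Abelianization.of (G := N)) (QuotientGroup.mk_surjective)
  have h1 : IsNoetherianRing (MonoidAlgebra ℤ (Abelianization N)) :=
    Algebra.FiniteType.isNoetherianRing ℤ _
  have key : ∀ K ∈ QN N, ∃ I ∈
      (Module.annihilator (MonoidAlgebra ℤ (Abelianization N)) (BM N)).minimalPrimes,
      ∃ (L : Type u) (_ : Group L) (π : N →* L), Function.Surjective π ∧ π.ker = K ∧ K.FG ∧
        IsQ L ∧ II π = I := by
    rintro K ⟨hfg, L, _, π, hπ, hker, hQ⟩
    exact ⟨II π, II_minimal π hπ (by rw [hker]; exact hfg) hQ, L, _, π, hπ, hker, hfg, hQ, rfl⟩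
  choose! g hg hg2 using key
  have hinj : Set.InjOn g (QN N) := by
    intro K hK K' hK' h
    obtain ⟨L, _, π, hπ, hker, hfg, hQ, e⟩ := hg2 K hK
    obtain ⟨L', _, π', hπ', hker', hfg', hQ', e'⟩ := hg2 K' hK'
    have e1 := le_of_II_eq π hπ hQ π' (by rw [hker']; exact hfg') (by rw [e, e', h])
    have e2 := le_of_II_eq π' hπ' hQ' π (by rw [hker]; exact hfg) (by rw [e, e', h])
    rw [hker, hker'] at e1 e2
    exact le_antisymm e2 e1
  exact Set.Finite.of_injOn hg hinj (Ideal.finite_minimalPrimes_of_isNoetherianRing _ _)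

theorem smul_mem_QN {N : Type u} [Group N] (φ : MulAut N) {K : Subgroup N} (hK : K ∈ QN N) :
    φ • K ∈ QN N := by
  classical
  obtain ⟨hfg, L, _, π, hπ, hker, hQ⟩ := hK
  refine ⟨?_, L, _, π.comp (φ⁻¹ : MulAut N).toMonoidHom, ?_, ?_, hQ⟩
  · obtain ⟨S, hS⟩ := hfg
    refine ⟨S.image φ, ?_⟩
    rw [← hS, Finset.coe_image]
    exact (MonoidHom.map_closure φ.toMonoidHom _).symm
  · exact hπ.comp (φ⁻¹ : MulAut N).surjective
  · ext x
    rw [MonoidHom.mem_ker, Subgroup.mem_pointwise_smul_iff_inv_smul_mem, ← hker,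
      MonoidHom.mem_ker]
    rfl

/-- A group acting on a finitely generated group preserves the members of `QN` virtually. -/
theorem finiteIndex_stab {N : Type u} [Group N] [Group.FG N] {G : Type v} [Group G]
    (ρ : G →* MulAut N) {K : Subgroup N} (hK : K ∈ QN N) :
    ((MulAction.stabilizer (MulAut N) K).comap ρ).FiniteIndex := by
  have h1 : (MulAction.orbit (MulAut N) K).Finite := by
    refine (finite_QN N).subset ?_
    rintro _ ⟨φ, rfl⟩
    exact smul_mem_QN φ hK
  have h2 : Finite (MulAction.orbit (MulAut N) K) := h1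
  have h3 : Finite (MulAut N ⧸ MulAction.stabilizer (MulAut N) K) :=
    Finite.of_equiv _ (MulAction.orbitEquivQuotientStabilizer (MulAut N) K)
  have h4 : (MulAction.stabilizer (MulAut N) K).FiniteIndex :=
    Subgroup.finiteIndex_of_finite_quotient
  constructor
  rw [Subgroup.index_comap]
  exact (Subgroup.instFiniteIndex_subgroupOf _ _).index_ne_zero

/-- Classes of groups closed under subgroups and extensions, which contain the finite and the
abelian groups. -/
structure EClass (C : ∀ (G : Type u) [Group G], Prop) : Prop where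
  inj : ∀ (G L : Type u) [Group G] [Group L] (f : G →* L), Function.Injective f → C L → C G
  ext : ∀ (G L : Type u) [Group G] [Group L] (f : G →* L), C L → C f.ker → C G
  comm : ∀ (G : Type u) [Group G], (∀ a b : G, a * b = b * a) → C G
  fin : ∀ (G : Type u) [Group G] [Finite G], C G

section
variable {C : ∀ (G : Type u) [Group G], Prop} (hC : EClass C)
include hC

theorem EClass.fi {G : Type u} [Group G] (H : Subgroup G) [H.FiniteIndex] (h : C H) : C G := by
  have h1 : Finite (G ⧸ H.normalCore) := inferInstance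
  refine hC.ext G (G ⧸ H.normalCore) (QuotientGroup.mk' _) (hC.fin _) ?_
  have e : (QuotientGroup.mk' H.normalCore).ker ≤ H := by
    rw [QuotientGroup.ker_mk']
    exact Subgroup.normalCore_le H
  exact hC.inj _ H (Subgroup.inclusion e) (Subgroup.inclusion_injective e) h

/-- Extension along a surjection. -/
theorem EClass.lift {A G B : Type u} [Group A] [Group G] [Group B] (p : A →* G)
    (hp : Function.Surjective p) (f : A →* B) (hf : p.ker ≤ f.ker) (hB : C B)
    (hk : ∀ F : G →* B, F.comp p = f → C F.ker) : C G := by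
  refine hC.ext G B (p.liftOfSurjective hp ⟨f, hf⟩) hB (hk _ ?_)
  exact p.liftOfRightInverse_comp _ _ _

end

/-- The inner automorphisms form a normal subgroup. -/
instance conj_range_normal {S : Type u} [Group S] : (MulAut.conj (G := S)).range.Normal where
  conj_mem := by
    rintro _ ⟨s, rfl⟩ φ
    refine ⟨φ s, ?_⟩
    apply MulEquiv.ext
    intro t
    rw [MulAut.conj_apply, MulAut.mul_apply, MulAut.mul_apply, MulAut.conj_apply, map_mul, map_mul,
      map_inv, MulAut.apply_inv_self]

/-- The outer automorphism group. -/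
abbrev Outer (S : Type u) [Group S] : Type u := MulAut S ⧸ (MulAut.conj (G := S)).range

section
variable {N : Type u} [Group N] (M : Subgroup N)

/-- The stabilizer of a subgroup in the automorphism group. -/
def Stab : Subgroup (MulAut N) := MulAction.stabilizer (MulAut N) M

variable {M}

theorem mem_Stab {φ : MulAut N} : φ ∈ Stab M ↔ ∀ x, φ x ∈ M ↔ x ∈ M := by
  constructor
  · intro h x
    have h1 : φ • M = M := h
    have h2 : φ • x ∈ φ • M ↔ x ∈ M := Subgroup.smul_mem_pointwise_smul_iff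
    rw [h1] at h2
    exact h2
  · intro h
    change φ • M = M
    ext x
    rw [Subgroup.mem_pointwise_smul_iff_inv_smul_mem]
    have h1 := h (φ⁻¹ • x)
    have h2 : φ (φ⁻¹ • x) = x := MulAut.apply_inv_self N φ x
    rw [h2] at h1
    exact h1.symm

/-- Restriction to the subgroup. -/
def res : Stab M →* MulAut M where
  toFun φ :=
    { toFun := fun m => ⟨φ.1 m, (mem_Stab.mp φ.2 _).mpr m.2⟩
      invFun := fun m => ⟨φ.1⁻¹ m, by
        rw [← mem_Stab.mp φ.2, MulAut.apply_inv_self]; exact m.2⟩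
      left_inv := fun m => Subtype.ext (MulAut.inv_apply_self N φ.1 m)
      right_inv := fun m => Subtype.ext (MulAut.apply_inv_self N φ.1 m)
      map_mul' := fun a b => Subtype.ext (map_mul φ.1 (a : N) b) }
  map_one' := rfl
  map_mul' _ _ := rfl

theorem res_apply (φ : Stab M) (m : M) : ((res φ m : M) : N) = φ.1 m := rfl

variable [M.Normal]

/-- The induced automorphism of the quotient. -/
def quo : Stab M →* MulAut (N ⧸ M) where
  toFun φ := QuotientGroup.congr M M φ.1 φ.2
  map_one' := by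
    apply MulEquiv.ext
    intro x
    obtain ⟨n, rfl⟩ := QuotientGroup.mk_surjective x
    rfl
  map_mul' a b := by
    apply MulEquiv.ext
    intro x
    obtain ⟨n, rfl⟩ := QuotientGroup.mk_surjective x
    rfl

theorem quo_apply (φ : Stab M) (n : N) : quo φ (n : N ⧸ M) = ((φ.1 n : N) : N ⧸ M) := rfl

/-- Automorphisms which are the identity on `M` and on `N / M` commute. -/
theorem comm_of_triv {φ ψ : Stab M} (h1 : res φ = 1) (h2 : quo φ = 1) (h3 : res ψ = 1)
    (h4 : quo ψ = 1) : φ * ψ = ψ * φ := by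
  have key : ∀ χ : Stab M, res χ = 1 → quo χ = 1 → ∀ n : N, χ.1 n * n⁻¹ ∈ M ∧
      ∀ m ∈ M, χ.1 n * n⁻¹ * m = m * (χ.1 n * n⁻¹) := by
    intro χ hr hq n
    have hm : ∀ m ∈ M, χ.1 m = m := by
      intro m hm
      have := congrArg (fun f : MulAut M => ((f ⟨m, hm⟩ : M) : N)) hr
      exact this
    refine ⟨?_, ?_⟩
    · have := congrArg (fun f : MulAut (N ⧸ M) => f (n : N ⧸ M)) hq
      simp only [quo_apply, MulAut.one_apply] at this
      rw [← QuotientGroup.eq_one_iff, QuotientGroup.mk_mul, this, QuotientGroup.mk_inv,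
        mul_inv_cancel]
    · intro m hmM
      have h5 : n⁻¹ * m * n ∈ M := by
        have := Subgroup.Normal.conj_mem (H := M) inferInstance m hmM n⁻¹
        rwa [inv_inv] at this
      have h6 := hm _ h5
      rw [map_mul, map_mul, map_inv, hm m hmM] at h6
      have h7 : m * χ.1 n = χ.1 n * (n⁻¹ * m * n) := by
        rw [← h6]; group
      calc χ.1 n * n⁻¹ * m = χ.1 n * (n⁻¹ * m * n) * n⁻¹ := by group
        _ = m * χ.1 n * n⁻¹ := by rw [h7]
        _ = m * (χ.1 n * n⁻¹) := by group
  apply Subtype.ext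
  apply MulEquiv.ext
  intro n
  change φ.1 (ψ.1 n) = ψ.1 (φ.1 n)
  obtain ⟨a1, a2⟩ := key φ h1 h2 n
  obtain ⟨b1, b2⟩ := key ψ h3 h4 n
  have hφm : ∀ m ∈ M, φ.1 m = m := fun m hm => by
    have := congrArg (fun f : MulAut M => ((f ⟨m, hm⟩ : M) : N)) h1
    exact this
  have hψm : ∀ m ∈ M, ψ.1 m = m := fun m hm => by
    have := congrArg (fun f : MulAut M => ((f ⟨m, hm⟩ : M) : N)) h3
    exact this
  have e1 : φ.1 (ψ.1 n) = (ψ.1 n * n⁻¹) * (φ.1 n * n⁻¹) * n := by
    have : ψ.1 n = (ψ.1 n * n⁻¹) * n := by group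
    conv_lhs => rw [this, map_mul, hφm _ b1]
    group
  have e2 : ψ.1 (φ.1 n) = (φ.1 n * n⁻¹) * (ψ.1 n * n⁻¹) * n := by
    have : φ.1 n = (φ.1 n * n⁻¹) * n := by group
    conv_lhs => rw [this, map_mul, hψm _ a1]
    group
  rw [e1, e2, a2 _ b1]

theorem conj_mem_Stab (n : N) : MulAut.conj n ∈ Stab M := by
  rw [mem_Stab]
  intro x
  rw [MulAut.conj_apply]
  exact ⟨fun h => by
    have := Subgroup.Normal.conj_mem (H := M) inferInstance _ h n⁻¹
    rw [inv_inv] at this
    convert this using 1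
    group, fun h => Subgroup.Normal.conj_mem inferInstance x h n⟩

end

section
variable {C : ∀ (G : Type u) [Group G], Prop} (hC : EClass C)
include hC

/-- Automorphism groups of extensions, if the kernel has finitely many images. -/
theorem aut_ext {N : Type u} [Group N] (M : Subgroup N) [M.Normal] [(Stab M).FiniteIndex]
    (h1 : C (MulAut M)) (h2 : C (MulAut (N ⧸ M))) : C (MulAut N) := by
  refine hC.fi (Stab M) ?_
  refine hC.ext _ _ (quo (M := M)) h2 ?_
  refine hC.ext _ _ ((res (M := M)).comp (quo (M := M)).ker.subtype) h1 ?_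
  refine hC.comm _ ?_
  rintro ⟨⟨a, ha⟩, ha'⟩ ⟨⟨b, hb⟩, hb'⟩
  apply Subtype.ext
  apply Subtype.ext
  exact comm_of_triv ha' ha hb' hb

/-- Outer automorphism groups of extensions, if the kernel has finitely many images and the
quotient has trivial center. -/
theorem out_ext {N : Type u} [Group N] (M : Subgroup N) [M.Normal] [(Stab M).FiniteIndex]
    (hcen : ∀ z : N ⧸ M, (∀ y, z * y = y * z) → z = 1)
    (h1 : C (Outer M)) (h2 : C (Outer (N ⧸ M))) : C (Outer N) := by
  -- the subgroup of finite index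
  let P : Stab M →* Outer N := (QuotientGroup.mk' _).comp (Stab M).subtype
  have hfi : P.range.FiniteIndex := by
    have h3 : P.range = (Stab M).map (QuotientGroup.mk' (MulAut.conj (G := N)).range) := by
      rw [MonoidHom.range_comp, Subgroup.range_subtype]
    rw [h3]
    constructor
    have := Subgroup.index_map_dvd (Stab M)
      (QuotientGroup.mk'_surjective (MulAut.conj (G := N)).range)
    exact ne_zero_of_dvd_ne_zero (Subgroup.FiniteIndex.index_ne_zero) this
  refine hC.fi P.range ?_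
  have hPker : ∀ φ : Stab M, P φ = 1 ↔ ∃ n : N, MulAut.conj n = φ.1 := by
    intro φ
    change ((QuotientGroup.mk φ.1 : MulAut N ⧸ (MulAut.conj (G := N)).range) = 1) ↔ _
    rw [QuotientGroup.eq_one_iff]
    rfl
  -- the map to the outer automorphisms of the quotient
  let f : Stab M →* Outer (N ⧸ M) := (QuotientGroup.mk' _).comp (quo (M := M))
  have hquo : ∀ (n : N) (φ : Stab M), MulAut.conj n = φ.1 → quo φ = MulAut.conj (n : N ⧸ M) := by
    intro n φ hn
    apply MulEquiv.ext
    intro x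
    obtain ⟨y, rfl⟩ := QuotientGroup.mk_surjective x
    rw [quo_apply, ← hn, MulAut.conj_apply, MulAut.conj_apply]
    rfl
  have hfker : ∀ φ : Stab M, f φ = 1 ↔ ∃ n : N, MulAut.conj (n : N ⧸ M) = quo φ := by
    intro φ
    change ((QuotientGroup.mk (quo φ) : MulAut (N ⧸ M) ⧸ (MulAut.conj (G := N ⧸ M)).range) = 1) ↔ _
    rw [QuotientGroup.eq_one_iff]
    constructor
    · rintro ⟨x, hx⟩
      obtain ⟨n, rfl⟩ := QuotientGroup.mk_surjective x
      exact ⟨n, hx⟩
    · rintro ⟨n, hn⟩
      exact ⟨_, hn⟩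
  refine hC.lift P.rangeRestrict P.rangeRestrict_surjective f ?_ h2 ?_
  · intro φ hφ
    rw [MonoidHom.ker_rangeRestrict, MonoidHom.mem_ker, hPker] at hφ
    obtain ⟨n, hn⟩ := hφ
    rw [MonoidHom.mem_ker, hfker]
    exact ⟨n, (hquo n φ hn).symm⟩
  intro F hF
  -- the automorphisms which are trivial on the quotient
  let K2 : Subgroup (Stab M) := (quo (M := M)).ker
  have hF' : ∀ φ : Stab M, F (P.rangeRestrict φ) = f φ := fun φ => by rw [← hF]; rfl
  let p2 : K2 →* F.ker :=
    { toFun := fun φ => ⟨P.rangeRestrict φ.1, by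
        rw [MonoidHom.mem_ker, hF', hfker]
        refine ⟨1, ?_⟩
        rw [QuotientGroup.mk_one, map_one]
        exact φ.2.symm⟩
      map_one' := by apply Subtype.ext; exact map_one P.rangeRestrict
      map_mul' := fun a b => by apply Subtype.ext; exact map_mul P.rangeRestrict a.1 b.1 }
  have hp2 : Function.Surjective p2 := by
    rintro ⟨x, hx⟩
    obtain ⟨φ, rfl⟩ := P.rangeRestrict_surjective x
    rw [MonoidHom.mem_ker, hF', hfker] at hx
    obtain ⟨n, hn⟩ := hx
    let c : Stab M := ⟨MulAut.conj n, conj_mem_Stab n⟩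
    have hc : quo c = quo φ := by rw [hquo n c rfl, hn]
    refine ⟨⟨c⁻¹ * φ, ?_⟩, ?_⟩
    · change quo (c⁻¹ * φ) = 1
      rw [map_mul, map_inv, hc, inv_mul_cancel]
    · apply Subtype.ext
      change P.rangeRestrict (c⁻¹ * φ) = P.rangeRestrict φ
      have hc1 : P.rangeRestrict c = 1 := by
        apply Subtype.ext
        exact (hPker c).mpr ⟨n, rfl⟩
      rw [map_mul, map_inv, hc1, inv_one, one_mul]
  let f2 : K2 →* Outer M := ((QuotientGroup.mk' _).comp (res (M := M))).comp K2.subtype
  have hf2ker : ∀ φ : K2, f2 φ = 1 ↔ ∃ m : M, MulAut.conj m = res φ.1 := by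
    intro φ
    change ((QuotientGroup.mk (res φ.1) : MulAut M ⧸ (MulAut.conj (G := M)).range) = 1) ↔ _
    rw [QuotientGroup.eq_one_iff]
    rfl
  have hres : ∀ (m : M) (φ : Stab M), MulAut.conj (m : N) = φ.1 → res φ = MulAut.conj m := by
    intro m φ hm
    apply MulEquiv.ext
    intro x
    apply Subtype.ext
    rw [res_apply, ← hm, MulAut.conj_apply, MulAut.conj_apply]
    rfl
  have hp2ker : ∀ φ : K2, p2 φ = 1 ↔ ∃ m : M, MulAut.conj (m : N) = φ.1.1 := by
    intro φ
    have e : p2 φ = 1 ↔ P φ.1 = 1 := by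
      rw [Subtype.ext_iff, Subtype.ext_iff]
      rfl
    rw [e, hPker]
    constructor
    · rintro ⟨n, hn⟩
      have h5 : MulAut.conj (n : N ⧸ M) = 1 := by
        rw [← hquo n φ.1 hn]
        exact φ.2
      have h6 : (n : N ⧸ M) = 1 := by
        apply hcen
        intro y
        have := congrArg (fun g : MulAut (N ⧸ M) => g y) h5
        simp only [MulAut.conj_apply, MulAut.one_apply] at this
        exact mul_inv_eq_iff_eq_mul.mp this
      exact ⟨⟨n, (QuotientGroup.eq_one_iff n).mp h6⟩, hn⟩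
    · rintro ⟨m, hm⟩
      exact ⟨m, hm⟩
  refine hC.lift p2 hp2 f2 ?_ h1 ?_
  · intro φ hφ
    rw [MonoidHom.mem_ker, hp2ker] at hφ
    obtain ⟨m, hm⟩ := hφ
    rw [MonoidHom.mem_ker, hf2ker]
    exact ⟨m, (hres m φ.1 hm).symm⟩
  intro F2 hF2
  have hF2' : ∀ φ : K2, F2 (p2 φ) = f2 φ := fun φ => by rw [← hF2]; rfl
  refine hC.comm _ ?_
  have key : ∀ x : F2.ker, ∃ φ : K2, p2 φ = x.1 ∧ res φ.1 = 1 := by
    rintro ⟨x, hx⟩
    obtain ⟨φ, rfl⟩ := hp2 x
    rw [MonoidHom.mem_ker, hF2', hf2ker] at hx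
    obtain ⟨m, hm⟩ := hx
    let c : Stab M := ⟨MulAut.conj (m : N), conj_mem_Stab (m : N)⟩
    have hc : quo c = 1 := by
      rw [hquo (m : N) c rfl, (QuotientGroup.eq_one_iff (m : N)).mpr m.2, map_one]
    let c' : K2 := ⟨c, hc⟩
    refine ⟨c'⁻¹ * φ, ?_, ?_⟩
    · have hc1 : p2 c' = 1 := (hp2ker c').mpr ⟨m, rfl⟩
      rw [map_mul, map_inv, hc1, inv_one, one_mul]
    · change res (c⁻¹ * φ.1) = 1
      rw [map_mul, map_inv, hres m c rfl, hm, inv_mul_cancel]
  intro a b
  obtain ⟨φ, ha, ha'⟩ := key a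
  obtain ⟨ψ, hb, hb'⟩ := key b
  apply Subtype.ext
  change a.1 * b.1 = b.1 * a.1
  rw [← ha, ← hb, ← map_mul, ← map_mul]
  congr 1
  apply Subtype.ext
  exact comm_of_triv ha' φ.2 hb' ψ.2

end

end Run7.h41.PF
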