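import Pool.Agent.Run7.h41.QF
import Pool.Agent.Run7.h562.TreeA

/-!
# Free products and free groups are in the class
-/

namespace Run7.h41.PF

universe u v w

open MonoidAlgebra

open scoped commutatorElement

theorem eps_comp_inv {L : Type u} {L' : Type v} [Group L] [Group L'] (e : L ≃* L')
    (x : MonoidAlgebra ℤ (Abelianization L)) : eps e.symm.toMonoidHom (eps e.toMonoidHom x) = x := by
  induction x using MonoidAlgebra.induction_on with
  | of q =>
    obtain ⟨g, rfl⟩ := QuotientGroup.mk_surjective q
    change eps e.symm.toMonoidHom (eps e.toMonoidHom (gr g)) = gr g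
    have h9 : e.symm.toMonoidHom (e.toMonoidHom g) = g := e.symm_apply_apply g
    rw [eps_gr, eps_gr, h9]
  | add x y hx hy => rw [map_add, map_add, hx, hy]
  | smul n x hx => rw [map_zsmul, map_zsmul, hx]

/-- The class is invariant under isomorphism. -/
theorem IsQ.congr {L : Type u} {L' : Type v} [Group L] [Group L'] (e : L ≃* L') (h : IsQ L) :
    IsQ L' := by
  have h1 := h.tf
  have h2 := h.nt
  refine ⟨?_, ?_, ?_, ?_⟩
  · exact Function.Injective.isMulTorsionFree (e.symm.abelianizationCongr.toMonoidHom)
      e.symm.abelianizationCongr.injective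
  · exact e.symm.abelianizationCongr.toEquiv.nontrivial
  · obtain ⟨D, hD, c, hc, hc2⟩ := h.der
    refine ⟨fun x => eps e.toMonoidHom (D (e.symm x)), ?_, e c, ?_, ?_⟩
    · intro x y
      change eps e.toMonoidHom (D (e.symm (x * y))) = eps e.toMonoidHom (D (e.symm x)) +
        gr x * eps e.toMonoidHom (D (e.symm y))
      have h9 : e.toMonoidHom (e.symm x) = x := e.apply_symm_apply x
      rw [map_mul, hD, map_add, map_mul, eps_gr, h9]
    · have h3 : (commutator L).map e.toMonoidHom ≤ commutator L' := by
        rw [commutator_def, Subgroup.map_commutator, commutator_def]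
        exact Subgroup.commutator_mono le_top le_top
      exact h3 ⟨c, hc, rfl⟩
    · intro h4
      apply hc2
      have h5 : eps e.toMonoidHom (D (e.symm (e c))) = 0 := h4
      rw [e.symm_apply_apply] at h5
      rw [← eps_comp_inv e (D c), h5, map_zero]
  · intro K hK hKc hKfg
    have h6 : K.map e.symm.toMonoidHom = ⊥ := by
      refine h.nfg _ (Subgroup.Normal.map hK _ e.symm.surjective) ?_ ?_
      · refine (Subgroup.map_mono hKc).trans ?_
        rw [commutator_def, Subgroup.map_commutator, commutator_def]
        exact Subgroup.commutator_mono le_top le_top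
      · classical
        obtain ⟨S, hS⟩ := hKfg
        refine ⟨S.image e.symm.toMonoidHom, ?_⟩
        rw [← hS, MonoidHom.map_closure, Finset.coe_image]
    rw [Subgroup.map_eq_bot_iff_of_injective _ e.symm.injective] at h6
    exact h6

/-! ### Derivations from homomorphisms -/

section
variable (Q : Type u) [CommGroup Q]

/-- The multiplication action. -/
noncomputable def mact : Q →* MulAut (Multiplicative (MonoidAlgebra ℤ Q)) where
  toFun q :=
    { toFun := fun r => Multiplicative.ofAdd (MonoidAlgebra.of ℤ Q q * Multiplicative.toAdd r)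
      invFun := fun r => Multiplicative.ofAdd (MonoidAlgebra.of ℤ Q q⁻¹ * Multiplicative.toAdd r)
      left_inv := fun r => by
        change Multiplicative.ofAdd (MonoidAlgebra.of ℤ Q q⁻¹ *
          (MonoidAlgebra.of ℤ Q q * Multiplicative.toAdd r)) = r
        rw [← mul_assoc, ← map_mul, inv_mul_cancel, map_one, one_mul, ofAdd_toAdd]
      right_inv := fun r => by
        change Multiplicative.ofAdd (MonoidAlgebra.of ℤ Q q *
          (MonoidAlgebra.of ℤ Q q⁻¹ * Multiplicative.toAdd r)) = r
        rw [← mul_assoc, ← map_mul, mul_inv_cancel, map_one, one_mul, ofAdd_toAdd]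
      map_mul' := fun r s => by
        change Multiplicative.ofAdd (MonoidAlgebra.of ℤ Q q *
          (Multiplicative.toAdd r + Multiplicative.toAdd s)) =
          Multiplicative.ofAdd (MonoidAlgebra.of ℤ Q q * Multiplicative.toAdd r +
            MonoidAlgebra.of ℤ Q q * Multiplicative.toAdd s)
        rw [mul_add] }
  map_one' := by
    apply MulEquiv.ext
    intro r
    change Multiplicative.ofAdd (MonoidAlgebra.of ℤ Q 1 * Multiplicative.toAdd r) = r
    rw [map_one, one_mul, ofAdd_toAdd]
  map_mul' q q' := by
    apply MulEquiv.ext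
    intro r
    change Multiplicative.ofAdd (MonoidAlgebra.of ℤ Q (q * q') * Multiplicative.toAdd r) =
      Multiplicative.ofAdd (MonoidAlgebra.of ℤ Q q *
        (MonoidAlgebra.of ℤ Q q' * Multiplicative.toAdd r))
    congr 1
    rw [map_mul (MonoidAlgebra.of ℤ Q), mul_assoc]

/-- The affine group. -/
abbrev Af := SemidirectProduct (Multiplicative (MonoidAlgebra ℤ Q)) Q (mact Q)

end

theorem left_conj {A G : Type*} [Group A] [Group G] {φ : G →* MulAut A} (n : A) (g : G) :
    ((SemidirectProduct.inl n * SemidirectProduct.inr g * (SemidirectProduct.inl n)⁻¹ :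
      SemidirectProduct A G φ)).left = n * φ g n⁻¹ := by
  simp

/-- A homomorphism to the affine group over the abelianization is a derivation. -/
theorem isDer_of_hom {L : Type u} [Group L] (Ψ : L →* Af (Abelianization L))
    (h : SemidirectProduct.rightHom.comp Ψ = Abelianization.of) :
    IsDer (fun x => Multiplicative.toAdd (Ψ x).left) := by
  intro x y
  have h1 : (Ψ x).right = Abelianization.of x := DFunLike.congr_fun h x
  simp only [map_mul, SemidirectProduct.mul_left, toAdd_mul]
  congr 1
  rw [h1]
  rfl

/-- The value of a derivation at a commutator. -/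
theorem IsDer.commutator {L : Type u} [Group L] {D : L → MonoidAlgebra ℤ (Abelianization L)}
    (hD : IsDer D) (a b : L) : D ⁅a, b⁆ = (1 - gr b) * D a + (gr a - 1) * D b := by
  have h1 : ⁅a, b⁆ = a * b * a⁻¹ * b⁻¹ := rfl
  have h2 : gr a * gr a⁻¹ = 1 := by rw [← gr_mul, mul_inv_cancel, gr_one]
  have h3 : gr b * gr b⁻¹ = 1 := by rw [← gr_mul, mul_inv_cancel, gr_one]
  rw [h1, hD, hD, hD, hD.inv, hD.inv]
  simp only [gr_mul]
  linear_combination (-gr b * D a) * h2 - (gr a * gr a⁻¹ * D b) * h3 - D b * h2

/-- A product which is not zero. -/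
theorem prod_ne_zero {Q : Type u} [CommGroup Q] {a b : Q} (ha : a ≠ 1) (hb : b ≠ 1) :
    (MonoidAlgebra.of ℤ Q a - 1) * (MonoidAlgebra.of ℤ Q b - 1) ≠ 0 := by
  classical
  intro h
  have h1 : (MonoidAlgebra.of ℤ Q a - 1) * (MonoidAlgebra.of ℤ Q b - 1) =
      MonoidAlgebra.of ℤ Q (a * b) + MonoidAlgebra.of ℤ Q 1 -
        (MonoidAlgebra.of ℤ Q a + MonoidAlgebra.of ℤ Q b) := by
    rw [map_mul, map_one]; ring
  have h2 := congrArg (fun x : MonoidAlgebra ℤ Q => x.coeff 1) (h1.symm.trans h)
  simp only [MonoidAlgebra.coeff_sub, MonoidAlgebra.coeff_add, MonoidAlgebra.of_apply,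
    MonoidAlgebra.coeff_single, Finsupp.sub_apply, Finsupp.add_apply, Finsupp.single_apply,
    if_neg ha, if_neg hb, MonoidAlgebra.coeff_zero, Finsupp.zero_apply, if_true] at h2
  split_ifs at h2 <;> omega

/-- **Free products.** -/
theorem isQ_coprod (A B : Type) [Group A] [Group B] [IsMulTorsionFree (Abelianization A)]
    [IsMulTorsionFree (Abelianization B)] [Nontrivial (Abelianization A)]
    [Nontrivial (Abelianization B)] : IsQ (Monoid.Coprod A B) := by
  have hA0 : Nontrivial (A ⧸ commutator A) := ‹Nontrivial (Abelianization A)›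
  have hB0 : Nontrivial (B ⧸ commutator B) := ‹Nontrivial (Abelianization B)›
  have hA : Nontrivial A := (QuotientGroup.mk_surjective (s := commutator A)).nontrivial
  have hB : Nontrivial B := (QuotientGroup.mk_surjective (s := commutator B)).nontrivial
  -- the abelianization
  let p : Monoid.Coprod A B →* Abelianization A × Abelianization B :=
    Monoid.Coprod.lift ((MonoidHom.inl _ _).comp Abelianization.of)
      ((MonoidHom.inr _ _).comp Abelianization.of)
  let P : Abelianization (Monoid.Coprod A B) →* Abelianization A × Abelianization B :=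
    Abelianization.lift p
  let R : Abelianization A × Abelianization B →* Abelianization (Monoid.Coprod A B) :=
    (Abelianization.map Monoid.Coprod.inl).coprod (Abelianization.map Monoid.Coprod.inr)
  have hRP : R.comp P = MonoidHom.id _ := by
    ext x <;> simp [R, P, p]
  have hPinj : Function.Injective P := by
    intro x y hxy
    have h1 := DFunLike.congr_fun hRP x
    have h2 := DFunLike.congr_fun hRP y
    simp only [MonoidHom.comp_apply, MonoidHom.id_apply] at h1 h2
    rw [← h1, ← h2, hxy]
  obtain ⟨a0, ha0⟩ := exists_ne (1 : Abelianization A)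
  obtain ⟨b0, hb0⟩ := exists_ne (1 : Abelianization B)
  obtain ⟨a, rfl⟩ := QuotientGroup.mk_surjective a0
  obtain ⟨b, rfl⟩ := QuotientGroup.mk_surjective b0
  have hPa : P (Abelianization.of (Monoid.Coprod.inl a)) = (Abelianization.of a, 1) := by
    simp [P, p]
  have hPb : P (Abelianization.of (Monoid.Coprod.inr b)) = (1, Abelianization.of b) := by
    simp [P, p]
  have ha1 : Abelianization.of (Monoid.Coprod.inl a : Monoid.Coprod A B) ≠ 1 := by
    intro h
    rw [h, map_one] at hPa
    exact ha0 (congrArg Prod.fst hPa).symm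
  have hb1 : Abelianization.of (Monoid.Coprod.inr b : Monoid.Coprod A B) ≠ 1 := by
    intro h
    rw [h, map_one] at hPb
    exact hb0 (congrArg Prod.snd hPb).symm
  have htf : IsMulTorsionFree (Abelianization (Monoid.Coprod A B)) :=
    Function.Injective.isMulTorsionFree P hPinj
  refine ⟨htf, ⟨_, _, ha1⟩, ?_, ?_⟩
  · -- the derivation
    let Q := Abelianization (Monoid.Coprod A B)
    let cB : B →* Af Q := SemidirectProduct.inr.comp (Abelianization.of.comp Monoid.Coprod.inr)
    let v : Af Q := SemidirectProduct.inl (Multiplicative.ofAdd (-1))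
    let cA : A →* Af Q := (MulAut.conj v).toMonoidHom.comp
      (SemidirectProduct.inr.comp (Abelianization.of.comp Monoid.Coprod.inl))
    let Ψ : Monoid.Coprod A B →* Af Q := Monoid.Coprod.lift cA cB
    have hΨ : SemidirectProduct.rightHom.comp Ψ = Abelianization.of := by
      ext x <;> simp [Ψ, cA, cB, v]
    have hD := isDer_of_hom Ψ hΨ
    refine ⟨_, hD, ⁅Monoid.Coprod.inl a, Monoid.Coprod.inr b⁆,
      Subgroup.commutator_mem_commutator (Subgroup.mem_top _) (Subgroup.mem_top _), ?_⟩
    rw [hD.commutator]
    have e1 : (Ψ (Monoid.Coprod.inr b)).left = 1 := by simp [Ψ, cB]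
    have e2 : Multiplicative.toAdd (Ψ (Monoid.Coprod.inl a)).left =
        gr (Monoid.Coprod.inl a) - 1 := by
      have : Ψ (Monoid.Coprod.inl a) = v * SemidirectProduct.inr
          (Abelianization.of (Monoid.Coprod.inl a)) * v⁻¹ := by
        simp [Ψ, cA]
      rw [this, left_conj]
      change -1 + gr (Monoid.Coprod.inl a) * -(-1 : MonoidAlgebra ℤ Q) = _
      rw [neg_neg, mul_one]
      abel
    rw [e1, e2, toAdd_one, mul_zero, add_zero]
    intro h
    refine prod_ne_zero ha1 hb1 ?_
    have : (gr (Monoid.Coprod.inl a : Monoid.Coprod A B) - 1) *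
        (gr (Monoid.Coprod.inr b : Monoid.Coprod A B) - 1) = -((1 - gr (Monoid.Coprod.inr b :
          Monoid.Coprod A B)) * (gr (Monoid.Coprod.inl a : Monoid.Coprod A B) - 1)) := by ring
    rw [this, h, neg_zero]
  · intro K hK hKc hKfg
    rcases Pool.Agent.Run7.h562.coprod_fg_normal K hKfg with h | h
    · exact h
    · exfalso
      have h1 : Finite (Monoid.Coprod A B ⧸ K) := inferInstance
      have h2 : Function.Surjective (QuotientGroup.map K (commutator (Monoid.Coprod A B))
          (MonoidHom.id _) (by simpa using hKc)) := by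
        intro x
        obtain ⟨y, rfl⟩ := QuotientGroup.mk_surjective x
        exact ⟨QuotientGroup.mk y, rfl⟩
      have h3 : Finite (Abelianization (Monoid.Coprod A B)) := Finite.of_surjective _ h2
      exact not_isOfFinOrder_of_isMulTorsionFree ha1 (isOfFinOrder_of_finite _)

/-- The free group on a disjoint union. -/
noncomputable def freeSum (X Y : Type) :
    FreeGroup (X ⊕ Y) ≃* Monoid.Coprod (FreeGroup X) (FreeGroup Y) :=
  MonoidHom.toMulEquiv
    (FreeGroup.lift (Sum.elim (fun x => Monoid.Coprod.inl (FreeGroup.of x))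
      (fun y => Monoid.Coprod.inr (FreeGroup.of y))))
    (Monoid.Coprod.lift (FreeGroup.map Sum.inl) (FreeGroup.map Sum.inr))
    (by ext x; rcases x with x | x <;> simp)
    (by ext x <;> simp)

instance tf_free (X : Type) : IsMulTorsionFree (Abelianization (FreeGroup X)) := by
  have h1 : IsAddTorsionFree (FreeAbelianGroup X) := by
    have h2 : IsAddTorsionFree (X →₀ ℤ) := inferInstance
    constructor
    intro n hn x y hxy
    apply (FreeAbelianGroup.equivFinsupp X).injective
    refine h2.nsmul_right_injective hn ?_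
    simp only at hxy ⊢
    rw [← map_nsmul, ← map_nsmul, hxy]
  constructor
  intro n hn x y hxy
  exact h1.nsmul_right_injective hn hxy

instance nt_free (X : Type) [Nonempty X] : Nontrivial (Abelianization (FreeGroup X)) :=
  inferInstanceAs (Nontrivial (FreeAbelianGroup X))

/-- **Free groups of rank at least two.** -/
theorem isQ_free (X : Type) [Nontrivial X] : IsQ (FreeGroup X) := by
  classical
  obtain ⟨x, y, hxy⟩ := exists_pair_ne X
  let e : {z // z = x} ⊕ {z // ¬ z = x} ≃ X := Equiv.sumCompl _
  have h1 : Nonempty {z // z = x} := ⟨x, rfl⟩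
  have h2 : Nonempty {z // ¬ z = x} := ⟨y, hxy.symm⟩
  exact (isQ_coprod (FreeGroup {z // z = x}) (FreeGroup {z // ¬ z = x})).congr
    ((freeSum _ _).symm.trans (FreeGroup.freeGroupCongr e))

end Run7.h41.PF
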