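import Pool.Agent.Run7.h41.QG

/-!
# One-relator groups `⟨a, t, Y | [a, t] P⟩`
-/

namespace Run7.h41.PF

open MonoidAlgebra

open scoped commutatorElement

section
variable {Y : Type} (P : FreeGroup Y)

/-- The letters of the infinite cyclic cover. -/
abbrev Wd (Y : Type) := FreeGroup (Option (ℤ × Y))

/-- The copy of the letters at the level `i`. -/
def lv (i : ℤ) : FreeGroup Y →* Wd Y := FreeGroup.map fun y => some (i, y)

/-- The shift. -/
def sg : Wd Y →* Wd Y := FreeGroup.lift fun
  | none => lv 0 P * FreeGroup.of none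
  | some (i, y) => FreeGroup.of (some (i + 1, y))

/-- The inverse of the shift. -/
def sgi : Wd Y →* Wd Y := FreeGroup.lift fun
  | none => (lv (-1) P)⁻¹ * FreeGroup.of none
  | some (i, y) => FreeGroup.of (some (i - 1, y))

theorem sg_lv (i : ℤ) (w : FreeGroup Y) : sg P (lv i w) = lv (i + 1) w := by
  have : (sg P).comp (lv i) = lv (i + 1) := by
    ext y
    simp [sg, lv]
  exact DFunLike.congr_fun this w

theorem sgi_lv (i : ℤ) (w : FreeGroup Y) : sgi P (lv i w) = lv (i - 1) w := by
  have : (sgi P).comp (lv i) = lv (i - 1) := by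
    ext y
    simp [sgi, lv]
  exact DFunLike.congr_fun this w

/-- The shift automorphism. -/
def sgA : MulAut (Wd Y) :=
  MonoidHom.toMulEquiv (sg P) (sgi P)
    (by
      ext x
      rcases x with _ | ⟨i, y⟩
      · have h : (sgi P) (FreeGroup.of none) = (lv (-1) P)⁻¹ * FreeGroup.of none := by simp [sgi]
        simp only [MonoidHom.comp_apply, MonoidHom.id_apply]
        have h2 : (sg P) (FreeGroup.of none) = lv 0 P * FreeGroup.of none := by simp [sg]
        rw [h2, map_mul, sgi_lv, h]
        norm_num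
      · simp [sg, sgi])
    (by
      ext x
      rcases x with _ | ⟨i, y⟩
      · have h : (sgi P) (FreeGroup.of none) = (lv (-1) P)⁻¹ * FreeGroup.of none := by simp [sgi]
        simp only [MonoidHom.comp_apply, MonoidHom.id_apply]
        have h2 : (sg P) (FreeGroup.of none) = lv 0 P * FreeGroup.of none := by simp [sg]
        rw [h, map_mul, map_inv, sg_lv, h2]
        norm_num
      · simp [sg, sgi])

theorem sgA_none : sgA P (FreeGroup.of none) = lv 0 P * FreeGroup.of none := by
  have : sg P (FreeGroup.of none) = lv 0 P * FreeGroup.of none := by simp [sg]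
  exact this

theorem sgA_some (i : ℤ) (y : Y) : sgA P (FreeGroup.of (some (i, y))) =
    FreeGroup.of (some (i + 1, y)) := by
  have : sg P (FreeGroup.of (some (i, y))) = FreeGroup.of (some (i + 1, y)) := by simp [sg]
  exact this

theorem sgA_lv (i : ℤ) (w : FreeGroup Y) : sgA P (lv i w) = lv (i + 1) w := sg_lv P i w

/-- The product of the copies of the relator. -/
def UU : ℕ → Wd Y
  | 0 => 1
  | n + 1 => lv n P * UU n

theorem sgA_pow_lv (n : ℕ) (i : ℤ) (w : FreeGroup Y) : (sgA P ^ n) (lv i w) = lv (i + n) w := by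
  induction n generalizing i with
  | zero => simp
  | succ n ih =>
    rw [pow_succ, MulAut.mul_apply, sgA_lv, ih]
    congr 1
    push_cast
    ring_nf

theorem sgA_pow_some (n : ℕ) (i : ℤ) (y : Y) : (sgA P ^ n) (FreeGroup.of (some (i, y))) =
    FreeGroup.of (some (i + n, y)) := by
  have := sgA_pow_lv P n i (FreeGroup.of y)
  simpa [lv] using this

theorem sgA_pow_none (n : ℕ) : (sgA P ^ n) (FreeGroup.of none) = UU P n * FreeGroup.of none := by
  induction n with
  | zero => simp [UU]
  | succ n ih =>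
    rw [pow_succ, MulAut.mul_apply, sgA_none, map_mul, sgA_pow_lv, ih, zero_add, UU, mul_assoc]

open Classical in
/-- Killing the letters outside a set. -/
noncomputable def kil (T : Set (Option (ℤ × Y))) : Wd Y →* Wd Y :=
  FreeGroup.lift fun x => if x ∈ T then FreeGroup.of x else 1

theorem kil_of_mem {T : Set (Option (ℤ × Y))} {x : Option (ℤ × Y)} (h : x ∈ T) :
    kil T (FreeGroup.of x) = FreeGroup.of x := by simp [kil, h]

theorem kil_of_not {T : Set (Option (ℤ × Y))} {x : Option (ℤ × Y)} (h : x ∉ T) :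
    kil T (FreeGroup.of x) = 1 := by simp [kil, h]

theorem kil_kil {T T' : Set (Option (ℤ × Y))} (h : T ⊆ T') (w : Wd Y) :
    kil T' (kil T w) = kil T w := by
  have : (kil T').comp (kil T) = kil T := by
    ext x
    by_cases hx : x ∈ T
    · rw [MonoidHom.comp_apply, kil_of_mem hx, kil_of_mem (h hx)]
    · rw [MonoidHom.comp_apply, kil_of_not hx, map_one]
  exact DFunLike.congr_fun this w

/-- The letters of bounded level. -/
def Sm (Y : Type) (m : ℕ) : Set (Option (ℤ × Y)) := {x | ∀ p ∈ x, |p.1| ≤ (m : ℤ)}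

/-- The letters of level at most `m`. -/
def Tm (Y : Type) (m : ℕ) : Set (Option (ℤ × Y)) := {x | ∀ p ∈ x, p.1 ≤ (m : ℤ)}

theorem exists_level (w : Wd Y) : ∃ m0 : ℕ, ∀ m ≥ m0, kil (Sm Y m) w = w := by
  induction w using FreeGroup.induction_on with
  | C1 => exact ⟨0, fun m _ => map_one _⟩
  | of x =>
    rcases x with _ | ⟨i, y⟩
    · exact ⟨0, fun m _ => kil_of_mem (by simp [Sm])⟩
    · refine ⟨i.natAbs, fun m hm => kil_of_mem ?_⟩
      simp only [Sm, Set.mem_setOf_eq, Option.mem_def, Option.some.injEq, forall_eq']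
      rw [Int.abs_eq_natAbs]
      exact_mod_cast hm
  | inv_of x h =>
    obtain ⟨m0, h⟩ := h
    exact ⟨m0, fun m hm => by rw [map_inv, h m hm]⟩
  | mul x y hx hy =>
    obtain ⟨m0, h⟩ := hx
    obtain ⟨m1, h'⟩ := hy
    exact ⟨max m0 m1, fun m hm => by
      rw [map_mul, h m (le_trans (le_max_left _ _) hm), h' m (le_trans (le_max_right _ _) hm)]⟩

theorem exists_level_fg (K : Subgroup (Wd Y)) (hK : K.FG) :
    ∃ m : ℕ, ∀ w ∈ K, kil (Sm Y m) w = w := by
  classical
  obtain ⟨S, rfl⟩ := hK
  choose f hf using fun w : Wd Y => exists_level w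
  refine ⟨S.sup f, fun w hw => ?_⟩
  induction hw using Subgroup.closure_induction with
  | mem x hx => exact hf x _ (Finset.le_sup hx)
  | one => exact map_one _
  | mul x y _ _ hx hy => rw [map_mul, hx, hy]
  | inv x _ hx => rw [map_inv, hx]

/-- A homomorphism which kills all letters but one has cyclic image. -/
theorem cyclic_image (f : Wd Y →* Wd Y) (hf : ∀ p, f (FreeGroup.of (some p)) = 1) (v : Wd Y) :
    ∃ k : ℤ, f v = (f (FreeGroup.of none)) ^ k := by
  induction v using FreeGroup.induction_on with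
  | C1 => exact ⟨0, by simp⟩
  | of x =>
    rcases x with _ | p
    · exact ⟨1, by simp⟩
    · exact ⟨0, by rw [hf, zpow_zero]⟩
  | inv_of x h =>
    obtain ⟨k, h⟩ := h
    exact ⟨-k, by rw [map_inv, h, zpow_neg]⟩
  | mul x y hx hy =>
    obtain ⟨k, h⟩ := hx
    obtain ⟨l, h'⟩ := hy
    exact ⟨k + l, by rw [map_mul, h, h', zpow_add]⟩

theorem kil_lv_high {m : ℕ} {j : ℤ} (h : (m : ℤ) < j) (w : FreeGroup Y) :
    kil (Tm Y m) (lv j w) = 1 := by
  have : (kil (Tm Y m)).comp (lv j) = 1 := by
    ext y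
    have : (some (j, y) : Option (ℤ × Y)) ∉ Tm Y m := by simp [Tm, h]
    simp [lv, kil_of_not this]
  exact DFunLike.congr_fun this w

theorem kil_lv_low {m : ℕ} {j : ℤ} (h : j ≤ m) (w : FreeGroup Y) :
    kil (Tm Y m) (lv j w) = lv j w := by
  have : (kil (Tm Y m)).comp (lv j) = lv j := by
    ext y
    have : (some (j, y) : Option (ℤ × Y)) ∈ Tm Y m := by simp [Tm, h]
    simp [lv, kil_of_mem this]
  exact DFunLike.congr_fun this w

theorem kil_none (m : ℕ) : kil (Tm Y m) (FreeGroup.of none) = FreeGroup.of none :=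
  kil_of_mem (by simp [Tm])

theorem kil_UU_low (m : ℕ) (n : ℕ) (h : n ≤ m + 1) : kil (Tm Y m) (UU P n) = UU P n := by
  induction n with
  | zero => simp [UU]
  | succ n ih =>
    rw [UU, map_mul, ih (by omega), kil_lv_low (by exact_mod_cast (by omega : n ≤ m))]

theorem kil_UU_high (m : ℕ) (n : ℕ) (h : m + 1 ≤ n) : kil (Tm Y m) (UU P n) = UU P (m + 1) := by
  induction n, h using Nat.le_induction with
  | base => exact kil_UU_low P m _ le_rfl
  | succ n hn ih =>
    rw [UU, map_mul, ih, kil_lv_high (by exact_mod_cast (by omega : m < n)), one_mul]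

variable {P}

/-- A finitely generated subgroup which is invariant under the shift is trivial. -/
theorem fix_trivial (hP : P ≠ 1) (K : Subgroup (Wd Y)) (hK : K.FG)
    (h : K.map (sgA P).toMonoidHom = K) : K = ⊥ := by
  classical
  obtain ⟨m, hm⟩ := exists_level_fg K hK
  have hpow : ∀ n : ℕ, ∀ z ∈ K, ∃ v ∈ K, (sgA P ^ n) v = z := by
    intro n
    induction n with
    | zero => intro z hz; exact ⟨z, hz, rfl⟩
    | succ n ih =>
      intro z hz
      obtain ⟨v, hv, rfl⟩ := ih z hz
      rw [← h] at hv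
      obtain ⟨u, hu, rfl⟩ := hv
      exact ⟨u, hu, by rw [pow_succ, MulAut.mul_apply]; rfl⟩
  rw [eq_bot_iff]
  intro z hz
  obtain ⟨v, hv, hvz⟩ := hpow (2 * m + 2) z hz
  have hST : ∀ j : ℕ, m ≤ j → Sm Y m ⊆ Tm Y j := by
    intro j hj x hx p hp
    have := hx p hp
    exact (le_abs_self _).trans (this.trans (by exact_mod_cast hj))
  have hz1 : ∀ j : ℕ, m ≤ j → kil (Tm Y j) z = z := by
    intro j hj
    rw [← hm z hz, kil_kil (hST j hj)]
  -- the image is cyclic
  let f : Wd Y →* Wd Y := (kil (Tm Y (m + 1))).comp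
    (((sgA P ^ (2 * m + 2) : MulAut (Wd Y)).toMonoidHom).comp (kil (Sm Y m)))
  have hfv : f v = z := by
    change kil (Tm Y (m + 1)) ((sgA P ^ (2 * m + 2) : MulAut (Wd Y)) (kil (Sm Y m) v)) = z
    rw [hm v hv, hvz, hz1 _ (by omega)]
  have hf1 : ∀ p, f (FreeGroup.of (some p)) = 1 := by
    rintro ⟨i, y⟩
    change kil (Tm Y (m + 1)) ((sgA P ^ (2 * m + 2) : MulAut (Wd Y))
      (kil (Sm Y m) (FreeGroup.of (some (i, y))))) = 1
    by_cases hi : (some (i, y) : Option (ℤ × Y)) ∈ Sm Y m
    · rw [kil_of_mem hi, sgA_pow_some]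
      apply kil_of_not
      have h1 : |i| ≤ (m : ℤ) := hi (i, y) rfl
      simp only [Tm, Set.mem_setOf_eq, Option.mem_def, Option.some.injEq, forall_eq', not_le]
      have := neg_abs_le i
      push_cast
      linarith
    · rw [kil_of_not hi, map_one, map_one]
  have hf0 : f (FreeGroup.of none) = UU P (m + 2) * FreeGroup.of none := by
    change kil (Tm Y (m + 1)) ((sgA P ^ (2 * m + 2) : MulAut (Wd Y))
      (kil (Sm Y m) (FreeGroup.of none))) = _
    rw [kil_of_mem (by simp [Sm]), sgA_pow_none, map_mul, kil_UU_high P (m + 1) _ (by omega),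
      kil_none]
  obtain ⟨k, hk⟩ := cyclic_image f hf1 v
  rw [hfv, hf0] at hk
  have hk2 : z = (UU P (m + 1) * FreeGroup.of none) ^ k := by
    rw [← hz1 m le_rfl, hk, map_zpow, map_mul, kil_UU_high P m _ (by omega), kil_none]
  -- the letters of level `m + 1`
  let ν : Wd Y →* FreeGroup Y := FreeGroup.lift fun x =>
    match x with
    | none => 1
    | some (i, y) => if i = m + 1 then FreeGroup.of y else 1
  have hν1 : ∀ w, ν (lv (m + 1 : ℤ) w) = w := by
    intro w
    have : ν.comp (lv (m + 1 : ℤ)) = MonoidHom.id _ := by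
      ext y
      simp [ν, lv]
    exact DFunLike.congr_fun this w
  have hν2 : ∀ j : ℕ, j < m + 1 → ∀ w, ν (lv (j : ℤ) w) = 1 := by
    intro j hj w
    have : ν.comp (lv (j : ℤ)) = 1 := by
      ext y
      have : (j : ℤ) ≠ m + 1 := by
        intro h
        have : j = m + 1 := by exact_mod_cast h
        omega
      simp [ν, lv, this]
    exact DFunLike.congr_fun this w
  have hν3 : ∀ n : ℕ, n ≤ m + 1 → ν (UU P n) = 1 := by
    intro n hn
    induction n with
    | zero => simp [UU]
    | succ n ih => rw [UU, map_mul, ih (by omega), hν2 n (by omega), one_mul]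
  have hν0 : ν (FreeGroup.of none) = 1 := by simp [ν]
  have e1 : ν z = P ^ k := by
    have h5 : ((m + 1 : ℕ) : ℤ) = (m : ℤ) + 1 := by push_cast; rfl
    rw [hk, map_zpow, map_mul, UU, map_mul, h5, hν1, hν3 _ le_rfl, hν0, mul_one, mul_one]
  have e2 : ν z = 1 := by
    rw [hk2, map_zpow, map_mul, hν3 _ le_rfl, hν0, mul_one, one_zpow]
  have hk0 : k = 0 := by
    by_contra hk0
    apply hP
    have : P ^ k = 1 ^ k := by rw [← e1, e2, one_zpow]
    exact zpow_left_injective hk0 this
  rw [hk2, hk0, zpow_zero]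
  exact Subgroup.mem_bot.mpr rfl

end

end Run7.h41.PF
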