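import Pool.Agent.Run7.h41.QI
import Pool.Agent.N506.EXM
import Pool.Agent.N506.EXC
import Pool.Agent.N506.EXL
import Pool.Agent.N506.EXK

/-!
# Exactness of the automorphism groups of iterated extensions
-/

namespace Run7.h41.PF

universe u v w

open MonoidAlgebra Pool.Agent.N506.EX

open scoped commutatorElement

/-- A group in the class has trivial center. -/
theorem IsQ.center {L : Type u} [Group L] [Group.FG L] (h : IsQ L) (z : L)
    (hz : ∀ y, z * y = y * z) : z = 1 := by
  have hfg : Group.FG (Abelianization L) :=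
    Group.fg_of_surjective (f := Abelianization.of (G := L)) (QuotientGroup.mk_surjective)
  have := h.tf
  have h0 : NoZeroDivisors (MonoidAlgebra ℤ (Abelianization L)) := noZeroDivisors_of_tf _
  obtain ⟨D, hD, c, hc, hc2⟩ := h.der
  have h1 : D (z * c) = D (c * z) := by rw [hz]
  rw [hD, hD, gr_comm hc, one_mul] at h1
  have h2 : (gr z - 1) * D c = 0 := by linear_combination h1
  have h3 : z ∈ commutator L := by
    rcases mul_eq_zero.mp h2 with h4 | h4
    · rw [sub_eq_zero, ← gr_one (N := L), gr_eq_iff, map_one, of_eq_one] at h4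
      exact h4
    · exact absurd h4 hc2
  have h5 : (Subgroup.zpowers z).Normal := by
    constructor
    rintro _ ⟨n, rfl⟩ g
    refine ⟨n, ?_⟩
    have : Commute g z := (hz g).symm
    change z ^ n = g * z ^ n * g⁻¹
    rw [(this.zpow_right n).eq, mul_inv_cancel_right]
  have h6 := h.nfg _ h5 (by rw [Subgroup.zpowers_le]; exact h3)
    ⟨{z}, by rw [Finset.coe_singleton, Subgroup.zpowers_eq_closure]⟩
  have h7 : z ∈ Subgroup.zpowers z := Subgroup.mem_zpowers z
  rwa [h6, Subgroup.mem_bot] at h7

/-- The exact groups. -/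
theorem eclass_exact : EClass.{u} (fun G _ => IsExact G) where
  inj := fun G L _ _ f hf h => (Ex.of_injective h.ex f hf).isExact
  ext := fun G L _ _ f h1 h2 => (Ex.ext f h1.ex h2.ex).isExact
  comm := fun G _ h => by
    let _ : CommGroup G := { (inferInstance : Group G) with mul_comm := h }
    exact (Am.of_comm (G := G)).ex.isExact
  fin := fun G _ _ => Ex.of_finite.isExact

/-- Extensions of finitely generated groups. -/
theorem fg_ext {N : Type u} [Group N] {L : Type v} [Group L] (π : N →* L)
    (hπ : Function.Surjective π) (h1 : π.ker.FG) (h2 : Group.FG L) : Group.FG N := by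
  classical
  obtain ⟨S, hS⟩ := h1
  obtain ⟨T, hT⟩ := h2.out
  choose s hs using hπ
  refine ⟨⟨S ∪ T.image s, ?_⟩⟩
  set K := Subgroup.closure ((S ∪ T.image s : Finset N) : Set N) with hK
  have h3 : π.ker ≤ K := by
    rw [← hS]
    exact Subgroup.closure_mono (by rw [Finset.coe_union]; exact Set.subset_union_left)
  have h4 : K.map π = ⊤ := by
    rw [eq_top_iff, ← hT, Subgroup.closure_le]
    intro t ht
    exact ⟨s t, Subgroup.subset_closure (by
      rw [Finset.coe_union, Finset.coe_image]
      exact Or.inr ⟨t, ht, rfl⟩), hs t⟩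
  rw [eq_top_iff]
  intro x _
  have h5 : π x ∈ K.map π := by rw [h4]; trivial
  obtain ⟨y, hy, hy2⟩ := h5
  have h6 : y⁻¹ * x ∈ K := h3 (by rw [MonoidHom.mem_ker, map_mul, map_inv, hy2, inv_mul_cancel])
  have := mul_mem hy h6
  rwa [mul_inv_cancel_left] at this

/-- The stabilizer of a subgroup with quotient in the class has finite index. -/
theorem stab_fi {N : Type u} [Group N] (M : Subgroup N) [M.Normal] (h1 : M.FG)
    (h2 : Group.FG (N ⧸ M)) (h3 : IsQ (N ⧸ M)) : (Stab M).FiniteIndex := by
  have hfg : Group.FG N := fg_ext (QuotientGroup.mk' M) (QuotientGroup.mk'_surjective M)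
    (by rw [QuotientGroup.ker_mk']; exact h1) h2
  have h4 : M ∈ QN N := ⟨h1, N ⧸ M, inferInstance, QuotientGroup.mk' M,
    QuotientGroup.mk'_surjective M, QuotientGroup.ker_mk' M, h3⟩
  exact finiteIndex_stab (MonoidHom.id (MulAut N)) h4

/-- **Exactness of the automorphism groups of an extension.** -/
theorem exact_ext {N : Type u} [Group N] (M : Subgroup N) [M.Normal] (h1 : M.FG)
    (h2 : Group.FG (N ⧸ M)) (h3 : IsQ (N ⧸ M)) :
    (IsExact (MulAut M) → IsExact (MulAut (N ⧸ M)) → IsExact (MulAut N)) ∧
    (IsExact (Outer M) → IsExact (Outer (N ⧸ M)) → IsExact (Outer N)) := by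
  have := stab_fi M h1 h2 h3
  exact ⟨fun h4 h5 => aut_ext eclass_exact M h4 h5,
    fun h4 h5 => out_ext eclass_exact M (fun z hz => h3.center z hz) h4 h5⟩

/-- The outer automorphism groups of isomorphic groups. -/
theorem outer_congr {N L : Type u} [Group N] [Group L] (e : N ≃* L) (h : IsExact (Outer N)) :
    IsExact (Outer L) := by
  let E : MulAut L ≃* MulAut N := MulAut.congr e.symm
  have h1 : (MulAut.conj (G := L)).range ≤ ((MulAut.conj (G := N)).range).comap E.toMonoidHom := by
    rintro _ ⟨l, rfl⟩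
    refine ⟨e.symm l, ?_⟩
    apply MulEquiv.ext
    intro x
    simp [E, MulAut.congr]
  let F : Outer L →* Outer N := QuotientGroup.map _ _ E.toMonoidHom h1
  refine eclass_exact.inj _ _ F ?_ h
  rw [injective_iff_map_eq_one]
  intro x hx
  obtain ⟨φ, rfl⟩ := QuotientGroup.mk_surjective x
  change (QuotientGroup.mk (E φ) : Outer N) = 1 at hx
  rw [QuotientGroup.eq_one_iff] at hx
  obtain ⟨n, hn⟩ := hx
  rw [QuotientGroup.eq_one_iff]
  refine ⟨e n, ?_⟩
  apply MulEquiv.ext
  intro x
  have := congrArg (fun ψ : MulAut N => e (ψ (e.symm x))) hn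
  simpa [E, MulAut.congr] using this

theorem aut_congr {N L : Type u} [Group N] [Group L] (e : N ≃* L) (h : IsExact (MulAut N)) :
    IsExact (MulAut L) :=
  eclass_exact.inj _ _ (MulAut.congr e.symm).toMonoidHom (MulAut.congr e.symm).injective h

/-- Iterated extensions: the groups in `B` are the base groups and the groups in `F` are the
quotients. -/
inductive Tow (B F : ∀ (G : Type) [Group G], Prop) : ∀ (N : Type) [Group N], Prop
  | base (N : Type) [Group N] : B N → Tow B F N
  | step (N L : Type) [Group N] [Group L] (π : N →* L) :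
    Function.Surjective π → Tow B F π.ker → F L → Tow B F N

/-- Finitely generated groups which are exact and have exact automorphism groups and outer
automorphism groups. -/
structure Ax (N : Type) [Group N] : Prop where
  fg : Group.FG N
  ex : IsExact N
  aut : IsExact (MulAut N)
  out : IsExact (Outer N)

theorem Ax.congr {N L : Type} [Group N] [Group L] (e : N ≃* L) (h : Ax N) : Ax L where
  fg := by
    have := h.fg
    exact Group.fg_of_surjective (f := e.toMonoidHom) e.surjective
  ex := eclass_exact.inj _ _ e.symm.toMonoidHom e.symm.injective h.ex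
  aut := aut_congr e h.aut
  out := outer_congr e h.out

/-- **Towers.** -/
theorem tow_ax {B F : ∀ (G : Type) [Group G], Prop} (hB : ∀ (G : Type) [Group G], B G → Ax G)
    (hF : ∀ (G : Type) [Group G], F G → IsQ G ∧ Ax G) (N : Type) [Group N] (h : Tow B F N) :
    Ax N := by
  induction h with
  | base N h => exact hB N h
  | step N L π hπ _ hL ih =>
    obtain ⟨h1, h2⟩ := hF L hL
    have hL2 := h2.fg
    let e : N ⧸ π.ker ≃* L := QuotientGroup.quotientKerEquivOfSurjective π hπ
    have h3 : Ax (N ⧸ π.ker) := h2.congr e.symm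
    have h4 : IsQ (N ⧸ π.ker) := h1.congr e.symm
    have h5 : π.ker.FG := (Group.fg_iff_subgroup_fg _).mp ih.fg
    obtain ⟨h6, h7⟩ := exact_ext π.ker h5 h3.fg h4
    exact ⟨fg_ext π hπ h5 hL2, eclass_exact.ext N L π h2.ex ih.ex, h6 ih.aut h3.aut,
      h7 ih.out h3.out⟩

/-- Free groups are exact. -/
theorem exact_free (X : Type) : IsExact (FreeGroup X) := by
  let f : FreeGroup X →* RAAG (⊥ : SimpleGraph X) := PresentedGroup.mk _
  have hr : ∀ r ∈ raagRels (⊥ : SimpleGraph X), FreeGroup.lift FreeGroup.of r = 1 := by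
    rintro r ⟨v, w, h, _⟩
    exact absurd h (by simp)
  let g : RAAG (⊥ : SimpleGraph X) →* FreeGroup X := PresentedGroup.toGroup (f := FreeGroup.of) hr
  have hgf : ∀ x, g (f x) = x := by
    intro x
    have : g.comp f = MonoidHom.id _ := by
      ext y
      exact PresentedGroup.toGroup.of hr
    exact DFunLike.congr_fun this x
  have hf : Function.Injective f := fun x y h => by rw [← hgf x, ← hgf y, h]
  have h1 : MEx (MonoidAlgebra ℚ (RAAG (⊥ : SimpleGraph X))) := mex_raag ℚ _
  let u : RAAG (⊥ : SimpleGraph X) →*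
      (Matrix (Fin 1) (Fin 1) (MonoidAlgebra ℚ (RAAG (⊥ : SimpleGraph X))))ˣ :=
    (Units.map ((Matrix.scalar (Fin 1) : MonoidAlgebra ℚ (RAAG (⊥ : SimpleGraph X)) →+*
      Matrix (Fin 1) (Fin 1) (MonoidAlgebra ℚ (RAAG (⊥ : SimpleGraph X)))).toMonoidHom)).comp
      (MonoidHom.toHomUnits (MonoidAlgebra.of ℚ (RAAG (⊥ : SimpleGraph X))))
  have hu : Function.Injective u := by
    intro x y hxy
    have h2 := congrArg (fun z : (Matrix (Fin 1) (Fin 1)
      (MonoidAlgebra ℚ (RAAG (⊥ : SimpleGraph X))))ˣ => (z : Matrix (Fin 1) (Fin 1)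
      (MonoidAlgebra ℚ (RAAG (⊥ : SimpleGraph X)))) 0 0) hxy
    simp [u] at h2
    exact MonoidAlgebra.of_injective h2
  exact (Ex.of_injective (h1 1) (u.comp f) (hu.comp hf)).isExact

/-- The groups `⟨a, t, Y | [a, t] P⟩` are exact. -/
theorem exact_OR {Y : Type} (P : FreeGroup Y) : IsExact (OR P) := by
  refine eclass_exact.inj _ _ (psi P) psi_injective ?_
  refine eclass_exact.ext _ _ (SemidirectProduct.rightHom : LL P →* Multiplicative ℤ)
    (eclass_exact.comm _ mul_comm) ?_
  have h : (SemidirectProduct.rightHom : LL P →* Multiplicative ℤ).ker =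
      (SemidirectProduct.inl : Wd Y →* LL P).range := SemidirectProduct.range_inl_eq_ker_rightHom.symm
  rw [h]
  exact eclass_exact.inj _ _ (MonoidHom.ofInjective
    (SemidirectProduct.inl_injective : Function.Injective (SemidirectProduct.inl : Wd Y →* LL P))
    ).symm.toMonoidHom (MulEquiv.injective _) (exact_free _)

theorem exact_surf (g : ℕ) (hg : 2 ≤ g) : IsExact (Surf g) := by
  obtain ⟨h, rfl⟩ := Nat.exists_eq_add_of_le' hg
  have h2 : (FreeGroup.freeGroupCongr (genEquiv (h + 1)) '' {surfRel (h + 1 + 1)}) =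
      {orel (surfRel (h + 1))} := by
    rw [Set.image_singleton, freeGroupCongr_surfRel]
  have e := PresentedGroup.equivPresentedGroup {surfRel (h + 1 + 1)} (genEquiv (h + 1))
  rw [h2] at e
  exact eclass_exact.inj _ _ e.toMonoidHom e.injective (exact_OR (surfRel (h + 1)))

/-- A group with trivial center. -/
theorem aut_of_out {N : Type u} [Group N] (h1 : IsExact N) (h2 : IsExact (Outer N)) :
    (∀ z : N, (∀ y, z * y = y * z) → z = 1) → IsExact (MulAut N) := by
  intro hz
  refine eclass_exact.ext _ _ (QuotientGroup.mk' (MulAut.conj (G := N)).range) h2 ?_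
  rw [QuotientGroup.ker_mk']
  have hinj : Function.Injective (MulAut.conj (G := N)) := by
    rw [injective_iff_map_eq_one]
    intro z h
    apply hz
    intro y
    have := congrArg (fun φ : MulAut N => φ y) h
    simp only [MulAut.conj_apply, MulAut.one_apply] at this
    exact mul_inv_eq_iff_eq_mul.mp this
  exact eclass_exact.inj _ _ (MonoidHom.ofInjective hinj).symm.toMonoidHom (MulEquiv.injective _) h1

end Run7.h41.PF
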