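import Pool.Agent.Run7.h41.QJ
import Pool.Agent.Run7.h574.RankTwoE
import Pool.Agent.N506.EXF

/-!
# Unconditional cases and coarse embeddability
-/

namespace Run7.h41.PF

universe u v w

open MonoidAlgebra Pool.Agent.N506.EX

open scoped commutatorElement

/-- Integral matrix groups are exact. -/
theorem exact_glz {G : Type} [Group G] (n : ℕ) (f : G →* Matrix (Fin n) (Fin n) ℤ)
    (hf : Function.Injective f) : IsExact G := by
  have h1 : MEx ℤ := (MEx.field ℚ).of_injective (Int.castRingHom ℚ) (RingHom.injective_int _)
  have hinj : Function.Injective f.toHomUnits := by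
    intro x y h
    apply hf
    have := congrArg (fun z : (Matrix (Fin n) (Fin n) ℤ)ˣ => (z : Matrix (Fin n) (Fin n) ℤ)) h
    exact this
  exact (Ex.of_injective (h1 n) f.toHomUnits hinj).isExact

/-- The outer automorphism group of the free group of rank two. -/
theorem out_F2 : IsExact (Outer (FreeGroup (Fin 2))) := by
  let m : MulAut (FreeGroup (Fin 2)) →* Matrix (Fin 2) (Fin 2) ℤ :=
    { toFun := Run7.h574.mat
      map_one' := Run7.h574.mat_one
      map_mul' := Run7.h574.mat_mul }
  let F : Outer (FreeGroup (Fin 2)) →* (Matrix (Fin 2) (Fin 2) ℤ)ˣ :=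
    QuotientGroup.lift _ m.toHomUnits (by
      rintro _ ⟨g, rfl⟩
      apply Units.ext
      exact Run7.h574.mat_conj g)
  have hF : Function.Injective F := by
    rw [injective_iff_map_eq_one]
    intro x hx
    obtain ⟨φ, rfl⟩ := QuotientGroup.mk_surjective x
    have h1 : m φ = 1 := congrArg (fun z : (Matrix (Fin 2) (Fin 2) ℤ)ˣ =>
      (z : Matrix (Fin 2) (Fin 2) ℤ)) hx
    obtain ⟨g, hg⟩ := Run7.h574.inner_of_mat h1
    rw [QuotientGroup.eq_one_iff]
    exact ⟨g, hg.symm⟩
  have h1 : MEx ℤ := (MEx.field ℚ).of_injective (Int.castRingHom ℚ) (RingHom.injective_int _)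
  exact (Ex.of_injective (h1 2) F hF).isExact

/-- Finitely generated groups are countable, with countable automorphism groups. -/
theorem countable_fg (N : Type) [Group N] [h : Group.FG N] : Countable N := by
  classical
  obtain ⟨S, hS⟩ := h.out
  let f : FreeGroup S →* N := FreeGroup.lift fun s => (s : N)
  have hf : Function.Surjective f := by
    rw [← MonoidHom.range_eq_top, eq_top_iff, ← hS, Subgroup.closure_le]
    intro s hs
    exact ⟨FreeGroup.of ⟨s, hs⟩, by simp [f]⟩
  have : Countable (FreeGroup S) := by
    have h1 : Function.Injective (FreeGroup.toWord : FreeGroup S → List (S × Bool)) :=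
      FreeGroup.toWord_injective
    exact h1.countable
  exact hf.countable

theorem countable_aut (N : Type) [Group N] [h : Group.FG N] : Countable (MulAut N) := by
  have h0 := countable_fg N
  obtain ⟨S, hS⟩ := h.out
  let f : MulAut N → (S → N) := fun φ s => φ s
  have hf : Function.Injective f := by
    intro φ ψ hfe
    have h1 : φ.toMonoidHom = ψ.toMonoidHom := by
      apply MonoidHom.eq_of_eqOn_dense hS
      intro s hs
      exact congrFun hfe ⟨s, hs⟩
    apply MulEquiv.ext
    intro x
    exact DFunLike.congr_fun h1 x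
  exact hf.countable

theorem countable_out (N : Type) [Group N] [h : Group.FG N] : Countable (Outer N) := by
  have := countable_aut N
  exact (QuotientGroup.mk_surjective (s := (MulAut.conj (G := N)).range)).countable

/-- Free abelian groups. -/
theorem ax_zn (n : ℕ) : Ax (Multiplicative (Fin n → ℤ)) := by
  have hfg : Group.FG (Multiplicative (Fin n → ℤ)) := by
    have : AddGroup.FG (Fin n → ℤ) := by
      rw [← Module.Finite.iff_addGroup_fg]
      infer_instance
    infer_instance
  have haut : IsExact (MulAut (Multiplicative (Fin n → ℤ))) := by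
    let f : MulAut (Multiplicative (Fin n → ℤ)) →* Matrix (Fin n) (Fin n) ℤ :=
      { toFun := fun φ => LinearMap.toMatrix'
          ((MonoidHom.toAdditive φ.toMonoidHom : (Fin n → ℤ) →+ (Fin n → ℤ)).toIntLinearMap)
        map_one' := by
          rw [← LinearMap.toMatrix'_id]
          rfl
        map_mul' := fun φ ψ => by
          rw [← LinearMap.toMatrix'_mul]
          rfl }
    refine exact_glz n f ?_
    intro φ ψ h
    have h1 := (LinearMap.toMatrix' (R := ℤ) (m := Fin n) (n := Fin n)).injective h
    apply MulEquiv.ext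
    intro x
    exact congrArg (fun L : (Fin n → ℤ) →ₗ[ℤ] (Fin n → ℤ) => Multiplicative.ofAdd (L x.toAdd)) h1
  refine ⟨hfg, eclass_exact.comm _ mul_comm, haut, ?_⟩
  have h2 : (MulAut.conj (G := Multiplicative (Fin n → ℤ))).range = ⊥ := by
    rw [eq_bot_iff]
    rintro _ ⟨g, rfl⟩
    rw [Subgroup.mem_bot]
    apply MulEquiv.ext
    intro x
    rw [MulAut.conj_apply, mul_comm g x, mul_inv_cancel_right]
    rfl
  let g : Outer (Multiplicative (Fin n → ℤ)) →* MulAut (Multiplicative (Fin n → ℤ)) :=
    QuotientGroup.lift _ (MonoidHom.id _) (by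
      intro x hx
      rw [h2, Subgroup.mem_bot] at hx
      rw [hx]
      exact one_mem _)
  refine eclass_exact.inj _ _ g ?_ haut
  rw [injective_iff_map_eq_one]
  intro x hx
  obtain ⟨φ, rfl⟩ := QuotientGroup.mk_surjective x
  have h3 : φ = 1 := hx
  rw [h3]
  rfl

/-- The free group of rank two. -/
theorem ax_F2 : Ax (FreeGroup (Fin 2)) where
  fg := inferInstance
  ex := exact_free _
  aut := aut_of_out (exact_free _) out_F2 fun z hz => (isQ_free (Fin 2)).center z hz
  out := out_F2

theorem ax_free (n : ℕ) (h : IsExact (Outer (FreeGroup (Fin (n + 2))))) :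
    Ax (FreeGroup (Fin (n + 2))) where
  fg := inferInstance
  ex := exact_free _
  aut := aut_of_out (exact_free _) h fun z hz => (isQ_free (Fin (n + 2))).center z hz
  out := h

instance fg_surf (g : ℕ) : Group.FG (Surf g) :=
  Group.fg_of_surjective (f := PresentedGroup.mk _) (PresentedGroup.mk_surjective _)

theorem ax_surf (g : ℕ) (h : IsExact (Outer (Surf (g + 2)))) : Ax (Surf (g + 2)) where
  fg := inferInstance
  ex := exact_surf _ (by omega)
  aut := aut_of_out (exact_surf _ (by omega)) h fun z hz =>
    (isQ_surf (g + 2) (by omega)).center z hz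
  out := h

/-- The conclusion for towers. -/
structure Concl (N : Type) [Group N] : Prop where
  ex : IsExact N
  ce : CoarselyEmbeds N
  exAut : IsExact (MulAut N)
  ceAut : CoarselyEmbeds (MulAut N)
  exOut : IsExact (Outer N)
  ceOut : CoarselyEmbeds (Outer N)

theorem Ax.concl {N : Type} [Group N] (h : Ax N) : Concl N := by
  have h0 := h.fg
  have h1 := countable_fg N
  have h2 := countable_aut N
  have h3 := countable_out N
  exact ⟨h.ex, h.ex.coarselyEmbeds, h.aut, h.aut.coarselyEmbeds, h.out, h.out.coarselyEmbeds⟩

end Run7.h41.PF
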