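import Pool.Agent.Run7.h41.QJ
import Pool.Agent.Y529.FJ.Ext

/-!
# Extensions of groups in a Farrell-Jones class by towers
-/

namespace Run7.h41.PF

open MonoidAlgebra Pool.Agent.Y110.FJ Pool.Agent.Y462.SS

open scoped commutatorElement Pointwise

/-- `N` is a `C`-kernel: every extension of a group in `C` with kernel isomorphic to `N` is in
`C`. -/
def KerC (C : ∀ (G : Type) [Group G], Prop) (N : Type) [Group N] : Prop :=
  ∀ (G Q : Type) [Group G] [Group Q] (π : G →* Q), Function.Surjective π →
    Nonempty (π.ker ≃* N) → C Q → C G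

theorem KerC.congr {C : ∀ (G : Type) [Group G], Prop} {N L : Type} [Group N] [Group L]
    (h : KerC C N) (e : N ≃* L) : KerC C L := by
  intro G Q _ _ π hπ ⟨f⟩ hQ
  exact h G Q π hπ ⟨f.trans e.symm⟩ hQ

section
variable {C : ∀ (G : Type) [Group G], Prop}

/-- **Extensions of kernels.** -/
theorem kerC_ext (hC : Closed C) {N : Type} [Group N] (M : Subgroup N) [M.Normal] (h1 : M.FG)
    (h2 : Group.FG (N ⧸ M)) (h3 : IsQ (N ⧸ M)) (h4 : KerC C M) (h5 : KerC C (N ⧸ M)) :
    KerC C N := by
  intro G Q _ _ π hπ ⟨e⟩ hQ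
  have hNfg : Group.FG N := fg_ext (QuotientGroup.mk' M) (QuotientGroup.mk'_surjective M)
    (by rw [QuotientGroup.ker_mk']; exact h1) h2
  -- the action on `N`
  let ρ : G →* MulAut N := (MulAut.congr e).toMonoidHom.comp (MulAut.conjNormal (H := π.ker))
  have hρ : ∀ (g : G) (n : N), ((e.symm (ρ g n) : π.ker) : G) = g * (e.symm n : π.ker) * g⁻¹ := by
    intro g n
    simp only [ρ, MonoidHom.comp_apply, MulEquiv.coe_toMonoidHom, MulAut.congr]
    simp [MulAut.conjNormal_apply]
  have hM : M ∈ QN N := ⟨h1, N ⧸ M, inferInstance, QuotientGroup.mk' M,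
    QuotientGroup.mk'_surjective M, QuotientGroup.ker_mk' M, h3⟩
  have hfi := finiteIndex_stab ρ hM
  set G0 : Subgroup G := (MulAction.stabilizer (MulAut N) M).comap ρ with hG0
  refine hC.finiteIndex G G0 hfi ?_
  have hG0mem : ∀ g : G, g ∈ G0 ↔ ∀ x, ρ g x ∈ M ↔ x ∈ M := fun g => mem_Stab (φ := ρ g)
  -- the kernel lies in `G0`
  have hker : ∀ n : N, ((e.symm n : π.ker) : G) ∈ G0 := by
    intro n
    rw [hG0mem]
    intro x
    have h6 : ρ ((e.symm n : π.ker) : G) x = n * x * n⁻¹ := by
      apply e.symm.injective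
      apply Subtype.ext
      rw [hρ, map_mul, map_mul, map_inv]
      rfl
    rw [h6]
    constructor
    · intro h
      have := Subgroup.Normal.conj_mem (H := M) inferInstance _ h n⁻¹
      convert this using 1
      group
    · intro h
      exact Subgroup.Normal.conj_mem inferInstance x h n
  let a0 : N →* G0 :=
    { toFun := fun n => ⟨((e.symm n : π.ker) : G), hker n⟩
      map_one' := by apply Subtype.ext; simp
      map_mul' := fun x y => by apply Subtype.ext; simp }
  have ha0 : Function.Injective a0 := by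
    intro x y h
    have := congrArg (fun z : G0 => (z : G)) h
    exact e.symm.injective (Subtype.ext this)
  have hconj : ∀ (g : G0) (n : N), g * a0 n * g⁻¹ = a0 (ρ g n) := by
    intro g n
    apply Subtype.ext
    exact (hρ g n).symm
  let M0 : Subgroup G0 := M.map a0
  have hM0 : M0.Normal := by
    constructor
    rintro _ ⟨n, hn, rfl⟩ g
    rw [hconj]
    exact ⟨ρ g n, ((hG0mem g).mp g.2 n).mpr hn, rfl⟩
  -- the map to the quotient
  let p0 : G0 →* Q := π.comp G0.subtype
  have hp0 : ∀ n, p0 (a0 n) = 1 := fun n => (e.symm n).2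
  have hM0le : M0 ≤ p0.ker := by
    rintro _ ⟨n, _, rfl⟩
    exact hp0 n
  have hR : C p0.range := hC.of_injective _ _ p0.range.subtype p0.range.subtype_injective hQ
  -- the quotient by `M0`
  have hstep1 : C (G0 ⧸ M0) := by
    let p1 : G0 ⧸ M0 →* p0.range := QuotientGroup.lift M0 p0.rangeRestrict (by
      intro x hx
      rw [MonoidHom.ker_rangeRestrict]
      exact hM0le hx)
    have hp1 : Function.Surjective p1 := by
      intro r
      obtain ⟨g, rfl⟩ := p0.rangeRestrict_surjective r
      exact ⟨QuotientGroup.mk g, rfl⟩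
    refine h5 (G0 ⧸ M0) p0.range p1 hp1 ?_ hR
    let a1 : N →* G0 ⧸ M0 := (QuotientGroup.mk' M0).comp a0
    have ha1 : a1.ker = M := by
      ext n
      rw [MonoidHom.mem_ker]
      change (QuotientGroup.mk (a0 n) : G0 ⧸ M0) = 1 ↔ _
      rw [QuotientGroup.eq_one_iff]
      constructor
      · rintro ⟨m, hm, h⟩
        rw [← ha0 h]
        exact hm
      · intro h
        exact ⟨n, h, rfl⟩
    have ha2 : a1.range = p1.ker := by
      ext x
      constructor
      · rintro ⟨n, rfl⟩
        rw [MonoidHom.mem_ker]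
        apply Subtype.ext
        exact hp0 n
      · intro hx
        obtain ⟨g, rfl⟩ := QuotientGroup.mk_surjective x
        have hx' : p0 g = 1 := congrArg (fun z : p0.range => (z : Q)) hx
        have hgk : (g : G) ∈ π.ker := hx'
        refine ⟨e ⟨g, hgk⟩, ?_⟩
        change (QuotientGroup.mk (a0 (e ⟨g, hgk⟩)) : G0 ⧸ M0) = QuotientGroup.mk g
        congr 1
        apply Subtype.ext
        simp [a0]
    exact ⟨((MulEquiv.subgroupCongr ha2).symm.trans (QuotientGroup.quotientKerEquivRange a1).symm).trans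
      (QuotientGroup.quotientMulEquivOfEq ha1)⟩
  refine h4 G0 (G0 ⧸ M0) (QuotientGroup.mk' M0) (QuotientGroup.mk'_surjective M0) ?_ hstep1
  rw [QuotientGroup.ker_mk']
  exact ⟨(Subgroup.equivMapOfInjective M a0 ha0).symm⟩

/-- Groups all of whose mapping tori are in `C` are `C`-kernels. -/
theorem kerC_of_tori (hC : ClosedE C) {N : Type} [Group N]
    (h : ∀ α : MulAut N, C (N ⋊[zpowersHom (MulAut N) α] Multiplicative ℤ)) : KerC C N := by
  intro G Q _ _ π hπ ⟨e⟩ hQ
  have hN : C N := hC.base.of_injective _ _ (SemidirectProduct.inl :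
    N →* N ⋊[zpowersHom (MulAut N) 1] Multiplicative ℤ) SemidirectProduct.inl_injective (h 1)
  have hK : C π.ker := hC.base.of_injective _ _ e.toMonoidHom e.injective hN
  have hQ' : C (G ⧸ π.ker) := hC.base.of_injective _ _
    (QuotientGroup.quotientKerEquivOfSurjective π hπ).toMonoidHom (MulEquiv.injective _) hQ
  refine Pool.Agent.Y529.FJ.t_ext C hC G π.ker hK hQ' ?_
  intro g hg
  let α : MulAut N := MulAut.congr e (MulAut.conjNormal (H := π.ker) g)
  have hα : ∀ n : N, ((e.symm (α n) : π.ker) : G) = g * (e.symm n : π.ker) * g⁻¹ := by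
    intro n
    simp only [α, MulAut.congr]
    simp [MulAut.conjNormal_apply]
  let i0 : N →* G := π.ker.subtype.comp e.symm.toMonoidHom
  have hcomp : ∀ z : Multiplicative ℤ, i0.comp ((zpowersHom (MulAut N) α z).toMonoidHom) =
      (MulAut.conj (zpowersHom G g z)).toMonoidHom.comp i0 := by
    intro z
    apply MonoidHom.ext
    intro n
    change i0 ((α ^ (Multiplicative.toAdd z)) n) = (g ^ (Multiplicative.toAdd z)) * i0 n *
      (g ^ (Multiplicative.toAdd z))⁻¹
    have h1 : ∀ w, i0 (α w) = g * i0 w * g⁻¹ := hα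
    have h2 : ∀ w, i0 (α⁻¹ w) = g⁻¹ * i0 w * g := by
      intro w
      have := h1 (α⁻¹ w)
      rw [MulAut.apply_inv_self] at this
      rw [this]
      group
    generalize Multiplicative.toAdd z = k
    induction k using Int.induction_on generalizing n with
    | zero => simp
    | succ k ih =>
      rw [zpow_add_one, MulAut.mul_apply, ih, h1, zpow_add_one]
      group
    | pred k ih =>
      rw [zpow_sub_one, MulAut.mul_apply, ih, h2, zpow_sub_one]
      group
  let Θ : N ⋊[zpowersHom (MulAut N) α] Multiplicative ℤ →* G :=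
    SemidirectProduct.lift i0 (zpowersHom G g) hcomp
  have hΘ : ∀ x, Θ x = i0 x.left * g ^ (Multiplicative.toAdd x.right) := fun x => rfl
  have hi0 : ∀ n, i0 n ∈ π.ker := fun n => (e.symm n).2
  have hinj : Function.Injective Θ := by
    rw [injective_iff_map_eq_one]
    intro x hx
    rw [hΘ] at hx
    have h3 : g ^ (Multiplicative.toAdd x.right) ∈ π.ker := by
      rw [← inv_eq_iff_mul_eq_one] at hx
      rw [← hx]
      exact inv_mem (hi0 _)
    have h4 : Multiplicative.toAdd x.right = 0 := by
      by_contra h5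
      have h6 : g ^ (Multiplicative.toAdd x.right).natAbs ∈ π.ker := by
        rcases Int.natAbs_eq (Multiplicative.toAdd x.right) with h7 | h7
        · rw [h7, zpow_natCast] at h3
          exact h3
        · rw [h7, zpow_neg, zpow_natCast] at h3
          exact (inv_mem_iff).mp h3
      exact hg _ (Int.natAbs_pos.mpr h5) h6
    rw [h4, zpow_zero, mul_one] at hx
    have h8 : x.left = 1 := by
      have : (e.symm x.left : π.ker) = 1 := Subtype.ext hx
      rw [← map_one e.symm] at this
      exact e.symm.injective this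
    apply SemidirectProduct.ext
    · exact h8
    · exact h4
  have hrange : ∀ x : ↥(π.ker ⊔ Subgroup.zpowers g), ∃ y, Θ y = x := by
    have hle : π.ker ⊔ Subgroup.zpowers g ≤ Θ.range := by
      rw [sup_le_iff]
      constructor
      · intro k hk
        refine ⟨SemidirectProduct.inl (e ⟨k, hk⟩), ?_⟩
        rw [hΘ]
        simp [i0]
      · rw [Subgroup.zpowers_le]
        refine ⟨SemidirectProduct.inr (Multiplicative.ofAdd 1), ?_⟩
        rw [hΘ]
        simp
    rintro ⟨x, hx⟩
    exact hle hx
  -- the inverse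
  let E := MonoidHom.ofInjective hinj
  have hle : π.ker ⊔ Subgroup.zpowers g ≤ Θ.range := fun x hx => hrange ⟨x, hx⟩
  exact hC.base.of_injective _ _ (E.symm.toMonoidHom.comp (Subgroup.inclusion hle))
    (E.symm.injective.comp (Subgroup.inclusion_injective hle)) (h α)

/-- Groups with trivial center. -/
def Cless (N : Type) [Group N] : Prop := ∀ z : N, (∀ y, z * y = y * z) → z = 1

/-- **Automorphism groups of extensions.** -/
theorem autC_ext (hC : Closed C) {N : Type} [Group N] (M : Subgroup N) [M.Normal] (h1 : M.FG)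
    (h2 : Group.FG (N ⧸ M)) (h3 : IsQ (N ⧸ M)) (hM : Cless M) (h4 : C (MulAut M))
    (h5 : C (MulAut (N ⧸ M))) : C (MulAut N) := by
  have hfi := stab_fi M h1 h2 h3
  refine hC.finiteIndex _ (Stab M) hfi ?_
  refine hC.of_injective _ _ ((res (M := M)).prod (quo (M := M))) ?_ (hC.prod _ _ h4 h5)
  rw [injective_iff_map_eq_one]
  intro φ hφ
  have hr : res φ = 1 := congrArg Prod.fst hφ
  have hq : quo φ = 1 := congrArg Prod.snd hφ
  have hm : ∀ m ∈ M, φ.1 m = m := by
    intro m hm
    exact congrArg (fun f : MulAut M => ((f ⟨m, hm⟩ : M) : N)) hr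
  apply Subtype.ext
  apply MulEquiv.ext
  intro n
  have h6 : φ.1 n * n⁻¹ ∈ M := by
    have := congrArg (fun f : MulAut (N ⧸ M) => f (n : N ⧸ M)) hq
    simp only [quo_apply, MulAut.one_apply] at this
    rw [← QuotientGroup.eq_one_iff, QuotientGroup.mk_mul, this, QuotientGroup.mk_inv,
      mul_inv_cancel]
  have h7 : (⟨φ.1 n * n⁻¹, h6⟩ : M) = 1 := by
    apply hM
    rintro ⟨m, hmM⟩
    apply Subtype.ext
    change φ.1 n * n⁻¹ * m = m * (φ.1 n * n⁻¹)
    have h8 : n⁻¹ * m * n ∈ M := by
      have := Subgroup.Normal.conj_mem (H := M) inferInstance m hmM n⁻¹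
      rwa [inv_inv] at this
    have h9 := hm _ h8
    rw [map_mul, map_mul, map_inv, hm m hmM] at h9
    have h10 : m * φ.1 n = φ.1 n * (n⁻¹ * m * n) := by
      rw [← h9]; group
    calc φ.1 n * n⁻¹ * m = φ.1 n * (n⁻¹ * m * n) * n⁻¹ := by group
      _ = m * φ.1 n * n⁻¹ := by rw [h10]
      _ = m * (φ.1 n * n⁻¹) := by group
  have h11 : φ.1 n * n⁻¹ = 1 := congrArg (fun z : M => (z : N)) h7
  exact mul_inv_eq_one.mp h11

/-- Centerless extensions. -/
theorem cless_ext {N L : Type} [Group N] [Group L] (π : N →* L) (hπ : Function.Surjective π)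
    (h1 : Cless π.ker) (h2 : Cless L) : Cless N := by
  intro z hz
  have h3 : π z = 1 := by
    apply h2
    intro y
    obtain ⟨n, rfl⟩ := hπ y
    rw [← map_mul, ← map_mul, hz]
  have h4 : (⟨z, h3⟩ : π.ker) = 1 := by
    apply h1
    rintro ⟨y, hy⟩
    apply Subtype.ext
    exact hz y
  exact congrArg (fun x : π.ker => (x : N)) h4

/-- A centerless group with automorphism group in `C` is a `C`-kernel. -/
theorem kerC_of_aut (hC : Closed C) {N : Type} [Group N] (hN : Cless N) (h : C (MulAut N)) :
    KerC C N := by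
  intro G Q _ _ π hπ ⟨e⟩ hQ
  let ρ : G →* MulAut N := (MulAut.congr e).toMonoidHom.comp (MulAut.conjNormal (H := π.ker))
  refine hC.of_injective _ _ (ρ.prod π) ?_ (hC.prod _ _ h hQ)
  rw [injective_iff_map_eq_one]
  intro g hg
  have h1 : ρ g = 1 := congrArg Prod.fst hg
  have h2 : π g = 1 := congrArg Prod.snd hg
  have h3 : e ⟨g, h2⟩ = 1 := by
    apply hN
    intro y
    have h5 : ((e.symm (ρ g y) : π.ker) : G) = g * (e.symm y : π.ker) * g⁻¹ := by
      simp only [ρ, MonoidHom.comp_apply, MulEquiv.coe_toMonoidHom, MulAut.congr]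
      simp [MulAut.conjNormal_apply]
    apply e.symm.injective
    apply Subtype.ext
    rw [map_mul, map_mul, e.symm_apply_apply]
    change g * (e.symm y : π.ker) = (e.symm y : π.ker) * g
    rw [h1, MulAut.one_apply] at h5
    exact mul_inv_eq_iff_eq_mul.mp h5.symm
  have h6 : (⟨g, h2⟩ : π.ker) = 1 := by
    rw [← map_one e] at h3
    exact e.injective h3
  exact congrArg (fun x : π.ker => (x : G)) h6

end

end Run7.h41.PF
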