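import Pool.Agent.Run7.h41.Degree

/-!
# Radial extensions
-/

set_option autoImplicit false

namespace Pool.Agent.Run7.h41.Top

open Set Pool.Agent.Run7.h41.CW

/-- the centre of the disc -/
noncomputable def ctr : Disc 2 := ofc 0 (by simp)

theorem cx_ctr : cx ctr = 0 := cx_ofc _ _

theorem ctr_norm : ‖ctr.1‖ = 0 := by rw [← cx_norm, cx_ctr, norm_zero]

theorem ne_ctr_iff {x : Disc 2} : x ≠ ctr ↔ cx x ≠ 0 := by
  constructor
  · intro h hc
    exact h (cx_inj (hc.trans cx_ctr.symm))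
  · rintro h rfl
    exact h cx_ctr

/-- a periodic function defines a function on the punctured disc, constant on rays -/
theorem radial_ext {Y : Type} [TopologicalSpace Y] {f : ℝ → Y} (hf : Continuous f)
    (hper : ∀ t, f (t + 1) = f t) :
    ∃ F : Disc 2 → Y, ContinuousOn F {x | x ≠ ctr} ∧ ∀ r t, 0 < r → r ≤ 1 → F (pol r t) = f t := by
  have hp : Function.Periodic f 1 := hper
  have hS : ∀ x : {x : Disc 2 // x ≠ ctr}, ‖cx x.1 / (‖cx x.1‖ : ℂ)‖ = 1 := by
    intro x
    have := norm_ne_zero_iff.2 (ne_ctr_iff.1 x.2)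
    rw [norm_div, Complex.norm_real, norm_norm, div_self this]
  let S : {x : Disc 2 // x ≠ ctr} → Circle := fun x =>
    ⟨cx x.1 / (‖cx x.1‖ : ℂ), mem_sphere_zero_iff_norm.2 (hS x)⟩
  have hSc : Continuous S := by
    apply Continuous.subtype_mk
    apply Continuous.div
    · exact cx_continuous.comp continuous_subtype_val
    · exact Complex.continuous_ofReal.comp
        (continuous_norm.comp (cx_continuous.comp continuous_subtype_val))
    · intro x
      exact_mod_cast norm_ne_zero_iff.2 (ne_ctr_iff.1 x.2)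
  let U : {x : Disc 2 // x ≠ ctr} → Y := fun x =>
    hp.lift ((AddCircle.homeomorphCircle (one_ne_zero (α := ℝ))).symm (S x))
  have hlc : Continuous hp.lift := continuous_quot_lift _ hf
  have hU : Continuous U := hlc.comp ((Homeomorph.continuous _).comp hSc)
  classical
  refine ⟨fun x => if h : x ≠ ctr then U ⟨x, h⟩ else f 0, ?_, ?_⟩
  · rw [continuousOn_iff_continuous_domRestrict]
    refine hU.congr (fun x => ?_)
    have hx : x.1 ≠ ctr := x.2
    simp only [domRestrict_apply, dif_pos hx]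
  · intro r t h0 h1
    have h2 : pol r t ≠ ctr := by
      rw [ne_ctr_iff, pol_eq h0.le h1]
      exact mul_ne_zero (by exact_mod_cast h0.ne') (by rw [← norm_ne_zero_iff, ex_norm]; simp)
    simp only [dif_pos h2]
    have h3 : S ⟨pol r t, h2⟩ = AddCircle.homeomorphCircle (one_ne_zero (α := ℝ)) (t : AddCircle (1 : ℝ)) := by
      rw [AddCircle.homeomorphCircle_apply, AddCircle.toCircle_apply_mk]
      apply Subtype.ext
      have h4 : cx (pol r t) / (‖cx (pol r t)‖ : ℂ) = ex t := by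
        rw [cx_norm, pol_norm h0.le h1, pol_eq h0.le h1]
        have : (r : ℂ) ≠ 0 := by exact_mod_cast h0.ne'
        field_simp
      refine h4.trans ?_
      rw [← circleExp_eq]
      simp
    show hp.lift ((AddCircle.homeomorphCircle (one_ne_zero (α := ℝ))).symm (S ⟨pol r t, h2⟩)) = f t
    rw [h3, Homeomorph.symm_apply_apply]
    rfl

/-- the scaling factor of the radial projection from `q` -/
noncomputable def sc (q v : ℂ) : ℝ :=
  (-((star q * (v - q)).re) + √(((star q * (v - q)).re) ^ 2 + ‖v - q‖ ^ 2 * (1 - ‖q‖ ^ 2))) /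
    ‖v - q‖ ^ 2

theorem sc_pos {q v : ℂ} (hq : ‖q‖ < 1) (hv : v ≠ q) : 0 < sc q v := by
  have hD : 0 < ‖v - q‖ ^ 2 := by
    have : 0 < ‖v - q‖ := norm_pos_iff.2 (sub_ne_zero.2 hv)
    positivity
  have h1 : 0 < 1 - ‖q‖ ^ 2 := by nlinarith [norm_nonneg q]
  apply div_pos _ hD
  have h2 : |(star q * (v - q)).re| < √(((star q * (v - q)).re) ^ 2 + ‖v - q‖ ^ 2 * (1 - ‖q‖ ^ 2)) := by
    apply Real.lt_sqrt_of_sq_lt
    rw [sq_abs]
    have := mul_pos hD h1
    linarith
  have h3 := le_abs_self ((star q * (v - q)).re)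
  linarith

theorem normSq_line (q d : ℂ) (s : ℝ) :
    ‖q + s * d‖ ^ 2 = ‖q‖ ^ 2 + 2 * s * (star q * d).re + s ^ 2 * ‖d‖ ^ 2 := by
  rw [Complex.sq_norm, Complex.sq_norm, Complex.sq_norm, Complex.normSq_apply, Complex.normSq_apply,
    Complex.normSq_apply]
  simp
  ring

theorem sc_norm {q v : ℂ} (hq : ‖q‖ < 1) (hv : v ≠ q) : ‖q + sc q v * (v - q)‖ = 1 := by
  have hD : 0 < ‖v - q‖ ^ 2 := by
    have : 0 < ‖v - q‖ := norm_pos_iff.2 (sub_ne_zero.2 hv)
    positivity
  have h1 : 0 < 1 - ‖q‖ ^ 2 := by nlinarith [norm_nonneg q]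
  have h2 : ‖q + sc q v * (v - q)‖ ^ 2 = 1 := by
    rw [normSq_line]
    set b := (star q * (v - q)).re with hb
    set D := ‖v - q‖ ^ 2 with hDD
    have hw : √(b ^ 2 + D * (1 - ‖q‖ ^ 2)) ^ 2 = b ^ 2 + D * (1 - ‖q‖ ^ 2) :=
      Real.sq_sqrt (by positivity)
    set w := √(b ^ 2 + D * (1 - ‖q‖ ^ 2)) with hww
    have hs : sc q v * D = -b + w := by
      unfold sc
      rw [← hb, ← hDD, ← hww, div_mul_cancel₀ _ hD.ne']
    have h3 : (‖q‖ ^ 2 + 2 * sc q v * b + sc q v ^ 2 * D) * D = 1 * D := by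
      have : (‖q‖ ^ 2 + 2 * sc q v * b + sc q v ^ 2 * D) * D =
          ‖q‖ ^ 2 * D + 2 * b * (sc q v * D) + (sc q v * D) ^ 2 := by ring
      rw [this, hs]
      nlinarith
    exact mul_right_cancel₀ hD.ne' h3
  nlinarith [norm_nonneg (q + sc q v * (v - q))]

theorem sc_one {q v : ℂ} (hq : ‖q‖ < 1) (hv : ‖v‖ = 1) : sc q v = 1 := by
  have hne : v ≠ q := by
    rintro rfl
    exact absurd hv hq.ne
  have hD : 0 < ‖v - q‖ ^ 2 := by
    have : 0 < ‖v - q‖ := norm_pos_iff.2 (sub_ne_zero.2 hne)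
    positivity
  have h1 : 0 < 1 - ‖q‖ ^ 2 := by nlinarith [norm_nonneg q]
  have h2 := normSq_line q (v - q) 1
  rw [Complex.ofReal_one, one_mul, add_sub_cancel, hv] at h2
  unfold sc
  set b := (star q * (v - q)).re with hb
  set D := ‖v - q‖ ^ 2 with hDD
  have h3 : b ^ 2 + D * (1 - ‖q‖ ^ 2) = (b + D) ^ 2 := by nlinarith
  rw [h3, Real.sqrt_sq (by nlinarith)]
  rw [div_eq_one_iff_eq hD.ne']
  ring

/-- the radial projection of the disc from an interior point -/
theorem radial (q : Disc 2) (hq : ‖q.1‖ < 1) :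
    ∃ (R : {v : Disc 2 // v ≠ q} → Disc 2) (H : {v : Disc 2 // v ≠ q} × ℝ → Disc 2),
      Continuous R ∧ Continuous H ∧ (∀ v, ‖(R v).1‖ = 1) ∧ (∀ v, ‖v.1.1‖ = 1 → R v = v.1) ∧
      (∀ v, H (v, 0) = v.1) ∧ (∀ v, H (v, 1) = R v) ∧ ∀ p, H p ≠ q := by
  have hq' : ‖cx q‖ < 1 := by rwa [cx_norm]
  have hne : ∀ v : {v : Disc 2 // v ≠ q}, cx v.1 ≠ cx q := fun v h => v.2 (cx_inj h)
  let c : ℝ → ℝ := fun s => (projIcc (0 : ℝ) 1 zero_le_one s : ℝ)
  have hc : Continuous c := continuous_subtype_val.comp continuous_projIcc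
  have hc0 : ∀ s, 0 ≤ c s := fun s => (projIcc _ _ _ s).2.1
  have hc1 : ∀ s, c s ≤ 1 := fun s => (projIcc _ _ _ s).2.2
  let r : {v : Disc 2 // v ≠ q} → ℂ := fun v => cx q + sc (cx q) (cx v.1) * (cx v.1 - cx q)
  have hr : ∀ v, ‖r v‖ = 1 := fun v => sc_norm hq' (hne v)
  have hrc : Continuous r := by
    have hv : Continuous fun v : {v : Disc 2 // v ≠ q} => cx v.1 :=
      cx_continuous.comp continuous_subtype_val
    have h1 : Continuous fun v : {v : Disc 2 // v ≠ q} => sc (cx q) (cx v.1) := by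
      unfold sc
      apply Continuous.div
      · apply Continuous.add
        · exact (Complex.continuous_re.comp (continuous_const.mul (hv.sub continuous_const))).neg
        · apply Real.continuous_sqrt.comp
          apply Continuous.add
          · exact (Complex.continuous_re.comp (continuous_const.mul (hv.sub continuous_const))).pow 2
          · exact ((continuous_norm.comp (hv.sub continuous_const)).pow 2).mul continuous_const
      · exact (continuous_norm.comp (hv.sub continuous_const)).pow 2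
      · intro v
        have := norm_pos_iff.2 (sub_ne_zero.2 (hne v))
        positivity
    exact continuous_const.add ((Complex.continuous_ofReal.comp h1).mul (hv.sub continuous_const))
  let l : {v : Disc 2 // v ≠ q} × ℝ → ℂ := fun p =>
    ((1 - c p.2 : ℝ) : ℂ) * cx p.1.1 + ((c p.2 : ℝ) : ℂ) * r p.1
  have hl : ∀ p, ‖l p‖ ≤ 1 := by
    intro p
    have h1 : ‖l p‖ ≤ ‖((1 - c p.2 : ℝ) : ℂ) * cx p.1.1‖ + ‖((c p.2 : ℝ) : ℂ) * r p.1‖ :=
      norm_add_le _ _
    rw [norm_mul, norm_mul, Complex.norm_real, Complex.norm_real, hr,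
      Real.norm_of_nonneg (sub_nonneg.2 (hc1 _)), Real.norm_of_nonneg (hc0 _)] at h1
    have h2 : ‖cx p.1.1‖ ≤ 1 := by
      rw [cx_norm]
      exact p.1.1.norm_le
    nlinarith [hc0 p.2, hc1 p.2]
  have hlc : Continuous l := by
    apply Continuous.add
    · exact (Complex.continuous_ofReal.comp (continuous_const.sub (hc.comp continuous_snd))).mul
        (cx_continuous.comp (continuous_subtype_val.comp continuous_fst))
    · exact (Complex.continuous_ofReal.comp (hc.comp continuous_snd)).mul (hrc.comp continuous_fst)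
  refine ⟨fun v => ofc (r v) (hr v).le, fun p => ofc (l p) (hl p), ofc_continuous hrc _,
    ofc_continuous hlc _, fun v => (ofc_norm _ _).trans (hr v), fun v hv => ?_, fun v => ?_,
    fun v => ?_, fun p hp => ?_⟩
  · apply cx_inj
    rw [cx_ofc]
    show cx q + sc (cx q) (cx v.1) * (cx v.1 - cx q) = cx v.1
    rw [sc_one hq' (by rw [cx_norm, hv])]
    simp
  · apply cx_inj
    rw [cx_ofc]
    simp [l, c]
  · apply cx_inj
    rw [cx_ofc, cx_ofc]
    simp [l, c]
  · have h1 := congrArg cx hp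
    rw [cx_ofc] at h1
    have h2 : l p = cx q + (((1 - c p.2) + c p.2 * sc (cx q) (cx p.1.1) : ℝ) : ℂ) *
        (cx p.1.1 - cx q) := by
      show ((1 - c p.2 : ℝ) : ℂ) * cx p.1.1 + ((c p.2 : ℝ) : ℂ) *
        (cx q + sc (cx q) (cx p.1.1) * (cx p.1.1 - cx q)) = _
      push_cast
      ring
    rw [h2] at h1
    have h3 : (((1 - c p.2) + c p.2 * sc (cx q) (cx p.1.1) : ℝ) : ℂ) * (cx p.1.1 - cx q) = 0 := by
      linear_combination h1
    rcases mul_eq_zero.1 h3 with h4 | h4
    · have h5 : (1 - c p.2) + c p.2 * sc (cx q) (cx p.1.1) = 0 := by exact_mod_cast h4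
      have h6 := sc_pos hq' (hne p.1)
      rcases (hc0 p.2).eq_or_lt with h7 | h7
      · rw [← h7] at h5
        norm_num at h5
      · have := mul_pos h7 h6
        have := hc1 p.2
        linarith
    · exact hne p.1 (sub_eq_zero.1 h4)

end Pool.Agent.Run7.h41.Top
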