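import Pool.Agent.Run7.h41.Radial

/-!
# Two discs in the two-sphere

`T` is a homeomorphism of the three-dimensional ball which maps the upper hemisphere into the lower
one, and so does its inverse. The loops around the two discs are homotopic, up to orientation, in
the complement of two points.
-/

set_option autoImplicit false

namespace Pool.Agent.Run7.h41.Top

open Set Pool.Agent.Run7.h41.CW

/-- the loop `T (equator)`, projected to the plane -/
noncomputable def bl (T : Disc 3 ≃ₜ Disc 3) (t : ℝ) : Disc 2 := proj (T (upper (circ t)))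

theorem bl_continuous (T : Disc 3 ≃ₜ Disc 3) : Continuous (bl T) :=
  proj_continuous.comp (T.continuous.comp (upper_continuous.comp circ_continuous))

theorem upper_inj {n : ℕ} {x y : Disc n} (h : upper x = upper y) : x = y := by
  rw [← proj_upper x, h, proj_upper]

theorem lower_inj {n : ℕ} {x y : Disc n} (h : lower x = lower y) : x = y := by
  rw [← proj_lower x, h, proj_lower]

theorem circ_ne_ctr (t : ℝ) : circ t ≠ ctr := by
  intro h
  have := circ_norm t
  rw [h, ctr_norm] at this
  exact zero_ne_one this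

theorem bl_lower {T : Disc 3 ≃ₜ Disc 3} (hA : ∀ x : Disc 2, ∃ y : Disc 2, T (upper x) = lower y)
    (x : Disc 2) : lower (proj (T (upper x))) = T (upper x) := by
  obtain ⟨y, hy⟩ := hA x
  rw [hy, proj_lower]

theorem bl_ne {T : Disc 3 ≃ₜ Disc 3} (hA : ∀ x : Disc 2, ∃ y : Disc 2, T (upper x) = lower y)
    {q : Disc 2} (hB : T (upper ctr) = lower q) (t : ℝ) : bl T t ≠ q := by
  intro h
  have h1 : T (upper (circ t)) = T (upper ctr) := by
    rw [← bl_lower hA, hB]
    exact congrArg lower h
  exact circ_ne_ctr t (upper_inj (T.injective h1))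

theorem half {T : Disc 3 ≃ₜ Disc 3} (hA : ∀ x : Disc 2, ∃ y : Disc 2, T (upper x) = lower y)
    {q : Disc 2} (hB : T (upper ctr) = lower q)
    {R : {v : Disc 2 // v ≠ q} → Disc 2} {H : {v : Disc 2 // v ≠ q} × ℝ → Disc 2}
    (hH : Continuous H) (hH0 : ∀ v, H (v, 0) = v.1) (hH1 : ∀ v, H (v, 1) = R v)
    (hHq : ∀ p, H p ≠ q) {a : ℝ → ℝ} {m : ℤ} (ha : Continuous a)
    (hc : ∀ t, circ (a t) = R ⟨bl T t, bl_ne hA hB t⟩) (hm : ∀ t, a (t + 1) = a t + m)
    {G : Type} [Group G] {Ψ : Disc 2 → BG G} (hΨ : ContinuousOn Ψ {v | v ≠ q}) {g : G}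
    (h : HasHol (fun t => Ψ (circ t)) g) : HasHol (fun t => Ψ (bl T t)) (g ^ m) := by
  let b : ℝ → {v : Disc 2 // v ≠ q} := fun t => ⟨bl T t, bl_ne hA hB t⟩
  have hb : Continuous b := Continuous.subtype_mk (bl_continuous T) _
  have hF : Continuous fun p : ℝ × ℝ => Ψ (H (b p.1, p.2)) := by
    apply hΨ.comp_continuous
    · exact hH.comp ((hb.comp continuous_fst).prodMk continuous_snd)
    · intro p
      exact hHq _
  have hper : ∀ t s : ℝ, Ψ (H (b (t + 1), s)) = Ψ (H (b t, s)) := by
    intro t s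
    have : b (t + 1) = b t := Subtype.ext (by simp only [b, bl, circ_add_one])
    rw [this]
  have h1 : HasHol (fun t => (fun p : ℝ × ℝ => Ψ (H (b p.1, p.2))) (t, 1)) (g ^ m) := by
    refine (h.reparam ha m hm).congr (fun t => ?_)
    simp only [hH1, hc]
    rfl
  have h2 := HasHol.homotopy (b := 0) hF hper h1
  exact h2.congr (fun t => by simp only [hH0]; rfl)

theorem fract_loop {Y : Type} [TopologicalSpace Y] {f : ℝ → Y} (hf : Continuous f)
    (h : f 0 = f 1) : Continuous (fun t => f (Int.fract t)) :=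
  ContinuousOn.comp_fract'' hf.continuousOn h

/-- a loop of degree one -/
theorem exists_unit_loop : ∃ f : ℝ → BG (Multiplicative ℤ), Continuous f ∧
    (∀ t, f (t + 1) = f t) ∧ HasHol f (Multiplicative.ofAdd 1) := by
  let g : Multiplicative ℤ := Multiplicative.ofAdd 1
  let f : ℝ → BG (Multiplicative ℤ) := fun t => pr _ (gp g (Int.fract t))
  have hf : Continuous f := fract_loop (f := fun t => pr _ (gp g t))
    (pr_continuous.comp (gp_continuous g)) (by
      show pr _ (gp g 0) = pr _ (gp g 1)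
      rw [gp_zero, gp_one, pr_smul])
  have hper : ∀ t, f (t + 1) = f t := fun t => by
    simp only [f, Int.fract_add_one]
  refine ⟨f, hf, hper, hasHol_of_path hf hper (p := gp g) (gp_continuous g).continuousOn ?_ ?_⟩
  · intro t ht
    by_cases h1 : t = 1
    · subst h1
      simp only [f, Int.fract_one, gp_zero, gp_one, pr_smul]
    · have : Int.fract t = t := Int.fract_eq_self.2 ⟨ht.1, lt_of_le_of_ne ht.2 h1⟩
      simp only [f, this]
  · rw [gp_zero, gp_one]

theorem upper_ctr_last : (upper ctr).1 (Fin.last 2) = 1 := by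
  rw [upper_last, ctr_norm]
  simp

theorem lower_ne_top (x : Disc 2) : lower x ≠ upper ctr := by
  intro h
  have h1 := congrArg (fun z : Disc 3 => z.1 (Fin.last 2)) h
  simp only [upper_ctr_last, lower_last] at h1
  have := Real.sqrt_nonneg (1 - ‖x.1‖ ^ 2)
  linarith

theorem two_face {T : Disc 3 ≃ₜ Disc 3} (hT : ∀ x, ‖(T x).1‖ = 1 ↔ ‖x.1‖ = 1)
    (hA : ∀ x : Disc 2, ∃ y : Disc 2, T (upper x) = lower y)
    {q : Disc 2} (hq : ‖q.1‖ < 1) (hB : T (upper ctr) = lower q)
    (hA' : ∀ x : Disc 2, ∃ y : Disc 2, T.symm (upper x) = lower y)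
    {q' : Disc 2} (hq' : ‖q'.1‖ < 1) (hB' : T.symm (upper ctr) = lower q') :
    ∃ m : ℤ, (m = 1 ∨ m = -1) ∧ ∀ (G : Type) [Group G] (Ψ : Disc 2 → BG G),
      ContinuousOn Ψ {v | v ≠ q} → ∀ g : G, HasHol (fun t => Ψ (circ t)) g →
        HasHol (fun t => Ψ (bl T t)) (g ^ m) := by
  classical
  obtain ⟨R, H, hR, hH, hR1, hR2, hH0, hH1, hHq⟩ := radial q hq
  obtain ⟨R', H', hR', hH', hR1', hR2', hH0', hH1', hHq'⟩ := radial q' hq'
  obtain ⟨a, m, ha, hc, hm⟩ := exists_deg (η := fun t => R ⟨bl T t, bl_ne hA hB t⟩)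
    (hR.comp (Continuous.subtype_mk (bl_continuous T) _)) (fun t => hR1 _)
    (fun t => congrArg R (Subtype.ext (by simp only [bl, circ_add_one])))
  obtain ⟨a', m', ha', hc', hm'⟩ := exists_deg (η := fun t => R' ⟨bl T.symm t, bl_ne hA' hB' t⟩)
    (hR'.comp (Continuous.subtype_mk (bl_continuous T.symm) _)) (fun t => hR1' _)
    (fun t => congrArg R' (Subtype.ext (by simp only [bl, circ_add_one])))
  refine ⟨m, ?_, fun G _ Ψ hΨ g hg => half hA hB hH hH0 hH1 hHq ha hc hm hΨ hg⟩
  obtain ⟨f, hf, hper, hf1⟩ := exists_unit_loop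
  obtain ⟨F, hF, hFf⟩ := radial_ext hf hper
  have hFc : ∀ t, F (circ t) = f t := fun t => by
    rw [← pol_one, hFf 1 t zero_lt_one le_rfl]
  -- the function on the sphere without two points
  let F' : Disc 2 → BG (Multiplicative ℤ) := fun v => if h : v ≠ q then F (R ⟨v, h⟩) else f 0
  have hne : ∀ x : Disc 2, ‖x.1‖ = 1 → x ≠ ctr := by
    rintro x hx rfl
    rw [ctr_norm] at hx
    exact zero_ne_one hx
  have hF'c : ContinuousOn F' {v | v ≠ q} := by
    rw [continuousOn_iff_continuous_domRestrict]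
    have h1 : Continuous fun v : {v : Disc 2 // v ≠ q} => F (R v) :=
      hF.comp_continuous hR (fun v => hne _ (hR1 v))
    refine h1.congr (fun x => ?_)
    have hx : x.1 ≠ q := x.2
    simp only [F', domRestrict_apply, dif_pos hx]
  have hF'1 : ∀ x : Disc 2, ‖x.1‖ = 1 → F' x = F x := by
    intro x hx
    have h4 : x ≠ q := by
      rintro rfl
      exact absurd hx hq.ne
    have h5 : F' x = F (R ⟨x, h4⟩) := dif_pos h4
    rw [h5, hR2 ⟨x, h4⟩ hx]
  have hF'2 : ∀ (x : Disc 2) (h : x ≠ q), F' x = F (R ⟨x, h⟩) := fun x h => dif_pos h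
  let Z : Disc 3 → BG (Multiplicative ℤ) := fun z =>
    if (0 : ℝ) ≤ z.1 (Fin.last 2) then F (proj z) else F' (proj z)
  let Ψ : Disc 2 → BG (Multiplicative ℤ) := fun v => Z (T (lower v))
  have hTl : ∀ v : Disc 2, ‖(T (lower v)).1‖ = 1 := fun v => (hT _).2 (lower_norm v)
  have hΨ : ContinuousOn Ψ {v | v ≠ q'} := by
    rw [continuousOn_iff_continuous_domRestrict]
    have hc1 : Continuous fun v : {v : Disc 2 // v ≠ q'} => T (lower v.1) :=
      T.continuous.comp (lower_continuous.comp continuous_subtype_val)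
    have hlast : Continuous fun z : Disc 3 => z.1 (Fin.last 2) :=
      (EuclideanSpace.proj (𝕜 := ℝ) (Fin.last 2)).continuous.comp continuous_subtype_val
    have h1 : Continuous fun v : {v : Disc 2 // v ≠ q'} =>
        if (0 : ℝ) ≤ (T (lower v.1)).1 (Fin.last 2) then F (proj (T (lower v.1)))
          else F' (proj (T (lower v.1))) := by
      apply continuous_if_le continuous_const (hlast.comp hc1)
      · apply hF.comp (proj_continuous.comp hc1).continuousOn
        intro v hv hv2
        have h2 := eq_upper (hTl v.1) hv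
        have h3 : proj (T (lower v.1)) = ctr := hv2
        rw [h3, ← T.apply_symm_apply (upper ctr), hB'] at h2
        exact v.2 (lower_inj (T.injective h2))
      · apply hF'c.comp (proj_continuous.comp hc1).continuousOn
        intro v hv hv2
        have h2 := eq_lower (hTl v.1) hv
        have h3 : proj (T (lower v.1)) = q := hv2
        rw [h3, ← hB] at h2
        exact lower_ne_top _ (T.injective h2)
      · intro v hv
        have hv0 : (T (lower v.1)).1 (Fin.last 2) = 0 := hv.symm
        have h2 : ‖(proj (T (lower v.1))).1‖ = 1 := by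
          have h3 := proj_norm (T (lower v.1))
          rw [hTl, hv0] at h3
          nlinarith [norm_nonneg (proj (T (lower v.1))).1]
        exact (hF'1 _ h2).symm
    exact h1
  have hg : HasHol (fun t => Ψ (circ t)) (Multiplicative.ofAdd 1 ^ m) := by
    refine (hf1.reparam ha m hm).congr (fun t => ?_)
    have h1 : T (lower (circ t)) = lower (bl T t) := by
      rw [← upper_eq_lower (circ_norm t)]
      exact (bl_lower hA _).symm
    have h2 : bl T t ≠ q := bl_ne hA hB t
    show f (a t) = Z (T (lower (circ t)))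
    rw [h1]
    simp only [Z, proj_lower, lower_last]
    split_ifs with h3
    · have h4 : ‖(bl T t).1‖ = 1 := by
        have h5 := Real.sqrt_nonneg (1 - ‖(bl T t).1‖ ^ 2)
        have h6 : √(1 - ‖(bl T t).1‖ ^ 2) = 0 := by linarith
        rw [Real.sqrt_eq_zero (one_sub_nonneg _)] at h6
        nlinarith [norm_nonneg (bl T t).1]
      rw [← hFc, hc, hR2 ⟨_, h2⟩ h4]
    · rw [hF'2 _ h2, ← hFc, hc]
  have hh := half hA' hB' hH' hH0' hH1' hHq' ha' hc' hm' hΨ hg
  have h1 : HasHol (fun t => Ψ (bl T.symm t)) (Multiplicative.ofAdd 1) := by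
    refine hf1.congr (fun t => ?_)
    show f t = Z (T (lower (bl T.symm t)))
    have h2 : lower (bl T.symm t) = T.symm (upper (circ t)) := bl_lower hA' _
    rw [h2, T.apply_symm_apply]
    have h3 : (0 : ℝ) ≤ (upper (circ t)).1 (Fin.last 2) := by
      rw [upper_last]
      exact Real.sqrt_nonneg _
    simp only [Z, if_pos h3, proj_upper, hFc]
  have h2 := hasHol_abelian hh h1
  rw [← zpow_mul, ← ofAdd_zsmul] at h2
  have h3 : m * m' = 1 := by
    have := Multiplicative.ofAdd.injective h2
    simpa using this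
  exact Int.eq_one_or_neg_one_of_mul_eq_one h3

end Pool.Agent.Run7.h41.Top
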