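import Pool.Agent.Run7.h41.TwoFace

/-!
# The words of the two-cells of a finite CW complex
-/

set_option autoImplicit false

namespace Pool.Agent.Run7.h41.Top

open Set Pool.Agent.Run7.h41.CW

/-- Continuity on a finite union of images of compact spaces. -/
theorem glue {ι : Type} [Finite ι] {C : ι → Type} [∀ i, TopologicalSpace (C i)]
    [∀ i, CompactSpace (C i)] {X Y : Type} [TopologicalSpace X] [T2Space X] [TopologicalSpace Y]
    (χ : ∀ i, C i → X) (hχ : ∀ i, Continuous (χ i)) (F : X → Y)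
    (hF : ∀ i, Continuous (fun x => F (χ i x))) : ContinuousOn F (⋃ i, range (χ i)) := by
  rw [continuousOn_iff_isClosed]
  intro t ht
  refine ⟨⋃ i, χ i '' ((fun x => F (χ i x)) ⁻¹' t), ?_, ?_⟩
  · apply isClosed_iUnion_of_finite
    intro i
    exact ((ht.preimage (hF i)).isCompact.image (hχ i)).isClosed
  · ext p
    constructor
    · rintro ⟨h1, h2⟩
      obtain ⟨i, x, rfl⟩ := mem_iUnion.1 h2
      exact ⟨mem_iUnion.2 ⟨i, x, h1, rfl⟩, h2⟩
    · rintro ⟨h1, h2⟩
      obtain ⟨i, x, hx, rfl⟩ := mem_iUnion.1 h1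
      exact ⟨hx, h2⟩

instance discCompact (n : ℕ) : CompactSpace (Disc n) :=
  isCompact_iff_compactSpace.1 (isCompact_closedBall _ _)

/-- the open cell of a point and its coordinate -/
noncomputable def rep (K : FinCW) (p : K.X) : Σ n, K.cell n × Disc n := (K.partition p).choose

theorem rep_norm (K : FinCW) (p : K.X) : ‖(rep K p).2.2.1‖ < 1 := (K.partition p).choose_spec.1.1

theorem rep_χ (K : FinCW) (p : K.X) : K.χ (rep K p).2.1 (rep K p).2.2 = p :=
  (K.partition p).choose_spec.1.2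

theorem rep_unique {K : FinCW} {n : ℕ} (c : K.cell n) {x : Disc n} (hx : ‖x.1‖ < 1) :
    rep K (K.χ c x) = ⟨n, c, x⟩ :=
  ((K.partition (K.χ c x)).choose_spec.2 ⟨n, c, x⟩ ⟨hx, rfl⟩).symm

theorem rep_boundary {K : FinCW} {n : ℕ} (c : K.cell n) {x : Disc n} (hx : ‖x.1‖ = 1) :
    (rep K (K.χ c x)).1 < n := by
  obtain ⟨m, hm, c', y, hy, h⟩ := K.boundary c x hx
  rw [← h, rep_unique c' hy]
  exact hm

theorem rep_le {K : FinCW} {n : ℕ} (c : K.cell n) (x : Disc n) : (rep K (K.χ c x)).1 ≤ n := by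
  rcases x.norm_le.lt_or_eq with h | h
  · rw [rep_unique c h]
  · exact (rep_boundary c h).le

theorem Emb.rep_f {K K' : FinCW} (i : Emb K K') (p : K.X) :
    rep K' (i.f p) = ⟨(rep K p).1, i.c (rep K p).2.1, (rep K p).2.2⟩ := by
  have h1 : i.f p = K'.χ (i.c (rep K p).2.1) (rep K p).2.2 := by
    rw [← i.comm, rep_χ]
  rw [h1]
  exact rep_unique _ (rep_norm K p)

theorem Emb.c_injective {K K' : FinCW} (i : Emb K K') {n : ℕ} :
    Function.Injective (i.c : K.cell n → K'.cell n) := by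
  intro a b hab
  let o : Disc n := ⟨0, by simp⟩
  have ho : ‖o.1‖ < 1 := by simp [o]
  have h1 : i.f (K.χ a o) = i.f (K.χ b o) := by rw [i.comm, i.comm, hab]
  have h2 := i.injective h1
  have h3 := congrArg (rep K) h2
  rw [rep_unique a ho, rep_unique b ho] at h3
  simpa using h3

/-- the labelling of the one-cells by the generators of a free group -/
noncomputable def thAux (K : FinCW) : (Σ n, K.cell n × Disc n) → BG (FreeGroup (K.cell 1))
  | ⟨1, a, x⟩ => pr _ (gp (FreeGroup.of a) ((x.1 0 + 1) / 2))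
  | _ => pr _ e0

/-- the labelling of the one-cells by the generators of a free group -/
noncomputable def th (K : FinCW) (p : K.X) : BG (FreeGroup (K.cell 1)) := thAux K (rep K p)

theorem disc1_norm (x : Disc 1) : ‖x.1‖ = |x.1 0| := by
  have h1 := EuclideanSpace.norm_sq_eq x.1
  simp only [Fin.sum_univ_one, Real.norm_eq_abs, sq_abs] at h1
  rw [← abs_of_nonneg (norm_nonneg x.1)]
  exact (sq_eq_sq_iff_abs_eq_abs _ _).1 h1

theorem thAux_zero (K : FinCW) {q : Σ n, K.cell n × Disc n} (h : q.1 < 1) :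
    thAux K q = pr _ e0 := by
  obtain ⟨n, c, x⟩ := q
  have : n = 0 := by simpa using h
  subst this
  rfl

theorem th_one {K : FinCW} (a : K.cell 1) (x : Disc 1) :
    th K (K.χ a x) = pr _ (gp (FreeGroup.of a) ((x.1 0 + 1) / 2)) := by
  rcases x.norm_le.lt_or_eq with h | h
  · rw [th, rep_unique a h]
    rfl
  · have h1 : th K (K.χ a x) = pr _ e0 := thAux_zero K (rep_boundary a h)
    rw [h1]
    rw [disc1_norm] at h
    rcases eq_or_eq_neg_of_abs_eq h with h2 | h2
    · rw [h2]
      norm_num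
      rw [gp_one, pr_smul]
    · rw [h2]
      norm_num
      rw [gp_zero]

theorem th_zero {K : FinCW} (v : K.cell 0) (x : Disc 0) : th K (K.χ v x) = pr _ e0 := by
  apply thAux_zero
  have := rep_le v x
  omega

/-- the union of the open cells of dimension at most one and the open two-cells in `S` -/
def sk (K : FinCW) (S : Set (K.cell 2)) : Set K.X :=
  {p | (rep K p).1 < 2 ∨ ∃ c ∈ S, ∃ x : Disc 2, ‖x.1‖ < 1 ∧ K.χ c x = p}

theorem sk_mono (K : FinCW) {S S' : Set (K.cell 2)} (h : S ⊆ S') : sk K S ⊆ sk K S' := by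
  rintro p (h1 | ⟨c, hc, x, hx, rfl⟩)
  · exact Or.inl h1
  · exact Or.inr ⟨c, h hc, x, hx, rfl⟩

theorem sk_glue {K : FinCW} {S : Set (K.cell 2)} {Y : Type} [TopologicalSpace Y] (F : K.X → Y)
    (h0 : ∀ v : K.cell 0, Continuous fun x => F (K.χ v x))
    (h1 : ∀ a : K.cell 1, Continuous fun x => F (K.χ a x))
    (h2 : ∀ c ∈ S, Continuous fun x => F (K.χ c x)) : ContinuousOn F (sk K S) := by
  have := K.finite_cell
  let ι := {q : Σ n, K.cell n // q.1 < 2 ∨ ∃ c ∈ S, q = ⟨2, c⟩}
  have h3 := glue (ι := ι) (C := fun i => Disc i.1.1) (fun i => K.χ i.1.2)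
    (fun i => K.continuous_χ i.1.2) F (by
      rintro ⟨⟨n, c⟩, hi⟩
      rcases hi with h | ⟨c', hc', h⟩
      · simp only at h
        interval_cases n
        · exact h0 c
        · exact h1 c
      · cases h
        exact h2 _ hc')
  apply h3.mono
  rintro p (h | ⟨c, hc, x, hx, rfl⟩)
  · refine mem_iUnion.2 ⟨⟨⟨(rep K p).1, (rep K p).2.1⟩, Or.inl h⟩, (rep K p).2.2, rep_χ K p⟩
  · exact mem_iUnion.2 ⟨⟨⟨2, c⟩, Or.inr ⟨c, hc, rfl⟩⟩, x, rfl⟩

theorem th_continuousOn (K : FinCW) : ContinuousOn (th K) (sk K ∅) := by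
  apply sk_glue
  · intro v
    simp only [th_zero]
    exact continuous_const
  · intro a
    simp only [th_one]
    apply pr_continuous.comp
    apply (gp_continuous _).comp
    have : Continuous fun x : Disc 1 => x.1 0 :=
      (EuclideanSpace.proj (𝕜 := ℝ) (0 : Fin 1)).continuous.comp continuous_subtype_val
    fun_prop
  · intro c hc
    exact absurd hc (notMem_empty c)

theorem sk_boundary {K : FinCW} (c : K.cell 2) {x : Disc 2} (hx : ‖x.1‖ = 1) (S : Set (K.cell 2)) :
    K.χ c x ∈ sk K S := Or.inl (rep_boundary c hx)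

/-- `w` is a word of the two-cell `c` -/
def Word (K : FinCW) (c : K.cell 2) (w : FreeGroup (K.cell 1)) : Prop :=
  HasHol (fun t => th K (K.χ c (circ t))) w

theorem bd_continuous {K : FinCW} (c : K.cell 2) :
    Continuous fun t => th K (K.χ c (circ t)) :=
  (th_continuousOn K).comp_continuous ((K.continuous_χ c).comp circ_continuous)
    (fun t => sk_boundary c (circ_norm t) _)

theorem exists_word {K : FinCW} (c : K.cell 2) : ∃ w, Word K c w :=
  exists_hol (bd_continuous c) (fun t => by simp only [circ_add_one])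

theorem Emb.th_f {K K' : FinCW} (i : Emb K K') (p : K.X) :
    th K' (i.f p) = Bmap (FreeGroup.map i.c) (th K p) := by
  unfold th
  rw [Emb.rep_f]
  generalize rep K p = q
  obtain ⟨n, c, x⟩ := q
  match n, c with
  | 0, c => exact congrArg _ (Emap_e0 _).symm
  | 1, c =>
    show pr _ (gp (FreeGroup.of (i.c c)) ((x.1 0 + 1) / 2)) =
      pr _ (Emap (FreeGroup.map i.c) (gp (FreeGroup.of c) ((x.1 0 + 1) / 2)))
    rw [Emap_gp, FreeGroup.map.of]
  | n + 2, c => exact congrArg _ (Emap_e0 _).symm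

theorem Word.map {K K' : FinCW} (i : Emb K K') {c : K.cell 2} {w : FreeGroup (K.cell 1)}
    (h : Word K c w) : Word K' (i.c c) (FreeGroup.map i.c w) := by
  refine (HasHol.map (FreeGroup.map i.c) h).congr (fun t => ?_)
  rw [← Emb.th_f, i.comm]

/-- extension over two-cells -/
theorem extend_cells {K : FinCW} {Q : Type} [Group Q] (φ : FreeGroup (K.cell 1) →* Q)
    {w : K.cell 2 → FreeGroup (K.cell 1)} (hw : ∀ c, Word K c (w c)) (S : Set (K.cell 2))
    (hS : ∀ c ∈ S, φ (w c) = 1) : ∃ Θ : K.X → BG Q, (∀ p, (rep K p).1 < 2 → Θ p = Bmap φ (th K p)) ∧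
      ContinuousOn Θ (sk K S) := by
  classical
  have h1 : ∀ c : K.cell 2, ∃ F : Disc 2 → BG Q, c ∈ S → (Continuous F ∧
      ∀ t, F (circ t) = Bmap φ (th K (K.χ c (circ t)))) := by
    intro c
    by_cases hc : c ∈ S
    · have h2 := HasHol.map φ (hw c)
      rw [hS c hc] at h2
      obtain ⟨F, hF, hF2⟩ := h2.extend
      exact ⟨F, fun _ => ⟨hF, hF2⟩⟩
    · exact ⟨fun _ => pr _ e0, fun h => absurd h hc⟩
  choose F hF using h1
  let Θ : K.X → BG Q := fun p =>
    match rep K p with
    | ⟨2, c, x⟩ => if c ∈ S then F c x else Bmap φ (th K p)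
    | _ => Bmap φ (th K p)
  have hΘ1 : ∀ p, (rep K p).1 < 2 → Θ p = Bmap φ (th K p) := by
    intro p hp
    simp only [Θ]
    generalize rep K p = q at hp
    obtain ⟨n, c, x⟩ := q
    simp only at hp
    interval_cases n <;> rfl
  have hΘ2 : ∀ c ∈ S, ∀ x : Disc 2, Θ (K.χ c x) = F c x := by
    intro c hc x
    rcases x.norm_le.lt_or_eq with h | h
    · simp only [Θ]
      rw [rep_unique c h]
      simp only [if_pos hc]
    · rw [hΘ1 _ (rep_boundary c h)]
      obtain ⟨t, -, -, rfl⟩ := circ_surj h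
      exact ((hF c hc).2 t).symm
  refine ⟨Θ, hΘ1, sk_glue Θ ?_ ?_ ?_⟩
  · intro v
    have : (fun x => Θ (K.χ v x)) = fun x => Bmap φ (th K (K.χ v x)) := by
      funext x
      exact hΘ1 _ (lt_of_le_of_lt (rep_le v x) (by norm_num))
    rw [this]
    simp only [th_zero]
    exact continuous_const
  · intro a
    have : (fun x => Θ (K.χ a x)) = fun x => Bmap φ (th K (K.χ a x)) := by
      funext x
      exact hΘ1 _ (lt_of_le_of_lt (rep_le a x) (by norm_num))
    rw [this]
    apply (Bmap_continuous φ).comp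
    exact (th_continuousOn K).comp_continuous (K.continuous_χ a)
      (fun x => Or.inl (lt_of_le_of_lt (rep_le a x) (by norm_num)))
  · intro c hc
    have : (fun x => Θ (K.χ c x)) = F c := funext (hΘ2 c hc)
    rw [this]
    exact (hF c hc).1

end Pool.Agent.Run7.h41.Top
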